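import Pool.Agent.Lib.MP_a768d2_co.Dz

/-! # Bogolyubov's lemma for dense subsets of a box in the plane (job Bog) -/

namespace Pool.Agent.Lib.MP_a768d2_co

noncomputable section

/-- the characters -/
private def Bog_ch (N : ℕ) (ξ : ℕ × ℕ) (x : ℤ × ℤ) : ℂ :=
  ee (((ξ.1 : ℝ) * x.1 + (ξ.2 : ℝ) * x.2) / N)

private theorem Bog_ch_add (N : ℕ) (ξ : ℕ × ℕ) (x y : ℤ × ℤ) :
    Bog_ch N ξ (x + y) = Bog_ch N ξ x * Bog_ch N ξ y := by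
  unfold Bog_ch
  rw [← ee_add, Prod.fst_add, Prod.snd_add]
  congr 1
  push_cast
  ring

private theorem Bog_ch_neg (N : ℕ) (ξ : ℕ × ℕ) (x : ℤ × ℤ) :
    Bog_ch N ξ (-x) = (starRingEnd ℂ) (Bog_ch N ξ x) := by
  unfold Bog_ch
  rw [← ee_neg, Prod.fst_neg, Prod.snd_neg]
  congr 1
  push_cast
  ring

private theorem Bog_orth {N : ℕ} (hN : 0 < N) (z : ℤ × ℤ) :
    ∑ ξ ∈ (Finset.range N ×ˢ Finset.range N), Bog_ch N ξ z =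
      if (N : ℤ) ∣ z.1 ∧ (N : ℤ) ∣ z.2 then (N : ℂ) ^ 2 else 0 := by
  have h : ∀ ξ : ℕ × ℕ, Bog_ch N ξ z =
      ee ((ξ.1 : ℝ) * z.1 / N) * ee ((ξ.2 : ℝ) * z.2 / N) := fun ξ => by
    unfold Bog_ch
    rw [← ee_add, add_div]
  simp only [h]
  rw [Finset.sum_product]
  simp only [← Finset.mul_sum]
  rw [← Finset.sum_mul, sum_ee_div hN, sum_ee_div hN]
  by_cases h1 : (N : ℤ) ∣ z.1 <;> by_cases h2 : (N : ℤ) ∣ z.2 <;> simp [h1, h2, sq]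

private theorem Bog_sq (N : ℕ) (ξ : ℕ × ℕ) (E : Finset (ℤ × ℤ)) :
    ((‖∑ x ∈ E, Bog_ch N ξ x‖ ^ 2 : ℝ) : ℂ) = ∑ p ∈ E ×ˢ E, Bog_ch N ξ (p.1 - p.2) := by
  rw [Complex.ofReal_pow, ← Complex.mul_conj', map_sum, Finset.sum_mul_sum, Finset.sum_product]
  refine Finset.sum_congr rfl fun x _ => Finset.sum_congr rfl fun y _ => ?_
  rw [sub_eq_add_neg, Bog_ch_add, Bog_ch_neg]

private theorem Bog_box {k : ℕ} {x : ℤ × ℤ} (h : x ∈ box k) :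
    (0 ≤ x.1 ∧ x.1 < k) ∧ (0 ≤ x.2 ∧ x.2 < k) := by
  unfold box at h
  rw [Finset.mem_product, Finset.mem_Ico, Finset.mem_Ico] at h
  exact h

/-- Parseval in `(Z/N)²`: `f ξ = ∑_{x∈E} e(ξ·x/N)`, `∑_ξ |f ξ|² = N² |E|` if the points of `E` are pairwise
incongruent mod `N`, which holds for `E ⊆ box k`, `k ≤ N`. -/
theorem parseval {k N : ℕ} (hk : k ≤ N) (hN : 0 < N) (E : Finset (ℤ × ℤ)) (hE : E ⊆ box k) :
    ∑ ξ ∈ (Finset.range N ×ˢ Finset.range N),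
      ‖∑ x ∈ E, ee (((ξ.1 : ℝ) * x.1 + (ξ.2 : ℝ) * x.2) / N)‖ ^ 2 = (N : ℝ) ^ 2 * E.card := by
  have h1 : (((∑ ξ ∈ (Finset.range N ×ˢ Finset.range N),
      ‖∑ x ∈ E, Bog_ch N ξ x‖ ^ 2 : ℝ)) : ℂ) = (((N : ℝ) ^ 2 * E.card : ℝ) : ℂ) := by
    rw [Complex.ofReal_sum]
    simp only [Bog_sq]
    rw [Finset.sum_comm]
    simp only [Bog_orth hN]
    rw [Finset.sum_product]
    have h2 : ∀ x ∈ E, ∑ y ∈ E, (if (N : ℤ) ∣ (x - y).1 ∧ (N : ℤ) ∣ (x - y).2 then (N : ℂ) ^ 2 else 0) =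
        (N : ℂ) ^ 2 := by
      intro x hx
      rw [Finset.sum_eq_single x]
      · simp
      · intro y hy hyx
        rw [if_neg]
        rintro ⟨h3, h4⟩
        apply hyx
        have hbx := Bog_box (hE hx)
        have hby := Bog_box (hE hy)
        have hkN : (k : ℤ) ≤ N := by exact_mod_cast hk
        rw [Prod.fst_sub] at h3
        rw [Prod.snd_sub] at h4
        have h5 := Int.eq_zero_of_abs_lt_dvd h3 (abs_lt.2 ⟨by linarith, by linarith⟩)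
        have h6 := Int.eq_zero_of_abs_lt_dvd h4 (abs_lt.2 ⟨by linarith, by linarith⟩)
        exact Prod.ext (by linarith) (by linarith)
      · intro h
        exact absurd hx h
    rw [Finset.sum_congr rfl h2, Finset.sum_const, nsmul_eq_mul]
    push_cast
    ring
  have h3 := Complex.ofReal_injective h1
  exact h3

/-- If `∑_ξ |f ξ|⁴ e(-ξ·v/N) ≠ 0`, then `v ≡ x1 + x2 - x3 - x4 mod N` for some `x_i ∈ E`; for `N = 4k` and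
`nz v ≤ k` the congruence is an equality. -/
theorem exists_rep {k : ℕ} (hk : 1 ≤ k) (E : Finset (ℤ × ℤ)) (hE : E ⊆ box k) (v : ℤ × ℤ)
    (hv : nz v ≤ k)
    (h : ∑ ξ ∈ (Finset.range (4 * k) ×ˢ Finset.range (4 * k)),
      ((‖∑ x ∈ E, ee (((ξ.1 : ℝ) * x.1 + (ξ.2 : ℝ) * x.2) / (4 * k : ℕ))‖ ^ 4 : ℝ) : ℂ) *
        ee (-(((ξ.1 : ℝ) * v.1 + (ξ.2 : ℝ) * v.2) / (4 * k : ℕ))) ≠ 0) :
    ∃ x1 ∈ E, ∃ x2 ∈ E, ∃ x3 ∈ E, ∃ x4 ∈ E, v = x1 + x2 - x3 - x4 := by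
  by_contra hno
  push Not at hno
  apply h
  have hN : 0 < 4 * k := by omega
  have h1 : ∀ ξ : ℕ × ℕ, ((‖∑ x ∈ E, ee (((ξ.1 : ℝ) * x.1 + (ξ.2 : ℝ) * x.2) / (4 * k : ℕ))‖ ^ 4 : ℝ) : ℂ) *
        ee (-(((ξ.1 : ℝ) * v.1 + (ξ.2 : ℝ) * v.2) / (4 * k : ℕ))) =
      ∑ p ∈ E ×ˢ E, ∑ q ∈ E ×ˢ E, Bog_ch (4 * k) ξ (p.1 - p.2 + (q.1 - q.2) + -v) := by
    intro ξ
    have e1 : ee (-(((ξ.1 : ℝ) * v.1 + (ξ.2 : ℝ) * v.2) / (4 * k : ℕ))) = Bog_ch (4 * k) ξ (-v) := by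
      rw [Bog_ch_neg, ee_neg]
      rfl
    have e2 : ((‖∑ x ∈ E, ee (((ξ.1 : ℝ) * x.1 + (ξ.2 : ℝ) * x.2) / (4 * k : ℕ))‖ ^ 4 : ℝ) : ℂ) =
        ((‖∑ x ∈ E, Bog_ch (4 * k) ξ x‖ ^ 2 : ℝ) : ℂ) * ((‖∑ x ∈ E, Bog_ch (4 * k) ξ x‖ ^ 2 : ℝ) : ℂ) := by
      rw [← Complex.ofReal_mul]
      congr 1
      show ‖∑ x ∈ E, Bog_ch (4 * k) ξ x‖ ^ 4 = _
      ring
    rw [e1, e2, Bog_sq, Finset.sum_mul_sum, Finset.sum_mul]
    refine Finset.sum_congr rfl fun p _ => ?_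
    rw [Finset.sum_mul]
    refine Finset.sum_congr rfl fun q _ => ?_
    rw [Bog_ch_add, Bog_ch_add]
  simp only [h1]
  rw [Finset.sum_comm]
  refine Finset.sum_eq_zero fun p hp => ?_
  rw [Finset.sum_comm]
  refine Finset.sum_eq_zero fun q hq => ?_
  rw [Bog_orth hN, if_neg]
  rintro ⟨h3, h4⟩
  rw [Finset.mem_product] at hp hq
  have hp1 := Bog_box (hE hp.1)
  have hp2 := Bog_box (hE hp.2)
  have hq1 := Bog_box (hE hq.1)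
  have hq2 := Bog_box (hE hq.2)
  have hv1 : |v.1| ≤ k := (le_max_left _ _).trans hv
  have hv2 : |v.2| ≤ k := (le_max_right _ _).trans hv
  rw [abs_le] at hv1 hv2
  have hk' : (1 : ℤ) ≤ k := by exact_mod_cast hk
  simp only [Prod.fst_add, Prod.fst_sub, Prod.fst_neg, Prod.snd_add, Prod.snd_sub,
    Prod.snd_neg] at h3 h4
  have h5 := Int.eq_zero_of_abs_lt_dvd h3 (by
    push_cast
    exact abs_lt.2 ⟨by linarith, by linarith⟩)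
  have h6 := Int.eq_zero_of_abs_lt_dvd h4 (by
    push_cast
    exact abs_lt.2 ⟨by linarith, by linarith⟩)
  apply hno p.1 hp.1 q.1 hq.1 p.2 hp.2 q.2 hq.2
  apply Prod.ext
  · simp only [Prod.fst_add, Prod.fst_sub]
    linarith
  · simp only [Prod.snd_add, Prod.snd_sub]
    linarith

/-- BOGOLYUBOV.  Proof: `N = 4k`, `τ² = κ/64`, `Spec = {ξ : |f ξ| ≥ τ |E|}`.  By `parseval`
`|Spec| τ² |E|² ≤ N² |E|`, so `|Spec| ≤ 16·64/κ²`; the `θ_i` are the `ξ/N`, `ξ ∈ Spec` (repeated to get exactly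
`D = ⌈1024/κ²⌉₊ + 1` of them; `0 ∈ Spec` if `κ ≤ 64`; for larger `κ` there is no `E`, as `|E| ≤ k²`).  If
`dz (θ_i·v) ≤ 1/8` for all `i` then by `half_le_re_ee` the real part of the sum in `exists_rep` is at
least `|E|⁴/2 - τ² |E|² N² |E| ≥ |E|⁴/2 - (κ/4) k² |E|³ ≥ |E|⁴/4 > 0`. -/
theorem bog (κ : ℝ) (hκ : 0 < κ) : ∃ D : ℕ, ∀ k : ℕ, 1 ≤ k → ∀ E : Finset (ℤ × ℤ), E ⊆ box k →
    κ * (k : ℝ) ^ 2 ≤ E.card → ∃ θ : Fin D → ℝ × ℝ, ∀ v : ℤ × ℤ, nz v ≤ k →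
      (∀ i, dz ((θ i).1 * v.1 + (θ i).2 * v.2) ≤ 1 / 8) →
      ∃ x1 ∈ E, ∃ x2 ∈ E, ∃ x3 ∈ E, ∃ x4 ∈ E, v = x1 + x2 - x3 - x4 := by
  classical
  refine ⟨⌈1024 / κ ^ 2⌉₊ + 1, fun k hk E hE hcard => ?_⟩
  have hk1 : (1 : ℝ) ≤ k := by exact_mod_cast hk
  have hk2 : (1 : ℝ) ≤ (k : ℝ) ^ 2 := by nlinarith
  have hE0 : (0 : ℝ) < E.card := lt_of_lt_of_le (by positivity) hcard
  have hN : 0 < 4 * k := by omega
  have hcard2 : (E.card : ℝ) ≤ (k : ℝ) ^ 2 := by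
    have h1 := Finset.card_le_card hE
    have h2 : (box k).card = k ^ 2 := by
      unfold box
      rw [Finset.card_product, Int.card_Ico]
      simp [sq]
    rw [h2] at h1
    exact_mod_cast h1
  have hκ1 : κ ≤ 1 := by
    by_contra h
    push Not at h
    nlinarith
  obtain ⟨f, hf⟩ : ∃ f : ℕ × ℕ → ℂ, f = fun ξ => ∑ x ∈ E, Bog_ch (4 * k) ξ x := ⟨_, rfl⟩
  have hpars : ∑ ξ ∈ (Finset.range (4 * k) ×ˢ Finset.range (4 * k)), ‖f ξ‖ ^ 2 =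
      16 * (k : ℝ) ^ 2 * E.card := by
    have h1 := parseval (k := k) (N := 4 * k) (by omega) hN E hE
    have h2 : ((4 * k : ℕ) : ℝ) ^ 2 = 16 * (k : ℝ) ^ 2 := by
      push_cast
      ring
    rw [h2] at h1
    rw [← h1, hf]
    rfl
  have hf0 : f (0, 0) = (E.card : ℂ) := by
    rw [hf]
    show ∑ x ∈ E, ee (((((0 : ℕ) : ℝ)) * x.1 + (((0 : ℕ) : ℝ)) * x.2) / ((4 * k : ℕ) : ℝ)) = _
    have h1 : ∀ x ∈ E, ee (((((0 : ℕ) : ℝ)) * x.1 + (((0 : ℕ) : ℝ)) * x.2) / ((4 * k : ℕ) : ℝ)) = 1 := by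
      intro x _
      rw [Nat.cast_zero, zero_mul, zero_mul, add_zero, zero_div, ee_zero]
    rw [Finset.sum_congr rfl h1]
    simp
  obtain ⟨S, hS⟩ : ∃ S : Finset (ℕ × ℕ), S = (Finset.range (4 * k) ×ˢ Finset.range (4 * k)).filter
      (fun ξ => κ / 64 * (E.card : ℝ) ^ 2 ≤ ‖f ξ‖ ^ 2) := ⟨_, rfl⟩
  have hScard : S.card ≤ ⌈1024 / κ ^ 2⌉₊ + 1 := by
    have h1 : (S.card : ℝ) * (κ / 64 * (E.card : ℝ) ^ 2) ≤ 16 * (k : ℝ) ^ 2 * E.card := by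
      rw [← hpars]
      calc (S.card : ℝ) * (κ / 64 * (E.card : ℝ) ^ 2) = ∑ _ξ ∈ S, (κ / 64 * (E.card : ℝ) ^ 2) := by
            rw [Finset.sum_const, nsmul_eq_mul]
        _ ≤ ∑ ξ ∈ S, ‖f ξ‖ ^ 2 := by
            refine Finset.sum_le_sum fun ξ hξ => ?_
            rw [hS, Finset.mem_filter] at hξ
            exact hξ.2
        _ ≤ _ := by
            rw [hS]
            exact Finset.sum_le_sum_of_subset_of_nonneg (Finset.filter_subset _ _)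
              fun _ _ _ => by positivity
    have h2 : (S.card : ℝ) ≤ 1024 / κ ^ 2 := by
      rw [le_div_iff₀ (by positivity)]
      have h3 : (S.card : ℝ) * (κ / 64) * E.card ≤ 16 * (k : ℝ) ^ 2 := by
        have h4 : ((S.card : ℝ) * (κ / 64) * E.card) * E.card ≤ 16 * (k : ℝ) ^ 2 * E.card := by
          calc _ = (S.card : ℝ) * (κ / 64 * (E.card : ℝ) ^ 2) := by ring
            _ ≤ _ := h1
        exact le_of_mul_le_mul_right h4 hE0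
      have h5 : (S.card : ℝ) * (κ / 64) * (κ * (k : ℝ) ^ 2) ≤ 16 * (k : ℝ) ^ 2 :=
        (mul_le_mul_of_nonneg_left hcard (by positivity)).trans h3
      have h6 : ((S.card : ℝ) * κ ^ 2) * (k : ℝ) ^ 2 ≤ 1024 * (k : ℝ) ^ 2 := by linarith
      exact le_of_mul_le_mul_right h6 (by positivity)
    have h7 : (S.card : ℝ) ≤ ((⌈1024 / κ ^ 2⌉₊ + 1 : ℕ) : ℝ) := by
      push_cast
      have := Nat.le_ceil (1024 / κ ^ 2)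
      linarith
    exact_mod_cast h7
  -- the frequencies
  refine ⟨fun i => if h : (i : ℕ) < S.card then
    ((((S.equivFin.symm ⟨i, h⟩ : S) : ℕ × ℕ).1 : ℝ) / ((4 * k : ℕ) : ℝ),
      (((S.equivFin.symm ⟨i, h⟩ : S) : ℕ × ℕ).2 : ℝ) / ((4 * k : ℕ) : ℝ)) else (0, 0), ?_⟩
  intro v hv hθ
  have hS1 : ∀ ξ ∈ S, dz (((ξ.1 : ℝ) * v.1 + (ξ.2 : ℝ) * v.2) / ((4 * k : ℕ) : ℝ)) ≤ 1 / 8 := by
    intro ξ hξ
    have h1 := (S.equivFin ⟨ξ, hξ⟩).2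
    have h2 := hθ ⟨(S.equivFin ⟨ξ, hξ⟩ : Fin S.card), lt_of_lt_of_le h1 hScard⟩
    simp only [h1, dif_pos, Fin.eta, Equiv.symm_apply_apply] at h2
    have e1 : ((ξ.1 : ℝ) * v.1 + (ξ.2 : ℝ) * v.2) / ((4 * k : ℕ) : ℝ) =
        (ξ.1 : ℝ) / ((4 * k : ℕ) : ℝ) * v.1 + (ξ.2 : ℝ) / ((4 * k : ℕ) : ℝ) * v.2 := by ring
    rw [e1]
    exact h2
  apply exists_rep hk E hE v hv
  intro hzero
  have hre : (∑ ξ ∈ (Finset.range (4 * k) ×ˢ Finset.range (4 * k)),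
      ‖f ξ‖ ^ 4 * (ee (-(((ξ.1 : ℝ) * v.1 + (ξ.2 : ℝ) * v.2) / (4 * k : ℕ)))).re) = 0 := by
    have h1 := congrArg Complex.re hzero
    rw [Complex.re_sum, Complex.zero_re] at h1
    rw [← h1]
    refine Finset.sum_congr rfl fun ξ _ => ?_
    rw [Complex.re_ofReal_mul, hf]
    rfl
  rw [← Finset.sum_filter_add_sum_filter_not _
    (fun ξ : ℕ × ℕ => κ / 64 * (E.card : ℝ) ^ 2 ≤ ‖f ξ‖ ^ 2), ← hS] at hre
  have hbig : (E.card : ℝ) ^ 4 / 2 ≤ ∑ ξ ∈ S,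
      ‖f ξ‖ ^ 4 * (ee (-(((ξ.1 : ℝ) * v.1 + (ξ.2 : ℝ) * v.2) / (4 * k : ℕ)))).re := by
    have h00 : ((0, 0) : ℕ × ℕ) ∈ S := by
      rw [hS, Finset.mem_filter, Finset.mem_product, Finset.mem_range, hf0]
      refine ⟨⟨hN, hN⟩, ?_⟩
      rw [Complex.norm_natCast]
      nlinarith [sq_nonneg (E.card : ℝ)]
    have hterm : ∀ ξ ∈ S, ‖f ξ‖ ^ 4 * (1 / 2) ≤
        ‖f ξ‖ ^ 4 * (ee (-(((ξ.1 : ℝ) * v.1 + (ξ.2 : ℝ) * v.2) / (4 * k : ℕ)))).re := by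
      intro ξ hξ
      refine mul_le_mul_of_nonneg_left ?_ (by positivity)
      apply half_le_re_ee
      rw [dz_neg]
      exact hS1 ξ hξ
    calc (E.card : ℝ) ^ 4 / 2 = ‖f (0, 0)‖ ^ 4 * (1 / 2) := by
          rw [hf0, Complex.norm_natCast]
          ring
      _ ≤ ∑ ξ ∈ S, ‖f ξ‖ ^ 4 * (1 / 2) :=
          Finset.single_le_sum (f := fun ξ => ‖f ξ‖ ^ 4 * (1 / 2)) (fun _ _ => by positivity) h00
      _ ≤ _ := Finset.sum_le_sum hterm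
  have hsmall : -((E.card : ℝ) ^ 4 / 4) ≤
      ∑ ξ ∈ (Finset.range (4 * k) ×ˢ Finset.range (4 * k)).filter
        (fun ξ : ℕ × ℕ => ¬ κ / 64 * (E.card : ℝ) ^ 2 ≤ ‖f ξ‖ ^ 2),
      ‖f ξ‖ ^ 4 * (ee (-(((ξ.1 : ℝ) * v.1 + (ξ.2 : ℝ) * v.2) / (4 * k : ℕ)))).re := by
    have h1 : ∀ ξ ∈ (Finset.range (4 * k) ×ˢ Finset.range (4 * k)).filter
        (fun ξ : ℕ × ℕ => ¬ κ / 64 * (E.card : ℝ) ^ 2 ≤ ‖f ξ‖ ^ 2),
        -(κ / 64 * (E.card : ℝ) ^ 2 * ‖f ξ‖ ^ 2) ≤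
        ‖f ξ‖ ^ 4 * (ee (-(((ξ.1 : ℝ) * v.1 + (ξ.2 : ℝ) * v.2) / (4 * k : ℕ)))).re := by
      intro ξ hξ
      rw [Finset.mem_filter] at hξ
      have h2 := hξ.2
      push Not at h2
      have h3 : -1 ≤ (ee (-(((ξ.1 : ℝ) * v.1 + (ξ.2 : ℝ) * v.2) / (4 * k : ℕ)))).re := by
        have h4 := Complex.abs_re_le_norm (ee (-(((ξ.1 : ℝ) * v.1 + (ξ.2 : ℝ) * v.2) / (4 * k : ℕ))))
        rw [norm_ee] at h4
        exact (abs_le.1 h4).1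
      have h5 : 0 ≤ ‖f ξ‖ ^ 2 := by positivity
      have h6 : ‖f ξ‖ ^ 4 = ‖f ξ‖ ^ 2 * ‖f ξ‖ ^ 2 := by ring
      have h7 : ‖f ξ‖ ^ 2 * ‖f ξ‖ ^ 2 ≤ κ / 64 * (E.card : ℝ) ^ 2 * ‖f ξ‖ ^ 2 :=
        mul_le_mul_of_nonneg_right h2.le h5
      have h8 : 0 ≤ ‖f ξ‖ ^ 4 := by positivity
      have h9 : ‖f ξ‖ ^ 4 * (-1) ≤
          ‖f ξ‖ ^ 4 * (ee (-(((ξ.1 : ℝ) * v.1 + (ξ.2 : ℝ) * v.2) / (4 * k : ℕ)))).re :=
        mul_le_mul_of_nonneg_left h3 h8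
      linarith
    refine le_trans ?_ (Finset.sum_le_sum h1)
    rw [Finset.sum_neg_distrib, neg_le_neg_iff, ← Finset.mul_sum]
    have h2 : ∑ ξ ∈ (Finset.range (4 * k) ×ˢ Finset.range (4 * k)).filter
        (fun ξ : ℕ × ℕ => ¬ κ / 64 * (E.card : ℝ) ^ 2 ≤ ‖f ξ‖ ^ 2), ‖f ξ‖ ^ 2 ≤
        16 * (k : ℝ) ^ 2 * E.card := by
      rw [← hpars]
      exact Finset.sum_le_sum_of_subset_of_nonneg (Finset.filter_subset _ _)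
        fun _ _ _ => by positivity
    calc κ / 64 * (E.card : ℝ) ^ 2 * _ ≤ κ / 64 * (E.card : ℝ) ^ 2 * (16 * (k : ℝ) ^ 2 * E.card) :=
          mul_le_mul_of_nonneg_left h2 (by positivity)
      _ = (κ * (k : ℝ) ^ 2) * ((E.card : ℝ) ^ 3 / 4) := by ring
      _ ≤ E.card * ((E.card : ℝ) ^ 3 / 4) := mul_le_mul_of_nonneg_right hcard (by positivity)
      _ = (E.card : ℝ) ^ 4 / 4 := by ring
  have hpos : 0 < (E.card : ℝ) ^ 4 := by positivity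
  linarith

end

end Pool.Agent.Lib.MP_a768d2_co
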