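import Pool.Agent.Lib.MP_a768d2_co.BsgA

/-! # Step 6b: the Balog - Szemeredi - Gowers theorem (job Bsg) -/

namespace Pool.Agent.Lib.MP_a768d2_co

noncomputable section

open scoped Pointwise

/-- the pairs of elements of `A` with difference `d` -/
private def Bsgrep {G : Type} [AddCommGroup G] [DecidableEq G] (A : Finset G) (d : G) : Finset (G × G) :=
  (A ×ˢ A).filter (fun p => p.1 - p.2 = d)

private theorem Bsgrep_le {G : Type} [AddCommGroup G] [DecidableEq G] (A : Finset G) (d : G) :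
    (Bsgrep A d).card ≤ A.card := by
  refine Finset.card_le_card_of_injOn (fun p => p.1) ?_ ?_
  · intro p hp
    simp only [Bsgrep, Finset.coe_filter, Finset.mem_product, Set.mem_ofPred_eq] at hp
    exact hp.1.1
  · intro p hp q hq hpq
    simp only [Bsgrep, Finset.coe_filter, Finset.mem_product, Set.mem_ofPred_eq] at hp hq hpq
    refine Prod.ext hpq ?_
    have h1 : p.2 = p.1 - d := by rw [← hp.2]; abel
    have h2 : q.2 = q.1 - d := by rw [← hq.2]; abel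
    rw [h1, h2, hpq]

private theorem Bsgen_eq {G : Type} [AddCommGroup G] [DecidableEq G] (A : Finset G) :
    en A = ∑ p ∈ A ×ˢ A, (Bsgrep A (p.1 - p.2)).card := by
  unfold en Bsgrep
  rw [Finset.card_filter, Finset.sum_product]
  refine Finset.sum_congr rfl fun p _ => ?_
  rw [Finset.card_filter]
  refine Finset.sum_congr rfl fun q _ => ?_
  simp only [eq_comm]

open Classical in
private theorem Bsgpop {G : Type} [AddCommGroup G] [DecidableEq G] (A : Finset G) (hA : A.Nonempty) {α : ℝ} (hα : 0 < α)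
    (h : 2 * α * (A.card : ℝ) ^ 3 ≤ en A) :
    α * (A.card : ℝ) ^ 2 ≤ ((A ×ˢ A).filter (fun p => α * (A.card : ℝ) ≤ (Bsgrep A (p.1 - p.2)).card)).card := by
  have hn : (0 : ℝ) < A.card := by exact_mod_cast hA.card_pos
  set n : ℝ := (A.card : ℝ) with hn'
  set P := (A ×ˢ A).filter (fun p => α * n ≤ (Bsgrep A (p.1 - p.2)).card) with hP
  have h1 : (en A : ℝ) ≤ n * P.card + α * n * n ^ 2 := by
    rw [Bsgen_eq]
    push_cast
    rw [← Finset.sum_filter_add_sum_filter_not (A ×ˢ A) (fun p => α * n ≤ (Bsgrep A (p.1 - p.2)).card)]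
    refine add_le_add ?_ ?_
    · calc ∑ p ∈ (A ×ˢ A).filter (fun p => α * n ≤ (Bsgrep A (p.1 - p.2)).card), ((Bsgrep A (p.1 - p.2)).card : ℝ)
          ≤ ∑ p ∈ (A ×ˢ A).filter (fun p => α * n ≤ (Bsgrep A (p.1 - p.2)).card), n :=
            Finset.sum_le_sum fun p _ => by rw [hn']; exact_mod_cast Bsgrep_le A _
        _ = n * P.card := by rw [Finset.sum_const, nsmul_eq_mul, mul_comm]
    · calc ∑ p ∈ (A ×ˢ A).filter (fun p => ¬ α * n ≤ (Bsgrep A (p.1 - p.2)).card), ((Bsgrep A (p.1 - p.2)).card : ℝ)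
          ≤ ∑ p ∈ (A ×ˢ A).filter (fun p => ¬ α * n ≤ (Bsgrep A (p.1 - p.2)).card), (α * n) :=
            Finset.sum_le_sum fun p hp => (not_le.mp (Finset.mem_filter.mp hp).2).le
        _ ≤ ∑ p ∈ (A ×ˢ A), (α * n) :=
            Finset.sum_le_sum_of_subset_of_nonneg (Finset.filter_subset _ _) fun _ _ _ => by positivity
        _ = α * n * n ^ 2 := by
            rw [Finset.sum_const, nsmul_eq_mul, Finset.card_product]
            push_cast
            rw [← hn']; ring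
  have h2 : 0 ≤ n * ((P.card : ℝ) - α * n ^ 2) := by nlinarith
  have h3 : 0 ≤ (P.card : ℝ) - α * n ^ 2 := nonneg_of_mul_nonneg_right h2 hn
  linarith

/-- the quadruples of pairs which represent `x` -/
private def Bsgoct {G : Type} [AddCommGroup G] [DecidableEq G] (A : Finset G) (x : G) :
    Finset ((G × G) × (G × G) × (G × G) × (G × G)) :=
  ((A ×ˢ A) ×ˢ (A ×ˢ A) ×ˢ (A ×ˢ A) ×ˢ (A ×ˢ A)).filter
    (fun q => (q.1.1 - q.1.2) - (q.2.1.1 - q.2.1.2) + (q.2.2.1.1 - q.2.2.1.2) - (q.2.2.2.1 - q.2.2.2.2) = x)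

private theorem Bsgoct_sum {G : Type} [AddCommGroup G] [DecidableEq G] (A X : Finset G) :
    ∑ x ∈ X, (Bsgoct A x).card ≤ A.card ^ 8 := by
  unfold Bsgoct
  rw [Finset.sum_card_fiberwise_eq_card_filter]
  refine (Finset.card_filter_le _ _).trans ?_
  simp only [Finset.card_product]
  exact le_of_eq (by ring)

open Classical in
private theorem Bsgoct_le {G : Type} [AddCommGroup G] [DecidableEq G] (A : Finset G) {c₁ c₂ c₃ : ℝ} (h₂ : 0 ≤ c₂) (h₃ : 0 ≤ c₃)
    (a a' : G)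
    (h : c₁ ≤ (A.filter (fun m =>
        c₂ ≤ (A.filter (fun b => c₃ ≤ (Bsgrep A (a - b)).card ∧ c₃ ≤ (Bsgrep A (m - b)).card)).card ∧
        c₂ ≤ (A.filter (fun b => c₃ ≤ (Bsgrep A (a' - b)).card ∧ c₃ ≤ (Bsgrep A (m - b)).card)).card)).card) :
    c₁ * (c₂ * c₂) * (c₃ * (c₃ * (c₃ * c₃))) ≤ (Bsgoct A (a - a')).card := by
  set M := A.filter (fun m =>
        c₂ ≤ (A.filter (fun b => c₃ ≤ (Bsgrep A (a - b)).card ∧ c₃ ≤ (Bsgrep A (m - b)).card)).card ∧
        c₂ ≤ (A.filter (fun b => c₃ ≤ (Bsgrep A (a' - b)).card ∧ c₃ ≤ (Bsgrep A (m - b)).card)).card) with hM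
  set S : Finset (Σ _ : G, G × G) := M.sigma (fun m =>
    (A.filter (fun b => c₃ ≤ (Bsgrep A (a - b)).card ∧ c₃ ≤ (Bsgrep A (m - b)).card)) ×ˢ
    (A.filter (fun b => c₃ ≤ (Bsgrep A (a' - b)).card ∧ c₃ ≤ (Bsgrep A (m - b)).card))) with hS
  have hScard : c₁ * (c₂ * c₂) ≤ S.card := by
    rw [hS, Finset.card_sigma]
    push_cast
    calc c₁ * (c₂ * c₂) ≤ M.card * (c₂ * c₂) := mul_le_mul_of_nonneg_right h (by positivity)
      _ = ∑ _m ∈ M, (c₂ * c₂) := by rw [Finset.sum_const, nsmul_eq_mul]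
      _ ≤ _ := by
        refine Finset.sum_le_sum fun m hm => ?_
        rw [Finset.card_product]
        push_cast
        have hm' := (Finset.mem_filter.mp hm).2
        exact mul_le_mul hm'.1 hm'.2 h₂ (by positivity)
  set F : (Σ _ : G, G × G) → Finset ((G × G) × (G × G) × (G × G) × (G × G)) := fun s =>
    (Bsgrep A (a - s.2.1)) ×ˢ (Bsgrep A (s.1 - s.2.1)) ×ˢ (Bsgrep A (s.1 - s.2.2)) ×ˢ (Bsgrep A (a' - s.2.2)) with hF
  have hdisj : ∀ s ∈ S, ∀ t ∈ S, s ≠ t → Disjoint (F s) (F t) := by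
    intro s _ t _ hst
    rw [Finset.disjoint_left]
    intro q hq hq'
    apply hst
    simp only [hF, Bsgrep, Finset.mem_product, Finset.mem_filter] at hq hq'
    obtain ⟨⟨_, q1⟩, ⟨_, q2⟩, ⟨_, q3⟩, _, q4⟩ := hq
    obtain ⟨⟨_, r1⟩, ⟨_, r2⟩, ⟨_, r3⟩, _, r4⟩ := hq'
    rw [q1] at r1
    rw [q2] at r2
    rw [q3] at r3
    have e1 : s.2.1 = t.2.1 := sub_right_inj.mp r1
    rw [e1] at r2
    have e2 : s.1 = t.1 := sub_left_inj.mp r2
    rw [e2] at r3
    have e3 : s.2.2 = t.2.2 := sub_right_inj.mp r3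
    obtain ⟨s1, s2, s3⟩ := s
    obtain ⟨t1, t2, t3⟩ := t
    simp only at e1 e2 e3
    subst e1 e2 e3
    rfl
  have hsub : S.biUnion F ⊆ Bsgoct A (a - a') := by
    intro q hq
    obtain ⟨s, hs, hqs⟩ := Finset.mem_biUnion.mp hq
    simp only [hF, Bsgrep, Finset.mem_product, Finset.mem_filter] at hqs
    obtain ⟨⟨m1, q1⟩, ⟨m2, q2⟩, ⟨m3, q3⟩, m4, q4⟩ := hqs
    unfold Bsgoct
    simp only [Finset.mem_filter, Finset.mem_product]
    refine ⟨⟨m1, m2, m3, m4⟩, ?_⟩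
    rw [q1, q2, q3, q4]
    abel
  have h1 : ((S.biUnion F).card : ℝ) ≤ (Bsgoct A (a - a')).card := by exact_mod_cast Finset.card_le_card hsub
  refine le_trans ?_ h1
  rw [Finset.card_biUnion hdisj]
  push_cast
  calc c₁ * (c₂ * c₂) * (c₃ * (c₃ * (c₃ * c₃))) ≤ S.card * (c₃ * (c₃ * (c₃ * c₃))) :=
        mul_le_mul_of_nonneg_right hScard (by positivity)
    _ = ∑ _s ∈ S, (c₃ * (c₃ * (c₃ * c₃))) := by rw [Finset.sum_const, nsmul_eq_mul]
    _ ≤ _ := by
      refine Finset.sum_le_sum fun s hs => ?_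
      rw [hS, Finset.mem_sigma, Finset.mem_product] at hs
      obtain ⟨_, hs1, hs2⟩ := hs
      have hs1' := (Finset.mem_filter.mp hs1).2
      have hs2' := (Finset.mem_filter.mp hs2).2
      simp only [hF, Finset.card_product]
      push_cast
      gcongr
      · exact hs1'.1
      · exact hs1'.2
      · exact hs2'.2
      · exact hs2'.1

/-- STEP 6.  Proof: `n = |A|`, `r(d) = #{(a,b) ∈ A² : a - b = d}`, `α = δ/2`.  Call `d` popular if
`r(d) ≥ α n`.  `∑_{d popular} r(d)² ≥ en A - α n · n² ≥ α n³`, so `∑_{d popular} r(d) ≥ α n²`: the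
relation `a - b popular` satisfies the hypothesis of `drc2`.  Take `A' = A2`.  For `a, a' ∈ A2` and each
`m` from `drc2`, each common neighbour `b` of `a, m` and each common neighbour `b'` of `a', m`:
`a - a' = (a - b) - (m - b) + (m - b') - (a' - b')`, four popular differences, each of which has at least
`α n` representations.  The triples `(m, b, b')` give different quadruples of differences, so `a - a'` has at
least `(α/4) n (α²/16)² n² (α n)⁴` representations as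
`(x1 - x2) - (x3 - x4) + (x5 - x6) - (x7 - x8)`, `x_i ∈ A`.  All differences together have at most `n⁸`
representations, so `|A' - A'| ≤ n⁸ / ((α/4)(α²/16)² α⁴ n⁷) = (1024/α⁹) n ≤ K |A'|`,
`K = 4096/α^10 + 1`. -/
theorem bsg (δ : ℝ) (hδ : 0 < δ) : ∃ δ' : ℝ, 0 < δ' ∧ ∃ K : ℝ, 1 ≤ K ∧
    ∀ {G : Type} [AddCommGroup G] [DecidableEq G] (A : Finset G), A.Nonempty →
      δ * (A.card : ℝ) ^ 3 ≤ en A →
      ∃ A' ⊆ A, A'.Nonempty ∧ δ' * (A.card : ℝ) ≤ A'.card ∧
        ((A' - A').card : ℝ) ≤ K * A'.card := by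
  classical
  obtain ⟨α, hα⟩ : ∃ α : ℝ, α = δ / 2 := ⟨_, rfl⟩
  have hα0 : 0 < α := by rw [hα]; linarith
  refine ⟨α / 4, by positivity, 4096 / α ^ 10 + 1, by
    have : 0 ≤ 4096 / α ^ 10 := by positivity
    linarith, ?_⟩
  intro G _ _ A hA hen
  have hn : (0 : ℝ) < A.card := by exact_mod_cast hA.card_pos
  have hpop := Bsgpop A hA hα0 (by rw [hα]; linarith)
  obtain ⟨A2, hA2, hcard, hgood⟩ := drc2 A hA (fun a b => α * (A.card : ℝ) ≤ (Bsgrep A (a - b)).card) α hα0 hpop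
  have hA2pos : (0 : ℝ) < A2.card := lt_of_lt_of_le (by positivity) hcard
  refine ⟨A2, hA2, Finset.card_pos.mp (by exact_mod_cast hA2pos), hcard, ?_⟩
  obtain ⟨n, hn'⟩ : ∃ n : ℝ, n = (A.card : ℝ) := ⟨_, rfl⟩
  rw [← hn'] at hcard hgood hn
  have hlow : ∀ x ∈ A2 - A2, α ^ 9 / 1024 * n ^ 7 ≤ ((Bsgoct A x).card : ℝ) := by
    intro x hx
    obtain ⟨a, ha, a', ha', rfl⟩ := Finset.mem_sub.mp hx
    have h1 := Bsgoct_le A (c₁ := α / 4 * n) (c₂ := α ^ 2 / 16 * n) (c₃ := α * n) (by positivity) (by positivity) a a' (hgood a ha a' ha')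
    refine le_trans (le_of_eq ?_) h1
    ring
  have hsum : ((A2 - A2).card : ℝ) * (α ^ 9 / 1024 * n ^ 7) ≤ n ^ 8 := by
    calc ((A2 - A2).card : ℝ) * (α ^ 9 / 1024 * n ^ 7) = ∑ _x ∈ A2 - A2, (α ^ 9 / 1024 * n ^ 7) := by
          rw [Finset.sum_const, nsmul_eq_mul]
      _ ≤ ∑ x ∈ A2 - A2, ((Bsgoct A x).card : ℝ) := Finset.sum_le_sum hlow
      _ ≤ n ^ 8 := by rw [hn']; exact_mod_cast Bsgoct_sum A (A2 - A2)
  have h3 : ((A2 - A2).card : ℝ) ≤ 1024 / α ^ 9 * n := by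
    have h4 : ((A2 - A2).card : ℝ) * (α ^ 9 / 1024 * n ^ 7) ≤ (1024 / α ^ 9 * n) * (α ^ 9 / 1024 * n ^ 7) := by
      refine hsum.trans (le_of_eq ?_)
      field_simp
    exact le_of_mul_le_mul_right h4 (by positivity)
  refine h3.trans ?_
  have h5 : 1024 / α ^ 9 * n = 4096 / α ^ 10 * (α / 4 * n) := by
    field_simp
    ring
  rw [h5]
  have h6 : 4096 / α ^ 10 * (α / 4 * n) ≤ 4096 / α ^ 10 * A2.card := mul_le_mul_of_nonneg_left hcard (by positivity)
  linarith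

end

end Pool.Agent.Lib.MP_a768d2_co
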