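import Pool.Agent.Lib.MP_a768d2_co.Defs

/-! # Step 6a: a graph lemma (dependent random choice) (job BsgA) -/

namespace Pool.Agent.Lib.MP_a768d2_co

noncomputable section

open Classical in
private theorem BsgA_pairs {G : Type} (A : Finset G) (r : G → G → Prop) :
    ((A ×ˢ A).filter (fun p => r p.1 p.2)).card = ∑ b ∈ A, (A.filter (fun a => r a b)).card := by
  rw [Finset.card_filter, Finset.sum_product_right]
  apply Finset.sum_congr rfl
  intro b _
  rw [Finset.card_filter]

open Classical in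
private theorem BsgA_swap {G : Type} (A : Finset G) (r : G → G → Prop) (P : G × G → Prop) :
    ∑ b ∈ A, (((A.filter (fun a => r a b)) ×ˢ (A.filter (fun a => r a b))).filter P).card =
      ∑ p ∈ (A ×ˢ A).filter P, (A.filter (fun b => r p.1 b ∧ r p.2 b)).card := by
  have h1 := Finset.sum_card_bipartiteAbove_eq_sum_card_bipartiteBelow
    (s := A) (t := (A ×ˢ A).filter P) (fun (b : G) (p : G × G) => r p.1 b ∧ r p.2 b)
  calc ∑ b ∈ A, (((A.filter (fun a => r a b)) ×ˢ (A.filter (fun a => r a b))).filter P).card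
      = ∑ b ∈ A, (((A ×ˢ A).filter P).filter (fun p => r p.1 b ∧ r p.2 b)).card := by
        apply Finset.sum_congr rfl
        intro b _
        congr 1
        ext p
        simp only [Finset.mem_filter, Finset.mem_product]
        tauto
    _ = _ := h1

open Classical in
/-- Let `r` be a symmetric relation on the finite set `A` with `n` elements and at least `α n²`
related ordered pairs.  Then there is `A1 ⊆ A` with `|A1| ≥ (α/2) n` such that at most `|A1|²/8` of the
pairs `(a,a')` of `A1` have fewer than `(α²/16) n` common neighbours.  Proof: `N(b) = {a ∈ A : r a b}`.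
`∑_b |N(b)|² ≥ α² n³` (Cauchy-Schwarz).  Let `Ω` be the set of bad pairs (fewer than `(α²/16) n` common
neighbours): `∑_b |N(b)² ∩ Ω| = ∑_{Ω} |N(a) ∩ N(a')| ≤ (α²/16) n³`.  So
`∑_b (|N(b)|² - 8 |N(b)² ∩ Ω|) ≥ α² n³/2`, and some `b ∈ A` has
`|N(b)|² - 8 |N(b)² ∩ Ω| ≥ α² n²/2`; `A1 = N(b)`. -/
theorem drc {G : Type} (A : Finset G) (hA : A.Nonempty) (r : G → G → Prop)
    (α : ℝ) (hα : 0 < α)
    (h : α * (A.card : ℝ) ^ 2 ≤ ((A ×ˢ A).filter (fun p => r p.1 p.2)).card) :
    ∃ A1 ⊆ A, α / 2 * (A.card : ℝ) ≤ A1.card ∧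
      8 * ((((A1 ×ˢ A1).filter (fun p =>
        ((A.filter (fun b => r p.1 b ∧ r p.2 b)).card : ℝ) < α ^ 2 / 16 * A.card)).card : ℕ) : ℝ)
        ≤ (A1.card : ℝ) ^ 2 := by
  have hn : 0 < (A.card : ℝ) := by exact_mod_cast hA.card_pos
  set n : ℝ := (A.card : ℝ) with hndef
  set P : G × G → Prop := fun p =>
    ((A.filter (fun b => r p.1 b ∧ r p.2 b)).card : ℝ) < α ^ 2 / 16 * n with hP
  have h1 : α * n ^ 2 ≤ ∑ b ∈ A, ((A.filter (fun a => r a b)).card : ℝ) := by
    refine h.trans (le_of_eq ?_)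
    rw [BsgA_pairs]
    push_cast
    rfl
  have h2 : (∑ b ∈ A, ((A.filter (fun a => r a b)).card : ℝ)) ^ 2 ≤
      n * ∑ b ∈ A, ((A.filter (fun a => r a b)).card : ℝ) ^ 2 := sq_sum_le_card_mul_sum_sq
  have h3 : (α * n ^ 2) ^ 2 ≤ n * ∑ b ∈ A, ((A.filter (fun a => r a b)).card : ℝ) ^ 2 :=
    (pow_le_pow_left₀ (by positivity) h1 2).trans h2
  have h4 : α ^ 2 * n ^ 3 ≤ ∑ b ∈ A, ((A.filter (fun a => r a b)).card : ℝ) ^ 2 := by
    have : n * (α ^ 2 * n ^ 3) ≤ n * ∑ b ∈ A, ((A.filter (fun a => r a b)).card : ℝ) ^ 2 := by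
      refine le_trans (le_of_eq ?_) h3
      ring
    exact le_of_mul_le_mul_left this hn
  have h5 : ∑ b ∈ A, ((((A.filter (fun a => r a b)) ×ˢ (A.filter (fun a => r a b))).filter
      P).card : ℝ) ≤ α ^ 2 / 16 * n ^ 3 := by
    have e1 := BsgA_swap A r P
    have e2 : ∑ b ∈ A, ((((A.filter (fun a => r a b)) ×ˢ (A.filter (fun a => r a b))).filter
        P).card : ℝ) = ∑ p ∈ (A ×ˢ A).filter P,
          ((A.filter (fun b => r p.1 b ∧ r p.2 b)).card : ℝ) := by
      exact_mod_cast e1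
    rw [e2]
    calc ∑ p ∈ (A ×ˢ A).filter P, ((A.filter (fun b => r p.1 b ∧ r p.2 b)).card : ℝ)
        ≤ ∑ p ∈ (A ×ˢ A).filter P, α ^ 2 / 16 * n := by
          apply Finset.sum_le_sum
          intro p hp
          exact (Finset.mem_filter.1 hp).2.le
      _ = (((A ×ˢ A).filter P).card : ℝ) * (α ^ 2 / 16 * n) := by
          rw [Finset.sum_const, nsmul_eq_mul]
      _ ≤ n ^ 2 * (α ^ 2 / 16 * n) := by
          apply mul_le_mul_of_nonneg_right _ (by positivity)
          have e3 : ((A ×ˢ A).filter P).card ≤ A.card * A.card := by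
            rw [← Finset.card_product]
            exact Finset.card_filter_le _ _
          calc (((A ×ˢ A).filter P).card : ℝ) ≤ ((A.card * A.card : ℕ) : ℝ) := by
                exact_mod_cast e3
            _ = n ^ 2 := by push_cast; ring
      _ = α ^ 2 / 16 * n ^ 3 := by ring
  have h6 : ∑ _b ∈ A, α ^ 2 * n ^ 2 / 2 ≤ ∑ b ∈ A, (((A.filter (fun a => r a b)).card : ℝ) ^ 2 -
      8 * ((((A.filter (fun a => r a b)) ×ˢ (A.filter (fun a => r a b))).filter P).card : ℝ)) := by
    rw [Finset.sum_const, nsmul_eq_mul, Finset.sum_sub_distrib, ← Finset.mul_sum]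
    have e4 : (A.card : ℝ) * (α ^ 2 * n ^ 2 / 2) = α ^ 2 * n ^ 3 / 2 := by
      rw [← hndef]; ring
    rw [e4]
    linarith
  obtain ⟨b, hb, hb2⟩ := Finset.exists_le_of_sum_le hA h6
  refine ⟨A.filter (fun a => r a b), Finset.filter_subset _ _, ?_, ?_⟩
  · have e5 : (0 : ℝ) ≤ ((((A.filter (fun a => r a b)) ×ˢ (A.filter (fun a => r a b))).filter
        P).card : ℝ) := Nat.cast_nonneg _
    have e6 : α ^ 2 * n ^ 2 / 2 ≤ ((A.filter (fun a => r a b)).card : ℝ) ^ 2 := by linarith
    have e7 : (α / 2 * n) ^ 2 ≤ ((A.filter (fun a => r a b)).card : ℝ) ^ 2 := by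
      have : 0 ≤ α ^ 2 * n ^ 2 := by positivity
      nlinarith
    exact (pow_le_pow_iff_left₀ (by positivity) (Nat.cast_nonneg _) two_ne_zero).1 e7
  · have e8 : 0 ≤ α ^ 2 * n ^ 2 / 2 := by positivity
    linarith

open Classical in
/-- Refinement: `A2 ⊆ A` with `|A2| ≥ (α/4) n` such that for all `a, a' ∈ A2` there are at least
`(α/4) n` elements `m ∈ A` such that both `(a,m)` and `(a',m)` have at least `(α²/16) n` common
neighbours.  Proof: with `A1` from `drc` let `A2` be the set of those `a ∈ A1` for which at most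
`|A1|/4` of the `m ∈ A1` form a bad pair `(a,m)`; at most half of the `a` fail (otherwise the number of bad
pairs exceeds `|A1|²/8`).  For `a, a' ∈ A2` at least `|A1|/2 ≥ (α/4) n` of the `m ∈ A1` are good for both. -/
theorem drc2 {G : Type} (A : Finset G) (hA : A.Nonempty) (r : G → G → Prop)
    (α : ℝ) (hα : 0 < α)
    (h : α * (A.card : ℝ) ^ 2 ≤ ((A ×ˢ A).filter (fun p => r p.1 p.2)).card) :
    ∃ A2 ⊆ A, α / 4 * (A.card : ℝ) ≤ A2.card ∧ ∀ a ∈ A2, ∀ a' ∈ A2,
      α / 4 * (A.card : ℝ) ≤ (A.filter (fun m =>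
        α ^ 2 / 16 * (A.card : ℝ) ≤ (A.filter (fun b => r a b ∧ r m b)).card ∧
        α ^ 2 / 16 * (A.card : ℝ) ≤ (A.filter (fun b => r a' b ∧ r m b)).card)).card := by
  obtain ⟨A1, hA1, hc1, hbad⟩ := drc A hA r α hα h
  have hn : 0 < (A.card : ℝ) := by exact_mod_cast hA.card_pos
  set n : ℝ := (A.card : ℝ) with hndef
  set Q : G → G → Prop := fun a m =>
    ((A.filter (fun b => r a b ∧ r m b)).card : ℝ) < α ^ 2 / 16 * n with hQ
  have hc1pos : 0 < (A1.card : ℝ) := lt_of_lt_of_le (by positivity) hc1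
  have hbad' : 8 * (∑ a ∈ A1, ((A1.filter (fun m => Q a m)).card : ℝ)) ≤ (A1.card : ℝ) ^ 2 := by
    refine le_trans (le_of_eq ?_) hbad
    congr 1
    have e1 : ((A1 ×ˢ A1).filter (fun p => Q p.1 p.2)).card =
        ∑ a ∈ A1, (A1.filter (fun m => Q a m)).card := by
      rw [Finset.card_filter, Finset.sum_product]
      apply Finset.sum_congr rfl
      intro a _
      rw [Finset.card_filter]
    have e2 : (((A1 ×ˢ A1).filter (fun p => Q p.1 p.2)).card : ℝ) =
        ∑ a ∈ A1, ((A1.filter (fun m => Q a m)).card : ℝ) := by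
      exact_mod_cast e1
    exact e2.symm
  set B : Finset G := A1.filter (fun a =>
    (A1.card : ℝ) / 4 < ((A1.filter (fun m => Q a m)).card : ℝ)) with hB
  set A2 : Finset G := A1.filter (fun a =>
    ¬ ((A1.card : ℝ) / 4 < ((A1.filter (fun m => Q a m)).card : ℝ))) with hA2
  have hBcard : (B.card : ℝ) ≤ (A1.card : ℝ) / 2 := by
    have e3 : (B.card : ℝ) * ((A1.card : ℝ) / 4) ≤
        ∑ a ∈ A1, ((A1.filter (fun m => Q a m)).card : ℝ) := by
      calc (B.card : ℝ) * ((A1.card : ℝ) / 4) = ∑ _a ∈ B, (A1.card : ℝ) / 4 := by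
            rw [Finset.sum_const, nsmul_eq_mul]
        _ ≤ ∑ a ∈ B, ((A1.filter (fun m => Q a m)).card : ℝ) := by
            apply Finset.sum_le_sum
            intro a ha
            exact (Finset.mem_filter.1 ha).2.le
        _ ≤ _ := Finset.sum_le_sum_of_subset_of_nonneg (Finset.filter_subset _ _)
            (fun i _ _ => Nat.cast_nonneg _)
    have e4 : (B.card : ℝ) * (2 * (A1.card : ℝ)) ≤ (A1.card : ℝ) / 2 * (2 * (A1.card : ℝ)) := by
      nlinarith
    exact le_of_mul_le_mul_right e4 (by positivity)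
  have hsum : (B.card : ℝ) + (A2.card : ℝ) = (A1.card : ℝ) := by
    have := Finset.card_filter_add_card_filter_not (s := A1) (fun a =>
      (A1.card : ℝ) / 4 < ((A1.filter (fun m => Q a m)).card : ℝ))
    exact_mod_cast this
  refine ⟨A2, (Finset.filter_subset _ _).trans hA1, by linarith, ?_⟩
  intro a ha a' ha'
  have ha2 := not_lt.1 (Finset.mem_filter.1 ha).2
  have ha2' := not_lt.1 (Finset.mem_filter.1 ha').2
  have hsub : A1 ⊆ (A.filter (fun m => α ^ 2 / 16 * n ≤ (A.filter (fun b => r a b ∧ r m b)).card ∧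
      α ^ 2 / 16 * n ≤ (A.filter (fun b => r a' b ∧ r m b)).card)) ∪
      (A1.filter (fun m => Q a m) ∪ A1.filter (fun m => Q a' m)) := by
    intro m hm
    by_cases h1 : Q a m
    · exact Finset.mem_union_right _ (Finset.mem_union_left _ (Finset.mem_filter.2 ⟨hm, h1⟩))
    · by_cases h2 : Q a' m
      · exact Finset.mem_union_right _ (Finset.mem_union_right _ (Finset.mem_filter.2 ⟨hm, h2⟩))
      · exact Finset.mem_union_left _ (Finset.mem_filter.2 ⟨hA1 hm, not_lt.1 h1, not_lt.1 h2⟩)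
  have hle := (Finset.card_le_card hsub).trans ((Finset.card_union_le _ _).trans
    (Nat.add_le_add_left (Finset.card_union_le _ _) _))
  have hle' : (A1.card : ℝ) ≤ ((A.filter (fun m =>
      α ^ 2 / 16 * n ≤ (A.filter (fun b => r a b ∧ r m b)).card ∧
      α ^ 2 / 16 * n ≤ (A.filter (fun b => r a' b ∧ r m b)).card)).card : ℝ) +
      (((A1.filter (fun m => Q a m)).card : ℝ) + ((A1.filter (fun m => Q a' m)).card : ℝ)) := by
    exact_mod_cast hle
  linarith

end

end Pool.Agent.Lib.MP_a768d2_co
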