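import Pool.Agent.Lib.MP_a768d2_co.Dz

/-! # Step 4a: three applications of the Cauchy-Schwarz inequality (job CSa) -/

namespace Pool.Agent.Lib.MP_a768d2_co

noncomputable section

open Finset

private lemma CSa_sq {ι : Type*} (s : Finset ι) (f : ι → ℂ) :
    ((‖∑ i ∈ s, f i‖ ^ 2 : ℝ) : ℂ) = ∑ i ∈ s, ∑ j ∈ s, f i * (starRingEnd ℂ) (f j) := by
  rw [← Complex.normSq_eq_norm_sq, ← Complex.mul_conj, map_sum, Finset.sum_mul_sum]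

private lemma CSa_sigma (R : ℤ × ℤ → ℝ × ℝ) (x y : ℤ × ℤ) :
    cr (y - x) (R y - R x) =
      cr y (R y) + (cr x (R x) + (-(cr y (R x) + cr x (R y)))) := by
  unfold cr
  simp only [Prod.fst_sub, Prod.snd_sub]
  push_cast
  ring

private lemma CSa_four (R : ℤ × ℤ → ℝ × ℝ) (x x' y y' : ℤ × ℤ) :
    -(cr y (R x) + cr x (R y)) + -(-(cr y (R x') + cr x' (R y))) +
      -(-(cr y' (R x) + cr x (R y')) + -(-(cr y' (R x') + cr x' (R y')))) =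
      -cr (x - x') (R y - R y') + -cr (y - y') (R x - R x') := by
  unfold cr
  simp only [Prod.fst_sub, Prod.snd_sub]
  push_cast
  ring

private lemma CSa_tau (R : ℤ × ℤ → ℝ × ℝ) (x x' z z' y y' : ℤ × ℤ) :
    -cr (y - y') (R x - R x') + -(-cr (y - y') (R z - R z')) =
      -cr y (tau R (x, x', z, z')) + cr y' (tau R (x, x', z, z')) := by
  unfold cr tau
  simp only [Prod.fst_sub, Prod.snd_sub, Prod.fst_add, Prod.snd_add]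
  push_cast
  ring

private lemma CSa_norm_ofReal {a : ℝ} (ha : 0 ≤ a) : a = ‖(a : ℂ)‖ := by
  rw [Complex.norm_real, Real.norm_of_nonneg ha]

private lemma CSa_step1 (X Y : Finset (ℤ × ℤ)) (R : ℤ × ℤ → ℝ × ℝ) :
    ‖∑ x ∈ X, ∑ y ∈ Y, ee (cr (y - x) (R y - R x))‖ ^ 2 ≤
      (Y.card : ℝ) * ∑ p ∈ X ×ˢ X, ‖∑ y ∈ Y, ee (-(cr y (R p.1) + cr p.1 (R y)) +
        -(-(cr y (R p.2) + cr p.2 (R y))))‖ := by
  have h1 : ∑ x ∈ X, ∑ y ∈ Y, ee (cr (y - x) (R y - R x)) =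
      ∑ y ∈ Y, ee (cr y (R y)) *
        ∑ x ∈ X, ee (cr x (R x) + (-(cr y (R x) + cr x (R y)))) := by
    rw [Finset.sum_comm]
    refine Finset.sum_congr rfl fun y _ => ?_
    rw [Finset.mul_sum]
    refine Finset.sum_congr rfl fun x _ => ?_
    rw [CSa_sigma, ee_add (cr y (R y))]
  rw [h1]
  have h2 : ‖∑ y ∈ Y, ee (cr y (R y)) *
        ∑ x ∈ X, ee (cr x (R x) + (-(cr y (R x) + cr x (R y))))‖ ≤
      ∑ y ∈ Y, ‖∑ x ∈ X, ee (cr x (R x) + (-(cr y (R x) + cr x (R y))))‖ := by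
    refine (norm_sum_le _ _).trans (le_of_eq ?_)
    refine Finset.sum_congr rfl fun y _ => ?_
    rw [norm_mul, norm_ee, one_mul]
  refine (pow_le_pow_left₀ (norm_nonneg _) h2 2).trans ?_
  refine sq_sum_le_card_mul_sum_sq.trans ?_
  refine mul_le_mul_of_nonneg_left ?_ (Nat.cast_nonneg _)
  rw [CSa_norm_ofReal (Finset.sum_nonneg fun y _ => sq_nonneg
    ‖∑ x ∈ X, ee (cr x (R x) + (-(cr y (R x) + cr x (R y))))‖)]
  have h3 : ((∑ y ∈ Y, ‖∑ x ∈ X, ee (cr x (R x) + (-(cr y (R x) + cr x (R y))))‖ ^ 2 : ℝ) : ℂ) =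
      ∑ p ∈ X ×ˢ X, ee (cr p.1 (R p.1) + -cr p.2 (R p.2)) *
        ∑ y ∈ Y, ee (-(cr y (R p.1) + cr p.1 (R y)) + -(-(cr y (R p.2) + cr p.2 (R y)))) := by
    rw [Complex.ofReal_sum]
    simp only [CSa_sq]
    rw [Finset.sum_product]
    simp only [Finset.mul_sum]
    rw [Finset.sum_comm]
    refine Finset.sum_congr rfl fun x _ => ?_
    rw [Finset.sum_comm]
    refine Finset.sum_congr rfl fun x' _ => ?_
    refine Finset.sum_congr rfl fun y _ => ?_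
    rw [← ee_neg, ← ee_add, ← ee_add]
    congr 1
    ring
  rw [h3]
  refine (norm_sum_le _ _).trans (le_of_eq ?_)
  refine Finset.sum_congr rfl fun p _ => ?_
  rw [norm_mul, norm_ee, one_mul]

private lemma CSa_step3 (X Y : Finset (ℤ × ℤ)) (R : ℤ × ℤ → ℝ × ℝ) :
    (∑ p ∈ X ×ˢ X, ‖∑ y ∈ Y, ee (-(cr y (R p.1) + cr p.1 (R y)) +
        -(-(cr y (R p.2) + cr p.2 (R y))))‖ ^ 2) ≤
      ∑ w ∈ (Y ×ˢ Y) ×ˢ ((X ×ˢ X).image fun p => p.1 - p.2),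
        ‖∑ p ∈ (X ×ˢ X).filter (fun p => p.1 - p.2 = w.2),
          ee (-cr (w.1.1 - w.1.2) (R p.1 - R p.2))‖ := by
  classical
  rw [CSa_norm_ofReal (Finset.sum_nonneg fun p _ => sq_nonneg
    ‖∑ y ∈ Y, ee (-(cr y (R p.1) + cr p.1 (R y)) + -(-(cr y (R p.2) + cr p.2 (R y))))‖)]
  have h3 : ((∑ p ∈ X ×ˢ X, ‖∑ y ∈ Y, ee (-(cr y (R p.1) + cr p.1 (R y)) +
        -(-(cr y (R p.2) + cr p.2 (R y))))‖ ^ 2 : ℝ) : ℂ) =
      ∑ w ∈ (Y ×ˢ Y) ×ˢ ((X ×ˢ X).image fun p => p.1 - p.2),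
        ee (-cr w.2 (R w.1.1 - R w.1.2)) *
        ∑ p ∈ (X ×ˢ X).filter (fun p => p.1 - p.2 = w.2),
          ee (-cr (w.1.1 - w.1.2) (R p.1 - R p.2)) := by
    rw [Complex.ofReal_sum]
    simp only [CSa_sq]
    have h4 : ∀ p ∈ X ×ˢ X, (∑ i ∈ Y, ∑ j ∈ Y,
        ee (-(cr i (R p.1) + cr p.1 (R i)) + -(-(cr i (R p.2) + cr p.2 (R i)))) *
        (starRingEnd ℂ) (ee (-(cr j (R p.1) + cr p.1 (R j)) +
          -(-(cr j (R p.2) + cr p.2 (R j)))))) =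
        ∑ q ∈ Y ×ˢ Y, ee (-cr (p.1 - p.2) (R q.1 - R q.2)) *
          ee (-cr (q.1 - q.2) (R p.1 - R p.2)) := by
      intro p _
      rw [Finset.sum_product]
      refine Finset.sum_congr rfl fun y _ => Finset.sum_congr rfl fun y' _ => ?_
      rw [← ee_neg, ← ee_add, ← ee_add, CSa_four]
    rw [Finset.sum_congr rfl h4, Finset.sum_comm, Finset.sum_product (s := Y ×ˢ Y)]
    refine Finset.sum_congr rfl fun q _ => ?_
    rw [← Finset.sum_fiberwise_of_maps_to (s := X ×ˢ X)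
      (t := (X ×ˢ X).image fun p => p.1 - p.2) (g := fun p => p.1 - p.2)
      (fun p hp => Finset.mem_image_of_mem _ hp)]
    refine Finset.sum_congr rfl fun d _ => ?_
    rw [Finset.mul_sum]
    refine Finset.sum_congr rfl fun p hp => ?_
    rw [(Finset.mem_filter.1 hp).2]
  rw [h3]
  refine (norm_sum_le _ _).trans (le_of_eq ?_)
  refine Finset.sum_congr rfl fun p _ => ?_
  rw [norm_mul, norm_ee, one_mul]

private lemma CSa_addq (X : Finset (ℤ × ℤ)) (f : (ℤ × ℤ) × (ℤ × ℤ) × (ℤ × ℤ) × (ℤ × ℤ) → ℂ) :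
    ∑ p ∈ addq X, f p = ∑ a ∈ X ×ˢ X, ∑ b ∈ X ×ˢ X,
      if a.1 - a.2 = b.1 - b.2 then f (a.1, a.2, b.1, b.2) else 0 := by
  unfold addq
  rw [Finset.sum_filter]
  simp only [Finset.sum_product]

private lemma CSa_step4 (X B : Finset (ℤ × ℤ)) (R : ℤ × ℤ → ℝ × ℝ) :
    (∑ w ∈ (B ×ˢ B) ×ˢ ((X ×ˢ X).image fun p => p.1 - p.2),
        ‖∑ p ∈ (X ×ˢ X).filter (fun p => p.1 - p.2 = w.2),
          ee (-cr (w.1.1 - w.1.2) (R p.1 - R p.2))‖ ^ 2) =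
      ∑ p ∈ addq X, ‖∑ y ∈ B, ee (cr y (tau R p))‖ ^ 2 := by
  classical
  have h1 : ((∑ w ∈ (B ×ˢ B) ×ˢ ((X ×ˢ X).image fun p => p.1 - p.2),
        ‖∑ p ∈ (X ×ˢ X).filter (fun p => p.1 - p.2 = w.2),
          ee (-cr (w.1.1 - w.1.2) (R p.1 - R p.2))‖ ^ 2 : ℝ) : ℂ) =
      ((∑ p ∈ addq X, ‖∑ y ∈ B, ee (cr y (tau R p))‖ ^ 2 : ℝ) : ℂ) := by
    rw [Complex.ofReal_sum, Complex.ofReal_sum]
    simp only [CSa_sq]
    rw [Finset.sum_product (s := B ×ˢ B)]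
    have h2 : ∀ q ∈ B ×ˢ B, (∑ d ∈ (X ×ˢ X).image fun p => p.1 - p.2,
        ∑ i ∈ (X ×ˢ X).filter (fun p => p.1 - p.2 = d),
        ∑ j ∈ (X ×ˢ X).filter (fun p => p.1 - p.2 = d),
          ee (-cr (q.1 - q.2) (R i.1 - R i.2)) *
            (starRingEnd ℂ) (ee (-cr (q.1 - q.2) (R j.1 - R j.2)))) =
        ∑ p ∈ addq X, ee (-cr q.1 (tau R p)) * ee (cr q.2 (tau R p)) := by
      intro q _
      rw [CSa_addq]
      rw [← Finset.sum_fiberwise_of_maps_to (s := X ×ˢ X)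
        (t := (X ×ˢ X).image fun p => p.1 - p.2) (g := fun p => p.1 - p.2)
        (fun p hp => Finset.mem_image_of_mem _ hp)]
      refine Finset.sum_congr rfl fun d _ => ?_
      refine Finset.sum_congr rfl fun i hi => ?_
      rw [Finset.sum_filter]
      refine Finset.sum_congr rfl fun j _ => ?_
      rw [(Finset.mem_filter.1 hi).2]
      by_cases hj : j.1 - j.2 = d
      · rw [if_pos hj, if_pos hj.symm, ← ee_neg, ← ee_add, ← ee_add, CSa_tau]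
      · rw [if_neg hj, if_neg (Ne.symm hj)]
    rw [Finset.sum_congr rfl h2, Finset.sum_comm]
    refine Finset.sum_congr rfl fun p _ => ?_
    rw [Finset.sum_product, Finset.sum_comm]
    refine Finset.sum_congr rfl fun y _ => Finset.sum_congr rfl fun y' _ => ?_
    rw [← ee_neg, mul_comm]
  exact_mod_cast h1

private lemma CSa_card {l : ℕ} {s : ℤ × ℤ} {X : Finset (ℤ × ℤ)} (hX : X ⊆ sbox s l) :
    (X.card : ℝ) ≤ (l : ℝ) ^ 2 := by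
  have h1 : X.card ≤ l * l := by
    refine (Finset.card_le_card hX).trans (le_of_eq ?_)
    unfold sbox
    rw [Finset.card_product, Int.card_Ico, Int.card_Ico]
    congr 1 <;> simp
  rw [sq]
  exact_mod_cast h1

private lemma CSa_card_diff {l : ℕ} {s : ℤ × ℤ} {X : Finset (ℤ × ℤ)} (hX : X ⊆ sbox s l) :
    (((X ×ˢ X).image fun p => p.1 - p.2).card : ℝ) ≤ 4 * (l : ℝ) ^ 2 := by
  have h1 : (X ×ˢ X).image (fun p => p.1 - p.2) ⊆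
      Finset.Ico (-(l : ℤ)) l ×ˢ Finset.Ico (-(l : ℤ)) l := by
    intro d hd
    obtain ⟨p, hp, rfl⟩ := Finset.mem_image.1 hd
    obtain ⟨hp1, hp2⟩ := Finset.mem_product.1 hp
    have h2 := hX hp1
    have h3 := hX hp2
    unfold sbox at h2 h3
    simp only [Finset.mem_product, Finset.mem_Ico, Prod.fst_sub, Prod.snd_sub] at h2 h3 ⊢
    omega
  have h2 := Finset.card_le_card h1
  rw [Finset.card_product, Int.card_Ico] at h2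
  have h3 : ((l : ℤ) - -(l : ℤ)).toNat = 2 * l := by omega
  rw [h3] at h2
  have h4 : (((X ×ˢ X).image fun p => p.1 - p.2).card : ℝ) ≤ ((2 * l * (2 * l) : ℕ) : ℝ) := by
    exact_mod_cast h2
  refine h4.trans (le_of_eq ?_)
  push_cast
  ring

/-- STEP 4a.  Write `σ(x,y) = cr y (R x) + cr x (R y)` (so that
`cr (y-x) (R y - R x) = cr y (R y) + cr x (R x) - σ(x,y)`).  Let `S` be the sum on the left.
(1) `|S| ≤ ∑_y |∑_x e(cr x (R x)) e(-σ(x,y))|`, hence by Cauchy-Schwarz and expansion of the square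
`|S|² ≤ |Y| A1`, `A1 = ∑_{x,x' ∈ X} |g(x,x')|`, `g(x,x') = ∑_{y∈Y} e(-(cr y (R x - R x') + cr (x-x') (R y)))`.
(2) `A1² ≤ |X|² A2`, `A2 = ∑_{x,x'} |g(x,x')|²`.
(3) `A2 = ∑_{s} ∑_{y,y' ∈ Y} e(-cr s (R y - R y')) ∑_{x-x'=s} e(-cr (y-y') (R x - R x'))`, where `s` runs over
the set `X - X`, of at most `4 l²` elements; Cauchy-Schwarz over `(s,y,y')` gives
`A2² ≤ 4 l² |Y|² A3`, `A3 = ∑_s ∑_{y,y'} |∑_{x-x'=s} e(-cr (y-y') (R x - R x'))|²`, in which `y, y'` may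
now run over the whole box `sbox t l`; expanding the square
`A3 = ∑_{p ∈ addq X} ∑_{y,y'} e(-cr (y-y') (tau R p)) = ∑_{p ∈ addq X} |∑_y e(cr y (tau R p))|²`.
Altogether `|S|^8 ≤ |Y|⁴ A1⁴ ≤ |Y|⁴ |X|⁴ A2² ≤ 4 l² |X|⁴ |Y|⁶ A3 ≤ 4 l^22 A3` as `|X|, |Y| ≤ l²`. -/
theorem cs_chain (l : ℕ) (s t : ℤ × ℤ) (X Y : Finset (ℤ × ℤ)) (hX : X ⊆ sbox s l)
    (hY : Y ⊆ sbox t l) (R : ℤ × ℤ → ℝ × ℝ) :
    ‖∑ x ∈ X, ∑ y ∈ Y, ee (cr (y - x) (R y - R x))‖ ^ 8 ≤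
      4 * (l : ℝ) ^ 22 * ∑ p ∈ addq X, ‖∑ y ∈ sbox t l, ee (cr y (tau R p))‖ ^ 2 := by
  classical
  have h1 := CSa_step1 X Y R
  have h3 := CSa_step3 X Y R
  have h4 := CSa_step4 X (sbox t l) R
  obtain ⟨S, hS⟩ : ∃ S : ℝ, S = ‖∑ x ∈ X, ∑ y ∈ Y, ee (cr (y - x) (R y - R x))‖ := ⟨_, rfl⟩
  obtain ⟨g, hg⟩ : ∃ g : (ℤ × ℤ) × (ℤ × ℤ) → ℝ, g = fun p =>
    ‖∑ y ∈ Y, ee (-(cr y (R p.1) + cr p.1 (R y)) +
        -(-(cr y (R p.2) + cr p.2 (R y))))‖ := ⟨_, rfl⟩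
  obtain ⟨H, hH⟩ : ∃ H : ((ℤ × ℤ) × (ℤ × ℤ)) × (ℤ × ℤ) → ℝ, H = fun w =>
    ‖∑ p ∈ (X ×ˢ X).filter (fun p => p.1 - p.2 = w.2),
          ee (-cr (w.1.1 - w.1.2) (R p.1 - R p.2))‖ := ⟨_, rfl⟩
  have hS0 : 0 ≤ S := by rw [hS]; exact norm_nonneg _
  have hg0 : ∀ p, 0 ≤ g p := by intro p; rw [hg]; exact norm_nonneg _
  have hH0 : ∀ w, 0 ≤ H w := by intro w; rw [hH]; exact norm_nonneg _
  rw [← hS] at h1 ⊢
  have h1' : S ^ 2 ≤ (Y.card : ℝ) * ∑ p ∈ X ×ˢ X, g p := by rw [hg]; exact h1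
  have h2' : (∑ p ∈ X ×ˢ X, g p) ^ 2 ≤ ((X.card : ℝ)) ^ 2 * ∑ p ∈ X ×ˢ X, g p ^ 2 := by
    refine sq_sum_le_card_mul_sum_sq.trans (le_of_eq ?_)
    rw [Finset.card_product]
    push_cast
    ring
  have h3' : (∑ p ∈ X ×ˢ X, g p ^ 2) ≤
      ∑ w ∈ (Y ×ˢ Y) ×ˢ ((X ×ˢ X).image fun p => p.1 - p.2), H w := by
    rw [hg, hH]; exact h3
  have h5' : (∑ w ∈ (Y ×ˢ Y) ×ˢ ((X ×ˢ X).image fun p => p.1 - p.2), H w) ^ 2 ≤
      ((Y.card : ℝ) ^ 2 * (4 * (l : ℝ) ^ 2)) *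
        ∑ p ∈ addq X, ‖∑ y ∈ sbox t l, ee (cr y (tau R p))‖ ^ 2 := by
    refine sq_sum_le_card_mul_sum_sq.trans ?_
    rw [← h4]
    have h6 : (∑ w ∈ (Y ×ˢ Y) ×ˢ ((X ×ˢ X).image fun p => p.1 - p.2), H w ^ 2) ≤
        ∑ w ∈ (sbox t l ×ˢ sbox t l) ×ˢ ((X ×ˢ X).image fun p => p.1 - p.2), H w ^ 2 :=
      Finset.sum_le_sum_of_subset_of_nonneg
        (Finset.product_subset_product_left (Finset.product_subset_product hY hY))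
        fun w _ _ => sq_nonneg _
    have h7 : ((((Y ×ˢ Y) ×ˢ ((X ×ˢ X).image fun p => p.1 - p.2)).card : ℕ) : ℝ) ≤
        (Y.card : ℝ) ^ 2 * (4 * (l : ℝ) ^ 2) := by
      rw [Finset.card_product, Finset.card_product]
      push_cast
      rw [← sq]
      exact mul_le_mul_of_nonneg_left (CSa_card_diff hX) (by positivity)
    rw [hH] at h6 ⊢
    refine mul_le_mul h7 h6 ?_ (by positivity)
    exact Finset.sum_nonneg fun w _ => sq_nonneg _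
  obtain ⟨A3, hA3⟩ : ∃ A3 : ℝ, A3 =
    ∑ p ∈ addq X, ‖∑ y ∈ sbox t l, ee (cr y (tau R p))‖ ^ 2 := ⟨_, rfl⟩
  have hA30 : 0 ≤ A3 := by
    rw [hA3]
    exact Finset.sum_nonneg fun p _ => sq_nonneg _
  rw [← hA3] at h5' ⊢
  have hA10 : 0 ≤ ∑ p ∈ X ×ˢ X, g p := Finset.sum_nonneg fun p _ => hg0 p
  have hA20 : 0 ≤ ∑ p ∈ X ×ˢ X, g p ^ 2 := Finset.sum_nonneg fun p _ => sq_nonneg _
  have hXc := CSa_card hX
  have hYc := CSa_card hY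
  have hX0 : (0 : ℝ) ≤ X.card := Nat.cast_nonneg _
  have hY0 : (0 : ℝ) ≤ Y.card := Nat.cast_nonneg _
  have hl0 : (0 : ℝ) ≤ l := Nat.cast_nonneg _
  have h8 : (∑ p ∈ X ×ˢ X, g p ^ 2) ^ 2 ≤ ((Y.card : ℝ) ^ 2 * (4 * (l : ℝ) ^ 2)) * A3 :=
    (pow_le_pow_left₀ hA20 h3' 2).trans h5'
  have h9 : (∑ p ∈ X ×ˢ X, g p) ^ 4 ≤
      (X.card : ℝ) ^ 4 * (((Y.card : ℝ) ^ 2 * (4 * (l : ℝ) ^ 2)) * A3) := by
    have e1 : (∑ p ∈ X ×ˢ X, g p) ^ 4 = ((∑ p ∈ X ×ˢ X, g p) ^ 2) ^ 2 := by ring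
    rw [e1]
    refine (pow_le_pow_left₀ (sq_nonneg _) h2' 2).trans ?_
    rw [mul_pow]
    have e2 : ((X.card : ℝ) ^ 2) ^ 2 = (X.card : ℝ) ^ 4 := by ring
    rw [e2]
    exact mul_le_mul_of_nonneg_left h8 (by positivity)
  have h10 : S ^ 8 ≤ (Y.card : ℝ) ^ 4 *
      ((X.card : ℝ) ^ 4 * (((Y.card : ℝ) ^ 2 * (4 * (l : ℝ) ^ 2)) * A3)) := by
    have e1 : S ^ 8 = (S ^ 2) ^ 4 := by ring
    rw [e1]
    refine (pow_le_pow_left₀ (sq_nonneg _) h1' 4).trans ?_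
    rw [mul_pow]
    exact mul_le_mul_of_nonneg_left h9 (by positivity)
  refine h10.trans ?_
  have e3 : (Y.card : ℝ) ^ 4 *
      ((X.card : ℝ) ^ 4 * (((Y.card : ℝ) ^ 2 * (4 * (l : ℝ) ^ 2)) * A3)) =
      (Y.card : ℝ) ^ 6 * (X.card : ℝ) ^ 4 * (4 * (l : ℝ) ^ 2 * A3) := by ring
  have e4 : 4 * (l : ℝ) ^ 22 * A3 = ((l : ℝ) ^ 2) ^ 6 * ((l : ℝ) ^ 2) ^ 4 *
      (4 * (l : ℝ) ^ 2 * A3) := by ring
  rw [e3, e4]
  refine mul_le_mul_of_nonneg_right ?_ (by positivity)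
  exact mul_le_mul (pow_le_pow_left₀ hY0 hYc 6) (pow_le_pow_left₀ hX0 hXc 4) (by positivity)
    (by positivity)

end

end Pool.Agent.Lib.MP_a768d2_co
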