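import Pool.Agent.Lib.MP_a768d2_co.CSa

/-! # Step 4b: many additive quadruples with small alternating sum (job CSb) -/

namespace Pool.Agent.Lib.MP_a768d2_co

noncomputable section

private theorem CSb_prod (l : ℕ) (t : ℤ × ℤ) (τ : ℝ × ℝ) :
    ∑ y ∈ sbox t l, ee (cr y τ) =
      (∑ a ∈ Finset.Ico t.1 (t.1 + l), ee ((a : ℝ) * τ.2)) *
        ∑ b ∈ Finset.Ico t.2 (t.2 + l), ee ((b : ℝ) * (-τ.1)) := by
  unfold sbox
  rw [Finset.sum_product, Finset.sum_mul_sum]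
  refine Finset.sum_congr rfl fun a _ => Finset.sum_congr rfl fun b _ => ?_
  rw [← ee_add]
  congr 1
  unfold cr
  ring

private theorem CSb_card_sbox (t : ℤ × ℤ) (l : ℕ) : (sbox t l).card = l ^ 2 := by
  unfold sbox
  rw [Finset.card_product, Int.card_Ico, Int.card_Ico]
  simp [sq]

/-- The sum over the box is a product of two geometric sums, so it is at most
`min(l, 1/(2 dz τ₂)) · min(l, 1/(2 dz τ₁))`; if it is at least `β l²` in norm then both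
`dz τ_i ≤ 1/(2 β l)`. -/
theorem dz_tau_le {l : ℕ} (hl : 1 ≤ l) (t : ℤ × ℤ) (τ : ℝ × ℝ) {β : ℝ} (hβ : 0 < β)
    (h : β * (l : ℝ) ^ 2 ≤ ‖∑ y ∈ sbox t l, ee (cr y τ)‖) :
    dz τ.1 ≤ 1 / (2 * β) / l ∧ dz τ.2 ≤ 1 / (2 * β) / l := by
  have hl0 : (0 : ℝ) < l := by exact_mod_cast hl
  rw [CSb_prod, norm_mul] at h
  have h1 := norm_sum_Ico_ee_le_card t.1 l τ.2
  have h2 := norm_sum_Ico_ee_le_card t.2 l (-τ.1)
  have key : ∀ d : ℝ, 0 < d → β * (l : ℝ) ^ 2 ≤ l * (1 / (2 * d)) → d ≤ 1 / (2 * β) / l := by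
    intro d hd h3
    rw [div_div, le_div_iff₀ (by positivity)]
    have h4 : β * (l : ℝ) ^ 2 * (2 * d) ≤ l := by
      have h5 := mul_le_mul_of_nonneg_right h3 (by positivity : (0 : ℝ) ≤ 2 * d)
      have h6 : (l : ℝ) * (1 / (2 * d)) * (2 * d) = l := by field_simp
      rwa [h6] at h5
    have h7 : (l : ℝ) * (d * (2 * β * l)) ≤ l * 1 := by
      calc (l : ℝ) * (d * (2 * β * l)) = β * (l : ℝ) ^ 2 * (2 * d) := by ring
        _ ≤ l := h4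
        _ = l * 1 := (mul_one _).symm
    exact le_of_mul_le_mul_left h7 hl0
  constructor
  · rcases (dz_nonneg τ.1).eq_or_lt with h0 | h0
    · rw [← h0]
      positivity
    · refine key _ h0 (h.trans ?_)
      have h3 : 0 < dz (-τ.1) := by rw [dz_neg]; exact h0
      have h4 := norm_sum_Ico_ee_le t.2 l h3
      rw [dz_neg] at h4
      exact mul_le_mul h1 h4 (norm_nonneg _) hl0.le
  · rcases (dz_nonneg τ.2).eq_or_lt with h0 | h0
    · rw [← h0]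
      positivity
    · refine key _ h0 (h.trans ?_)
      have h4 := norm_sum_Ico_ee_le t.1 l h0
      rw [mul_comm (l : ℝ)]
      exact mul_le_mul h4 h2 (norm_nonneg _) (by positivity)

private theorem CSb_card_addq (X : Finset (ℤ × ℤ)) : (addq X).card ≤ X.card ^ 3 := by
  have h1 : (addq X).card ≤ (X ×ˢ X ×ˢ X).card := by
    refine Finset.card_le_card_of_injOn (fun p => (p.1, p.2.1, p.2.2.1)) ?_ ?_
    · intro p hp
      rw [Finset.mem_coe, addq, Finset.mem_filter] at hp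
      simp only [Finset.mem_product] at hp
      simp only [Finset.coe_product, Set.mem_prod, Finset.mem_coe]
      exact ⟨hp.1.1, hp.1.2.1, hp.1.2.2.1⟩
    · intro p hp q hq hpq
      rw [Finset.mem_coe, addq, Finset.mem_filter] at hp hq
      obtain ⟨a, b, c, d⟩ := p
      obtain ⟨a', b', c', d'⟩ := q
      simp only [Prod.mk.injEq] at hpq
      obtain ⟨rfl, rfl, rfl⟩ := hpq
      have h1 : a - b = c - d := hp.2
      have h2 : a - b = c - d' := hq.2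
      have h3 : d = d' := by
        rw [h1] at h2
        exact sub_right_injective h2
      rw [h3]
  refine h1.trans (le_of_eq ?_)
  rw [Finset.card_product, Finset.card_product]
  ring

/-- STEP 4b.  Proof: `cs_chain` gives `∑_{p ∈ addq X} |D_p|² ≥ (δ1⁸/4) l^10`.  Each `|D_p|² ≤ l⁴` and
`|addq X| ≤ |X|³ ≤ l⁶` (the fourth point is determined).  The `p` with `|D_p|² < (δ1⁸/8) l⁴` contribute at most
`(δ1⁸/8) l^10`, so the others are at least `(δ1⁸/8) l⁶` many; for them use `dz_tau_le` with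
`β = sqrt (δ1⁸/8)`; `C2 = 1/(2β)`, `δ3 = δ1⁸/8`. -/
theorem cs_main (δ1 : ℝ) (hδ : 0 < δ1) : ∃ δ3 : ℝ, 0 < δ3 ∧ ∃ C2 : ℝ, 0 < C2 ∧ ∀ l : ℕ, 1 ≤ l →
    ∀ (s t : ℤ × ℤ) (X Y : Finset (ℤ × ℤ)), X ⊆ sbox s l → Y ⊆ sbox t l →
    ∀ R : ℤ × ℤ → ℝ × ℝ,
    δ1 * (l : ℝ) ^ 4 ≤ ‖∑ x ∈ X, ∑ y ∈ Y, ee (cr (y - x) (R y - R x))‖ →
    δ3 * (l : ℝ) ^ 6 ≤ (quad X R (C2 / l)).card := by
  classical
  have hβ : 0 < Real.sqrt (δ1 ^ 8 / 8) := Real.sqrt_pos.2 (by positivity)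
  refine ⟨δ1 ^ 8 / 8, by positivity, 1 / (2 * Real.sqrt (δ1 ^ 8 / 8)), by positivity, ?_⟩
  intro l hl s t X Y hX hY R hS
  have hl0 : (0 : ℝ) < l := by exact_mod_cast hl
  have h1 := cs_chain l s t X Y hX hY R
  set D : (ℤ × ℤ) × (ℤ × ℤ) × (ℤ × ℤ) × (ℤ × ℤ) → ℝ :=
    fun p => ‖∑ y ∈ sbox t l, ee (cr y (tau R p))‖ with hD
  have h2 : (δ1 * (l : ℝ) ^ 4) ^ 8 ≤ 4 * (l : ℝ) ^ 22 * ∑ p ∈ addq X, D p ^ 2 :=
    (pow_le_pow_left₀ (by positivity) hS 8).trans h1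
  have h3 : δ1 ^ 8 / 4 * (l : ℝ) ^ 10 ≤ ∑ p ∈ addq X, D p ^ 2 := by
    have h4 : (4 * (l : ℝ) ^ 22) * (δ1 ^ 8 / 4 * (l : ℝ) ^ 10) ≤
        (4 * (l : ℝ) ^ 22) * ∑ p ∈ addq X, D p ^ 2 := by
      calc (4 * (l : ℝ) ^ 22) * (δ1 ^ 8 / 4 * (l : ℝ) ^ 10) = (δ1 * (l : ℝ) ^ 4) ^ 8 := by ring
        _ ≤ _ := h2
    exact le_of_mul_le_mul_left h4 (by positivity)
  have hDle : ∀ p, D p ≤ (l : ℝ) ^ 2 := by
    intro p
    have h5 : D p ≤ ∑ y ∈ sbox t l, ‖ee (cr y (tau R p))‖ := norm_sum_le _ _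
    refine h5.trans (le_of_eq ?_)
    simp only [norm_ee, Finset.sum_const, nsmul_eq_mul, mul_one, CSb_card_sbox]
    push_cast
    rfl
  have hDnn : ∀ p, 0 ≤ D p := fun p => norm_nonneg _
  have hcardX : (X.card : ℝ) ≤ (l : ℝ) ^ 2 := by
    have h6 := Finset.card_le_card hX
    rw [CSb_card_sbox] at h6
    exact_mod_cast h6
  have hadd : ((addq X).card : ℝ) ≤ (l : ℝ) ^ 6 := by
    have h7 : ((addq X).card : ℝ) ≤ (X.card : ℝ) ^ 3 := by exact_mod_cast CSb_card_addq X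
    calc ((addq X).card : ℝ) ≤ (X.card : ℝ) ^ 3 := h7
      _ ≤ ((l : ℝ) ^ 2) ^ 3 := pow_le_pow_left₀ (Nat.cast_nonneg _) hcardX 3
      _ = (l : ℝ) ^ 6 := by ring
  -- the good quadruples
  set Gd := (addq X).filter (fun p => δ1 ^ 8 / 8 * (l : ℝ) ^ 4 ≤ D p ^ 2) with hGd
  have h8 : ∑ p ∈ addq X, D p ^ 2 ≤ (Gd.card : ℝ) * (l : ℝ) ^ 4 + δ1 ^ 8 / 8 * (l : ℝ) ^ 10 := by
    rw [← Finset.sum_filter_add_sum_filter_not (addq X)
      (fun p => δ1 ^ 8 / 8 * (l : ℝ) ^ 4 ≤ D p ^ 2)]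
    refine add_le_add ?_ ?_
    · rw [← nsmul_eq_mul]
      refine Finset.sum_le_card_nsmul _ _ _ fun p _ => ?_
      calc D p ^ 2 ≤ ((l : ℝ) ^ 2) ^ 2 := pow_le_pow_left₀ (hDnn p) (hDle p) 2
        _ = (l : ℝ) ^ 4 := by ring
    · have h9 : ∑ p ∈ (addq X).filter (fun p => ¬ δ1 ^ 8 / 8 * (l : ℝ) ^ 4 ≤ D p ^ 2), D p ^ 2 ≤
          ((addq X).filter (fun p => ¬ δ1 ^ 8 / 8 * (l : ℝ) ^ 4 ≤ D p ^ 2)).card •
            (δ1 ^ 8 / 8 * (l : ℝ) ^ 4) := by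
        refine Finset.sum_le_card_nsmul _ _ _ fun p hp => ?_
        rw [Finset.mem_filter, not_le] at hp
        exact hp.2.le
      refine h9.trans ?_
      rw [nsmul_eq_mul]
      have h10 : (((addq X).filter (fun p => ¬ δ1 ^ 8 / 8 * (l : ℝ) ^ 4 ≤ D p ^ 2)).card : ℝ) ≤
          (l : ℝ) ^ 6 := by
        refine le_trans ?_ hadd
        exact_mod_cast Finset.card_filter_le _ _
      calc _ ≤ (l : ℝ) ^ 6 * (δ1 ^ 8 / 8 * (l : ℝ) ^ 4) :=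
            mul_le_mul_of_nonneg_right h10 (by positivity)
        _ = _ := by ring
  have h11 : δ1 ^ 8 / 8 * (l : ℝ) ^ 6 ≤ Gd.card := by
    have h12 : (l : ℝ) ^ 4 * (δ1 ^ 8 / 8 * (l : ℝ) ^ 6) ≤ (l : ℝ) ^ 4 * Gd.card := by
      nlinarith [h3, h8]
    exact le_of_mul_le_mul_left h12 (by positivity)
  have h13 : Gd ⊆ quad X R (1 / (2 * Real.sqrt (δ1 ^ 8 / 8)) / l) := by
    intro p hp
    rw [hGd, Finset.mem_filter] at hp
    have h14 : Real.sqrt (δ1 ^ 8 / 8) * (l : ℝ) ^ 2 ≤ D p := by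
      refine (pow_le_pow_iff_left₀ (by positivity) (hDnn p) two_ne_zero).1 ?_
      rw [mul_pow, Real.sq_sqrt (by positivity)]
      calc δ1 ^ 8 / 8 * ((l : ℝ) ^ 2) ^ 2 = δ1 ^ 8 / 8 * (l : ℝ) ^ 4 := by ring
        _ ≤ D p ^ 2 := hp.2
    have h15 := dz_tau_le hl t (tau R p) hβ h14
    exact Finset.mem_filter.2 ⟨hp.1, h15⟩
  calc δ1 ^ 8 / 8 * (l : ℝ) ^ 6 ≤ Gd.card := h11
    _ ≤ _ := by exact_mod_cast Finset.card_le_card h13

end

end Pool.Agent.Lib.MP_a768d2_co
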