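import Mathlib

/-!
# MP_a768d2_co: definitions for the polycrystal theorem
-/

namespace Pool.Agent.Lib.MP_a768d2_co

noncomputable section

/-- distance to the nearest integer -/
def dz (t : ℝ) : ℝ := |t - round t|

/-- cross product of an integer vector and a real vector -/
def cr (u : ℤ × ℤ) (v : ℝ × ℝ) : ℝ := (u.1 : ℝ) * v.2 - (u.2 : ℝ) * v.1

/-- sup norm of an integer vector -/
def nz (u : ℤ × ℤ) : ℤ := max |u.1| |u.2|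

/-- the box `[0, k)^2` -/
def box (k : ℕ) : Finset (ℤ × ℤ) := Finset.Ico 0 (k : ℤ) ×ˢ Finset.Ico 0 (k : ℤ)

/-- the box `s + [0, l)^2` -/
def sbox (s : ℤ × ℤ) (l : ℕ) : Finset (ℤ × ℤ) :=
  Finset.Ico s.1 (s.1 + l) ×ˢ Finset.Ico s.2 (s.2 + l)

/-- `e(t) = exp(2 π i t)` -/
def ee (t : ℝ) : ℂ := Complex.exp (2 * Real.pi * t * Complex.I)

/-- the pairs with coprime difference -/
def cop (X Y : Finset (ℤ × ℤ)) : Finset ((ℤ × ℤ) × (ℤ × ℤ)) :=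
  (X ×ˢ Y).filter (fun p => Int.gcd (p.2.1 - p.1.1) (p.2.2 - p.1.2) = 1)

/-- the affine map `x ↦ m x + a` -/
def aff (m : ℕ) (a x : ℤ × ℤ) : ℤ × ℤ := ((m : ℤ) * x.1 + a.1, (m : ℤ) * x.2 + a.2)

/-- the avoidance property: if `y - x = m u` with `u` primitive then `u × (T y - T x)` is at
distance at least `c |y - x|² / k²` (up to the error `ρ |u|`) from the integers -/
def Avoid (c ρ : ℝ) (k : ℕ) (E : Finset (ℤ × ℤ)) (T : ℤ × ℤ → ℝ × ℝ) : Prop :=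
  ∀ x ∈ E, ∀ y ∈ E, x ≠ y → ∀ (u : ℤ × ℤ) (m : ℤ), Int.gcd u.1 u.2 = 1 →
    y.1 - x.1 = m * u.1 → y.2 - x.2 = m * u.2 →
    c * ((m : ℝ) * nz u) ^ 2 / (k : ℝ) ^ 2 ≤ dz (cr u (T y - T x)) + ρ * nz u

/-- `T` is a Freiman homomorphism of order 6 on `E` up to the error `ρ` -/
def Hom6 (ρ : ℝ) (E : Finset (ℤ × ℤ)) (T : ℤ × ℤ → ℝ × ℝ) : Prop :=
  ∀ x y : Fin 6 → ℤ × ℤ, (∀ i, x i ∈ E) → (∀ i, y i ∈ E) → ∑ i, x i = ∑ i, y i →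
    |(∑ i, T (x i)).1 - (∑ i, T (y i)).1| ≤ ρ ∧ |(∑ i, T (x i)).2 - (∑ i, T (y i)).2| ≤ ρ

/-- `T` is small on `E` -/
def SmallOn (E : Finset (ℤ × ℤ)) (T : ℤ × ℤ → ℝ × ℝ) : Prop :=
  ∀ x ∈ E, |(T x).1| ≤ 1 / 100 ∧ |(T x).2| ≤ 1 / 100

/-- additive quadruples -/
def addq (X : Finset (ℤ × ℤ)) : Finset ((ℤ × ℤ) × (ℤ × ℤ) × (ℤ × ℤ) × (ℤ × ℤ)) :=
  (X ×ˢ X ×ˢ X ×ˢ X).filter (fun p => p.1 - p.2.1 = p.2.2.1 - p.2.2.2)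

/-- the alternating sum of `R` over a quadruple -/
def tau (R : ℤ × ℤ → ℝ × ℝ) (p : (ℤ × ℤ) × (ℤ × ℤ) × (ℤ × ℤ) × (ℤ × ℤ)) : ℝ × ℝ :=
  R p.1 - R p.2.1 - R p.2.2.1 + R p.2.2.2

open Classical in
/-- the additive quadruples whose alternating sum is within `r` of the integers -/
def quad (X : Finset (ℤ × ℤ)) (R : ℤ × ℤ → ℝ × ℝ) (r : ℝ) :
    Finset ((ℤ × ℤ) × (ℤ × ℤ) × (ℤ × ℤ) × (ℤ × ℤ)) :=
  (addq X).filter (fun p => dz (tau R p).1 ≤ r ∧ dz (tau R p).2 ≤ r)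

/-- discretisation of the values of `R` modulo 1 at scale `1/l` -/
def tt (l : ℕ) (R : ℤ × ℤ → ℝ × ℝ) (x : ℤ × ℤ) : ZMod l × ZMod l :=
  (((⌊(l : ℝ) * Int.fract (R x).1⌋ : ℤ) : ZMod l), ((⌊(l : ℝ) * Int.fract (R x).2⌋ : ℤ) : ZMod l))

/-- the graph of `tt` -/
def gam (l : ℕ) (R : ℤ × ℤ → ℝ × ℝ) (x : ℤ × ℤ) : (ℤ × ℤ) × (ZMod l × ZMod l) := (x, tt l R x)

/-- additive energy (difference form) -/
def en {G : Type} [AddCommGroup G] [DecidableEq G] (A : Finset G) : ℕ :=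
  (((A ×ˢ A) ×ˢ (A ×ˢ A)).filter (fun p => p.1.1 - p.1.2 = p.2.1 - p.2.2)).card

/-- size of an element of `(Z/l)^2`, as an element of the torus -/
def nrm {l : ℕ} (h : ZMod l × ZMod l) : ℝ :=
  max |((h.1.valMinAbs : ℤ) : ℝ)| |((h.2.valMinAbs : ℤ) : ℝ)| / (l : ℝ)

end

end Pool.Agent.Lib.MP_a768d2_co
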