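import Pool.Agent.Lib.MP_a768d2_co.Dz

/-! # Density along progressions; the wrapping lemma (job Den) -/

namespace Pool.Agent.Lib.MP_a768d2_co

noncomputable section

/-- Averaging over `x0` in the square `[-L|v|, k + L|v|)²`, which has at most `(5k/4)² ≤ 2 k²` points: every
`x ∈ E` and `i < L` come from exactly one `x0 = x - i v`. -/
theorem exists_dense_line {k : ℕ} (hk : 1 ≤ k) {E : Finset (ℤ × ℤ)} (hE : E ⊆ box k) {κ : ℝ}
    (hκ : κ * (k : ℝ) ^ 2 ≤ E.card) (v : ℤ × ℤ) (L : ℕ) (hL : 8 * (L : ℤ) * nz v ≤ k) :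
    ∃ x0 : ℤ × ℤ, κ / 2 * L ≤
      ((Finset.range L).filter
        (fun i : ℕ => (x0.1 + (i : ℤ) * v.1, x0.2 + (i : ℤ) * v.2) ∈ E)).card := by
  classical
  by_cases hκL : κ / 2 * L ≤ 0
  · exact ⟨0, hκL.trans (Nat.cast_nonneg _)⟩
  push Not at hκL
  have hk0 : (0 : ℝ) < k := by exact_mod_cast hk
  have hnz0 : 0 ≤ nz v := le_trans (abs_nonneg v.1) (le_max_left _ _)
  obtain ⟨w, hw⟩ : ∃ w : ℕ, (w : ℤ) = (L : ℤ) * nz v :=
    ⟨((L : ℤ) * nz v).toNat, Int.toNat_of_nonneg (mul_nonneg (by positivity) hnz0)⟩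
  have hw8 : 8 * w ≤ k := by
    have : 8 * (w : ℤ) ≤ k := by rw [hw]; linarith
    exact_mod_cast this
  set Q : Finset (ℤ × ℤ) := Finset.Ico (-(w : ℤ)) (k + w) ×ˢ Finset.Ico (-(w : ℤ)) (k + w) with hQ
  have hQcard : (Q.card : ℝ) ≤ 2 * (k : ℝ) ^ 2 := by
    rw [hQ, Finset.card_product, Int.card_Ico]
    have : ((k : ℤ) + w - (-(w : ℤ))).toNat = k + 2 * w := by omega
    rw [this]
    push_cast
    have h1 : 8 * (w : ℝ) ≤ k := by exact_mod_cast hw8
    have h2 : (0 : ℝ) ≤ w := Nat.cast_nonneg _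
    nlinarith
  have hQne : Q.Nonempty := by
    refine ⟨(0, 0), ?_⟩
    rw [hQ, Finset.mem_product, Finset.mem_Ico]
    simp only
    omega
  set P := E ×ˢ Finset.range L with hP
  let F : (ℤ × ℤ) × ℕ → ℤ × ℤ := fun p => (p.1.1 - (p.2 : ℤ) * v.1, p.1.2 - (p.2 : ℤ) * v.2)
  have hmaps : ∀ p ∈ P, F p ∈ Q := by
    intro p hp
    rw [hP, Finset.mem_product, Finset.mem_range] at hp
    have hb := hE hp.1
    unfold box at hb
    rw [Finset.mem_product, Finset.mem_Ico, Finset.mem_Ico] at hb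
    have gen : ∀ t u : ℤ, |t| ≤ nz v → 0 ≤ u → u < k →
        u - (p.2 : ℤ) * t ∈ Finset.Ico (-(w : ℤ)) (k + w) := by
      intro t u ht hu0 hu1
      have h1 : |(p.2 : ℤ) * t| ≤ w := by
        rw [abs_mul, hw, abs_of_nonneg (by positivity : (0 : ℤ) ≤ p.2)]
        have h2 : (p.2 : ℤ) ≤ L := by exact_mod_cast hp.2.le
        exact mul_le_mul h2 ht (abs_nonneg _) (by positivity)
      have h2 := abs_le.mp h1
      rw [Finset.mem_Ico]
      constructor
      · linarith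
      · linarith
    rw [hQ, Finset.mem_product]
    exact ⟨gen _ _ (le_max_left _ _) hb.1.1 hb.1.2, gen _ _ (le_max_right _ _) hb.2.1 hb.2.2⟩
  have hPcard : (P.card : ℝ) = E.card * L := by
    rw [hP, Finset.card_product, Finset.card_range]
    push_cast
    ring
  have hex : ∃ x0 ∈ Q, κ / 2 * L ≤ ((P.filter (fun p => F p = x0)).card : ℝ) := by
    by_contra hcon
    push Not at hcon
    have h1 : (P.card : ℝ) = ∑ x ∈ Q, ((P.filter (fun p => F p = x)).card : ℝ) := by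
      rw [← Nat.cast_sum]
      congr 1
      exact Finset.card_eq_sum_card_fiberwise hmaps
    have h2 : ∑ x ∈ Q, ((P.filter (fun p => F p = x)).card : ℝ) < ∑ x ∈ Q, κ / 2 * L :=
      Finset.sum_lt_sum_of_nonempty hQne hcon
    rw [Finset.sum_const, nsmul_eq_mul, ← h1, hPcard] at h2
    have h3 : (Q.card : ℝ) * (κ / 2 * L) ≤ 2 * (k : ℝ) ^ 2 * (κ / 2 * L) :=
      mul_le_mul_of_nonneg_right hQcard hκL.le
    have h4 : κ * (k : ℝ) ^ 2 * L ≤ E.card * L :=
      mul_le_mul_of_nonneg_right hκ (Nat.cast_nonneg _)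
    nlinarith
  obtain ⟨x0, _, hx0⟩ := hex
  refine ⟨x0, hx0.trans ?_⟩
  have hcard : (P.filter (fun p => F p = x0)).card ≤ ((Finset.range L).filter
        (fun i : ℕ => (x0.1 + (i : ℤ) * v.1, x0.2 + (i : ℤ) * v.2) ∈ E)).card := by
    refine Finset.card_le_card_of_injOn Prod.snd ?_ ?_
    · intro p hp
      obtain ⟨hpP, hpF⟩ := Finset.mem_filter.mp (Finset.mem_coe.mp hp)
      rw [hP, Finset.mem_product] at hpP
      rw [Finset.mem_coe, Finset.mem_filter]
      refine ⟨hpP.2, ?_⟩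
      have e : (x0.1 + (p.2 : ℤ) * v.1, x0.2 + (p.2 : ℤ) * v.2) = p.1 := by
        rw [← hpF]
        apply Prod.ext
        · show p.1.1 - (p.2 : ℤ) * v.1 + p.2 * v.1 = p.1.1
          ring
        · show p.1.2 - (p.2 : ℤ) * v.2 + p.2 * v.2 = p.1.2
          ring
      rw [e]
      exact hpP.1
    · intro p hp q hq hpq
      have hp' := (Finset.mem_filter.mp (Finset.mem_coe.mp hp)).2
      have hq' := (Finset.mem_filter.mp (Finset.mem_coe.mp hq)).2
      have e : F p = F q := hp'.trans hq'.symm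
      have e1 : p.1.1 - (p.2 : ℤ) * v.1 = q.1.1 - (q.2 : ℤ) * v.1 := congrArg Prod.fst e
      have e2 : p.1.2 - (p.2 : ℤ) * v.2 = q.1.2 - (q.2 : ℤ) * v.2 := congrArg Prod.snd e
      have e0 : p.2 = q.2 := hpq
      rw [e0] at e1 e2
      refine Prod.ext (Prod.ext ?_ ?_) e0
      · linarith
      · linarith
  exact_mod_cast hcard

/-- A set `I ⊆ [0,L)` with at least `n` elements contains two elements at distance `≥ n - 1`. -/
theorem exists_far_pair {L : ℕ} {I : Finset ℕ} (hI : I ⊆ Finset.range L) {a : ℝ}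
    (h : a ≤ I.card) (h2 : 2 ≤ a) : ∃ i ∈ I, ∃ j ∈ I, i < j ∧ a - 1 ≤ (j : ℝ) - i := by
  have _ := hI
  have hne : I.Nonempty := by
    rw [← Finset.card_pos]
    have : (0 : ℝ) < I.card := by linarith
    exact_mod_cast this
  have hsub : I ⊆ Finset.Icc (I.min' hne) (I.max' hne) := by
    intro i hi
    rw [Finset.mem_Icc]
    exact ⟨I.min'_le i hi, I.le_max' i hi⟩
  have hc := Finset.card_le_card hsub
  rw [Nat.card_Icc] at hc
  have hle : I.min' hne ≤ I.max' hne := I.min'_le _ (I.max'_mem hne)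
  have hc2 : I.card + I.min' hne ≤ I.max' hne + 1 := by omega
  have hc3 : (I.card : ℝ) + (I.min' hne : ℕ) ≤ (I.max' hne : ℕ) + 1 := by exact_mod_cast hc2
  refine ⟨I.min' hne, I.min'_mem hne, I.max' hne, I.max'_mem hne, ?_, by linarith⟩
  have h3 : ((I.min' hne : ℕ) : ℝ) < (I.max' hne : ℕ) := by linarith
  exact_mod_cast h3

/-- a finite set of integers of diameter at most `D` has at most `D + 1` elements -/
private theorem Den_diam {A : Finset ℤ} {D : ℝ} (hD : 0 ≤ D)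
    (h : ∀ i ∈ A, ∀ j ∈ A, i < j → (j : ℝ) - i ≤ D) : (A.card : ℝ) ≤ D + 1 := by
  rcases A.eq_empty_or_nonempty with rfl | hne
  · simp
    linarith
  have hsub : A ⊆ Finset.Icc (A.min' hne) (A.max' hne) := by
    intro i hi
    rw [Finset.mem_Icc]
    exact ⟨A.min'_le i hi, A.le_max' i hi⟩
  have hc := Finset.card_le_card hsub
  rw [Int.card_Icc] at hc
  have hle : A.min' hne ≤ A.max' hne := A.min'_le _ (A.max'_mem hne)
  have hc2 : (A.card : ℤ) ≤ A.max' hne + 1 - A.min' hne := by omega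
  have hc3 : (A.card : ℝ) ≤ (A.max' hne : ℤ) + 1 - (A.min' hne : ℤ) := by exact_mod_cast hc2
  rcases hle.lt_or_eq with hlt | heq
  · have := h _ (A.min'_mem hne) _ (A.max'_mem hne) hlt
    linarith
  · rw [← heq] at hc3
    linarith

/-- one class -/
private theorem Den_class {l0 δ q : ℝ} (hδ : 0 < δ) (hl : 0 ≤ l0) (hq0 : 0 < q)
    {A : Finset ℕ} (ρ : ℤ) (hρ : ∀ i ∈ A, ⌊Int.fract ((i : ℝ) * q) / δ⌋ = ρ)
    (hd : ∀ i ∈ A, ∀ j ∈ A, i < j → (j : ℝ) - i ≤ l0) :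
    (A.card : ℝ) ≤ (l0 * q + 2) * (δ / q + 1) := by
  classical
  set Z := A.image (fun i : ℕ => ⌊(i : ℝ) * q⌋) with hZ
  have hZcard : (Z.card : ℝ) ≤ (l0 * q + 1) + 1 := by
    apply Den_diam (by positivity)
    intro z hz z' hz' hlt
    rw [hZ, Finset.mem_image] at hz hz'
    obtain ⟨i, hi, rfl⟩ := hz
    obtain ⟨j, hj, rfl⟩ := hz'
    have hij : i < j := by
      by_contra hcon
      push Not at hcon
      have h1 : (j : ℝ) * q ≤ i * q :=
        mul_le_mul_of_nonneg_right (by exact_mod_cast hcon) hq0.le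
      have h2 := Int.floor_le_floor h1
      omega
    have h1 := hd i hi j hj hij
    have h2 := Int.floor_le ((j : ℝ) * q)
    have h3 := Int.lt_floor_add_one ((i : ℝ) * q)
    have h4 : ((j : ℝ) - i) * q ≤ l0 * q := mul_le_mul_of_nonneg_right h1 hq0.le
    linarith
  have hfib : ∀ z ∈ Z, ((A.filter (fun i : ℕ => ⌊(i : ℝ) * q⌋ = z)).card : ℝ) ≤ δ / q + 1 := by
    intro z _
    have hc : ((A.filter (fun i : ℕ => ⌊(i : ℝ) * q⌋ = z)).image (fun i : ℕ => (i : ℤ))).card =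
        (A.filter (fun i : ℕ => ⌊(i : ℝ) * q⌋ = z)).card :=
      Finset.card_image_of_injective _ (fun a b hab => by exact_mod_cast hab)
    rw [← hc]
    apply Den_diam (by positivity)
    intro i hi j hj hij
    rw [Finset.mem_image] at hi hj
    obtain ⟨i', hi', rfl⟩ := hi
    obtain ⟨j', hj', rfl⟩ := hj
    rw [Finset.mem_filter] at hi' hj'
    have h1 := hρ i' hi'.1
    have h2 := hρ j' hj'.1
    have h3 : |Int.fract ((i' : ℝ) * q) / δ - Int.fract ((j' : ℝ) * q) / δ| < 1 :=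
      Int.abs_sub_lt_one_of_floor_eq_floor (h1.trans h2.symm)
    have h4 : (i' : ℝ) * q = z + Int.fract ((i' : ℝ) * q) := by
      have := Int.floor_add_fract ((i' : ℝ) * q)
      rw [hi'.2] at this
      exact this.symm
    have h5 : (j' : ℝ) * q = z + Int.fract ((j' : ℝ) * q) := by
      have := Int.floor_add_fract ((j' : ℝ) * q)
      rw [hj'.2] at this
      exact this.symm
    rw [← sub_div, abs_div, abs_of_pos hδ, div_lt_one hδ] at h3
    have h6 := neg_abs_le (Int.fract ((i' : ℝ) * q) - Int.fract ((j' : ℝ) * q))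
    rw [le_div_iff₀ hq0]
    push_cast
    linarith
  have h1 : (A.card : ℝ) = ∑ z ∈ Z, ((A.filter (fun i : ℕ => ⌊(i : ℝ) * q⌋ = z)).card : ℝ) := by
    rw [← Nat.cast_sum]
    congr 1
    exact Finset.card_eq_sum_card_image _ A
  have h2 := Finset.sum_le_sum hfib
  rw [← h1, Finset.sum_const, nsmul_eq_mul] at h2
  refine h2.trans ?_
  apply mul_le_mul_of_nonneg_right _ (by positivity)
  linarith

private theorem Den_wrap_pos {κ δ q : ℝ} (hκ : 0 < κ) (hδ : 0 < δ) (hδ1 : δ ≤ 1 / 16) {L : ℕ}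
    (hq0 : 0 < q) (hq : 16 * q ≤ δ) (hq2 : 10 ≤ κ * L * q) {I : Finset ℕ}
    (hc : κ / 2 * L ≤ I.card) :
    ∃ i ∈ I, ∃ j ∈ I, i < j ∧ κ / 8 * L ≤ (j : ℝ) - i ∧ dz (((j : ℝ) - i) * q) ≤ δ := by
  classical
  by_contra hcon
  push Not at hcon
  set l0 : ℝ := κ / 8 * L with hl0
  have hl0' : 0 ≤ l0 := by positivity
  let f : ℕ → ℤ := fun i => ⌊Int.fract ((i : ℝ) * q) / δ⌋
  set Cl := I.image f with hCl
  have hclass : ∀ ρ ∈ Cl, ((I.filter (fun i => f i = ρ)).card : ℝ) ≤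
      (l0 * q + 2) * (δ / q + 1) := by
    intro ρ _
    apply Den_class hδ hl0' hq0 ρ
    · intro i hi
      exact (Finset.mem_filter.mp hi).2
    · intro i hi j hj hij
      rw [Finset.mem_filter] at hi hj
      by_contra hlt
      push Not at hlt
      have h1 := hcon i hi.1 j hj.1 hij hlt.le
      have h2 : |Int.fract ((i : ℝ) * q) / δ - Int.fract ((j : ℝ) * q) / δ| < 1 :=
        Int.abs_sub_lt_one_of_floor_eq_floor (hi.2.trans hj.2.symm)
      rw [← sub_div, abs_div, abs_of_pos hδ, div_lt_one hδ] at h2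
      have h3 := dz_le_abs_sub (((j : ℝ) - i) * q) (⌊(j : ℝ) * q⌋ - ⌊(i : ℝ) * q⌋)
      have h4 := Int.floor_add_fract ((i : ℝ) * q)
      have h5 := Int.floor_add_fract ((j : ℝ) * q)
      have h6 : ((j : ℝ) - i) * q - ((⌊(j : ℝ) * q⌋ - ⌊(i : ℝ) * q⌋ : ℤ) : ℝ) =
          -(Int.fract ((i : ℝ) * q) - Int.fract ((j : ℝ) * q)) := by
        push_cast
        linarith
      rw [h6, abs_neg] at h3
      linarith
  have hClcard : (Cl.card : ℝ) ≤ 1 / δ + 1 := by
    apply Den_diam (by positivity)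
    intro z hz z' hz' _
    rw [hCl, Finset.mem_image] at hz hz'
    obtain ⟨i, _, rfl⟩ := hz
    obtain ⟨j, _, rfl⟩ := hz'
    have h1 : (0 : ℤ) ≤ f i := Int.floor_nonneg.mpr (div_nonneg (Int.fract_nonneg _) hδ.le)
    have h1' : (0 : ℝ) ≤ f i := by exact_mod_cast h1
    have h2 : (f j : ℝ) ≤ Int.fract ((j : ℝ) * q) / δ := Int.floor_le _
    have h3 : Int.fract ((j : ℝ) * q) / δ ≤ 1 / δ :=
      div_le_div_of_nonneg_right (Int.fract_lt_one _).le hδ.le
    linarith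
  have h1 : (I.card : ℝ) = ∑ ρ ∈ Cl, ((I.filter (fun i => f i = ρ)).card : ℝ) := by
    rw [← Nat.cast_sum]
    congr 1
    exact Finset.card_eq_sum_card_image _ I
  have h2 := Finset.sum_le_sum hclass
  rw [← h1, Finset.sum_const, nsmul_eq_mul] at h2
  have h3 : (Cl.card : ℝ) * ((l0 * q + 2) * (δ / q + 1)) ≤
      (1 / δ + 1) * ((l0 * q + 2) * (δ / q + 1)) :=
    mul_le_mul_of_nonneg_right hClcard (by positivity)
  -- the numerical estimate
  have hL0 : 0 < κ * L := by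
    by_contra hle
    push Not at hle
    nlinarith
  have h4 : (1 / δ + 1) * ((l0 * q + 2) * (δ / q + 1)) =
      (1 + δ) * (1 + q / δ) * (l0 + 2 / q) := by
    field_simp
  have h5 : q / δ ≤ 1 / 16 := by
    rw [div_le_iff₀ hδ]
    linarith
  have h6 : 2 / q ≤ κ * L / 5 := by
    rw [div_le_iff₀ hq0]
    linarith
  have h7 : l0 + 2 / q ≤ 13 / 40 * (κ * L) := by
    rw [hl0]
    linarith
  have h8 : (1 + δ) * (1 + q / δ) ≤ 289 / 256 := by
    have h9 : 0 ≤ q / δ := by positivity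
    nlinarith
  have h10 : (1 + δ) * (1 + q / δ) * (l0 + 2 / q) ≤ 289 / 256 * (13 / 40 * (κ * L)) :=
    mul_le_mul h8 h7 (by positivity) (by norm_num)
  rw [h4] at h3
  have h11 : κ / 2 * L = 1 / 2 * (κ * L) := by ring
  rw [h11] at hc
  linarith

/-- WRAPPING LEMMA.  Proof: replace `q` by `|q|` (`dz` is even).  Suppose not.  Classes
`ρ(i) = ⌊fract (i q)/δ⌋ ∈ {0,...,⌊1/δ⌋}`: two elements of one class satisfy `dz ((j-i) q) ≤ δ`, so the class `I_ρ`
lies in an interval of length `l0 = κ L/8`.  In an interval of length `l0` the `i` with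
`fract (i q) ∈ [ρδ, (ρ+1)δ)` number at most `(l0 q + 2)(δ/q + 1)`: `i q ∈ [z + ρδ, z + (ρ+1)δ)` for at most
`l0 q + 2` integers `z`, each with at most `δ/q + 1` values of `i`.  Sum over at most `1/δ + 1` classes:
`|I| ≤ (1 + δ)(l0 + 2/q + l0 q/δ + 2/δ) ≤ (17/16)((17/16) κL/8 + (17/8)(κL/10)) < κL/2`. -/
theorem wrap {κ δ q : ℝ} (hκ : 0 < κ) (hδ : 0 < δ) (hδ1 : δ ≤ 1 / 16) {L : ℕ} (hq0 : q ≠ 0)
    (hq : 16 * |q| ≤ δ) (hq2 : 10 ≤ κ * L * |q|) {I : Finset ℕ} (hI : I ⊆ Finset.range L)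
    (hc : κ / 2 * L ≤ I.card) :
    ∃ i ∈ I, ∃ j ∈ I, i < j ∧ κ / 8 * L ≤ (j : ℝ) - i ∧ dz (((j : ℝ) - i) * q) ≤ δ := by
  have _ := hI
  obtain ⟨i, hi, j, hj, hij, h1, h2⟩ := Den_wrap_pos hκ hδ hδ1 (abs_pos.mpr hq0) hq hq2 hc
  refine ⟨i, hi, j, hj, hij, h1, ?_⟩
  rcases abs_choice q with h | h
  · rwa [h] at h2
  · rw [h, mul_neg, dz_neg] at h2
    exact h2

end

end Pool.Agent.Lib.MP_a768d2_co
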