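import Pool.Agent.Lib.MP_a768d2_co.Dz

/-! # A Dirichlet type approximation with macroscopic first coordinate (job Dir) -/

namespace Pool.Agent.Lib.MP_a768d2_co

noncomputable section

/-- Induction on `d`.  `d = 0`: `V = {1}`, `m = 1`, `η = 1/k`, `k0 ≥ G 1` (and `k0 ≥ 1`).
Step `d → d+1`: put `A ν = ⌈max 1 (G ν)⌉₊` (a natural number `≥ 1`), and apply the case `d` to
`G' ν = max (A ν ^ 2) (A ν * max 1 (G (ν / A ν)))` and to the first `d` frequencies: `ν, m, η`, `A = A ν`.  Let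
`φ = m θ_{d+1}` and `Q = ⌊1/(A η)⌋₊ ≥ 1`.  By Dirichlet (in Mathlib e.g. `Real.exists_nat_abs_mul_sub_round_le`) there is
`1 ≤ i ≤ Q` with `dz (i φ) ≤ 1/(Q+1) ≤ A η`.  Put `m' = i m`.  If `i ≥ A` take `η' = i η`, `ν' = ν`: then
`dz (m' θ_l) ≤ i η`, `dz (m' θ_{d+1}) ≤ A η ≤ η'`, `m' ≤ i η k`, `m' ≥ ν i η k`, and
`η' ≤ Q η ≤ 1/A ≤ 1/G ν`.  If `i < A` take `η' = A η`, `ν' = ν/A`: `m' ≤ i η k ≤ η' k`,
`m' ≥ ν η k = ν' η' k`, `η' = A η ≤ A/G' ν ≤ 1/G (ν/A)`.  The new `V` is the union of `V` and its image under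
`ν ↦ ν / A ν`. -/
theorem dir (d : ℕ) (G : ℝ → ℝ) : ∃ V : Finset ℝ, (∀ ν ∈ V, 0 < ν ∧ ν ≤ 1) ∧ ∃ k0 : ℕ,
    ∀ k : ℕ, k0 ≤ k → ∀ θ : Fin d → ℝ, ∃ ν ∈ V, ∃ m : ℕ, 1 ≤ m ∧ ∃ η : ℝ, 0 < η ∧
      η * G ν ≤ 1 ∧ η ≤ 1 ∧ (∀ i, dz (m * θ i) ≤ η) ∧ (m : ℝ) ≤ η * k ∧ ν * η * k ≤ m := by
  induction d generalizing G with
  | zero =>
    refine ⟨{1}, fun ν hν => ?_, max 1 ⌈G 1⌉₊, fun k hk θ => ?_⟩
    · rw [Finset.mem_singleton] at hν
      rw [hν]
      exact ⟨one_pos, le_rfl⟩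
    · have hk1 : 1 ≤ k := le_trans (le_max_left _ _) hk
      have hk2 : ⌈G 1⌉₊ ≤ k := le_trans (le_max_right _ _) hk
      have hk3 : G 1 ≤ k := le_trans (Nat.le_ceil _) (by exact_mod_cast hk2)
      have hk4 : (1 : ℝ) ≤ k := by exact_mod_cast hk1
      have hk0 : (0 : ℝ) < k := by linarith
      refine ⟨1, Finset.mem_singleton_self 1, 1, le_rfl, 1 / (k : ℝ), by positivity, ?_, ?_,
        fun i => i.elim0, ?_, ?_⟩
      · rw [one_div, inv_mul_le_iff₀ hk0]
        linarith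
      · rw [div_le_one hk0]
        exact hk4
      · rw [one_div, inv_mul_cancel₀ hk0.ne']
        norm_num
      · rw [one_mul, one_div, inv_mul_cancel₀ hk0.ne']
        norm_num
  | succ d ih =>
    obtain ⟨A, hA⟩ : ∃ A : ℝ → ℕ, ∀ ν, 1 ≤ A ν ∧ G ν ≤ A ν := by
      refine ⟨fun ν => ⌈max 1 (G ν)⌉₊, fun ν => ⟨?_, ?_⟩⟩
      · have h1 : (1 : ℝ) ≤ ⌈max 1 (G ν)⌉₊ := le_trans (le_max_left _ _) (Nat.le_ceil _)
        exact_mod_cast h1
      · exact le_trans (le_max_right _ _) (Nat.le_ceil _)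
    obtain ⟨V, hV, k0, h⟩ := ih
      (fun ν => max ((A ν : ℝ) ^ 2) ((A ν : ℝ) * max 1 (G (ν / A ν))))
    classical
    refine ⟨V ∪ V.image (fun ν => ν / A ν), fun ν hν => ?_, k0, fun k hk θ => ?_⟩
    · rw [Finset.mem_union, Finset.mem_image] at hν
      rcases hν with hν | ⟨ν', hν', rfl⟩
      · exact hV ν hν
      · obtain ⟨h1, h2⟩ := hV ν' hν'
        have h3 : (1 : ℝ) ≤ A ν' := by exact_mod_cast (hA ν').1
        refine ⟨by positivity, ?_⟩
        rw [div_le_one (by linarith)]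
        linarith
    · obtain ⟨ν, hν, m, hm, η, hη0, hηG, hη1, hdz, hmk, hmk'⟩ := h k hk (fun i => θ i.castSucc)
      obtain ⟨a, ha⟩ : ∃ a : ℕ, a = A ν := ⟨_, rfl⟩
      have ha1 : (1 : ℝ) ≤ a := by rw [ha]; exact_mod_cast (hA ν).1
      have haG : G ν ≤ a := by rw [ha]; exact (hA ν).2
      simp only [← ha] at hηG
      have e1 : η * (a : ℝ) ^ 2 ≤ 1 :=
        le_trans (mul_le_mul_of_nonneg_left (le_max_left _ _) hη0.le) hηG
      have e2 : η * ((a : ℝ) * max 1 (G (ν / a))) ≤ 1 :=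
        le_trans (mul_le_mul_of_nonneg_left (le_max_right _ _) hη0.le) hηG
      have ha0 : (0 : ℝ) < a := by linarith
      have haη : 0 < a * η := mul_pos ha0 hη0
      have haη1 : a * η ≤ 1 := by
        have : a * η ≤ η * (a : ℝ) ^ 2 := by
          have := mul_le_mul_of_nonneg_left ha1 haη.le
          nlinarith
        linarith
      obtain ⟨Q, hQ⟩ : ∃ Q : ℕ, Q = ⌊1 / (a * η)⌋₊ := ⟨_, rfl⟩
      have hQ1 : 0 < Q := by
        rw [hQ, Nat.floor_pos, le_div_iff₀ haη]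
        linarith
      have hQ2 : (Q : ℝ) ≤ 1 / (a * η) := by
        rw [hQ]
        exact Nat.floor_le (by positivity)
      have hQ3 : 1 / (a * η) < Q + 1 := by
        rw [hQ]
        exact Nat.lt_floor_add_one _
      obtain ⟨i, hi0, hiQ, hi⟩ := Real.exists_nat_abs_mul_sub_round_le (m * θ (Fin.last d)) hQ1
      have hi1 : (1 : ℝ) ≤ i := by exact_mod_cast hi0
      have hm1 : (1 : ℝ) ≤ m := by exact_mod_cast hm
      have hlast : dz (i * (m * θ (Fin.last d))) ≤ a * η := by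
        refine le_trans hi ?_
        rw [div_le_iff₀ (by positivity)]
        rw [div_lt_iff₀ haη] at hQ3
        linarith
      have hfst : ∀ l : Fin d, dz (i * (m * θ l.castSucc)) ≤ i * η := fun l =>
        le_trans (dz_nat_mul_le _ _) (mul_le_mul_of_nonneg_left (hdz l) (by positivity))
      have hiη : i * η * a ≤ 1 := by
        have h1 : (i : ℝ) ≤ Q := by exact_mod_cast hiQ
        rw [le_div_iff₀ haη] at hQ2
        have h2 := mul_le_mul_of_nonneg_right h1 haη.le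
        nlinarith
      have hcast : ∀ t : ℝ, ((i * m : ℕ) : ℝ) * t = i * (m * t) := by
        intro t
        push_cast
        ring
      have him : ((i * m : ℕ) : ℝ) = i * m := by push_cast; ring
      have hkk : (0 : ℝ) ≤ k := by positivity
      rcases le_or_gt a i with hai | hai
      · -- `i ≥ A`
        have hai' : (a : ℝ) ≤ i := by exact_mod_cast hai
        refine ⟨ν, Finset.mem_union_left _ hν, i * m, Nat.mul_pos hi0 hm, i * η, by positivity,
          ?_, ?_, ?_, ?_, ?_⟩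
        · have h1 : i * η * G ν ≤ i * η * a := mul_le_mul_of_nonneg_left haG (by positivity)
          linarith
        · have h1 : i * η * 1 ≤ i * η * a := mul_le_mul_of_nonneg_left ha1 (by positivity)
          linarith
        · intro l
          rw [hcast]
          refine Fin.lastCases ?_ (fun l => ?_) l
          · exact hlast.trans (mul_le_mul_of_nonneg_right hai' hη0.le)
          · exact hfst l
        · rw [him, mul_assoc]
          exact mul_le_mul_of_nonneg_left hmk (by positivity)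
        · rw [him]
          have h1 := mul_le_mul_of_nonneg_left hmk' (by positivity : (0 : ℝ) ≤ i)
          linarith
      · -- `i < A`
        have hai' : (i : ℝ) ≤ a := by exact_mod_cast hai.le
        refine ⟨ν / a, Finset.mem_union_right _ (Finset.mem_image.2 ⟨ν, hν, by rw [ha]⟩), i * m,
          Nat.mul_pos hi0 hm, a * η, haη, ?_, haη1, ?_, ?_, ?_⟩
        · have h1 : a * η * G (ν / a) ≤ a * η * max 1 (G (ν / a)) :=
            mul_le_mul_of_nonneg_left (le_max_right _ _) haη.le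
          linarith
        · intro l
          rw [hcast]
          refine Fin.lastCases ?_ (fun l => ?_) l
          · exact hlast
          · exact (hfst l).trans (mul_le_mul_of_nonneg_right hai' hη0.le)
        · rw [him]
          have h1 := mul_le_mul_of_nonneg_left hmk (by positivity : (0 : ℝ) ≤ i)
          have h2 := mul_le_mul_of_nonneg_right hai' (mul_nonneg hη0.le hkk)
          linarith
        · have h0 : ν / a * (a * η) * k = ν * η * k := by
            field_simp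
          rw [h0, him]
          have h2 := mul_le_mul_of_nonneg_right hi1 (by positivity : (0 : ℝ) ≤ m)
          linarith

/-- Apply `dir` to `ν ↦ G (ν/2)`; `M = G (ν/2)`, `j = ⌊1/(M η)⌋₊ ≥ 1`, `1/(2M) ≤ j η ≤ 1/M`, `m' = j m`,
`ν' = ν/2`. -/
theorem dir' (d : ℕ) (G : ℝ → ℕ) (hG : ∀ ν, 1 ≤ G ν) : ∃ V : Finset ℝ,
    (∀ ν ∈ V, 0 < ν ∧ ν ≤ 1) ∧ ∃ k0 : ℕ, ∀ k : ℕ, k0 ≤ k → ∀ θ : Fin d → ℝ, ∃ ν ∈ V,
      ∃ m : ℕ, 1 ≤ m ∧ (∀ i, dz (m * θ i) ≤ 1 / (G ν : ℝ)) ∧ (m : ℝ) * G ν ≤ k ∧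
        ν * k ≤ m * G ν := by
  obtain ⟨V, hV, k0, h⟩ := dir d (fun ν => (G (ν / 2) : ℝ))
  classical
  refine ⟨V.image (fun ν => ν / 2), fun ν hν => ?_, k0, fun k hk θ => ?_⟩
  · rw [Finset.mem_image] at hν
    obtain ⟨ν', hν', rfl⟩ := hν
    obtain ⟨h1, h2⟩ := hV ν' hν'
    exact ⟨by positivity, by linarith⟩
  · obtain ⟨ν, hν, m, hm, η, hη0, hηG, hη1, hdz, hmk, hmk'⟩ := h k hk θ
    obtain ⟨M, hM⟩ : ∃ M : ℕ, M = G (ν / 2) := ⟨_, rfl⟩
    simp only [← hM] at hηG
    have hM1 : (1 : ℝ) ≤ M := by rw [hM]; exact_mod_cast hG _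
    have hM0 : (0 : ℝ) < M := by linarith
    have hMη : 0 < M * η := mul_pos hM0 hη0
    obtain ⟨j, hj⟩ : ∃ j : ℕ, j = ⌊1 / (M * η)⌋₊ := ⟨_, rfl⟩
    have hj1 : 0 < j := by
      rw [hj, Nat.floor_pos, le_div_iff₀ hMη]
      linarith
    have hj2 : (j : ℝ) ≤ 1 / (M * η) := by
      rw [hj]
      exact Nat.floor_le (by positivity)
    have hj3 : 1 / (M * η) < j + 1 := by
      rw [hj]
      exact Nat.lt_floor_add_one _
    have hj1' : (1 : ℝ) ≤ j := by exact_mod_cast hj1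
    rw [le_div_iff₀ hMη] at hj2
    rw [div_lt_iff₀ hMη] at hj3
    have hkk : (0 : ℝ) ≤ k := by positivity
    have him : ((j * m : ℕ) : ℝ) = j * m := by push_cast; ring
    refine ⟨ν / 2, Finset.mem_image_of_mem _ hν, j * m, Nat.mul_pos hj1 hm, fun i => ?_, ?_, ?_⟩
    · rw [← hM, le_div_iff₀ hM0]
      have e1 : ((j * m : ℕ) : ℝ) * θ i = j * (m * θ i) := by rw [him]; ring
      have e2 : dz (j * (m * θ i)) ≤ j * η :=
        le_trans (dz_nat_mul_le _ _) (mul_le_mul_of_nonneg_left (hdz i) (by positivity))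
      rw [e1]
      have e3 := mul_le_mul_of_nonneg_right e2 hM0.le
      linarith
    · rw [← hM, him]
      have e1 := mul_le_mul_of_nonneg_left hmk (by positivity : (0 : ℝ) ≤ j * M)
      have e2 := mul_le_mul_of_nonneg_right hj2 hkk
      linarith
    · rw [← hM, him]
      have e1 := mul_le_mul_of_nonneg_left hmk' (by positivity : (0 : ℝ) ≤ j * M)
      have hν0 := (hV ν hν).1
      have e2 : (j + 1) * (M * η) ≤ 2 * j * (M * η) :=
        mul_le_mul_of_nonneg_right (by linarith) hMη.le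
      have e3 : 1 ≤ 2 * j * (M * η) := by linarith
      have e4 := mul_le_mul_of_nonneg_right e3 (mul_nonneg hν0.le hkk)
      linarith

end

end Pool.Agent.Lib.MP_a768d2_co
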