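import Pool.Agent.Lib.MP_a768d2_co.Dz

/-! # Step 5: discretisation; the graph has large additive energy (job Disc) -/

namespace Pool.Agent.Lib.MP_a768d2_co

noncomputable section

/-- The number of quadruples with a given defect is at most the energy (Cauchy-Schwarz): with
`r(g) = #{(a,b) ∈ A² : a - b = g}`, `N(e) = ∑_g r(g + e) r(g) ≤ ∑_g r(g)²`. -/
theorem card_defect_le {G : Type} [AddCommGroup G] [DecidableEq G] (A : Finset G) (e : G) :
    (((A ×ˢ A) ×ˢ (A ×ˢ A)).filter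
      (fun p => p.1.1 - p.1.2 = p.2.1 - p.2.2 + e)).card ≤ en A := by
  classical
  set P : Finset (G × G) := A ×ˢ A with hP
  set T : Finset G := P.image (fun q => q.1 - q.2) with hT
  set r : G → ℕ := fun g => (P.filter (fun q => q.1 - q.2 = g)).card with hr
  have hgen : ∀ e : G, ((P ×ˢ P).filter (fun p => p.1.1 - p.1.2 = p.2.1 - p.2.2 + e)).card =
      ∑ g ∈ T, r g * r (g - e) := by
    intro e
    have hmap : ∀ p ∈ (P ×ˢ P).filter (fun p => p.1.1 - p.1.2 = p.2.1 - p.2.2 + e),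
        p.1.1 - p.1.2 ∈ T := by
      intro p hp
      rw [Finset.mem_filter, Finset.mem_product] at hp
      exact Finset.mem_image_of_mem (fun q : G × G => q.1 - q.2) hp.1.1
    rw [Finset.card_eq_sum_card_fiberwise hmap]
    refine Finset.sum_congr rfl fun g _ => ?_
    rw [hr]
    simp only
    rw [← Finset.card_product]
    congr 1
    ext p
    simp only [Finset.mem_filter, Finset.mem_product]
    constructor
    · rintro ⟨⟨⟨h1, h2⟩, h3⟩, h4⟩
      refine ⟨⟨h1, h4⟩, h2, ?_⟩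
      rw [← h4, h3, add_sub_cancel_right]
    · rintro ⟨⟨h1, h4⟩, h2, h5⟩
      refine ⟨⟨⟨h1, h2⟩, ?_⟩, h4⟩
      rw [h4, h5, sub_add_cancel]
  have h0 : en A = ∑ g ∈ T, r g * r g := by
    have h1 := hgen 0
    simp only [add_zero, sub_zero] at h1
    exact h1
  have h2 : ∑ g ∈ T, r (g - e) * r (g - e) ≤ ∑ g ∈ T, r g * r g := by
    have h3 : ∑ g ∈ T, r (g - e) * r (g - e) =
        ∑ g ∈ T.image (fun g => g - e), r g * r g :=
      (Finset.sum_image (f := fun g => r g * r g) (g := fun g => g - e)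
        (fun a _ b _ hab => sub_left_injective hab)).symm
    rw [h3]
    refine Finset.sum_le_sum_of_ne_zero ?_
    intro g hg hne
    have h4 : r g ≠ 0 := fun h => hne (by rw [h, mul_zero])
    rw [hr] at h4
    obtain ⟨q, hq⟩ := Finset.card_pos.1 (Nat.pos_of_ne_zero h4)
    rw [Finset.mem_filter] at hq
    rw [hT, ← hq.2]
    exact Finset.mem_image_of_mem (fun q : G × G => q.1 - q.2) hq.1
  have h5 : 2 * ∑ g ∈ T, r g * r (g - e) ≤ 2 * ∑ g ∈ T, r g * r g := by
    have h6 : ∑ g ∈ T, (2 * (r g * r (g - e))) ≤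
        ∑ g ∈ T, (r g * r g + r (g - e) * r (g - e)) := by
      refine Finset.sum_le_sum fun g _ => ?_
      nlinarith [sq_nonneg ((r g : ℤ) - r (g - e)), mul_self_nonneg ((r g : ℤ) - (r (g - e) : ℤ)),
        two_mul_le_add_sq (r g) (r (g - e))]
    rw [Finset.mul_sum]
    refine h6.trans ?_
    rw [Finset.sum_add_distrib]
    omega
  have h7 := hgen e
  rw [h7, h0]
  omega

private theorem Disc_card_addq (X : Finset (ℤ × ℤ)) : (addq X).card ≤ X.card ^ 3 := by
  have h1 : (addq X).card ≤ (X ×ˢ X ×ˢ X).card := by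
    refine Finset.card_le_card_of_injOn (fun p => (p.1, p.2.1, p.2.2.1)) ?_ ?_
    · intro p hp
      rw [Finset.mem_coe, addq, Finset.mem_filter] at hp
      simp only [Finset.mem_product] at hp
      simp only [Finset.coe_product, Set.mem_prod, Finset.mem_coe]
      exact ⟨hp.1.1, hp.1.2.1, hp.1.2.2.1⟩
    · intro p hp q hq hpq
      rw [Finset.mem_coe, addq, Finset.mem_filter] at hp hq
      obtain ⟨a, b, c, d⟩ := p
      obtain ⟨a', b', c', d'⟩ := q
      simp only [Prod.mk.injEq] at hpq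
      obtain ⟨rfl, rfl, rfl⟩ := hpq
      have h1 : a - b = c - d := hp.2
      have h2 : a - b = c - d' := hq.2
      have h3 : d = d' := by
        rw [h1] at h2
        exact sub_right_injective h2
      rw [h3]
  refine h1.trans (le_of_eq ?_)
  rw [Finset.card_product, Finset.card_product]
  ring

private theorem Disc_card_sbox (t : ℤ × ℤ) (l : ℕ) : (sbox t l).card = l ^ 2 := by
  unfold sbox
  rw [Finset.card_product, Int.card_Ico, Int.card_Ico]
  simp [sq]

/-- the alternating sum of the discretised values is small modulo `l` -/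
private theorem Disc_defect {l : ℕ} (hl : 1 ≤ l) {C : ℝ} {a b c d : ℝ}
    (h : dz (a - b - c + d) ≤ C / l) :
    ∃ e : ℤ, |(e : ℝ)| ≤ C + 2 ∧ ∃ z : ℤ,
      ⌊(l : ℝ) * Int.fract a⌋ - ⌊(l : ℝ) * Int.fract b⌋ - ⌊(l : ℝ) * Int.fract c⌋ +
        ⌊(l : ℝ) * Int.fract d⌋ = e + l * z := by
  have hl0 : (0 : ℝ) < l := by exact_mod_cast hl
  obtain ⟨z, hz⟩ := exists_dz_eq (a - b - c + d)
  rw [hz] at h
  set z' : ℤ := z - (⌊a⌋ - ⌊b⌋ - ⌊c⌋ + ⌊d⌋) with hz'
  refine ⟨⌊(l : ℝ) * Int.fract a⌋ - ⌊(l : ℝ) * Int.fract b⌋ - ⌊(l : ℝ) * Int.fract c⌋ +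
        ⌊(l : ℝ) * Int.fract d⌋ - l * z', ?_, z', by ring⟩
  have h1 : |(Int.fract a - Int.fract b - Int.fract c + Int.fract d) - z'| ≤ C / l := by
    have h2 : (Int.fract a - Int.fract b - Int.fract c + Int.fract d) - z' = a - b - c + d - z := by
      rw [hz']
      unfold Int.fract
      push_cast
      ring
    rw [h2]
    exact h
  have h3 : |(l : ℝ) * ((Int.fract a - Int.fract b - Int.fract c + Int.fract d) - z')| ≤ C := by
    rw [abs_mul, abs_of_pos hl0]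
    calc (l : ℝ) * |(Int.fract a - Int.fract b - Int.fract c + Int.fract d) - z'|
        ≤ l * (C / l) := mul_le_mul_of_nonneg_left h1 hl0.le
      _ = C := by field_simp
  have fa := Int.floor_le ((l : ℝ) * Int.fract a)
  have fa' := Int.lt_floor_add_one ((l : ℝ) * Int.fract a)
  have fb := Int.floor_le ((l : ℝ) * Int.fract b)
  have fb' := Int.lt_floor_add_one ((l : ℝ) * Int.fract b)
  have fc := Int.floor_le ((l : ℝ) * Int.fract c)
  have fc' := Int.lt_floor_add_one ((l : ℝ) * Int.fract c)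
  have fd := Int.floor_le ((l : ℝ) * Int.fract d)
  have fd' := Int.lt_floor_add_one ((l : ℝ) * Int.fract d)
  rw [abs_le] at h3 ⊢
  push_cast
  constructor
  · have := h3.1
    nlinarith
  · have := h3.2
    nlinarith

/-- STEP 5.  Proof: `|addq X| ≤ |X|³` and `|X| ≤ l²` give `δ3 l⁶ ≤ |X|³ ≤ |X| l⁴`, so `δ3 l² ≤ |X|`.  For
`p ∈ quad X R (C2/l)` put `D = t_x - t_x' - t_z + t_z'`, `t_x = ⌊l fract (R x).1⌋` (an integer).  As
`R x = integer + fract` the number `l (fract - fract - fract + fract)` is within `C2` of `l ℤ`, and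
the floors change it by less than 2 in absolute value, so `D ≡ e mod l` with an integer `|e| ≤ C3`,
`C3 = ⌈C2⌉ + 2`; same in the second coordinate.  So the quadruple of points `gam l R (·)` has the
difference `γ1 - γ2 = γ3 - γ4 + (0, e)` with one of `(2 C3 + 1)²` possible defects.  By `card_defect_le`,
`en ≥ δ3 l⁶/(2 C3 + 1)² ≥ δ4 |X|³`, `δ4 = δ3/(2 C3+1)²` (and `δ4 ≤ δ3`). -/
theorem disc (δ3 C2 : ℝ) (hδ : 0 < δ3) (hC : 0 < C2) : ∃ δ4 : ℝ, 0 < δ4 ∧ ∀ l : ℕ, 1 ≤ l →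
    ∀ (s : ℤ × ℤ) (X : Finset (ℤ × ℤ)), X ⊆ sbox s l → ∀ R : ℤ × ℤ → ℝ × ℝ,
    δ3 * (l : ℝ) ^ 6 ≤ (quad X R (C2 / l)).card →
    δ4 * (l : ℝ) ^ 2 ≤ X.card ∧ δ4 * (X.card : ℝ) ^ 3 ≤ en (X.image (gam l R)) := by
  classical
  set C3 : ℕ := ⌈C2⌉₊ + 2 with hC3
  have hN1 : (1 : ℝ) ≤ (2 * C3 + 1) ^ 2 := one_le_pow₀ (by
    have : (0 : ℝ) ≤ C3 := Nat.cast_nonneg _
    linarith)
  refine ⟨δ3 / (2 * C3 + 1) ^ 2, by positivity, ?_⟩
  intro l hl s X hX R hq
  have hl0 : (0 : ℝ) < l := by exact_mod_cast hl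
  have hcardX : (X.card : ℝ) ≤ (l : ℝ) ^ 2 := by
    have h6 := Finset.card_le_card hX
    rw [Disc_card_sbox] at h6
    exact_mod_cast h6
  have hδ4 : δ3 / (2 * C3 + 1) ^ 2 ≤ δ3 := div_le_self hδ.le hN1
  have hqa : ((quad X R (C2 / l)).card : ℝ) ≤ (X.card : ℝ) ^ 3 := by
    have h1 : (quad X R (C2 / l)).card ≤ (addq X).card := Finset.card_le_card (Finset.filter_subset _ _)
    exact_mod_cast h1.trans (Disc_card_addq X)
  have hX1 : δ3 * (l : ℝ) ^ 2 ≤ X.card := by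
    have h1 : (l : ℝ) ^ 4 * (δ3 * (l : ℝ) ^ 2) ≤ (l : ℝ) ^ 4 * X.card := by
      calc (l : ℝ) ^ 4 * (δ3 * (l : ℝ) ^ 2) = δ3 * (l : ℝ) ^ 6 := by ring
        _ ≤ (X.card : ℝ) ^ 3 := hq.trans hqa
        _ = (X.card : ℝ) ^ 2 * X.card := by ring
        _ ≤ ((l : ℝ) ^ 2) ^ 2 * X.card := mul_le_mul_of_nonneg_right
            (pow_le_pow_left₀ (Nat.cast_nonneg _) hcardX 2) (Nat.cast_nonneg _)
        _ = (l : ℝ) ^ 4 * X.card := by ring
    exact le_of_mul_le_mul_left h1 (by positivity)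
  refine ⟨(mul_le_mul_of_nonneg_right hδ4 (by positivity)).trans hX1, ?_⟩
  -- the defects
  set A : Finset ((ℤ × ℤ) × (ZMod l × ZMod l)) := X.image (gam l R) with hA
  set I : Finset ℤ := Finset.Icc (-(C3 : ℤ)) C3 with hI
  have hIcard : I.card = 2 * C3 + 1 := by
    rw [hI, Int.card_Icc]
    omega
  set Q := quad X R (C2 / l) with hQ
  set F : ℤ × ℤ → Finset ((ℤ × ℤ) × (ℤ × ℤ) × (ℤ × ℤ) × (ℤ × ℤ)) := fun ab =>
    Q.filter (fun p => gam l R p.1 - gam l R p.2.1 = gam l R p.2.2.1 - gam l R p.2.2.2 +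
      ((0 : ℤ × ℤ), ((ab.1 : ZMod l), (ab.2 : ZMod l)))) with hF
  have hcover : Q ⊆ (I ×ˢ I).biUnion F := by
    intro p hp
    have hp0 : p ∈ quad X R (C2 / l) := hp
    rw [quad, Finset.mem_filter] at hp0
    obtain ⟨hpa, hd1, hd2⟩ := hp0
    rw [addq, Finset.mem_filter] at hpa
    have hdiff : p.1 - p.2.1 = p.2.2.1 - p.2.2.2 := hpa.2
    obtain ⟨e1, he1, z1, hz1⟩ := Disc_defect hl (a := (R p.1).1) (b := (R p.2.1).1)
      (c := (R p.2.2.1).1) (d := (R p.2.2.2).1) hd1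
    obtain ⟨e2, he2, z2, hz2⟩ := Disc_defect hl (a := (R p.1).2) (b := (R p.2.1).2)
      (c := (R p.2.2.1).2) (d := (R p.2.2.2).2) hd2
    have hbound : ∀ e : ℤ, |(e : ℝ)| ≤ C2 + 2 → e ∈ I := by
      intro e he
      have h1 : |(e : ℝ)| ≤ C3 := by
        refine he.trans ?_
        rw [hC3]
        push_cast
        have := Nat.le_ceil C2
        linarith
      rw [abs_le] at h1
      rw [hI, Finset.mem_Icc]
      constructor
      · have := h1.1
        exact_mod_cast this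
      · exact_mod_cast h1.2
    rw [Finset.mem_biUnion]
    refine ⟨(e1, e2), Finset.mem_product.2 ⟨hbound e1 he1, hbound e2 he2⟩, ?_⟩
    rw [hF, Finset.mem_filter]
    refine ⟨hp, ?_⟩
    have hmod : ∀ (w x y z e z' : ℤ), w - x - y + z = e + l * z' →
        ((w : ZMod l) - (x : ZMod l)) = ((y : ZMod l) - (z : ZMod l)) + (e : ZMod l) := by
      intro w x y z e z' h
      have h1 : w - x = (y - z) + e + l * z' := by linarith
      have h2 : ((w - x : ℤ) : ZMod l) = (((y - z) + e + l * z' : ℤ) : ZMod l) := by rw [h1]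
      push_cast at h2
      rw [ZMod.natCast_self, zero_mul, add_zero] at h2
      exact h2
    unfold gam tt
    refine Prod.ext ?_ (Prod.ext ?_ ?_)
    · change p.1 - p.2.1 = p.2.2.1 - p.2.2.2 + 0
      rw [add_zero, hdiff]
    · exact hmod _ _ _ _ _ _ hz1
    · exact hmod _ _ _ _ _ _ hz2
  have hFcard : ∀ ab ∈ I ×ˢ I, (F ab).card ≤ en A := by
    intro ab _
    refine le_trans ?_ (card_defect_le A ((0 : ℤ × ℤ), ((ab.1 : ZMod l), (ab.2 : ZMod l))))
    refine Finset.card_le_card_of_injOn (fun p => ((gam l R p.1, gam l R p.2.1),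
      (gam l R p.2.2.1, gam l R p.2.2.2))) ?_ ?_
    · intro p hp
      rw [Finset.mem_coe, hF, Finset.mem_filter] at hp
      obtain ⟨hpQ, hpe⟩ := hp
      have hp0 : p ∈ quad X R (C2 / l) := hpQ
      rw [quad, Finset.mem_filter] at hp0
      have hpa := hp0.1
      rw [addq, Finset.mem_filter] at hpa
      simp only [Finset.mem_product] at hpa
      obtain ⟨⟨m1, m2, m3, m4⟩, _⟩ := hpa
      rw [Finset.mem_coe, Finset.mem_filter]
      simp only [Finset.mem_product]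
      exact ⟨⟨⟨Finset.mem_image_of_mem _ m1, Finset.mem_image_of_mem _ m2⟩,
        Finset.mem_image_of_mem _ m3, Finset.mem_image_of_mem _ m4⟩, hpe⟩
    · intro p _ q _ hpq
      obtain ⟨a, b, c, d⟩ := p
      obtain ⟨a', b', c', d'⟩ := q
      simp only [Prod.mk.injEq, gam] at hpq
      obtain ⟨⟨⟨ha, _⟩, hb, _⟩, ⟨hc, _⟩, hd, _⟩ := hpq
      rw [ha, hb, hc, hd]
  have hQcard : Q.card ≤ (2 * C3 + 1) ^ 2 * en A := by
    refine (Finset.card_le_card hcover).trans ?_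
    refine (Finset.card_biUnion_le_card_mul _ _ _ hFcard).trans (le_of_eq ?_)
    rw [Finset.card_product, hIcard, sq]
  have hQr : (Q.card : ℝ) ≤ (2 * C3 + 1) ^ 2 * (en A : ℝ) := by exact_mod_cast hQcard
  rw [div_mul_eq_mul_div, div_le_iff₀ (by positivity)]
  calc δ3 * (X.card : ℝ) ^ 3 ≤ δ3 * ((l : ℝ) ^ 2) ^ 3 := mul_le_mul_of_nonneg_left
        (pow_le_pow_left₀ (Nat.cast_nonneg _) hcardX 3) hδ.le
    _ = δ3 * (l : ℝ) ^ 6 := by ring
    _ ≤ (Q.card : ℝ) := hq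
    _ ≤ (2 * C3 + 1) ^ 2 * (en A : ℝ) := hQr
    _ = (en A : ℝ) * (2 * C3 + 1) ^ 2 := mul_comm _ _

end

end Pool.Agent.Lib.MP_a768d2_co
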