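import Pool.Agent.Lib.MP_a768d2_co.Defs

/-! # distance to the nearest integer, exponentials (job Dz) -/

namespace Pool.Agent.Lib.MP_a768d2_co

noncomputable section

theorem dz_nonneg (t : ℝ) : 0 ≤ dz t := by
  exact abs_nonneg _

theorem dz_le_half (t : ℝ) : dz t ≤ 1 / 2 := by
  exact abs_sub_round t

theorem dz_le_abs_sub (t : ℝ) (z : ℤ) : dz t ≤ |t - z| := by
  exact round_le t z

theorem exists_dz_eq (t : ℝ) : ∃ z : ℤ, dz t = |t - z| := by
  exact ⟨round t, rfl⟩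

theorem dz_le_abs (t : ℝ) : dz t ≤ |t| := by
  simpa using dz_le_abs_sub t 0

theorem dz_eq_abs {t : ℝ} (h : |t| ≤ 1 / 2) : dz t = |t| := by
  refine le_antisymm (dz_le_abs t) ?_
  obtain ⟨z, hz⟩ := exists_dz_eq t
  rw [hz]
  rcases eq_or_ne z 0 with rfl | h0
  · simp
  · have h1 : (1 : ℝ) ≤ |(z : ℝ)| := by
      rw [← Int.cast_abs]
      exact_mod_cast Int.one_le_abs h0
    have h2 : |(z : ℝ)| ≤ |t| + |t - z| := by
      have h3 : (z : ℝ) = t - (t - z) := by ring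
      calc |(z : ℝ)| = |t - (t - z)| := by rw [← h3]
        _ ≤ |t| + |t - z| := abs_sub _ _
    linarith

theorem dz_neg (t : ℝ) : dz (-t) = dz t := by
  have key : ∀ s : ℝ, dz (-s) ≤ dz s := by
    intro s
    obtain ⟨z, hz⟩ := exists_dz_eq s
    rw [hz]
    have h := dz_le_abs_sub (-s) (-z)
    have h2 : |-s - ((-z : ℤ) : ℝ)| = |s - z| := by
      rw [← abs_neg]
      congr 1
      push_cast
      ring
    rwa [h2] at h
  refine le_antisymm (key t) ?_
  have h := key (-t)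
  rwa [neg_neg] at h

theorem dz_add_le (s t : ℝ) : dz (s + t) ≤ dz s + dz t := by
  obtain ⟨z, hz⟩ := exists_dz_eq s
  obtain ⟨w, hw⟩ := exists_dz_eq t
  rw [hz, hw]
  have h := dz_le_abs_sub (s + t) (z + w)
  refine h.trans ?_
  have h2 : s + t - ((z + w : ℤ) : ℝ) = (s - z) + (t - w) := by
    push_cast
    ring
  rw [h2]
  exact abs_add_le _ _

theorem dz_add_int (t : ℝ) (z : ℤ) : dz (t + z) = dz t := by
  have key : ∀ (s : ℝ) (w : ℤ), dz (s + w) ≤ dz s := by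
    intro s w
    obtain ⟨v, hv⟩ := exists_dz_eq s
    rw [hv]
    have h := dz_le_abs_sub (s + w) (v + w)
    have h2 : s + w - ((v + w : ℤ) : ℝ) = s - v := by
      push_cast
      ring
    rwa [h2] at h
  refine le_antisymm (key t z) ?_
  have h := key (t + z) (-z)
  have h2 : t + z + ((-z : ℤ) : ℝ) = t := by
    push_cast
    ring
  rwa [h2] at h

theorem dz_nat_mul_le (n : ℕ) (t : ℝ) : dz (n * t) ≤ n * dz t := by
  induction n with
  | zero =>
    simp only [Nat.cast_zero, zero_mul]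
    simpa using dz_le_abs 0
  | succ n ih =>
    have h : ((n + 1 : ℕ) : ℝ) * t = n * t + t := by
      push_cast
      ring
    rw [h]
    refine (dz_add_le _ _).trans ?_
    push_cast
    linarith

theorem dz_int_mul_le (n : ℤ) (t : ℝ) : dz (n * t) ≤ |(n : ℝ)| * dz t := by
  rcases le_total 0 n with h | h
  · obtain ⟨m, rfl⟩ := Int.eq_ofNat_of_zero_le h
    have h1 := dz_nat_mul_le m t
    simpa using h1
  · obtain ⟨m, hm⟩ := Int.eq_ofNat_of_zero_le (neg_nonneg.2 h)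
    have h1 := dz_nat_mul_le m t
    have h2 : (n : ℝ) = -(m : ℝ) := by
      have h3 : n = -(m : ℤ) := by omega
      rw [h3]
      push_cast
      ring
    rw [h2, neg_mul, dz_neg, abs_neg, Nat.abs_cast]
    exact h1

theorem norm_ee (t : ℝ) : ‖ee t‖ = 1 := by
  have h : (2 * Real.pi * t * Complex.I : ℂ) = ((2 * Real.pi * t : ℝ) : ℂ) * Complex.I := by
    push_cast
    ring
  rw [ee, h]
  exact Complex.norm_exp_ofReal_mul_I _

theorem ee_zero : ee 0 = 1 := by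
  simp [ee]

theorem ee_add (s t : ℝ) : ee (s + t) = ee s * ee t := by
  rw [ee, ee, ee, ← Complex.exp_add]
  congr 1
  push_cast
  ring

theorem ee_neg (t : ℝ) : ee (-t) = (starRingEnd ℂ) (ee t) := by
  have h2 : (starRingEnd ℂ) (2 : ℂ) = 2 := map_ofNat (starRingEnd ℂ) 2
  rw [ee, ee, ← Complex.exp_conj]
  congr 1
  simp [h2]

theorem ee_int (z : ℤ) : ee z = 1 := by
  rw [ee, Complex.exp_eq_one_iff]
  exact ⟨z, by push_cast; ring⟩

theorem ee_add_int (t : ℝ) (z : ℤ) : ee (t + z) = ee t := by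
  rw [ee_add, ee_int, mul_one]

theorem ee_nat_mul (n : ℕ) (t : ℝ) : ee (n * t) = ee t ^ n := by
  rw [ee, ee, ← Complex.exp_nat_mul]
  congr 1
  push_cast
  ring

/-- `cos (2 π t) ≥ cos (π/4) ≥ 1/2` for `|t - z| ≤ 1/8` -/
theorem half_le_re_ee {t : ℝ} (h : dz t ≤ 1 / 8) : 1 / 2 ≤ (ee t).re := by
  obtain ⟨z, hz⟩ := exists_dz_eq t
  rw [hz] at h
  have h1 : ee t = ee (t - z) := by
    have h2 := ee_add_int (t - z) z
    rw [sub_add_cancel] at h2
    exact h2
  rw [h1]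
  have h3 : (ee (t - z)).re = Real.cos (2 * Real.pi * (t - z)) := by
    have h4 : (2 * Real.pi * ((t - z : ℝ) : ℂ) * Complex.I : ℂ) = ((2 * Real.pi * (t - z) : ℝ) : ℂ) * Complex.I := by
      push_cast
      ring
    rw [ee, h4, Complex.exp_ofReal_mul_I_re]
  rw [h3, ← Real.cos_abs, ← Real.cos_pi_div_three]
  apply Real.cos_le_cos_of_nonneg_of_le_pi (abs_nonneg _)
  · linarith [Real.pi_pos]
  · rw [abs_mul, abs_of_pos (by positivity : (0 : ℝ) < 2 * Real.pi)]
    nlinarith [Real.pi_pos]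

/-- `|e(t) - 1| = 2 |sin π t| ≥ 4 dz t` (Jordan inequality `sin x ≥ 2x/π` on `[0, π/2]`) -/
theorem four_dz_le (t : ℝ) : 4 * dz t ≤ ‖ee t - 1‖ := by
  set s : ℝ := t - round t with hs
  have h1 : ee t = ee s := by
    have h2 := ee_add_int s (round t)
    rw [hs, sub_add_cancel] at h2
    exact h2
  have h3 : (2 * Real.pi * (s : ℂ) * Complex.I : ℂ) = Complex.I * ((2 * Real.pi * s : ℝ) : ℂ) := by
    push_cast
    ring
  rw [h1, ee, h3, Complex.norm_exp_I_mul_ofReal_sub_one, Real.norm_eq_abs, abs_mul, abs_two]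
  have h4 : |s| ≤ 1 / 2 := abs_sub_round t
  have h5 : 2 * Real.pi * s / 2 = Real.pi * s := by ring
  rw [h5]
  have h6 : |Real.pi * s| ≤ Real.pi / 2 := by
    rw [abs_mul, abs_of_pos Real.pi_pos]
    nlinarith [Real.pi_pos]
  have h7 := Real.mul_abs_le_abs_sin h6
  rw [abs_mul, abs_of_pos Real.pi_pos] at h7
  have h8 : 2 / Real.pi * (Real.pi * |s|) = 2 * |s| := by
    field_simp
  rw [h8] at h7
  have h9 : dz t = |s| := rfl
  rw [h9]
  linarith

/-- geometric sum: `|∑_{j<J} e(jt)| ≤ 2/|e(t)-1| ≤ 1/(2 dz t)` -/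
theorem norm_sum_ee_le (J : ℕ) {t : ℝ} (h : 0 < dz t) :
    ‖∑ j ∈ Finset.range J, ee (j * t)‖ ≤ 1 / (2 * dz t) := by
  have h0 : 4 * dz t ≤ ‖ee t - 1‖ := four_dz_le t
  have h1 : 0 < ‖ee t - 1‖ := by linarith
  have h2 : ee t ≠ 1 := by
    intro h2
    rw [h2, sub_self, norm_zero] at h1
    exact lt_irrefl _ h1
  have h3 : ∑ j ∈ Finset.range J, ee (j * t) = (ee t ^ J - 1) / (ee t - 1) := by
    rw [← geom_sum_eq h2]
    exact Finset.sum_congr rfl fun j _ => ee_nat_mul j t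
  rw [h3, norm_div]
  have h4 : ‖ee t ^ J - 1‖ ≤ 2 := by
    refine (norm_sub_le _ _).trans ?_
    rw [norm_pow, norm_ee, one_pow, norm_one]
    norm_num
  calc ‖ee t ^ J - 1‖ / ‖ee t - 1‖ ≤ 2 / (4 * dz t) :=
        div_le_div₀ (by norm_num) h4 (by linarith) h0
    _ = 1 / (2 * dz t) := by
      rw [div_eq_div_iff (by linarith) (by linarith)]
      ring

private theorem Dz_sum_Ico {M : Type*} [AddCommMonoid M] (a : ℤ) (l : ℕ) (F : ℤ → M) :
    ∑ j ∈ Finset.Ico a (a + l), F j = ∑ i ∈ Finset.range l, F (a + (i : ℤ)) := by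
  refine Finset.sum_nbij' (fun j => (j - a).toNat) (fun i => a + (i : ℤ)) ?_ ?_ ?_ ?_ ?_
  · intro j hj
    rw [Finset.mem_Ico] at hj
    rw [Finset.mem_range]
    omega
  · intro i hi
    rw [Finset.mem_range] at hi
    rw [Finset.mem_Ico]
    omega
  · intro j hj
    rw [Finset.mem_Ico] at hj
    omega
  · intro i _
    simp
  · intro j hj
    rw [Finset.mem_Ico] at hj
    congr 1
    omega

/-- the same over an interval of integers -/
theorem norm_sum_Ico_ee_le (a : ℤ) (l : ℕ) {t : ℝ} (h : 0 < dz t) :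
    ‖∑ j ∈ Finset.Ico a (a + l), ee ((j : ℝ) * t)‖ ≤ 1 / (2 * dz t) := by
  rw [Dz_sum_Ico]
  have h1 : ∑ i ∈ Finset.range l, ee (((a + (i : ℤ) : ℤ) : ℝ) * t) = ee (a * t) * ∑ i ∈ Finset.range l, ee (i * t) := by
    rw [Finset.mul_sum]
    refine Finset.sum_congr rfl fun i _ => ?_
    rw [← ee_add]
    congr 1
    push_cast
    ring
  rw [h1, norm_mul, norm_ee, one_mul]
  exact norm_sum_ee_le l h

/-- trivial bound -/
theorem norm_sum_Ico_ee_le_card (a : ℤ) (l : ℕ) (t : ℝ) :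
    ‖∑ j ∈ Finset.Ico a (a + l), ee ((j : ℝ) * t)‖ ≤ l := by
  refine (norm_sum_le _ _).trans ?_
  simp [norm_ee]

/-- orthogonality: `∑_{ξ<N} e(ξ z / N) = N` if `N ∣ z` and `0` otherwise -/
theorem sum_ee_div {N : ℕ} (hN : 0 < N) (z : ℤ) :
    ∑ ξ ∈ Finset.range N, ee ((ξ : ℝ) * z / N) = if (N : ℤ) ∣ z then (N : ℂ) else 0 := by
  have hN' : (N : ℝ) ≠ 0 := by
    exact_mod_cast hN.ne'
  have h0 : ∀ ξ : ℕ, ee ((ξ : ℝ) * z / N) = ee ((z : ℝ) / N) ^ ξ := by
    intro ξ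
    rw [← ee_nat_mul, mul_div_assoc]
  rw [Finset.sum_congr rfl fun ξ _ => h0 ξ]
  split_ifs with h
  · obtain ⟨k, rfl⟩ := h
    have h1 : ee ((((N : ℤ) * k : ℤ) : ℝ) / N) = 1 := by
      have h2 : (((N : ℤ) * k : ℤ) : ℝ) / N = (k : ℝ) := by
        push_cast
        field_simp
      rw [h2, ee_int]
    rw [h1]
    simp
  · have h1 : ee ((z : ℝ) / N) ≠ 1 := by
      intro h1
      apply h
      rw [ee, Complex.exp_eq_one_iff] at h1
      obtain ⟨n, hn⟩ := h1
      have h2 : ((2 * Real.pi * Complex.I : ℂ)) ≠ 0 := Complex.two_pi_I_ne_zero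
      have h3 : (((z : ℝ) / N : ℝ) : ℂ) = (n : ℂ) := by
        apply mul_right_cancel₀ h2
        rw [← hn]
        ring
      have h4 : (z : ℝ) / N = (n : ℝ) := by
        exact_mod_cast h3
      rw [div_eq_iff hN'] at h4
      refine ⟨n, ?_⟩
      have h5 : z = n * N := by exact_mod_cast h4
      rw [h5]
      ring
    rw [geom_sum_eq h1, ← ee_nat_mul]
    have h2 : (N : ℝ) * ((z : ℝ) / N) = (z : ℝ) := by
      field_simp
    rw [h2, ee_int, sub_self, zero_div]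

end

end Pool.Agent.Lib.MP_a768d2_co
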