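import Pool.Agent.Lib.MP_a768d2_co.ZA
import Pool.Agent.Lib.MP_a768d2_co.Den

/-! # The final contradiction for dense approximate homomorphisms (jobs ZB) -/

namespace Pool.Agent.Lib.MP_a768d2_co

noncomputable section

/-- half of a floor -/
private theorem ZB_floor {M d : ℕ} (hd : 1 ≤ d) (h : d ≤ M) : (M : ℝ) / (2 * d) ≤ ((M / d : ℕ) : ℝ) := by
  have h1 : 1 ≤ M / d := (Nat.one_le_div_iff (by omega)).2 h
  have h2 : M < (M / d + 1) * d := by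
    have := Nat.lt_div_mul_add (a := M) (b := d) (by omega)
    rw [add_mul, one_mul]
    exact this
  have hd' : (0 : ℝ) < d := by exact_mod_cast (by omega : 0 < d)
  have h3 : (M : ℝ) < (((M / d : ℕ) : ℝ) + 1) * d := by exact_mod_cast h2
  have h4 : (1 : ℝ) ≤ ((M / d : ℕ) : ℝ) := by exact_mod_cast h1
  rw [div_le_iff₀ (by positivity)]
  nlinarith

/-- the ratio -/
private theorem ZB_ratio {ν : ℝ} {M m k : ℕ} (hk : 1 ≤ k) (hM : 1 ≤ M)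
    (h2 : ν * k ≤ m * M) {a : ℝ} (ha : 0 ≤ a) : ν * a / M ≤ m * a / k := by
  have hk' : (0 : ℝ) < k := by exact_mod_cast (by omega : 0 < k)
  have hM' : (0 : ℝ) < M := by exact_mod_cast (by omega : 0 < M)
  rw [div_le_div_iff₀ hM' hk']
  nlinarith

/-- Lower bound for `A.2` (direction `(1,0)`).  Proof: `L = M/8` (`≥ M/16`), `v = (m, 0)`, `8 L m ≤ M m ≤ k`;
`exists_dense_line` and `exists_far_pair` (`κ L/2 ≥ 2`) give two points `x, y ∈ E` with `y - x = (m a, 0)`,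
`κ L/4 ≤ a ≤ L`.  Avoidance with `u = (1,0)` and the multiplier `m a`:
`c (m a)²/k² ≤ |(T y - T x).2| + ρ ≤ a |A.2| + ρ (a + 3)`; as `m/k ≥ ν/M`,
`|A.2| ≥ c ν² a/M² - 4 ρ ≥ c κ ν²/(64 M) - 4 ρ ≥ c κ ν²/(128 M)`. -/
theorem lower_A {c κ ν ρ : ℝ} (hc : 0 < c) (hκ : 0 < κ) (hν : 0 < ν) (hρ : 0 ≤ ρ) {M m k : ℕ}
    (hM : 64 ≤ κ * M) (hM2 : 16 ≤ M) (hk : 1 ≤ k) (hm : 1 ≤ m) (h1 : (m : ℝ) * M ≤ k)
    (h2 : ν * k ≤ m * M)
    (hρ2 : 4 * ρ * M ≤ c * κ * ν ^ 2 / 128) {E : Finset (ℤ × ℤ)} (hE : E ⊆ box k)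
    {T : ℤ × ℤ → ℝ × ℝ} (hEc : κ * (k : ℝ) ^ 2 ≤ E.card) (hav : Avoid c ρ k E T) {A B : ℝ × ℝ}
    (hT : ∀ a b : ℕ, 8 * (a + b) ≤ M → ∀ x ∈ E, ∀ y ∈ E,
        y.1 - x.1 = (m : ℤ) * a → y.2 - x.2 = (m : ℤ) * b →
        |(T y - T x).1 - (a * A.1 + b * B.1)| ≤ ρ * (a + b + 2) ∧
        |(T y - T x).2 - (a * A.2 + b * B.2)| ≤ ρ * (a + b + 2)) :
    c * κ * ν ^ 2 / 128 ≤ M * |A.2| := by
  have hM0 : (0 : ℝ) < M := by
    have : (16 : ℝ) ≤ M := by exact_mod_cast hM2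
    linarith
  have hk0 : (0 : ℝ) < k := by exact_mod_cast (by omega : 0 < k)
  have hm0 : (0 : ℝ) < m := by exact_mod_cast (by omega : 0 < m)
  have h1n : m * M ≤ k := by exact_mod_cast h1
  set L : ℕ := M / 8 with hLdef
  have hLM : 8 * L ≤ M := Nat.mul_div_le M 8
  have hL16 : (M : ℝ) / 16 ≤ L := by
    have := ZB_floor (M := M) (d := 8) (by norm_num) (by omega)
    norm_num at this
    exact this
  have hκL : 4 ≤ κ * L := by
    have : κ * (M / 16) ≤ κ * L := mul_le_mul_of_nonneg_left hL16 hκ.le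
    nlinarith
  have hLk : 8 * (L : ℤ) * nz ((m : ℤ), 0) ≤ k := by
    have e1 : nz ((m : ℤ), 0) = (m : ℤ) := by
      unfold nz
      simp
    rw [e1]
    have : 8 * L * m ≤ k := by
      calc 8 * L * m ≤ M * m := Nat.mul_le_mul_right _ hLM
        _ = m * M := mul_comm _ _
        _ ≤ k := h1n
    exact_mod_cast this
  obtain ⟨x0, hx0⟩ := exists_dense_line hk hE hEc ((m : ℤ), 0) L hLk
  obtain ⟨i, hi, j, hj, hij, hij2⟩ := exists_far_pair (a := κ / 2 * L) (Finset.filter_subset _ _) hx0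
    (by nlinarith)
  rw [Finset.mem_filter, Finset.mem_range] at hi hj
  obtain ⟨a, rfl⟩ : ∃ a, j = i + a := ⟨j - i, by omega⟩
  have ha1 : 1 ≤ a := by omega
  have ha1' : (1 : ℝ) ≤ a := by exact_mod_cast ha1
  have haL : 8 * (a + 0) ≤ M := by omega
  have hak : κ * M / 64 ≤ a := by
    push_cast at hij2
    have : κ * (M / 16) ≤ κ * L := mul_le_mul_of_nonneg_left hL16 hκ.le
    nlinarith
  have ex : (x0.1 + ((i + a : ℕ) : ℤ) * (m : ℤ)) - (x0.1 + (i : ℤ) * (m : ℤ)) = (m : ℤ) * a := by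
    push_cast
    ring
  have ey : (x0.2 + ((i + a : ℕ) : ℤ) * 0) - (x0.2 + (i : ℤ) * 0) = (m : ℤ) * (0 : ℕ) := by
    push_cast
    ring
  obtain ⟨-, hT2⟩ := hT a 0 haL _ hi.2 _ hj.2 ex ey
  have hne : (x0.1 + (i : ℤ) * (m : ℤ), x0.2 + (i : ℤ) * 0) ≠
      (x0.1 + ((i + a : ℕ) : ℤ) * (m : ℤ), x0.2 + ((i + a : ℕ) : ℤ) * 0) := by
    intro h
    have h3 := congrArg Prod.fst h
    simp only at h3
    have h4 : (m : ℤ) * a = 0 := by
      rw [← ex, ← h3, sub_self]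
    have h5 : m * a = 0 := by exact_mod_cast h4
    rcases Nat.mul_eq_zero.1 h5 with h6 | h6 <;> omega
  have hA := hav _ hi.2 _ hj.2 hne (1, 0) ((m : ℤ) * a) (by simp) (by rw [mul_one]; exact ex)
    (by simp)
  set w : ℝ × ℝ := T (x0.1 + ((i + a : ℕ) : ℤ) * (m : ℤ), x0.2 + ((i + a : ℕ) : ℤ) * 0) -
    T (x0.1 + (i : ℤ) * (m : ℤ), x0.2 + (i : ℤ) * 0) with hw
  have e2 : nz (1, 0) = 1 := by
    unfold nz
    simp
  have e3 : cr (1, 0) w = w.2 := by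
    unfold cr
    simp
  rw [e2, e3] at hA
  push_cast at hA hT2
  have h5 : dz w.2 ≤ |w.2| := dz_le_abs _
  have h6 : |w.2| ≤ |a * A.2 + 0 * B.2| + ρ * (a + 0 + 2) := by
    have e4 : w.2 = (a * A.2 + 0 * B.2) + (w.2 - (a * A.2 + 0 * B.2)) := by ring
    calc |w.2| = |(a * A.2 + 0 * B.2) + (w.2 - (a * A.2 + 0 * B.2))| := by rw [← e4]
      _ ≤ |a * A.2 + 0 * B.2| + |w.2 - (a * A.2 + 0 * B.2)| := abs_add_le _ _
      _ ≤ _ := by linarith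
  have h7 : |(a : ℝ) * A.2 + 0 * B.2| = a * |A.2| := by
    rw [zero_mul, add_zero, abs_mul, abs_of_nonneg (by positivity)]
  rw [h7] at h6
  have h8 : c * ((m : ℝ) * a * 1) ^ 2 / (k : ℝ) ^ 2 = c * ((m : ℝ) * a / k) ^ 2 := by
    rw [mul_one, div_pow, mul_div_assoc]
  rw [mul_one ρ, h8] at hA
  have h9 : ν * a / M ≤ m * a / k := ZB_ratio hk (by omega) h2 (by positivity)
  have h10 : c * (ν * a / M) ^ 2 ≤ c * ((m : ℝ) * a / k) ^ 2 := by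
    apply mul_le_mul_of_nonneg_left _ hc.le
    exact pow_le_pow_left₀ (by positivity) h9 2
  have h11 : c * (ν * a / M) ^ 2 ≤ a * (|A.2| + 4 * ρ) := by
    have : c * (ν * a / M) ^ 2 ≤ a * |A.2| + ρ * (a + 3) := by linarith
    have h3 : ρ * (a + 3) ≤ ρ * (4 * a) := mul_le_mul_of_nonneg_left (by linarith) hρ
    nlinarith
  have h12 : c * (ν * a / M) ^ 2 = a * (c * ν ^ 2 * a / M ^ 2) := by
    field_simp
  rw [h12] at h11
  have h13 : c * ν ^ 2 * a / M ^ 2 ≤ |A.2| + 4 * ρ := le_of_mul_le_mul_left h11 (by linarith)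
  have h14 : M * (c * ν ^ 2 * a / M ^ 2) ≤ M * (|A.2| + 4 * ρ) :=
    mul_le_mul_of_nonneg_left h13 hM0.le
  have h15 : M * (c * ν ^ 2 * a / M ^ 2) = c * ν ^ 2 * (a / M) := by
    field_simp
  rw [h15] at h14
  have h16 : κ / 64 ≤ a / M := by
    rw [le_div_iff₀ hM0]
    linarith
  have h17 : c * ν ^ 2 * (κ / 64) ≤ c * ν ^ 2 * (a / M) :=
    mul_le_mul_of_nonneg_left h16 (by positivity)
  nlinarith

/-- Contradiction (direction `(p,1)`).  Proof: `q = p² A.2 + p B.2 - p A.1 - B.1`.  From `hq1` and the bounds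
`|A|, |B| ≤ 1/M`: `p² a0/(2M) ≤ |q| ≤ (p+1)²/M` (as `p a0 ≥ 6`).  `L = M/(8(p+1))` (`≥ M/(16(p+1))`),
`v = (m p, m)`, `8 L m p ≤ k`; `exists_dense_line` gives the set `I` of the `i < L` with `x0 + i v ∈ E`;
`wrap` applies: `16 |q| ≤ δ`, `κ L |q| ≥ κ a0 p/64 ≥ 10`; it gives two points `x, y ∈ E` with
`y - x = a (m p, m)`, `κ L/8 ≤ a ≤ L`, `dz (a q) ≤ δ`.  Now
`cr (p,1) (T y - T x) = p (T y - T x).2 - (T y - T x).1` differs from `a q` by at most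
`(p+1) ρ ((p+1) a + 2)`.  Avoidance with `u = (p,1)`, `nz u = p`, multiplier `m a`:
`c (m a p)²/k² ≤ δ + (p+1) ρ ((p+1) a + 2) + ρ p`.  But `m a/k ≥ ν a/M ≥ ν κ/(128 (p+1))`, so the left side is
at least `c ν² κ²/65536`, while the right side is at most `c ν² κ²/200000 + 4 (p+1)² M ρ ≤ c ν² κ²/100000`. -/
theorem no_wrap {c κ ν ρ a0 δ : ℝ} (hc : 0 < c) (hκ : 0 < κ) (hν : 0 < ν) (hρ : 0 ≤ ρ)
    (ha0 : 0 < a0) (hδ : 0 < δ) (hδ1 : δ ≤ 1 / 16) (hδ2 : δ ≤ c * ν ^ 2 * κ ^ 2 / 200000)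
    {M m k p : ℕ} (hp : 1 ≤ p) (hp1 : 6 ≤ p * a0) (hp2 : 640 ≤ κ * a0 * p)
    (hM : 16 * ((p : ℝ) + 1) ^ 2 ≤ δ * M) (hM2 : 8 * (p + 1) ≤ M) (hk : 1 ≤ k) (hm : 1 ≤ m)
    (h1 : (m : ℝ) * M ≤ k) (h2 : ν * k ≤ m * M)
    (hρ2 : 4 * ((p : ℝ) + 1) ^ 2 * M * ρ ≤ c * ν ^ 2 * κ ^ 2 / 200000)
    {E : Finset (ℤ × ℤ)} (hE : E ⊆ box k)
    {T : ℤ × ℤ → ℝ × ℝ} (hEc : κ * (k : ℝ) ^ 2 ≤ E.card) (hav : Avoid c ρ k E T) {A B : ℝ × ℝ}
    (hT : ∀ a b : ℕ, 8 * (a + b) ≤ M → ∀ x ∈ E, ∀ y ∈ E,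
        y.1 - x.1 = (m : ℤ) * a → y.2 - x.2 = (m : ℤ) * b →
        |(T y - T x).1 - (a * A.1 + b * B.1)| ≤ ρ * (a + b + 2) ∧
        |(T y - T x).2 - (a * A.2 + b * B.2)| ≤ ρ * (a + b + 2))
    (hA1 : |A.1| ≤ 1 / M) (hA2 : |A.2| ≤ 1 / M) (hB1 : |B.1| ≤ 1 / M) (hB2 : |B.2| ≤ 1 / M)
    (hq1 : a0 ≤ M * |A.2|) : False := by
  have hp0 : (0 : ℝ) < p := by exact_mod_cast (by omega : 0 < p)
  have hp1' : (1 : ℝ) ≤ p := by exact_mod_cast hp
  have hM1 : 1 ≤ M := by omega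
  have hM0 : (0 : ℝ) < M := by exact_mod_cast (by omega : 0 < M)
  have hk0 : (0 : ℝ) < k := by exact_mod_cast (by omega : 0 < k)
  have hm0 : (0 : ℝ) < m := by exact_mod_cast (by omega : 0 < m)
  have h1n : m * M ≤ k := by exact_mod_cast h1
  -- the number `q`
  obtain ⟨q, hq⟩ : ∃ q : ℝ, q = p ^ 2 * A.2 + p * B.2 - p * A.1 - B.1 := ⟨_, rfl⟩
  have hqu : |q| ≤ ((p : ℝ) + 1) ^ 2 / M := by
    have b1 := abs_le.1 hA1
    have b2 := abs_le.1 hA2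
    have b3 := abs_le.1 hB1
    have b4 := abs_le.1 hB2
    have e1 : ((p : ℝ) + 1) ^ 2 / M = p ^ 2 * (1 / M) + p * (1 / M) + p * (1 / M) + 1 / M := by
      ring
    have c1 := mul_le_mul_of_nonneg_left b2.2 (sq_nonneg (p : ℝ))
    have c2 := mul_le_mul_of_nonneg_left b2.1 (sq_nonneg (p : ℝ))
    have c3 := mul_le_mul_of_nonneg_left b4.2 hp0.le
    have c4 := mul_le_mul_of_nonneg_left b4.1 hp0.le
    have c5 := mul_le_mul_of_nonneg_left b1.2 hp0.le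
    have c6 := mul_le_mul_of_nonneg_left b1.1 hp0.le
    rw [hq, e1, abs_le]
    constructor <;> linarith [b3.1, b3.2]
  have hql : (p : ℝ) ^ 2 * a0 / (2 * M) ≤ |q| := by
    have e1 : (p : ℝ) ^ 2 * A.2 = q + (p * A.1 + B.1 - p * B.2) := by
      rw [hq]; ring
    have e2 : |(p : ℝ) ^ 2 * A.2| ≤ |q| + (2 * p + 1) / M := by
      rw [e1]
      refine (abs_add_le _ _).trans ?_
      have b1 := abs_le.1 hA1
      have b3 := abs_le.1 hB1
      have b4 := abs_le.1 hB2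
      have c3 := mul_le_mul_of_nonneg_left b4.2 hp0.le
      have c4 := mul_le_mul_of_nonneg_left b4.1 hp0.le
      have c5 := mul_le_mul_of_nonneg_left b1.2 hp0.le
      have c6 := mul_le_mul_of_nonneg_left b1.1 hp0.le
      have e3 : (2 * (p : ℝ) + 1) / M = p * (1 / M) + p * (1 / M) + 1 / M := by ring
      have : |(p : ℝ) * A.1 + B.1 - p * B.2| ≤ (2 * p + 1) / M := by
        rw [e3, abs_le]
        constructor <;> linarith [b3.1, b3.2]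
      linarith
    rw [abs_mul, abs_of_nonneg (sq_nonneg (p : ℝ))] at e2
    have e4 : M * ((p : ℝ) ^ 2 * |A.2|) ≤ M * (|q| + (2 * p + 1) / M) :=
      mul_le_mul_of_nonneg_left e2 hM0.le
    have e5 : M * (|q| + (2 * (p : ℝ) + 1) / M) = M * |q| + (2 * p + 1) := by
      field_simp
    rw [e5] at e4
    have e6 : (p : ℝ) ^ 2 * a0 ≤ p ^ 2 * (M * |A.2|) :=
      mul_le_mul_of_nonneg_left hq1 (sq_nonneg _)
    rw [div_le_iff₀ (by positivity)]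
    have e7 : 6 * (p : ℝ) ≤ p ^ 2 * a0 := by
      have := mul_le_mul_of_nonneg_left hp1 hp0.le
      nlinarith
    nlinarith
  have hq0 : q ≠ 0 := by
    intro h
    rw [h, abs_zero] at hql
    have : 0 < (p : ℝ) ^ 2 * a0 / (2 * M) := by positivity
    linarith
  -- the length
  set L : ℕ := M / (8 * (p + 1)) with hLdef
  have hLM : 8 * (p + 1) * L ≤ M := Nat.mul_div_le M _
  have hL16 : (M : ℝ) / (16 * (p + 1)) ≤ L := by
    have := ZB_floor (M := M) (d := 8 * (p + 1)) (by omega) hM2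
    push_cast at this
    have e : 2 * (8 * ((p : ℝ) + 1)) = 16 * (p + 1) := by ring
    rwa [e] at this
  have hnv : nz ((m : ℤ) * p, (m : ℤ)) = (m : ℤ) * p := by
    unfold nz
    have e1 : |(m : ℤ) * p| = (m : ℤ) * p := abs_of_nonneg (by positivity)
    have e2 : |(m : ℤ)| = (m : ℤ) := abs_of_nonneg (by positivity)
    rw [e1, e2]
    apply max_eq_left
    have : m * 1 ≤ m * p := Nat.mul_le_mul_left _ hp
    rw [mul_one] at this
    exact_mod_cast this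
  have hLk : 8 * (L : ℤ) * nz ((m : ℤ) * p, (m : ℤ)) ≤ k := by
    rw [hnv]
    have : 8 * L * (m * p) ≤ k := by
      calc 8 * L * (m * p) = m * (8 * p * L) := by ring
        _ ≤ m * (8 * (p + 1) * L) := by
            apply Nat.mul_le_mul_left
            apply Nat.mul_le_mul_right
            omega
        _ ≤ m * M := Nat.mul_le_mul_left _ hLM
        _ ≤ k := h1n
    exact_mod_cast this
  obtain ⟨x0, hx0⟩ := exists_dense_line hk hE hEc ((m : ℤ) * p, (m : ℤ)) L hLk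
  have hw1 : 16 * |q| ≤ δ := by
    calc 16 * |q| ≤ 16 * (((p : ℝ) + 1) ^ 2 / M) := by linarith
      _ = 16 * ((p : ℝ) + 1) ^ 2 / M := by ring
      _ ≤ δ := by rw [div_le_iff₀ hM0]; exact hM
  have hw2 : 10 ≤ κ * L * |q| := by
    have e1 : κ * (M / (16 * (p + 1))) * ((p : ℝ) ^ 2 * a0 / (2 * M)) ≤ κ * L * |q| := by
      apply mul_le_mul _ hql (by positivity) (by positivity)
      exact mul_le_mul_of_nonneg_left hL16 hκ.le
    have e2 : κ * (M / (16 * (p + 1))) * ((p : ℝ) ^ 2 * a0 / (2 * M)) =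
        κ * a0 * p * (p / (p + 1)) / 32 := by
      field_simp
      ring
    have e3 : (1 : ℝ) / 2 ≤ p / (p + 1) := by
      rw [div_le_div_iff₀ (by norm_num) (by positivity)]
      linarith
    have e4 : κ * a0 * p * (1 / 2) ≤ κ * a0 * p * (p / (p + 1)) :=
      mul_le_mul_of_nonneg_left e3 (by positivity)
    rw [e2] at e1
    linarith
  obtain ⟨i, hi, j, hj, hij, hij2, hij3⟩ := wrap hκ hδ hδ1 hq0 hw1 hw2 (Finset.filter_subset _ _) hx0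
  rw [Finset.mem_filter, Finset.mem_range] at hi hj
  obtain ⟨a, rfl⟩ : ∃ a, j = i + a := ⟨j - i, by omega⟩
  have ha1 : 1 ≤ a := by omega
  have ha1' : (1 : ℝ) ≤ a := by exact_mod_cast ha1
  have haL : a ≤ L := by omega
  have haM : 8 * (a * p + a) ≤ M := by
    calc 8 * (a * p + a) = 8 * (p + 1) * a := by ring
      _ ≤ 8 * (p + 1) * L := Nat.mul_le_mul_left _ haL
      _ ≤ M := hLM
  have eij : ((i + a : ℕ) : ℝ) - i = a := by
    push_cast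
    ring
  rw [eij] at hij2 hij3
  have ex : (x0.1 + ((i + a : ℕ) : ℤ) * ((m : ℤ) * p)) - (x0.1 + (i : ℤ) * ((m : ℤ) * p)) =
      (m : ℤ) * (a * p : ℕ) := by
    push_cast
    ring
  have ey : (x0.2 + ((i + a : ℕ) : ℤ) * (m : ℤ)) - (x0.2 + (i : ℤ) * (m : ℤ)) = (m : ℤ) * a := by
    push_cast
    ring
  obtain ⟨hT1, hT2⟩ := hT (a * p) a haM _ hi.2 _ hj.2 ex ey
  have hne : (x0.1 + (i : ℤ) * ((m : ℤ) * p), x0.2 + (i : ℤ) * (m : ℤ)) ≠
      (x0.1 + ((i + a : ℕ) : ℤ) * ((m : ℤ) * p), x0.2 + ((i + a : ℕ) : ℤ) * (m : ℤ)) := by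
    intro h
    have h3 := congrArg Prod.snd h
    simp only at h3
    have h4 : (m : ℤ) * a = 0 := by
      rw [← ey, ← h3, sub_self]
    have h5 : m * a = 0 := by exact_mod_cast h4
    rcases Nat.mul_eq_zero.1 h5 with h6 | h6 <;> omega
  have hA := hav _ hi.2 _ hj.2 hne ((p : ℤ), 1) ((m : ℤ) * a) (by simp)
    (by rw [ex]; push_cast; ring) (by rw [mul_one]; exact ey)
  set w : ℝ × ℝ := T (x0.1 + ((i + a : ℕ) : ℤ) * ((m : ℤ) * p), x0.2 + ((i + a : ℕ) : ℤ) * (m : ℤ)) -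
    T (x0.1 + (i : ℤ) * ((m : ℤ) * p), x0.2 + (i : ℤ) * (m : ℤ)) with hw
  have e2 : nz ((p : ℤ), 1) = (p : ℤ) := by
    unfold nz
    have e1 : |(p : ℤ)| = (p : ℤ) := abs_of_nonneg (by positivity)
    rw [e1, abs_one]
    apply max_eq_left
    exact_mod_cast hp
  have e3 : cr ((p : ℤ), 1) w = p * w.2 - w.1 := by
    unfold cr
    push_cast
    ring
  rw [e2, e3] at hA
  push_cast at hA hT1 hT2
  have h5 : |(p * w.2 - w.1) - a * q| ≤ ((p : ℝ) + 1) * (ρ * (((p : ℝ) + 1) * a + 2)) := by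
    have e4 : (p * w.2 - w.1) - a * q =
        p * (w.2 - (a * p * A.2 + a * B.2)) - (w.1 - (a * p * A.1 + a * B.1)) := by
      rw [hq]; ring
    rw [e4]
    refine (abs_sub _ _).trans ?_
    rw [abs_mul, abs_of_pos hp0]
    have c1 := mul_le_mul_of_nonneg_left hT2 hp0.le
    have e5 : ρ * ((a : ℝ) * p + a + 2) = ρ * (((p : ℝ) + 1) * a + 2) := by ring
    rw [e5] at c1 hT1
    linarith
  have h6 : dz (p * w.2 - w.1) ≤ δ + ((p : ℝ) + 1) * (ρ * (((p : ℝ) + 1) * a + 2)) := by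
    have e4 : p * w.2 - w.1 = a * q + ((p * w.2 - w.1) - a * q) := by ring
    calc dz (p * w.2 - w.1) = dz (a * q + ((p * w.2 - w.1) - a * q)) := by rw [← e4]
      _ ≤ dz (a * q) + dz ((p * w.2 - w.1) - a * q) := dz_add_le _ _
      _ ≤ δ + |(p * w.2 - w.1) - a * q| := add_le_add hij3 (dz_le_abs _)
      _ ≤ _ := by linarith
  have h8 : c * ((m : ℝ) * a * p) ^ 2 / (k : ℝ) ^ 2 = c * ((m : ℝ) * a / k * p) ^ 2 := by
    field_simp
  rw [h8] at hA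
  have h9 : ν * a / M ≤ m * a / k := ZB_ratio hk hM1 h2 (by positivity)
  have h10 : ν * κ / 256 ≤ (m : ℝ) * a / k * p := by
    have c1 : κ / 8 * (M / (16 * (p + 1))) ≤ a :=
      (mul_le_mul_of_nonneg_left hL16 (by positivity)).trans hij2
    have c2 : ν * (κ / 8 * (M / (16 * (p + 1)))) / M * p ≤ ν * a / M * p := by
      apply mul_le_mul_of_nonneg_right _ hp0.le
      apply div_le_div_of_nonneg_right _ hM0.le
      exact mul_le_mul_of_nonneg_left c1 hν.le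
    have c3 : ν * (κ / 8 * (M / (16 * (p + 1)))) / M * p = ν * κ / 128 * (p / (p + 1)) := by
      field_simp
      ring
    have c4 : (1 : ℝ) / 2 ≤ p / (p + 1) := by
      rw [div_le_div_iff₀ (by norm_num) (by positivity)]
      linarith
    have c5 : ν * κ / 128 * (1 / 2) ≤ ν * κ / 128 * (p / (p + 1)) :=
      mul_le_mul_of_nonneg_left c4 (by positivity)
    have c6 : ν * a / M * p ≤ (m : ℝ) * a / k * p := mul_le_mul_of_nonneg_right h9 hp0.le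
    linarith
  have h11 : c * (ν * κ / 256) ^ 2 ≤ c * ((m : ℝ) * a / k * p) ^ 2 :=
    mul_le_mul_of_nonneg_left (pow_le_pow_left₀ (by positivity) h10 2) hc.le
  have h12 : ((p : ℝ) + 1) * (ρ * (((p : ℝ) + 1) * a + 2)) + ρ * p ≤ 4 * ((p : ℝ) + 1) ^ 2 * M * ρ := by
    have haM' : (a : ℝ) ≤ M := by
      have : a ≤ M := by nlinarith
      exact_mod_cast this
    have hM1' : (1 : ℝ) ≤ M := by exact_mod_cast hM1
    have c1 : ((p : ℝ) + 1) * (((p : ℝ) + 1) * a + 2) + p ≤ 4 * ((p : ℝ) + 1) ^ 2 * M := by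
      have d1 : ((p : ℝ) + 1) ^ 2 * a ≤ ((p : ℝ) + 1) ^ 2 * M :=
        mul_le_mul_of_nonneg_left haM' (by positivity)
      have d2 : ((p : ℝ) + 1) ^ 2 * 1 ≤ ((p : ℝ) + 1) ^ 2 * M :=
        mul_le_mul_of_nonneg_left hM1' (by positivity)
      nlinarith
    have c2 := mul_le_mul_of_nonneg_left c1 hρ
    nlinarith
  have h13 : c * (ν * κ / 256) ^ 2 = c * ν ^ 2 * κ ^ 2 / 65536 := by
    ring
  rw [h13] at h11
  have h14 : 0 < c * ν ^ 2 * κ ^ 2 := by positivity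
  linarith

/-- a common positive lower bound -/
private theorem ZB_pos (V : Finset ℝ) (f : ℝ → ℝ) (hf : ∀ ν ∈ V, 0 < f ν) :
    ∃ ρ : ℝ, 0 < ρ ∧ ∀ ν ∈ V, ρ ≤ f ν := by
  classical
  induction V using Finset.induction_on with
  | empty => exact ⟨1, one_pos, by simp⟩
  | insert a s ha ih =>
      obtain ⟨ρ, h1, h2⟩ := ih (fun ν hν => hf ν (Finset.mem_insert_of_mem hν))
      refine ⟨min ρ (f a), lt_min h1 (hf a (Finset.mem_insert_self _ _)), fun ν hν => ?_⟩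
      rcases Finset.mem_insert.1 hν with rfl | h
      · exact min_le_right _ _
      · exact (min_le_left _ _).trans (h2 ν h)

/-- LEMMA Z.  Proof: for `0 < ν ≤ 1` put `a0 = c κ ν²/128`, `δ = min (1/16) (c ν² κ²/200000)`,
`p = ⌈6/a0⌉₊ + ⌈640/(κ a0)⌉₊ + 1`, `G ν = ⌈16 (p+1)²/δ⌉₊ + 8 (p+1) + ⌈64/κ⌉₊ + 16` (and `G ν = 1` for `ν ≤ 0`).
`zA` gives `V`, `k0`.  Let `ρ > 0` be at most
`c κ ν²/(512 G ν)`, `1/(10 G ν)` and `c ν² κ²/(800000 (p+1)² G ν)` for all `ν ∈ V` (finite set).  For an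
avoiding `E, T` take `ν, m, A, B` from `zA`, `M = G ν`; with `a = M/8 ≥ M/16` in the last part of `zA`:
`|A.i|, |B.i| ≤ (1/25 + ρ (a+1))/a ≤ (16/25)/M + 2ρ ≤ 1/M`.  Then `lower_A` and `no_wrap`. -/
theorem lemZ (c κ : ℝ) (hc : 0 < c) (hκ : 0 < κ) : ∃ ρ : ℝ, 0 < ρ ∧ ∃ k0 : ℕ, ∀ k : ℕ, k0 ≤ k →
    ∀ (E : Finset (ℤ × ℤ)) (T : ℤ × ℤ → ℝ × ℝ), E ⊆ box k → κ * (k : ℝ) ^ 2 ≤ E.card →
      SmallOn E T → Hom6 ρ E T → Avoid c ρ k E T → False := by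
  -- the constants
  obtain ⟨a0, ha0⟩ : ∃ a0 : ℝ → ℝ, ∀ ν, a0 ν = c * κ * ν ^ 2 / 128 := ⟨_, fun _ => rfl⟩
  obtain ⟨δ, hδ⟩ : ∃ δ : ℝ → ℝ, ∀ ν, δ ν = min (1 / 16) (c * ν ^ 2 * κ ^ 2 / 200000) :=
    ⟨_, fun _ => rfl⟩
  obtain ⟨p, hp⟩ : ∃ p : ℝ → ℕ, ∀ ν, p ν = ⌈6 / a0 ν⌉₊ + ⌈640 / (κ * a0 ν)⌉₊ + 1 :=
    ⟨_, fun _ => rfl⟩
  obtain ⟨G, hG⟩ : ∃ G : ℝ → ℕ, ∀ ν, G ν = ⌈16 * ((p ν : ℝ) + 1) ^ 2 / δ ν⌉₊ + 8 * (p ν + 1) +
      ⌈64 / κ⌉₊ + 16 := ⟨_, fun _ => rfl⟩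
  obtain ⟨V, hV, k0, hk0⟩ := zA κ hκ G (fun ν => by rw [hG]; omega)
  have hG0 : ∀ ν, (16 : ℝ) ≤ G ν := fun ν => by
    have : 16 ≤ G ν := by rw [hG]; omega
    exact_mod_cast this
  obtain ⟨ρ, hρ0, hρ⟩ := ZB_pos V (fun ν => min (min (c * κ * ν ^ 2 / (512 * G ν)) (1 / (10 * G ν)))
    (c * ν ^ 2 * κ ^ 2 / (800000 * ((p ν : ℝ) + 1) ^ 2 * G ν))) (by
      intro ν hν
      have h1 := (hV ν hν).1
      have h2 : (0 : ℝ) < G ν := by linarith [hG0 ν]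
      refine lt_min (lt_min ?_ ?_) ?_ <;> positivity)
  refine ⟨ρ, hρ0, max k0 1, fun k hk E T hE hEc hsm hhom hav => ?_⟩
  have hk1 : 1 ≤ k := (le_max_right _ _).trans hk
  obtain ⟨ν, hνV, m, hm, h1, h2, A, B, hT, hsmall⟩ := hk0 k ((le_max_left _ _).trans hk) E T ρ hρ0.le
    hE hEc hsm hhom
  have hν := (hV ν hνV).1
  have hρν := hρ ν hνV
  simp only [le_min_iff] at hρν
  obtain ⟨⟨hρ1, hρ2⟩, hρ3⟩ := hρν
  have hM16 : 16 ≤ G ν := by rw [hG]; omega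
  have hM16' := hG0 ν
  have hM0 : (0 : ℝ) < G ν := by linarith
  have ha0p : 0 < a0 ν := by rw [ha0]; positivity
  have hδp : 0 < δ ν := by rw [hδ]; exact lt_min (by norm_num) (by positivity)
  have hp0 : (0 : ℝ) < (p ν : ℝ) + 1 := by positivity
  -- sizes of `A`, `B`
  have hsz : ∀ z : ℝ, |((G ν / 8 : ℕ) : ℝ) * z| ≤ 1 / 25 + ρ * (((G ν / 8 : ℕ) : ℝ) + 1) →
      |z| ≤ 1 / G ν := by
    intro z hz
    have g1 : (G ν : ℝ) / 16 ≤ ((G ν / 8 : ℕ) : ℝ) := by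
      have := ZB_floor (M := G ν) (d := 8) (by norm_num) (by omega)
      norm_num at this
      exact this
    have g2 : ((G ν / 8 : ℕ) : ℝ) ≤ (G ν : ℝ) / 8 := by
      have := @Nat.cast_div_le ℝ _ _ _ (G ν) 8
      exact_mod_cast this
    set a : ℝ := ((G ν / 8 : ℕ) : ℝ) with haa
    have g3 : 1 ≤ a := by linarith
    rw [abs_mul, abs_of_nonneg (by linarith : (0 : ℝ) ≤ a)] at hz
    have g4 : ρ * (10 * G ν) ≤ 1 := by
      rw [le_div_iff₀ (by positivity)] at hρ2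
      exact hρ2
    rw [le_div_iff₀ hM0]
    have g5 : |z| * (a * G ν) ≤ (1 / 25 + ρ * (a + 1)) * G ν := by
      calc |z| * (a * G ν) = (a * |z|) * G ν := by ring
        _ ≤ _ := mul_le_mul_of_nonneg_right hz hM0.le
    have g6 : (1 / 25 + ρ * (a + 1)) * G ν ≤ a := by
      have g7 : 1 / 25 * (G ν : ℝ) ≤ 16 / 25 * a := by linarith
      have g8 : ρ * (a + 1) * G ν ≤ a / 5 := by
        have g9 : ρ * (a + 1) * G ν ≤ ρ * (2 * a) * G ν := by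
          apply mul_le_mul_of_nonneg_right _ hM0.le
          apply mul_le_mul_of_nonneg_left _ hρ0.le
          linarith
        have g10 : ρ * (2 * a) * G ν = (ρ * (10 * G ν)) * (a / 5) := by ring
        have g11 : (ρ * (10 * G ν)) * (a / 5) ≤ 1 * (a / 5) :=
          mul_le_mul_of_nonneg_right g4 (by linarith)
        linarith
      nlinarith
    have g12 : a * (|z| * G ν) ≤ a * 1 := by
      calc a * (|z| * G ν) = |z| * (a * G ν) := by ring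
        _ ≤ a := g5.trans g6
        _ = a * 1 := (mul_one a).symm
    exact le_of_mul_le_mul_left g12 (by linarith)
  obtain ⟨s1, s2, s3, s4⟩ := hsmall (G ν / 8) (Nat.mul_div_le _ 8)
  have hA1 := hsz _ s1
  have hA2 := hsz _ s2
  have hB1 := hsz _ s3
  have hB2 := hsz _ s4
  have hκM : 64 ≤ κ * G ν := by
    have e1 : (⌈64 / κ⌉₊ : ℝ) ≤ G ν := by
      have : ⌈64 / κ⌉₊ ≤ G ν := by rw [hG]; omega
      exact_mod_cast this
    have e2 : 64 / κ ≤ G ν := (Nat.le_ceil _).trans e1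
    rw [div_le_iff₀ hκ] at e2
    linarith
  have hlow := lower_A hc hκ hν hρ0.le hκM hM16 hk1 hm h1 h2 (by
    rw [le_div_iff₀ (by positivity)] at hρ1
    linarith) hE hEc hav hT
  have hpp : 1 ≤ p ν := by rw [hp]; omega
  have hp1 : 6 ≤ p ν * a0 ν := by
    have e1 : (⌈6 / a0 ν⌉₊ : ℝ) ≤ p ν := by
      have : ⌈6 / a0 ν⌉₊ ≤ p ν := by rw [hp]; omega
      exact_mod_cast this
    have e2 : 6 / a0 ν ≤ p ν := (Nat.le_ceil _).trans e1
    rwa [div_le_iff₀ ha0p] at e2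
  have hp2 : 640 ≤ κ * a0 ν * p ν := by
    have e1 : (⌈640 / (κ * a0 ν)⌉₊ : ℝ) ≤ p ν := by
      have : ⌈640 / (κ * a0 ν)⌉₊ ≤ p ν := by rw [hp]; omega
      exact_mod_cast this
    have e2 : 640 / (κ * a0 ν) ≤ p ν := (Nat.le_ceil _).trans e1
    rw [div_le_iff₀ (by positivity)] at e2
    linarith
  have hM3 : 16 * ((p ν : ℝ) + 1) ^ 2 ≤ δ ν * G ν := by
    have e1 : (⌈16 * ((p ν : ℝ) + 1) ^ 2 / δ ν⌉₊ : ℝ) ≤ G ν := by
      have : ⌈16 * ((p ν : ℝ) + 1) ^ 2 / δ ν⌉₊ ≤ G ν := by rw [hG]; omega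
      exact_mod_cast this
    have e2 : 16 * ((p ν : ℝ) + 1) ^ 2 / δ ν ≤ G ν := (Nat.le_ceil _).trans e1
    rw [div_le_iff₀ hδp] at e2
    linarith
  have hM4 : 8 * (p ν + 1) ≤ G ν := by rw [hG]; omega
  have hρ4 : 4 * ((p ν : ℝ) + 1) ^ 2 * G ν * ρ ≤ c * ν ^ 2 * κ ^ 2 / 200000 := by
    rw [le_div_iff₀ (by positivity)] at hρ3
    linarith
  exact no_wrap hc hκ hν hρ0.le ha0p hδp (by rw [hδ]; exact min_le_left _ _)
    (by rw [hδ]; exact min_le_right _ _) hpp hp1 hp2 hM3 hM4 hk1 hm h1 h2 hρ4 hE hEc hav hT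
    hA1 hA2 hB1 hB2 (by rw [ha0]; exact hlow)

end

end Pool.Agent.Lib.MP_a768d2_co
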