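import Pool.Agent.Lib.MP_a768d2_co.LemS
import Pool.Agent.Lib.MP_a768d2_co.ZB

/-! # The combinatorial theorem (job FMain) -/

namespace Pool.Agent.Lib.MP_a768d2_co

noncomputable section

/-- COMBINATORIAL THEOREM.  Proof: `lemS c κ` gives `c'`, `κs`.  For `η > 0` let `ρ(η), k0(η)` be from
`lemZ c' (κs η²)`; apply the rest of `lemS` with `Φ = ρ` (extended by `1` for `η ≤ 0`); `l0` is the maximum of
`k0(η)` over `η ∈ V`. -/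
theorem flat (c κ : ℝ) (hc : 0 < c) (hκ : 0 < κ) : ∃ k : ℕ, 1 ≤ k ∧
    ∀ (E : Finset (ℤ × ℤ)) (T : ℤ × ℤ → ℝ × ℝ), E ⊆ box k → κ * (k : ℝ) ^ 2 ≤ E.card →
      ¬ Avoid c 0 k E T := by
  obtain ⟨c', hc', κs, hκs, hS⟩ := lemS c κ hc hκ
  have hZ : ∀ η : ℝ, ∃ ρ : ℝ, 0 < ρ ∧ ∃ k0 : ℕ, 0 < η → ∀ k : ℕ, k0 ≤ k →
      ∀ (E : Finset (ℤ × ℤ)) (T : ℤ × ℤ → ℝ × ℝ), E ⊆ box k →
        κs * η ^ 2 * (k : ℝ) ^ 2 ≤ E.card → SmallOn E T → Hom6 ρ E T → Avoid c' ρ k E T → False := by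
    intro η
    by_cases hη : 0 < η
    · obtain ⟨ρ, hρ, k0, h⟩ := lemZ c' (κs * η ^ 2) hc' (by positivity)
      exact ⟨ρ, hρ, k0, fun _ => h⟩
    · exact ⟨1, one_pos, 0, fun h => absurd h hη⟩
  choose Φ hΦ k1 hk1 using hZ
  obtain ⟨V, hV, hl⟩ := hS Φ (fun η _ => hΦ η)
  obtain ⟨k0, hk0⟩ := hl (V.sup k1)
  refine ⟨max k0 1, le_max_right _ _, fun E T hE hEc hav => ?_⟩
  obtain ⟨η, hηV, l, E', T', hl0, hE', hEc', hsm, hhom, hav'⟩ :=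
    hk0 (max k0 1) (le_max_left _ _) E T hE hEc hav
  exact hk1 η (hV η hηV) l ((Finset.le_sup hηV).trans hl0) E' T' hE' hEc' hsm hhom hav'

end

end Pool.Agent.Lib.MP_a768d2_co
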