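import Pool.Agent.Lib.MP_a768d2_co.Defs

/-! # Step 2: two far apart boxes with many coprime pairs (job Far) -/

namespace Pool.Agent.Lib.MP_a768d2_co

noncomputable section

private def far_ix (l : ℕ) (x : ℤ × ℤ) : ℤ × ℤ := (x.1 / (l : ℤ), x.2 / (l : ℤ))

private def far_close (l : ℕ) (p : (ℤ × ℤ) × (ℤ × ℤ)) : Prop :=
  |p.2.1 / (l : ℤ) - p.1.1 / (l : ℤ)| ≤ 1 ∧ |p.2.2 / (l : ℤ) - p.1.2 / (l : ℤ)| ≤ 1

private lemma far_card_close_fib (l : ℕ) (hl : 0 < l) (x : ℤ × ℤ) (S : Finset (ℤ × ℤ))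
    (hS : ∀ y ∈ S, far_close l (x, y)) : S.card ≤ (3 * l) ^ 2 := by
  have hl' : (0 : ℤ) < (l : ℤ) := by exact_mod_cast hl
  have hsub : S ⊆ Finset.Ico ((l : ℤ) * (x.1 / l - 1)) ((l : ℤ) * (x.1 / l - 1) + 3 * l) ×ˢ
      Finset.Ico ((l : ℤ) * (x.2 / l - 1)) ((l : ℤ) * (x.2 / l - 1) + 3 * l) := by
    intro y hy
    obtain ⟨h1, h2⟩ := hS y hy
    simp only at h1 h2
    rw [abs_le] at h1 h2
    have e1 := Int.emod_add_mul_ediv y.1 (l : ℤ)
    have e2 := Int.emod_add_mul_ediv y.2 (l : ℤ)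
    have f1 := Int.emod_nonneg y.1 hl'.ne'
    have f2 := Int.emod_nonneg y.2 hl'.ne'
    have g1 := Int.emod_lt_of_pos y.1 hl'
    have g2 := Int.emod_lt_of_pos y.2 hl'
    simp only [Finset.mem_product, Finset.mem_Ico]
    refine ⟨⟨?_, ?_⟩, ⟨?_, ?_⟩⟩ <;> nlinarith
  have := Finset.card_le_card hsub
  rw [Finset.card_product] at this
  simp only [Int.card_Ico, add_sub_cancel_left] at this
  have h3 : ((3 : ℤ) * (l : ℤ)).toNat = 3 * l := by omega
  rw [h3] at this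
  calc S.card ≤ _ := this
    _ = (3 * l) ^ 2 := by ring

/-- STEP 2.  Proof: let `q` be a natural number with `q² ≥ 72/κc`, `q ≥ 1`, `k ≥ q`, and
`l = (k + q - 1)/q` (so `k ≤ q l`, `l ≤ k`, `l ≤ 2k/q`).  A point `x` of `box k` has the index
`(x.1 / l, x.2 / l) ∈ [0,q)^2`.  The pairs `(x,y)` of points of the box whose indices differ by at
most 1 in both coordinates are at most `k² (3 l)² ≤ 36 k⁴/q² ≤ κc k⁴/2` many (for fixed `x` the point
`y` lies in a box of side `3 l`).  So at least `κc k⁴/2` pairs of `cop E E` have indices `(i, i')`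
which differ by at least 2 in some coordinate; pigeonhole over the at most `q⁴` pairs of indices: some
pair of indices has at least `κc k⁴/(2 q⁴) ≥ κc l⁴/32` of them.  Take `X = E ∩ (box with index i)`,
`Y = E ∩ (box with index i')`; corners `s = l i`, `t = l i'`; `κd = κc/32`. -/
theorem exists_far (κc : ℝ) (hκ : 0 < κc) : ∃ q : ℕ, 1 ≤ q ∧ ∃ κd : ℝ, 0 < κd ∧ ∃ k0 : ℕ,
    ∀ k : ℕ, k0 ≤ k → ∀ E : Finset (ℤ × ℤ), E ⊆ box k → κc * (k : ℝ) ^ 4 ≤ (cop E E).card →
    ∃ l : ℕ, k ≤ q * l ∧ l ≤ k ∧ ∃ (s t : ℤ × ℤ) (X Y : Finset (ℤ × ℤ)), X ⊆ E ∧ Y ⊆ E ∧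
      X ⊆ sbox s l ∧ Y ⊆ sbox t l ∧ (∀ x ∈ X, ∀ y ∈ Y, (l : ℤ) ≤ nz (y - x)) ∧
      κd * (l : ℝ) ^ 4 ≤ (cop X Y).card := by
  classical
  obtain ⟨q, hq⟩ := exists_nat_ge (72 / κc + 1)
  have hq1 : (1 : ℝ) ≤ q := by
    have : 0 < 72 / κc := by positivity
    linarith
  have hq1' : 1 ≤ q := by exact_mod_cast hq1
  have hq2 : 72 ≤ κc * (q : ℝ) ^ 2 := by
    have h1 : 72 / κc ≤ q := by linarith
    rw [div_le_iff₀ hκ] at h1
    nlinarith [mul_le_mul_of_nonneg_left hq1 (show (0 : ℝ) ≤ κc * q by positivity)]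
  refine ⟨q, hq1', κc / 32, by positivity, q, ?_⟩
  intro k hk E hE hcop
  have hk1 : 1 ≤ k := le_trans hq1' hk
  obtain ⟨l, hldef⟩ : ∃ l, l = (k + q - 1) / q := ⟨_, rfl⟩
  have hkl : k ≤ q * l := by
    have h1 := Nat.div_add_mod (k + q - 1) q
    have h2 := Nat.mod_lt (k + q - 1) (show 0 < q by omega)
    rw [← hldef] at h1
    omega
  have hlq : q * l ≤ k + q - 1 := by
    rw [hldef]; exact Nat.mul_div_le _ _
  have hlpos : 0 < l := by
    rcases Nat.eq_zero_or_pos l with h | h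
    · subst h; omega
    · exact h
  have hlk : l ≤ k := by
    by_contra hcon
    push Not at hcon
    -- q * l ≥ q * (k+1) = q k + q > k + q - 1
    have h1 : q * (k + 1) ≤ q * l := Nat.mul_le_mul_left _ hcon
    have h2 : k ≤ q * k := Nat.le_mul_of_pos_left _ (by omega)
    have h3 : q * (k + 1) = q * k + q := by ring
    omega
  have hl2k : (q : ℝ) * l ≤ 2 * k := by
    have : q * l ≤ 2 * k := by omega
    exact_mod_cast this
  have hl' : (0 : ℤ) < (l : ℤ) := by exact_mod_cast hlpos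
  have hkR : (0 : ℝ) < k := by exact_mod_cast hk1
  have hlR : (0 : ℝ) < l := by exact_mod_cast hlpos
  have hqR : (0 : ℝ) < q := by linarith
  -- the close pairs
  set P := cop E E with hP
  set Pc := P.filter (fun p => far_close l p) with hPc
  set Pf := P.filter (fun p => ¬ far_close l p) with hPf
  have hsplit : Pc.card + Pf.card = P.card := Finset.card_filter_add_card_filter_not _
  have hEcard : E.card ≤ k ^ 2 := by
    have := Finset.card_le_card hE
    unfold box at this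
    rw [Finset.card_product] at this
    simp only [Int.card_Ico, sub_zero, Int.toNat_natCast] at this
    calc E.card ≤ _ := this
      _ = k ^ 2 := by ring
  have hPc_le : Pc.card ≤ k ^ 2 * (3 * l) ^ 2 := by
    have hmaps : Set.MapsTo (fun p : (ℤ × ℤ) × (ℤ × ℤ) => p.1) (Pc : Set _) (E : Set _) := by
      intro p hp
      rw [Finset.mem_coe, hPc, Finset.mem_filter, hP] at hp
      unfold cop at hp
      rw [Finset.mem_filter, Finset.mem_product] at hp
      exact hp.1.1.1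
    have h1 : Pc.card ≤ (3 * l) ^ 2 * E.card := by
      apply Finset.card_le_mul_card_image_of_maps_to hmaps
      intro x hx
      -- fiber
      have hinj : (Pc.filter (fun p => p.1 = x)).card
          = ((Pc.filter (fun p => p.1 = x)).image (fun p => p.2)).card := by
        rw [Finset.card_image_of_injOn]
        intro a ha b hb hab
        rw [Finset.mem_coe, Finset.mem_filter] at ha hb
        exact Prod.ext (ha.2.trans hb.2.symm) hab
      rw [hinj]
      apply far_card_close_fib l hlpos x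
      intro y hy
      rw [Finset.mem_image] at hy
      obtain ⟨p, hp, rfl⟩ := hy
      rw [Finset.mem_filter] at hp
      rw [← hp.2]
      exact (Finset.mem_filter.mp hp.1).2
    calc Pc.card ≤ (3 * l) ^ 2 * E.card := h1
      _ ≤ (3 * l) ^ 2 * k ^ 2 := Nat.mul_le_mul_left _ hEcard
      _ = _ := by ring
  have hPcR : (Pc.card : ℝ) ≤ κc * (k : ℝ) ^ 4 / 2 := by
    have h1 : (Pc.card : ℝ) ≤ (k : ℝ) ^ 2 * (3 * l) ^ 2 := by exact_mod_cast hPc_le
    have h2 : ((q : ℝ) * l) ^ 2 ≤ (2 * k) ^ 2 := by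
      apply pow_le_pow_left₀ (by positivity) hl2k
    -- q² * (k² 9 l²) ≤ 36 k⁴ ≤ κc q² k⁴ / 2
    have h3 : (q : ℝ) ^ 2 * ((k : ℝ) ^ 2 * (3 * l) ^ 2) ≤ (q : ℝ) ^ 2 * (κc * (k : ℝ) ^ 4 / 2) := by
      have e1 : (q : ℝ) ^ 2 * ((k : ℝ) ^ 2 * (3 * l) ^ 2) = 9 * (k : ℝ) ^ 2 * ((q : ℝ) * l) ^ 2 := by
        ring
      have e2 : (q : ℝ) ^ 2 * (κc * (k : ℝ) ^ 4 / 2) = (κc * (q : ℝ) ^ 2) * (k : ℝ) ^ 4 / 2 := by
        ring
      rw [e1, e2]
      calc 9 * (k : ℝ) ^ 2 * ((q : ℝ) * l) ^ 2 ≤ 9 * (k : ℝ) ^ 2 * (2 * k) ^ 2 := by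
            apply mul_le_mul_of_nonneg_left h2; positivity
        _ = 72 * (k : ℝ) ^ 4 / 2 := by ring
        _ ≤ (κc * (q : ℝ) ^ 2) * (k : ℝ) ^ 4 / 2 := by
            apply div_le_div_of_nonneg_right _ (by norm_num)
            apply mul_le_mul_of_nonneg_right hq2; positivity
    have h4 := le_of_mul_le_mul_left h3 (by positivity)
    linarith
  have hPfR : κc * (k : ℝ) ^ 4 / 2 ≤ (Pf.card : ℝ) := by
    have h1 : (Pc.card : ℝ) + (Pf.card : ℝ) = (P.card : ℝ) := by exact_mod_cast hsplit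
    linarith
  -- pigeonhole over indices
  set I := (Finset.Ico (0 : ℤ) q ×ˢ Finset.Ico (0 : ℤ) q) ×ˢ
    (Finset.Ico (0 : ℤ) q ×ˢ Finset.Ico (0 : ℤ) q) with hI
  have hIcard : I.card = q ^ 4 := by
    rw [hI]
    simp only [Finset.card_product, Int.card_Ico, sub_zero, Int.toNat_natCast]
    ring
  have hixmem : ∀ x ∈ E, far_ix l x ∈ Finset.Ico (0 : ℤ) q ×ˢ Finset.Ico (0 : ℤ) q := by
    intro x hx
    have hxb := hE hx
    unfold box at hxb
    rw [Finset.mem_product, Finset.mem_Ico, Finset.mem_Ico] at hxb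
    obtain ⟨⟨a1, a2⟩, ⟨a3, a4⟩⟩ := hxb
    have hkl' : (k : ℤ) ≤ (q : ℤ) * (l : ℤ) := by exact_mod_cast hkl
    unfold far_ix
    rw [Finset.mem_product, Finset.mem_Ico, Finset.mem_Ico]
    refine ⟨⟨Int.ediv_nonneg a1 hl'.le, Int.ediv_lt_of_lt_mul hl' (by linarith)⟩,
      ⟨Int.ediv_nonneg a3 hl'.le, Int.ediv_lt_of_lt_mul hl' (by linarith)⟩⟩
  have hmapsI : ∀ p ∈ Pf, (far_ix l p.1, far_ix l p.2) ∈ I := by
    intro p hp
    rw [hPf, Finset.mem_filter, hP] at hp
    unfold cop at hp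
    rw [Finset.mem_filter, Finset.mem_product] at hp
    rw [hI, Finset.mem_product]
    exact ⟨hixmem _ hp.1.1.1, hixmem _ hp.1.1.2⟩
  have hIne : I.Nonempty := by
    rw [← Finset.card_pos, hIcard]; positivity
  have hpig := Finset.exists_le_card_fiber_of_nsmul_le_card_of_maps_to (M := ℝ)
    (b := κc * (k : ℝ) ^ 4 / (2 * (q : ℝ) ^ 4)) hmapsI hIne (by
      rw [hIcard, nsmul_eq_mul]
      push_cast
      have : (q : ℝ) ^ 4 * (κc * (k : ℝ) ^ 4 / (2 * (q : ℝ) ^ 4)) = κc * (k : ℝ) ^ 4 / 2 := by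
        field_simp
      rw [this]; exact hPfR)
  obtain ⟨⟨i, j⟩, hij, hfib⟩ := hpig
  have hfib_pos : (0 : ℝ) < ((Pf.filter (fun p => (far_ix l p.1, far_ix l p.2) = (i, j))).card : ℝ) :=
    lt_of_lt_of_le (by positivity) hfib
  have hfib_ne : (Pf.filter (fun p => (far_ix l p.1, far_ix l p.2) = (i, j))).Nonempty := by
    rw [← Finset.card_pos]; exact_mod_cast hfib_pos
  obtain ⟨p0, hp0⟩ := hfib_ne
  rw [Finset.mem_filter] at hp0
  have hfar : ¬ (|j.1 - i.1| ≤ 1 ∧ |j.2 - i.2| ≤ 1) := by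
    have h1 := (Finset.mem_filter.mp hp0.1).2
    have h2 := hp0.2
    rw [Prod.mk.injEq] at h2
    unfold far_close at h1
    unfold far_ix at h2
    rw [← h2.1, ← h2.2]
    exact h1
  have hloc : ∀ x : ℤ × ℤ, ∀ i : ℤ × ℤ, far_ix l x = i →
      (l : ℤ) * i.1 ≤ x.1 ∧ x.1 < (l : ℤ) * i.1 + l ∧ (l : ℤ) * i.2 ≤ x.2 ∧
        x.2 < (l : ℤ) * i.2 + l := by
    intro x i hi
    subst hi
    unfold far_ix
    have e1 := Int.emod_add_mul_ediv x.1 (l : ℤ)
    have e2 := Int.emod_add_mul_ediv x.2 (l : ℤ)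
    have f1 := Int.emod_nonneg x.1 hl'.ne'
    have f2 := Int.emod_nonneg x.2 hl'.ne'
    have g1 := Int.emod_lt_of_pos x.1 hl'
    have g2 := Int.emod_lt_of_pos x.2 hl'
    simp only
    refine ⟨by linarith, by linarith, by linarith, by linarith⟩
  refine ⟨l, hkl, hlk, ((l : ℤ) * i.1, (l : ℤ) * i.2), ((l : ℤ) * j.1, (l : ℤ) * j.2),
    E.filter (fun x => far_ix l x = i), E.filter (fun x => far_ix l x = j),
    Finset.filter_subset _ _, Finset.filter_subset _ _, ?_, ?_, ?_, ?_⟩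
  · intro x hx
    obtain ⟨a1, a2, a3, a4⟩ := hloc x i (Finset.mem_filter.mp hx).2
    unfold sbox
    simp only [Finset.mem_product, Finset.mem_Ico]
    exact ⟨⟨a1, a2⟩, ⟨a3, a4⟩⟩
  · intro x hx
    obtain ⟨a1, a2, a3, a4⟩ := hloc x j (Finset.mem_filter.mp hx).2
    unfold sbox
    simp only [Finset.mem_product, Finset.mem_Ico]
    exact ⟨⟨a1, a2⟩, ⟨a3, a4⟩⟩
  · intro x hx y hy
    obtain ⟨a1, a2, a3, a4⟩ := hloc x i (Finset.mem_filter.mp hx).2
    obtain ⟨b1, b2, b3, b4⟩ := hloc y j (Finset.mem_filter.mp hy).2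
    have key : ∀ a b u v : ℤ, (l : ℤ) * a ≤ u → u < (l : ℤ) * a + l → (l : ℤ) * b ≤ v →
        v < (l : ℤ) * b + l → ¬ |b - a| ≤ 1 → (l : ℤ) ≤ |v - u| := by
      intro a b u v h1 h2 h3 h4 h5
      rcases le_or_gt b a with hba | hba
      · have h6 : b ≤ a - 2 := by
          by_contra hcon
          apply h5
          rw [abs_le]; constructor <;> omega
        have h7 : (l : ℤ) * b ≤ (l : ℤ) * (a - 2) := mul_le_mul_of_nonneg_left h6 hl'.le
        have h8 : v - u ≤ -(l : ℤ) := by nlinarith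
        have := neg_abs_le (v - u)
        linarith
      · have h6 : a + 2 ≤ b := by
          by_contra hcon
          apply h5
          rw [abs_le]; constructor <;> omega
        have h7 : (l : ℤ) * (a + 2) ≤ (l : ℤ) * b := mul_le_mul_of_nonneg_left h6 hl'.le
        have h8 : (l : ℤ) ≤ v - u := by nlinarith
        exact le_trans h8 (le_abs_self _)
    unfold nz
    rw [not_and_or] at hfar
    rcases hfar with hf | hf
    · exact le_trans (key _ _ _ _ a1 a2 b1 b2 hf) (le_max_left _ _)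
    · exact le_trans (key _ _ _ _ a3 a4 b3 b4 hf) (le_max_right _ _)
  · have hsub : Pf.filter (fun p => (far_ix l p.1, far_ix l p.2) = (i, j)) ⊆
        cop (E.filter (fun x => far_ix l x = i)) (E.filter (fun x => far_ix l x = j)) := by
      intro p hp
      rw [Finset.mem_filter, hPf, Finset.mem_filter, hP] at hp
      obtain ⟨⟨h1, -⟩, h2⟩ := hp
      unfold cop at h1 ⊢
      rw [Finset.mem_filter, Finset.mem_product] at h1
      rw [Prod.mk.injEq] at h2
      rw [Finset.mem_filter, Finset.mem_product, Finset.mem_filter, Finset.mem_filter]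
      exact ⟨⟨⟨h1.1.1, h2.1⟩, ⟨h1.1.2, h2.2⟩⟩, h1.2⟩
    have hle : ((Pf.filter (fun p => (far_ix l p.1, far_ix l p.2) = (i, j))).card : ℝ) ≤
        ((cop (E.filter (fun x => far_ix l x = i)) (E.filter (fun x => far_ix l x = j))).card : ℝ) := by
      exact_mod_cast Finset.card_le_card hsub
    refine le_trans ?_ (le_trans hfib hle)
    rw [le_div_iff₀ (by positivity)]
    have h2 : ((q : ℝ) * l) ^ 4 ≤ (2 * k) ^ 4 := by
      apply pow_le_pow_left₀ (by positivity) hl2k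
    calc κc / 32 * (l : ℝ) ^ 4 * (2 * (q : ℝ) ^ 4) = κc / 16 * ((q : ℝ) * l) ^ 4 := by ring
      _ ≤ κc / 16 * (2 * k) ^ 4 := by
          apply mul_le_mul_of_nonneg_left h2; positivity
      _ = κc * (k : ℝ) ^ 4 := by ring

end

end Pool.Agent.Lib.MP_a768d2_co
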