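import Pool.Agent.Lib.MP_a768d2_co.Dz

/-! # Step 3a: a large exponential sum from avoidance (job Fejer) -/

namespace Pool.Agent.Lib.MP_a768d2_co

noncomputable section

private theorem Fejer_term {ι : Type} (P : Finset ι) (B : ι → ℝ) (a b : ℕ) (hab : b ≤ a) :
    ∑ i ∈ P, ee ((a : ℝ) * B i) * (starRingEnd ℂ) (ee ((b : ℝ) * B i)) =
      ∑ i ∈ P, ee (((a - b : ℕ) : ℝ) * B i) := by
  apply Finset.sum_congr rfl
  intro i _
  rw [← ee_neg, ← ee_add, Nat.cast_sub hab]
  congr 1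
  ring

private theorem Fejer_term' {ι : Type} (P : Finset ι) (B : ι → ℝ) (a b : ℕ) (hab : a ≤ b) :
    ∑ i ∈ P, ee ((a : ℝ) * B i) * (starRingEnd ℂ) (ee ((b : ℝ) * B i)) =
      (starRingEnd ℂ) (∑ i ∈ P, ee (((b - a : ℕ) : ℝ) * B i)) := by
  rw [map_sum]
  apply Finset.sum_congr rfl
  intro i _
  rw [← ee_neg, ← ee_neg, ← ee_add, Nat.cast_sub hab]
  congr 1
  ring

private theorem Fejer_expand {ι : Type} (P : Finset ι) (B : ι → ℝ) (J : ℕ) :
    ((∑ i ∈ P, ‖∑ j ∈ Finset.range J, ee (j * B i)‖ ^ 2 : ℝ) : ℂ) =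
      ∑ j ∈ Finset.range J, ∑ j' ∈ Finset.range J,
        ∑ i ∈ P, ee ((j : ℝ) * B i) * (starRingEnd ℂ) (ee ((j' : ℝ) * B i)) := by
  rw [Complex.ofReal_sum]
  have h1 : ∀ i ∈ P, ((‖∑ j ∈ Finset.range J, ee (j * B i)‖ ^ 2 : ℝ) : ℂ) =
      ∑ j ∈ Finset.range J, ∑ j' ∈ Finset.range J,
        ee ((j : ℝ) * B i) * (starRingEnd ℂ) (ee ((j' : ℝ) * B i)) := by
    intro i _
    rw [← Complex.normSq_eq_norm_sq, ← Complex.mul_conj, map_sum, Finset.sum_mul_sum]
  rw [Finset.sum_congr rfl h1, Finset.sum_comm]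
  apply Finset.sum_congr rfl
  intro j _
  rw [Finset.sum_comm]

private theorem Fejer_calc (x y : ℝ) (hx : x ≠ 0) :
    x * ((x - 1) * (y / (2 * x))) = (x - 1) * y / 2 := by
  field_simp

/-- STEP 3a.  Proof: by `norm_sum_ee_le`, `∑_{i ∈ P} |∑_{j<J} e(j B_i)|² ≤ |P|/(4 c1²) ≤ (J/2) |P|`.
Expanding, the left side is `∑_{j,j'<J} S(j - j')` with `S(d) = ∑_{i∈P} e(d B_i)`; the diagonal terms
give `J |P|`; hence `∑_{j≠j'} |S(j-j')| ≥ (J/2) |P|`.  There are at most `J²` pairs, and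
`|S(-d)| = |S(d)|`.  If `|S(d)| < |P|/(2J)` for all `1 ≤ d < J` this gives a contradiction when
`P` is non-empty; for empty `P` take `d = 1`. -/
theorem exists_freq {ι : Type} (P : Finset ι) (B : ι → ℝ) (c1 : ℝ) (hc1 : 0 < c1)
    (h : ∀ i ∈ P, c1 ≤ dz (B i)) (J : ℕ) (hJ2 : 2 ≤ J) (hJ : 1 ≤ 2 * c1 ^ 2 * J) :
    ∃ d : ℕ, 1 ≤ d ∧ d < J ∧ (P.card : ℝ) ≤ 2 * J * ‖∑ i ∈ P, ee (d * B i)‖ := by
  by_contra hcon
  push Not at hcon
  have hJ0 : (0 : ℝ) < J := by
    have : 0 < J := by omega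
    exact_mod_cast this
  -- the upper bound
  have hup : ∑ i ∈ P, ‖∑ j ∈ Finset.range J, ee (j * B i)‖ ^ 2 ≤ (J : ℝ) / 2 * P.card := by
    calc ∑ i ∈ P, ‖∑ j ∈ Finset.range J, ee (j * B i)‖ ^ 2
        ≤ ∑ i ∈ P, (J : ℝ) / 2 := by
          apply Finset.sum_le_sum
          intro i hi
          have h1 := h i hi
          have h2 : 0 < dz (B i) := lt_of_lt_of_le hc1 h1
          have h3 := norm_sum_ee_le J h2
          have h4 : 1 / (2 * dz (B i)) ≤ 1 / (2 * c1) :=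
            one_div_le_one_div_of_le (by positivity) (by linarith)
          have h5 : ‖∑ j ∈ Finset.range J, ee (j * B i)‖ ^ 2 ≤ (1 / (2 * c1)) ^ 2 :=
            pow_le_pow_left₀ (norm_nonneg _) (h3.trans h4) 2
          refine h5.trans ?_
          rw [div_pow, one_pow, mul_pow, div_le_div_iff₀ (by positivity) (by norm_num)]
          nlinarith
      _ = (J : ℝ) / 2 * P.card := by
          rw [Finset.sum_const, nsmul_eq_mul, mul_comm]
  -- the off diagonal terms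
  have hoff : ∀ a b : ℕ, a < J → b < J → a ≠ b →
      2 * J * ‖∑ i ∈ P, ee ((a : ℝ) * B i) * (starRingEnd ℂ) (ee ((b : ℝ) * B i))‖ < P.card := by
    intro a b ha hb hab
    rcases lt_or_gt_of_ne hab with hlt | hgt
    · rw [Fejer_term' P B a b hlt.le, RCLike.norm_conj]
      exact hcon (b - a) (by omega) (by omega)
    · rw [Fejer_term P B a b hgt.le]
      exact hcon (a - b) (by omega) (by omega)
  have hdiag : ∀ a : ℕ, ∑ i ∈ P, ee ((a : ℝ) * B i) * (starRingEnd ℂ) (ee ((a : ℝ) * B i)) =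
      (P.card : ℂ) := by
    intro a
    rw [Fejer_term P B a a le_rfl]
    simp [ee_zero]
  have hP : (0 : ℝ) < P.card := by
    have h1 := hcon 1 le_rfl (by omega)
    exact lt_of_le_of_lt (by positivity) h1
  -- split off the diagonal
  have hex := Fejer_expand P B J
  have hsplit : ∀ j ∈ Finset.range J, ∑ j' ∈ Finset.range J,
        ∑ i ∈ P, ee ((j : ℝ) * B i) * (starRingEnd ℂ) (ee ((j' : ℝ) * B i)) =
      (P.card : ℂ) + ∑ j' ∈ (Finset.range J).erase j,
        ∑ i ∈ P, ee ((j : ℝ) * B i) * (starRingEnd ℂ) (ee ((j' : ℝ) * B i)) := by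
    intro j hj
    rw [← Finset.add_sum_erase _ _ hj, hdiag]
  rw [Finset.sum_congr rfl hsplit, Finset.sum_add_distrib, Finset.sum_const, Finset.card_range,
    nsmul_eq_mul] at hex
  have heq : ((J : ℂ) * (P.card : ℂ)) =
      ((∑ i ∈ P, ‖∑ j ∈ Finset.range J, ee (j * B i)‖ ^ 2 : ℝ) : ℂ) -
      ∑ j ∈ Finset.range J, ∑ j' ∈ (Finset.range J).erase j,
        ∑ i ∈ P, ee ((j : ℝ) * B i) * (starRingEnd ℂ) (ee ((j' : ℝ) * B i)) := by
    rw [hex]
    ring
  have hnorm : ‖((J : ℂ) * (P.card : ℂ))‖ = (J : ℝ) * P.card := by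
    rw [norm_mul, Complex.norm_natCast, Complex.norm_natCast]
  have hle : (J : ℝ) * P.card ≤ (J : ℝ) / 2 * P.card +
      ‖∑ j ∈ Finset.range J, ∑ j' ∈ (Finset.range J).erase j,
        ∑ i ∈ P, ee ((j : ℝ) * B i) * (starRingEnd ℂ) (ee ((j' : ℝ) * B i))‖ := by
    rw [← hnorm, heq]
    refine (norm_sub_le _ _).trans ?_
    refine add_le_add ?_ le_rfl
    rw [Complex.norm_real, Real.norm_eq_abs, abs_of_nonneg (Finset.sum_nonneg
      (fun i _ => by positivity))]
    exact hup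
  have hsmall : ‖∑ j ∈ Finset.range J, ∑ j' ∈ (Finset.range J).erase j,
        ∑ i ∈ P, ee ((j : ℝ) * B i) * (starRingEnd ℂ) (ee ((j' : ℝ) * B i))‖ ≤
      J * ((J - 1) * (P.card / (2 * J))) := by
    refine (norm_sum_le _ _).trans ?_
    calc ∑ j ∈ Finset.range J, ‖∑ j' ∈ (Finset.range J).erase j,
        ∑ i ∈ P, ee ((j : ℝ) * B i) * (starRingEnd ℂ) (ee ((j' : ℝ) * B i))‖
        ≤ ∑ j ∈ Finset.range J, ((J : ℝ) - 1) * (P.card / (2 * J)) := by
          apply Finset.sum_le_sum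
          intro j hj
          refine (norm_sum_le _ _).trans ?_
          calc ∑ j' ∈ (Finset.range J).erase j,
              ‖∑ i ∈ P, ee ((j : ℝ) * B i) * (starRingEnd ℂ) (ee ((j' : ℝ) * B i))‖
              ≤ ∑ j' ∈ (Finset.range J).erase j, (P.card / (2 * J) : ℝ) := by
                apply Finset.sum_le_sum
                intro j' hj'
                rw [Finset.mem_erase, Finset.mem_range] at hj'
                have h1 := hoff j j' (Finset.mem_range.1 hj) hj'.2 (Ne.symm hj'.1)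
                rw [le_div_iff₀ (by positivity)]
                linarith
            _ = ((J : ℝ) - 1) * (P.card / (2 * J)) := by
                rw [Finset.sum_const, Finset.card_erase_of_mem hj, Finset.card_range, nsmul_eq_mul,
                  Nat.cast_sub (by omega), Nat.cast_one]
      _ = J * ((J - 1) * (P.card / (2 * J))) := by
          rw [Finset.sum_const, Finset.card_range, nsmul_eq_mul]
  have hcalc : (J : ℝ) * ((J - 1) * (P.card / (2 * J))) = (J - 1) * P.card / 2 :=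
    Fejer_calc _ _ hJ0.ne'
  rw [hcalc] at hsmall
  nlinarith

end

end Pool.Agent.Lib.MP_a768d2_co
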