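import Pool.Agent.Lib.MP_a768d2_co.Defs

/-! # Step 7: the fibre over zero is bounded (job Fib) -/

namespace Pool.Agent.Lib.MP_a768d2_co

noncomputable section

open scoped Pointwise

private theorem Fib_sum_mem {G : Type*} [AddCommGroup G] [DecidableEq G] (A : Finset G) (x : Fin 6 → G)
    (hx : ∀ i, x i ∈ A) : ∑ i, x i ∈ 6 • A := by
  rw [Finset.mem_nsmul]
  refine ⟨fun i => ⟨x i, hx i⟩, ?_⟩
  rw [List.sum_ofFn]

/-- STEP 7.  Proof: let `H` be the set of all such `h` (finite: `ZMod l` is finite for `l ≥ 1`).  The map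
`A × H → 7•A - 6•A`, `(a, h) ↦ a + (0, h)` is injective because `A` is a graph, so
`|A| |H| ≤ |7•A - 6•A| ≤ K^13 |A|` by the Pluennecke - Ruzsa inequality
(`Finset.pluennecke_ruzsa_inequality_nsmul_sub_nsmul_sub` in Mathlib). -/
theorem fib {l : ℕ} (hl : 1 ≤ l) (A : Finset ((ℤ × ℤ) × (ZMod l × ZMod l))) (hA : A.Nonempty)
    (hinj : ∀ a ∈ A, ∀ b ∈ A, a.1 = b.1 → a = b) (K : ℝ)
    (hK : ((A - A).card : ℝ) ≤ K * A.card) :
    ∃ H : Finset (ZMod l × ZMod l), (H.card : ℝ) ≤ K ^ 13 ∧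
      ∀ (x y : Fin 6 → (ℤ × ℤ) × (ZMod l × ZMod l)) (h : ZMod l × ZMod l),
        (∀ i, x i ∈ A) → (∀ i, y i ∈ A) → (∑ i, x i) - (∑ i, y i) = (0, h) → h ∈ H := by
  classical
  have : NeZero l := ⟨by omega⟩
  have hApos : (0 : ℝ) < A.card := by exact_mod_cast hA.card_pos
  let H : Finset (ZMod l × ZMod l) := Finset.univ.filter fun h => ((0, h) : (ℤ × ℤ) × (ZMod l × ZMod l)) ∈ 6 • A - 6 • A
  refine ⟨H, ?_, ?_⟩
  · have h1 : (A ×ˢ H).card ≤ (7 • A - 6 • A).card := by
      refine Finset.card_le_card_of_injOn (fun p => p.1 + ((0, p.2) : (ℤ × ℤ) × (ZMod l × ZMod l))) ?_ ?_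
      · rintro ⟨a, h⟩ hp
        have hp' := Finset.mem_product.1 (Finset.mem_coe.1 hp)
        have hh := (Finset.mem_filter.1 hp'.2).2
        obtain ⟨u, hu, v, hv, huv⟩ := Finset.mem_sub.1 hh
        apply Finset.mem_coe.2
        dsimp only
        rw [← huv, Finset.mem_sub]
        refine ⟨a + u, ?_, v, hv, by rw [add_sub_assoc]⟩
        rw [show (7 : ℕ) = 6 + 1 from rfl, succ_nsmul']
        exact Finset.add_mem_add hp'.1 hu
      · rintro ⟨a, h⟩ hp ⟨b, h'⟩ hq hpq
        have hp' := Finset.mem_product.1 (Finset.mem_coe.1 hp)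
        have hq' := Finset.mem_product.1 (Finset.mem_coe.1 hq)
        dsimp only at hpq
        have h1 : a.1 = b.1 := by
          have := congrArg Prod.fst hpq
          simpa using this
        have h2 : a = b := hinj a hp'.1 b hq'.1 h1
        subst h2
        have h3 := add_left_cancel hpq
        have h4 : h = h' := congrArg Prod.snd h3
        rw [h4]
    rw [Finset.card_product] at h1
    have h2 := Finset.pluennecke_ruzsa_inequality_nsmul_sub_nsmul_sub hA A 7 6
    have h3 : ((A.card * H.card : ℕ) : ℝ) ≤ (((A - A).card : ℝ) / A.card) ^ 13 * A.card := by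
      have h4 : ((A.card * H.card : ℕ) : ℚ≥0) ≤ (((A - A).card : ℚ≥0) / A.card) ^ (7 + 6) * A.card :=
        le_trans (by exact_mod_cast h1) h2
      have h5 := (NNRat.cast_le (K := ℝ)).2 h4
      push_cast at h5
      push_cast
      exact h5
    have h4 : ((A - A).card : ℝ) / A.card ≤ K := (div_le_iff₀ hApos).2 hK
    have h5 : (((A - A).card : ℝ) / A.card) ^ 13 ≤ K ^ 13 := pow_le_pow_left₀ (by positivity) h4 13
    have h6 : (A.card : ℝ) * H.card ≤ K ^ 13 * A.card := by
      calc (A.card : ℝ) * H.card = ((A.card * H.card : ℕ) : ℝ) := by push_cast; ring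
        _ ≤ (((A - A).card : ℝ) / A.card) ^ 13 * A.card := h3
        _ ≤ K ^ 13 * A.card := by gcongr
    have h7 : (A.card : ℝ) * H.card ≤ A.card * K ^ 13 := by rw [mul_comm (A.card : ℝ) (K ^ 13)]; exact h6
    exact le_of_mul_le_mul_left h7 hApos
  · intro x y h hx hy hxy
    refine Finset.mem_filter.2 ⟨Finset.mem_univ _, ?_⟩
    rw [← hxy]
    exact Finset.sub_mem_sub (Fib_sum_mem A x hx) (Fib_sum_mem A y hy)

end

end Pool.Agent.Lib.MP_a768d2_co
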