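import Pool.Agent.Lib.MP_a768d2_co.Defs

/-! # Step 1: passing to a residue class in which many pairs have coprime difference (job Gcd) -/

namespace Pool.Agent.Lib.MP_a768d2_co

noncomputable section

private theorem gcd_mem_box {k : ℕ} {x : ℤ × ℤ} :
    x ∈ box k ↔ (0 ≤ x.1 ∧ x.1 < k) ∧ (0 ≤ x.2 ∧ x.2 < k) := by
  simp [box, Finset.mem_product, Finset.mem_Ico]

private theorem gcd_card_box (k : ℕ) : (box k).card = k ^ 2 := by
  simp [box, Finset.card_product, Int.card_Ico, pow_two]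

/-- the pairs with gcd equal to `m` -/
private theorem gcd_card_fib_le (k m : ℕ) (hm : 1 ≤ m) :
    ((((box k) ×ˢ (box k)).filter (fun p => p.1 ≠ p.2 ∧
      Int.gcd (p.2.1 - p.1.1) (p.2.2 - p.1.2) = m)).card : ℝ) ≤ 8 * (k : ℝ) ^ 4 * ((m : ℝ) ^ 2)⁻¹ := by
  classical
  set q : ℕ := k / m with hq
  set I : Finset (ℤ × ℤ) := (Finset.Icc (-(q : ℤ)) q ×ˢ Finset.Icc (-(q : ℤ)) q).erase (0, 0) with hI
  have hIcard : I.card ≤ 8 * q ^ 2 := by
    rw [hI, Finset.card_erase_of_mem (by simp), Finset.card_product, Int.card_Icc]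
    have : ((q : ℤ) + 1 - -(q : ℤ)).toNat = 2 * q + 1 := by omega
    rw [this]
    have h1 : q ≤ q ^ 2 := by
      rcases Nat.eq_zero_or_pos q with h | h
      · rw [h]; norm_num
      · nlinarith
    have h2 : (2 * q + 1) * (2 * q + 1) - 1 = 4 * q ^ 2 + 4 * q := by
      have : (2 * q + 1) * (2 * q + 1) = 4 * q ^ 2 + 4 * q + 1 := by ring
      omega
    omega
  have hmz : (0 : ℤ) < m := by exact_mod_cast hm
  have hcard : (((box k) ×ˢ (box k)).filter (fun p => p.1 ≠ p.2 ∧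
      Int.gcd (p.2.1 - p.1.1) (p.2.2 - p.1.2) = m)).card ≤ (box k ×ˢ I).card := by
    apply Finset.card_le_card_of_injOn
      (fun p => (p.1, ((p.2.1 - p.1.1) / (m : ℤ), (p.2.2 - p.1.2) / (m : ℤ))))
    · intro p hp
      rw [Finset.mem_coe, Finset.mem_filter, Finset.mem_product, gcd_mem_box, gcd_mem_box] at hp
      obtain ⟨⟨⟨⟨hx1, hx2⟩, hx3, hx4⟩, ⟨hy1, hy2⟩, hy3, hy4⟩, hne, hg⟩ := hp
      have d1 : (m : ℤ) ∣ p.2.1 - p.1.1 := by rw [← hg]; exact Int.gcd_dvd_left _ _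
      have d2 : (m : ℤ) ∣ p.2.2 - p.1.2 := by rw [← hg]; exact Int.gcd_dvd_right _ _
      obtain ⟨i, hi⟩ := d1
      obtain ⟨j, hj⟩ := d2
      have hqi : ∀ t : ℤ, |(m : ℤ) * t| < k → -(q : ℤ) ≤ t ∧ t ≤ q := by
        intro t ht
        rw [abs_mul, abs_of_pos hmz] at ht
        have h1 : |t| ≤ q := by
          rw [hq, Int.natCast_div, Int.le_ediv_iff_mul_le hmz]
          linarith
        exact abs_le.mp h1
      have hi' := hqi i (by rw [← hi, abs_lt]; constructor <;> linarith)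
      have hj' := hqi j (by rw [← hj, abs_lt]; constructor <;> linarith)
      rw [Finset.mem_coe, Finset.mem_product]
      refine ⟨gcd_mem_box.mpr ⟨⟨hx1, hx2⟩, hx3, hx4⟩, ?_⟩
      show ((p.2.1 - p.1.1) / (m : ℤ), (p.2.2 - p.1.2) / (m : ℤ)) ∈ I
      rw [hi, hj, Int.mul_ediv_cancel_left _ hmz.ne', Int.mul_ediv_cancel_left _ hmz.ne', hI,
        Finset.mem_erase, Finset.mem_product, Finset.mem_Icc, Finset.mem_Icc]
      refine ⟨?_, hi', hj'⟩
      intro h0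
      apply hne
      have h1 : i = 0 := congrArg Prod.fst h0
      have h2 : j = 0 := congrArg Prod.snd h0
      rw [h1] at hi
      rw [h2] at hj
      apply Prod.ext <;> linarith
    · intro p hp p' hp' h
      rw [Finset.mem_coe, Finset.mem_filter] at hp hp'
      have hg := hp.2.2
      have hg' := hp'.2.2
      have d1 : (m : ℤ) ∣ p.2.1 - p.1.1 := by rw [← hg]; exact Int.gcd_dvd_left _ _
      have d2 : (m : ℤ) ∣ p.2.2 - p.1.2 := by rw [← hg]; exact Int.gcd_dvd_right _ _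
      have d3 : (m : ℤ) ∣ p'.2.1 - p'.1.1 := by rw [← hg']; exact Int.gcd_dvd_left _ _
      have d4 : (m : ℤ) ∣ p'.2.2 - p'.1.2 := by rw [← hg']; exact Int.gcd_dvd_right _ _
      obtain ⟨i, hi⟩ := d1
      obtain ⟨j, hj⟩ := d2
      obtain ⟨i', hi'⟩ := d3
      obtain ⟨j', hj'⟩ := d4
      simp only [hi, hj, hi', hj', Int.mul_ediv_cancel_left _ hmz.ne', Prod.mk.injEq] at h
      obtain ⟨h1, h2, h3⟩ := h
      rw [h2, h1] at hi
      rw [h3, h1] at hj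
      have e1 : p.2.1 = p'.2.1 := by linarith
      have e2 : p.2.2 = p'.2.2 := by linarith
      exact Prod.ext h1 (Prod.ext e1 e2)
  rw [Finset.card_product, gcd_card_box] at hcard
  have hm0 : (0 : ℝ) < m := by exact_mod_cast hm
  have hqr : (q : ℝ) ≤ k / m := by rw [hq]; exact Nat.cast_div_le
  have h1 : (((((box k) ×ˢ (box k)).filter (fun p => p.1 ≠ p.2 ∧
      Int.gcd (p.2.1 - p.1.1) (p.2.2 - p.1.2) = m)).card : ℕ) : ℝ) ≤ (k : ℝ) ^ 2 * (8 * (q : ℝ) ^ 2) := by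
    have h2 := hcard.trans (Nat.mul_le_mul_left (k ^ 2) hIcard)
    exact_mod_cast h2
  refine h1.trans ?_
  have h3 : (q : ℝ) ^ 2 ≤ (k / m) ^ 2 := pow_le_pow_left₀ (Nat.cast_nonneg q) hqr 2
  calc (k : ℝ) ^ 2 * (8 * (q : ℝ) ^ 2) ≤ (k : ℝ) ^ 2 * (8 * ((k : ℝ) / m) ^ 2) := by
        apply mul_le_mul_of_nonneg_left _ (by positivity); linarith
    _ = 8 * (k : ℝ) ^ 4 * ((m : ℝ) ^ 2)⁻¹ := by field_simp

/-- Number of ordered pairs of distinct points of `box k` whose difference is divisible by some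
`m > w`: for fixed `x` and `m ≤ k` the number of `y ≠ x` in the box with `m ∣ y - x` is at most
`(2 k/m + 1)^2 - 1 ≤ 8 k²/m²` (the differences are `m (i, j)` with `|i|, |j| ≤ k/m`, `(i,j) ≠ 0`),
and it is `0` for `m ≥ k`; sum over `x` and over `m > w` with `∑_{m > w} 1/m² ≤ 1/w`. -/
theorem card_bad_le (k w : ℕ) (hw : 1 ≤ w) :
    ((((box k) ×ˢ (box k)).filter (fun p => p.1 ≠ p.2 ∧
      w < Int.gcd (p.2.1 - p.1.1) (p.2.2 - p.1.2))).card : ℝ) ≤ 8 * (k : ℝ) ^ 4 / w := by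
  classical
  have hsub : (((box k) ×ˢ (box k)).filter (fun p => p.1 ≠ p.2 ∧
      w < Int.gcd (p.2.1 - p.1.1) (p.2.2 - p.1.2))) ⊆
      (Finset.Ioc w k).biUnion (fun m => ((box k) ×ˢ (box k)).filter (fun p => p.1 ≠ p.2 ∧
        Int.gcd (p.2.1 - p.1.1) (p.2.2 - p.1.2) = m)) := by
    intro p hp
    rw [Finset.mem_filter] at hp
    obtain ⟨hp1, hne, hg⟩ := hp
    rw [Finset.mem_biUnion]
    refine ⟨Int.gcd (p.2.1 - p.1.1) (p.2.2 - p.1.2), ?_, ?_⟩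
    · rw [Finset.mem_Ioc]
      refine ⟨hg, ?_⟩
      rw [Finset.mem_product, gcd_mem_box, gcd_mem_box] at hp1
      obtain ⟨⟨⟨hx1, hx2⟩, hx3, hx4⟩, ⟨hy1, hy2⟩, hy3, hy4⟩ := hp1
      by_cases h1 : p.2.1 - p.1.1 = 0
      · have h2 : p.2.2 - p.1.2 ≠ 0 := by
          intro h2
          apply hne
          apply Prod.ext <;> linarith
        have := Int.gcd_le_natAbs_right (a := p.2.1 - p.1.1) (b := p.2.2 - p.1.2) h2
        omega
      · have := Int.gcd_le_natAbs_left (a := p.2.1 - p.1.1) (b := p.2.2 - p.1.2) h1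
        omega
    · rw [Finset.mem_filter]
      exact ⟨hp1, hne, rfl⟩
  have hw0 : (0 : ℝ) < w := by exact_mod_cast hw
  calc ((((box k) ×ˢ (box k)).filter (fun p => p.1 ≠ p.2 ∧
      w < Int.gcd (p.2.1 - p.1.1) (p.2.2 - p.1.2))).card : ℝ)
      ≤ (((Finset.Ioc w k).biUnion (fun m => ((box k) ×ˢ (box k)).filter (fun p => p.1 ≠ p.2 ∧
        Int.gcd (p.2.1 - p.1.1) (p.2.2 - p.1.2) = m))).card : ℝ) := by
        exact_mod_cast Finset.card_le_card hsub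
    _ ≤ ∑ m ∈ Finset.Ioc w k, ((((box k) ×ˢ (box k)).filter (fun p => p.1 ≠ p.2 ∧
        Int.gcd (p.2.1 - p.1.1) (p.2.2 - p.1.2) = m)).card : ℝ) := by
        exact_mod_cast Finset.card_biUnion_le
    _ ≤ ∑ m ∈ Finset.Ioc w k, 8 * (k : ℝ) ^ 4 * ((m : ℝ) ^ 2)⁻¹ := by
        apply Finset.sum_le_sum
        intro m hm
        rw [Finset.mem_Ioc] at hm
        exact gcd_card_fib_le k m (by omega)
    _ = 8 * (k : ℝ) ^ 4 * ∑ m ∈ Finset.Ioc w k, ((m : ℝ) ^ 2)⁻¹ := by rw [Finset.mul_sum]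
    _ ≤ 8 * (k : ℝ) ^ 4 * (1 / w) := by
        apply mul_le_mul_of_nonneg_left _ (by positivity)
        rcases le_or_gt w k with h | h
        · have h1 := sum_Ioc_inv_sq_le_sub (α := ℝ) (k := w) (n := k) (by omega) h
          have h2 : (0 : ℝ) ≤ (k : ℝ)⁻¹ := by positivity
          rw [one_div]; linarith
        · rw [Finset.Ioc_eq_empty (by omega), Finset.sum_empty]
          positivity
    _ = 8 * (k : ℝ) ^ 4 / w := by ring

/-- STEP 1.  Proof: `w0 = ⌈32/κ²⌉₊` (at least 1).  By `card_bad_le` at least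
`κ² k⁴ - k² - κ² k⁴/4 ≥ κ² k⁴ / 2` pairs of distinct points of `E` have `gcd (y - x) = m` with
`1 ≤ m ≤ w0`.  Pigeonhole: some `m` has at least `κ² k⁴/(2 w0)` of them; the two points of such a pair
are congruent mod `m`; pigeonhole over the `m²` classes `a ∈ [0,m)^2`: some class has at least
`κ² k⁴/(2 w0 m²)` of them.  Put `k' = (k-1)/m + 1` (so `k ≤ m k'`, `k' ≤ k` and `k' ≤ 2k/m` for
`k ≥ w0`) and `E' = {x ∈ box k' : aff m a x ∈ E}`; the pairs become pairs with coprime difference.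
`κ² k⁴/(2 w0 m²) ≥ κ² m² (k'/2)⁴ / (2 w0) ≥ κ² k'^4/(32 w0)`. -/
theorem exists_class (κ : ℝ) (hκ : 0 < κ) : ∃ κc : ℝ, 0 < κc ∧ ∃ w0 k0 : ℕ, ∀ k : ℕ, k0 ≤ k →
    ∀ E : Finset (ℤ × ℤ), E ⊆ box k → κ * (k : ℝ) ^ 2 ≤ E.card →
    ∃ m : ℕ, 1 ≤ m ∧ m ≤ w0 ∧ ∃ a : ℤ × ℤ, ∃ k' : ℕ, k ≤ m * k' ∧ k' ≤ k ∧
      ∃ E' : Finset (ℤ × ℤ), E' ⊆ box k' ∧ (∀ x ∈ E', aff m a x ∈ E) ∧
        κc * (k' : ℝ) ^ 4 ≤ (cop E' E').card := by
  classical
  obtain ⟨w0, hw0⟩ : ∃ w0 : ℕ, w0 = ⌈32 / κ ^ 2⌉₊ + 1 := ⟨_, rfl⟩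
  have hw1 : 1 ≤ w0 := by omega
  have hw0r : (0 : ℝ) < w0 := by exact_mod_cast hw1
  have hw32 : 32 / κ ^ 2 ≤ w0 := by
    rw [hw0]; push_cast
    have := Nat.le_ceil (32 / κ ^ 2)
    linarith
  refine ⟨κ ^ 2 / (2 * w0 ^ 3), by positivity, w0, ⌈4 / κ ^ 2⌉₊ + 1, ?_⟩
  intro k hk E hE hEc
  have hk1 : 1 ≤ k := by omega
  have hkr : (1 : ℝ) ≤ k := by exact_mod_cast hk1
  have hk4 : 4 / κ ^ 2 ≤ k := by
    have h1 := Nat.le_ceil (4 / κ ^ 2)
    have h2 : ((⌈4 / κ ^ 2⌉₊ + 1 : ℕ) : ℝ) ≤ k := by exact_mod_cast hk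
    push_cast at h2
    linarith
  -- the good pairs
  obtain ⟨G, hG⟩ : ∃ G : Finset ((ℤ × ℤ) × (ℤ × ℤ)), G = (E ×ˢ E).filter (fun p => p.1 ≠ p.2 ∧
      Int.gcd (p.2.1 - p.1.1) (p.2.2 - p.1.2) ≤ w0) := ⟨_, rfl⟩
  have hsub : E ×ˢ E ⊆ (G ∪ E.image (fun x => (x, x))) ∪ (((box k) ×ˢ (box k)).filter
      (fun p => p.1 ≠ p.2 ∧ w0 < Int.gcd (p.2.1 - p.1.1) (p.2.2 - p.1.2))) := by
    intro p hp
    rw [Finset.mem_product] at hp
    by_cases h1 : p.1 = p.2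
    · apply Finset.mem_union_left
      apply Finset.mem_union_right
      rw [Finset.mem_image]
      exact ⟨p.1, hp.1, Prod.ext rfl h1⟩
    · by_cases h2 : Int.gcd (p.2.1 - p.1.1) (p.2.2 - p.1.2) ≤ w0
      · apply Finset.mem_union_left
        apply Finset.mem_union_left
        rw [hG, Finset.mem_filter, Finset.mem_product]
        exact ⟨hp, h1, h2⟩
      · apply Finset.mem_union_right
        rw [Finset.mem_filter, Finset.mem_product]
        exact ⟨⟨hE hp.1, hE hp.2⟩, h1, by omega⟩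
  have hEk : (E.card : ℝ) ≤ (k : ℝ) ^ 2 := by
    have := Finset.card_le_card hE
    rw [gcd_card_box] at this
    exact_mod_cast this
  have hGc : κ ^ 2 * (k : ℝ) ^ 4 / 2 ≤ G.card := by
    have h1 := Finset.card_le_card hsub
    have h2 := (h1.trans (Finset.card_union_le _ _)).trans
      (Nat.add_le_add_right (Finset.card_union_le _ _) _)
    have h3 : (E.image (fun x => (x, x))).card ≤ E.card := Finset.card_image_le
    rw [Finset.card_product] at h2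
    have h4 : (E.card : ℝ) * E.card ≤ G.card + E.card + ((((box k) ×ˢ (box k)).filter (fun p => p.1 ≠ p.2 ∧
      w0 < Int.gcd (p.2.1 - p.1.1) (p.2.2 - p.1.2))).card : ℝ) := by
      have h5 := h2.trans (Nat.add_le_add_right (Nat.add_le_add_left h3 _) _)
      exact_mod_cast h5
    have h6 := card_bad_le k w0 hw1
    have h7 : 8 * (k : ℝ) ^ 4 / w0 ≤ κ ^ 2 * (k : ℝ) ^ 4 / 4 := by
      rw [div_le_iff₀ hw0r]
      rw [div_le_iff₀ (by positivity)] at hw32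
      nlinarith [pow_pos (lt_of_lt_of_le one_pos hkr) 4]
    have h8 : κ ^ 2 * (k : ℝ) ^ 4 ≤ (E.card : ℝ) * E.card := by
      have := mul_le_mul hEc hEc (by positivity) (by positivity)
      calc κ ^ 2 * (k : ℝ) ^ 4 = (κ * (k : ℝ) ^ 2) * (κ * (k : ℝ) ^ 2) := by ring
        _ ≤ _ := this
    have h9 : (k : ℝ) ^ 2 ≤ κ ^ 2 * (k : ℝ) ^ 4 / 4 := by
      rw [div_le_iff₀ (by positivity)] at hk4
      have h10 : 4 ≤ κ ^ 2 * (k : ℝ) ^ 2 := by nlinarith [sq_nonneg κ]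
      nlinarith [sq_nonneg (k : ℝ)]
    linarith
  -- pigeonhole
  obtain ⟨P, hP⟩ : ∃ P : Finset (ℕ × (ℤ × ℤ)), P = Finset.Icc 1 w0 ×ˢ
      (Finset.Ico (0 : ℤ) w0 ×ˢ Finset.Ico (0 : ℤ) w0) := ⟨_, rfl⟩
  have hPc : P.card = w0 ^ 3 := by
    rw [hP, Finset.card_product, Finset.card_product, Nat.card_Icc, Int.card_Ico]
    have : ((w0 : ℤ) - 0).toNat = w0 := by omega
    rw [this, Nat.add_sub_cancel]; ring
  have hPne : P.Nonempty := by
    rw [← Finset.card_pos, hPc]; positivity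
  obtain ⟨f, hf⟩ : ∃ f : (ℤ × ℤ) × (ℤ × ℤ) → ℕ × (ℤ × ℤ), f = fun p =>
      (Int.gcd (p.2.1 - p.1.1) (p.2.2 - p.1.2),
        (p.1.1 % (Int.gcd (p.2.1 - p.1.1) (p.2.2 - p.1.2) : ℤ),
         p.1.2 % (Int.gcd (p.2.1 - p.1.1) (p.2.2 - p.1.2) : ℤ))) := ⟨_, rfl⟩
  have hfP : ∀ p ∈ G, f p ∈ P := by
    intro p hp
    rw [hG, Finset.mem_filter] at hp
    obtain ⟨hp1, hne, hg⟩ := hp
    have hg0 : 1 ≤ Int.gcd (p.2.1 - p.1.1) (p.2.2 - p.1.2) := by
      by_contra hneg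
      have h0 : Int.gcd (p.2.1 - p.1.1) (p.2.2 - p.1.2) = 0 := by omega
      rw [Int.gcd_eq_zero_iff] at h0
      apply hne
      apply Prod.ext <;> linarith [h0.1, h0.2]
    have hgz : (0 : ℤ) < (Int.gcd (p.2.1 - p.1.1) (p.2.2 - p.1.2) : ℤ) := by exact_mod_cast hg0
    have hgw : (Int.gcd (p.2.1 - p.1.1) (p.2.2 - p.1.2) : ℤ) ≤ w0 := by exact_mod_cast hg
    rw [hf, hP, Finset.mem_product, Finset.mem_product, Finset.mem_Icc, Finset.mem_Ico,
      Finset.mem_Ico]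
    refine ⟨⟨hg0, hg⟩, ⟨Int.emod_nonneg _ hgz.ne', ?_⟩, ⟨Int.emod_nonneg _ hgz.ne', ?_⟩⟩
    · exact lt_of_lt_of_le (Int.emod_lt_of_pos _ hgz) hgw
    · exact lt_of_lt_of_le (Int.emod_lt_of_pos _ hgz) hgw
  obtain ⟨⟨m, a⟩, hma, hfib⟩ := Finset.exists_le_card_fiber_of_nsmul_le_card_of_maps_to
    (b := (G.card : ℝ) / (w0 : ℝ) ^ 3) hfP hPne (by
      rw [hPc, nsmul_eq_mul]; push_cast
      rw [mul_div_cancel₀ _ (by positivity)])
  rw [hP, Finset.mem_product, Finset.mem_Icc] at hma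
  obtain ⟨⟨hm1, hmw⟩, -⟩ := hma
  have hm1' : 1 ≤ m := hm1
  have hmz : (0 : ℤ) < m := by exact_mod_cast hm1'
  have hk'1 : k ≤ m * ((k - 1) / m + 1) := by
    have h1 := Nat.div_add_mod (k - 1) m
    have h2 := Nat.mod_lt (k - 1) (show 0 < m by omega)
    have : m * ((k - 1) / m + 1) = m * ((k - 1) / m) + m := by ring
    omega
  have hk'2 : (k - 1) / m + 1 ≤ k := by
    have := Nat.div_le_self (k - 1) m
    omega
  refine ⟨m, hm1', hmw, a, (k - 1) / m + 1, hk'1, hk'2,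
    (box ((k - 1) / m + 1)).filter (fun x => aff m a x ∈ E), Finset.filter_subset _ _,
    fun x hx => (Finset.mem_filter.mp hx).2, ?_⟩
  have hinj : (G.filter (fun p => f p = (m, a))).card ≤
      (cop ((box ((k - 1) / m + 1)).filter (fun x => aff m a x ∈ E))
        ((box ((k - 1) / m + 1)).filter (fun x => aff m a x ∈ E))).card := by
    have hdec : ∀ p ∈ G.filter (fun p => f p = (m, a)),
        (∃ i j i' j' : ℤ, p = (((m : ℤ) * i + a.1, (m : ℤ) * j + a.2),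
          ((m : ℤ) * i' + a.1, (m : ℤ) * j' + a.2)) ∧ p.1.1 / (m : ℤ) = i ∧ p.1.2 / (m : ℤ) = j ∧
          p.2.1 / (m : ℤ) = i' ∧ p.2.2 / (m : ℤ) = j') ∧
        Int.gcd (p.2.1 - p.1.1) (p.2.2 - p.1.2) = m ∧ p.1 ∈ E ∧ p.2 ∈ E := by
      intro p hp
      rw [Finset.mem_filter] at hp
      obtain ⟨hpG, hfp⟩ := hp
      rw [hf] at hfp
      have hg : Int.gcd (p.2.1 - p.1.1) (p.2.2 - p.1.2) = m := congrArg Prod.fst hfp
      have ha : (p.1.1 % (Int.gcd (p.2.1 - p.1.1) (p.2.2 - p.1.2) : ℤ),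
         p.1.2 % (Int.gcd (p.2.1 - p.1.1) (p.2.2 - p.1.2) : ℤ)) = a := congrArg Prod.snd hfp
      rw [hg] at ha
      have ha1 : p.1.1 % (m : ℤ) = a.1 := congrArg Prod.fst ha
      have ha2 : p.1.2 % (m : ℤ) = a.2 := congrArg Prod.snd ha
      rw [hG, Finset.mem_filter, Finset.mem_product] at hpG
      have d1 : (m : ℤ) ∣ p.2.1 - p.1.1 := by rw [← hg]; exact Int.gcd_dvd_left _ _
      have d2 : (m : ℤ) ∣ p.2.2 - p.1.2 := by rw [← hg]; exact Int.gcd_dvd_right _ _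
      have hb1 : p.2.1 % (m : ℤ) = a.1 := by
        rw [← ha1]; exact Int.emod_eq_emod_iff_emod_sub_eq_zero.mpr (Int.emod_eq_zero_of_dvd d1)
      have hb2 : p.2.2 % (m : ℤ) = a.2 := by
        rw [← ha2]; exact Int.emod_eq_emod_iff_emod_sub_eq_zero.mpr (Int.emod_eq_zero_of_dvd d2)
      refine ⟨⟨p.1.1 / m, p.1.2 / m, p.2.1 / m, p.2.2 / m, ?_, rfl, rfl, rfl, rfl⟩, hg,
        hpG.1.1, hpG.1.2⟩
      have e1 := Int.mul_ediv_add_emod p.1.1 m
      have e2 := Int.mul_ediv_add_emod p.1.2 m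
      have e3 := Int.mul_ediv_add_emod p.2.1 m
      have e4 := Int.mul_ediv_add_emod p.2.2 m
      rw [ha1] at e1
      rw [ha2] at e2
      rw [hb1] at e3
      rw [hb2] at e4
      rw [e1, e2, e3, e4]
    apply Finset.card_le_card_of_injOn
      (fun p => ((p.1.1 / (m : ℤ), p.1.2 / (m : ℤ)), (p.2.1 / (m : ℤ), p.2.2 / (m : ℤ))))
    · intro p hp
      obtain ⟨⟨i, j, i', j', hpe, hi, hj, hi', hj'⟩, hg, hp1, hp2⟩ := hdec p (by exact_mod_cast hp)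
      have hbox : ∀ z : ℤ × ℤ, z ∈ E → ∀ i j : ℤ, z.1 / (m : ℤ) = i → z.2 / (m : ℤ) = j →
          (i, j) ∈ box ((k - 1) / m + 1) := by
        intro z hz i j hi hj
        have hzb := gcd_mem_box.mp (hE hz)
        obtain ⟨⟨z1, z2⟩, z3, z4⟩ := hzb
        rw [gcd_mem_box, ← hi, ← hj]
        have hdiv : (((k - 1) / m + 1 : ℕ) : ℤ) = ((k : ℤ) - 1) / m + 1 := by
          push_cast [hk1]
          rfl
        have key : ∀ t : ℤ, 0 ≤ t → t < k → 0 ≤ t / (m : ℤ) ∧ t / (m : ℤ) < (((k - 1) / m + 1 : ℕ) : ℤ) := by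
          intro t t0 tk
          refine ⟨Int.ediv_nonneg t0 hmz.le, ?_⟩
          rw [hdiv]
          have := Int.ediv_le_ediv hmz (show t ≤ (k : ℤ) - 1 by omega)
          omega
        exact ⟨key _ z1 z2, key _ z3 z4⟩
      have hpe1 : p.1 = ((m : ℤ) * i + a.1, (m : ℤ) * j + a.2) := congrArg Prod.fst hpe
      have hpe2 : p.2 = ((m : ℤ) * i' + a.1, (m : ℤ) * j' + a.2) := congrArg Prod.snd hpe
      rw [Finset.mem_coe, cop, Finset.mem_filter, Finset.mem_product, Finset.mem_filter,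
        Finset.mem_filter]
      simp only [hi, hj, hi', hj']
      refine ⟨⟨⟨hbox p.1 hp1 i j hi hj, ?_⟩, hbox p.2 hp2 i' j' hi' hj', ?_⟩, ?_⟩
      · rw [aff]; rw [← hpe1]; exact hp1
      · rw [aff]; rw [← hpe2]; exact hp2
      · rw [hpe1, hpe2] at hg
        simp only at hg
        have e1 : (m : ℤ) * i' + a.1 - ((m : ℤ) * i + a.1) = (m : ℤ) * (i' - i) := by ring
        have e2 : (m : ℤ) * j' + a.2 - ((m : ℤ) * j + a.2) = (m : ℤ) * (j' - j) := by ring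
        rw [e1, e2, Int.gcd_mul_left, Int.natAbs_natCast] at hg
        have hm0 : 0 < m := hm1'
        have : m * Int.gcd (i' - i) (j' - j) = m * 1 := by rw [hg]; ring
        exact Nat.eq_of_mul_eq_mul_left hm0 this
    · intro p hp p' hp' h
      obtain ⟨⟨i, j, i', j', hpe, hi, hj, hi', hj'⟩, -⟩ := hdec p (by exact_mod_cast hp)
      obtain ⟨⟨i2, j2, i2', j2', hpe2, hi2, hj2, hi2', hj2'⟩, -⟩ := hdec p' (by exact_mod_cast hp')
      simp only [hi, hj, hi', hj', hi2, hj2, hi2', hj2', Prod.mk.injEq] at h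
      obtain ⟨⟨h1, h2⟩, h3, h4⟩ := h
      rw [hpe, hpe2, h1, h2, h3, h4]
  have hk'r : (((k - 1) / m + 1 : ℕ) : ℝ) ≤ k := by exact_mod_cast hk'2
  calc κ ^ 2 / (2 * w0 ^ 3) * (((k - 1) / m + 1 : ℕ) : ℝ) ^ 4
      ≤ κ ^ 2 / (2 * w0 ^ 3) * (k : ℝ) ^ 4 := by
        apply mul_le_mul_of_nonneg_left _ (by positivity)
        exact pow_le_pow_left₀ (Nat.cast_nonneg _) hk'r 4
    _ = (κ ^ 2 * (k : ℝ) ^ 4 / 2) / (w0 : ℝ) ^ 3 := by field_simp
    _ ≤ (G.card : ℝ) / (w0 : ℝ) ^ 3 := div_le_div_of_nonneg_right hGc (by positivity)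
    _ ≤ ((G.filter (fun p => f p = (m, a))).card : ℝ) := hfib
    _ ≤ _ := by exact_mod_cast hinj

/-- Transfer of the avoidance property.  If `y' - x' = m' u` then
`aff m a y' - aff m a x' = (m m') u`, and `c (m m' |u|)²/k² ≥ c (m' |u|)²/k'²` as `k ≤ m k'`. -/
theorem avoid_class {c : ℝ} (hc : 0 ≤ c) {k k' m : ℕ} (hm : 1 ≤ m) (hk : 0 < k)
    (hkk : k ≤ m * k') {a : ℤ × ℤ} {E E' : Finset (ℤ × ℤ)} {T : ℤ × ℤ → ℝ × ℝ}
    (hE : ∀ x ∈ E', aff m a x ∈ E) (h : Avoid c 0 k E T) :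
    Avoid c 0 k' E' (fun x => T (aff m a x)) := by
  intro x hx y hy hxy u m' hu h1 h2
  have hmz : (0 : ℤ) < m := by exact_mod_cast hm
  have hne : aff m a x ≠ aff m a y := by
    intro he
    apply hxy
    have e1 : (m : ℤ) * x.1 + a.1 = (m : ℤ) * y.1 + a.1 := congrArg Prod.fst he
    have e2 : (m : ℤ) * x.2 + a.2 = (m : ℤ) * y.2 + a.2 := congrArg Prod.snd he
    have e3 : (m : ℤ) * x.1 = (m : ℤ) * y.1 := by linarith
    have e4 : (m : ℤ) * x.2 = (m : ℤ) * y.2 := by linarith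
    exact Prod.ext (mul_left_cancel₀ hmz.ne' e3) (mul_left_cancel₀ hmz.ne' e4)
  have h3 := h (aff m a x) (hE x hx) (aff m a y) (hE y hy) hne u (m * m') hu
    (by
      show (m : ℤ) * y.1 + a.1 - ((m : ℤ) * x.1 + a.1) = m * m' * u.1
      have : (m : ℤ) * y.1 + a.1 - ((m : ℤ) * x.1 + a.1) = m * (y.1 - x.1) := by ring
      rw [this, h1]; ring)
    (by
      show (m : ℤ) * y.2 + a.2 - ((m : ℤ) * x.2 + a.2) = m * m' * u.2
      have : (m : ℤ) * y.2 + a.2 - ((m : ℤ) * x.2 + a.2) = m * (y.2 - x.2) := by ring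
      rw [this, h2]; ring)
  refine le_trans ?_ h3
  have hmk : 0 < m * k' := lt_of_lt_of_le hk hkk
  have hk'0 : 0 < k' := Nat.pos_of_mul_pos_left hmk
  have hk0 : (0 : ℝ) < k := by exact_mod_cast hk
  have hk'r : (0 : ℝ) < k' := by exact_mod_cast hk'0
  have hkkr : (k : ℝ) ≤ m * k' := by exact_mod_cast hkk
  rw [div_le_div_iff₀ (by positivity) (by positivity)]
  have h4 : (k : ℝ) ^ 2 ≤ (m * k') ^ 2 := pow_le_pow_left₀ hk0.le hkkr 2
  have h5 : 0 ≤ c * ((m' : ℝ) * nz u) ^ 2 := by positivity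
  calc c * ((m' : ℝ) * nz u) ^ 2 * (k : ℝ) ^ 2
      ≤ c * ((m' : ℝ) * nz u) ^ 2 * (m * k') ^ 2 := mul_le_mul_of_nonneg_left h4 h5
    _ = c * (((m * m' : ℤ) : ℝ) * nz u) ^ 2 * (k' : ℝ) ^ 2 := by push_cast; ring

end

end Pool.Agent.Lib.MP_a768d2_co
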