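import Pool.Agent.Lib.MP_a768d2_co.Defs

/-! # Geometry A: a grid of patches (job GeoA) -/

namespace Pool.Agent.Lib.MP_a768d2_co

noncomputable section

/-- determinant of two complex numbers as vectors of the plane -/
def det2 (z w : ℂ) : ℝ := z.re * w.im - z.im * w.re

/-- bounded geometry of a basis at scale `1/√n` -/
def Basis2 (C : ℝ) (n : ℕ) (a b : ℂ) : Prop :=
  ‖a‖ ≤ C / Real.sqrt n ∧ ‖b‖ ≤ C / Real.sqrt n ∧ 1 / (C * n) ≤ |det2 a b|

private theorem GeoA_det2_le (z w : ℂ) : |det2 z w| ≤ ‖z‖ * ‖w‖ := by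
  have h1 : det2 z w ^ 2 ≤ (‖z‖ * ‖w‖) ^ 2 := by
    rw [mul_pow, Complex.sq_norm, Complex.sq_norm, Complex.normSq_apply, Complex.normSq_apply]
    unfold det2
    nlinarith [sq_nonneg (z.re * w.re + z.im * w.im)]
  exact abs_le_of_sq_le_sq h1 (by positivity)

private theorem GeoA_bound {C : ℝ} {n : ℕ} {a b : ℂ} (hC : 0 < C) (hn : 1 ≤ n)
    (h : Basis2 C n a b) (p : ℂ) : |det2 p b / det2 a b| ≤ C ^ 2 * Real.sqrt n * ‖p‖ ∧
      |det2 a p / det2 a b| ≤ C ^ 2 * Real.sqrt n * ‖p‖ := by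
  obtain ⟨ha, hb, hd⟩ := h
  have hn0 : (0 : ℝ) < n := by exact_mod_cast hn
  have hs : 0 < Real.sqrt n := Real.sqrt_pos.mpr hn0
  have hss : Real.sqrt n * Real.sqrt n = n := Real.mul_self_sqrt hn0.le
  have hD : 0 < 1 / (C * n) := by positivity
  have hD2 : 0 < |det2 a b| := lt_of_lt_of_le hD hd
  have key : ∀ t r : ℝ, |t| ≤ ‖p‖ * r → r ≤ C / Real.sqrt n →
      |t| / |det2 a b| ≤ C ^ 2 * Real.sqrt n * ‖p‖ := by
    intro t r ht hr
    rw [div_le_iff₀ hD2]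
    have h1 : ‖p‖ * r ≤ ‖p‖ * (C / Real.sqrt n) := mul_le_mul_of_nonneg_left hr (norm_nonneg p)
    have h2 : C ^ 2 * Real.sqrt n * ‖p‖ * (1 / (C * n)) ≤
        C ^ 2 * Real.sqrt n * ‖p‖ * |det2 a b| := mul_le_mul_of_nonneg_left hd (by positivity)
    have h3 : C ^ 2 * Real.sqrt n * ‖p‖ * (1 / (C * n)) = ‖p‖ * (C / Real.sqrt n) := by
      nth_rewrite 2 [← hss]
      field_simp
    linarith
  constructor
  · rw [abs_div]
    exact key _ _ (GeoA_det2_le p b) hb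
  · rw [abs_div]
    refine key _ _ ?_ ha
    rw [mul_comm]
    exact GeoA_det2_le a p

private theorem GeoA_det_ne {C : ℝ} {n : ℕ} {a b : ℂ} (hC : 0 < C) (hn : 1 ≤ n)
    (h : Basis2 C n a b) : det2 a b ≠ 0 := by
  have hn0 : (0 : ℝ) < n := by exact_mod_cast hn
  have hD : 0 < 1 / (C * n) := by positivity
  exact abs_pos.mp (lt_of_lt_of_le hD h.2.2)

/-- coordinates with respect to a basis: `det(a,b) p = det(p,b) a + det(a,p) b`, and
`|det(p,b)| ≤ ‖p‖ ‖b‖`; `‖b‖/|det(a,b)| ≤ (C/√n) (C n) = C² √n`. -/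
theorem exists_coord {C : ℝ} {n : ℕ} {a b : ℂ} (hC : 0 < C) (hn : 1 ≤ n) (h : Basis2 C n a b)
    (p : ℂ) : ∃ α β : ℝ, p = (α : ℂ) * a + (β : ℂ) * b ∧ |α| ≤ C ^ 2 * Real.sqrt n * ‖p‖ ∧
      |β| ≤ C ^ 2 * Real.sqrt n * ‖p‖ := by
  have hD := GeoA_det_ne hC hn h
  refine ⟨det2 p b / det2 a b, det2 a p / det2 a b, ?_, GeoA_bound hC hn h p⟩
  apply Complex.ext
  · simp only [Complex.add_re, Complex.mul_re, Complex.ofReal_re, Complex.ofReal_im, zero_mul,
      sub_zero]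
    field_simp
    unfold det2
    ring
  · simp only [Complex.add_im, Complex.mul_im, Complex.ofReal_re, Complex.ofReal_im, zero_mul,
      add_zero]
    field_simp
    unfold det2
    ring

/-- uniqueness of coordinates in the form of a lower bound -/
theorem coord_le {C : ℝ} {n : ℕ} {a b : ℂ} (hC : 0 < C) (hn : 1 ≤ n) (h : Basis2 C n a b)
    (α β : ℝ) : |α| ≤ C ^ 2 * Real.sqrt n * ‖(α : ℂ) * a + (β : ℂ) * b‖ ∧
      |β| ≤ C ^ 2 * Real.sqrt n * ‖(α : ℂ) * a + (β : ℂ) * b‖ := by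
  have hD := GeoA_det_ne hC hn h
  have hb := GeoA_bound hC hn h ((α : ℂ) * a + (β : ℂ) * b)
  have e1 : det2 ((α : ℂ) * a + (β : ℂ) * b) b = α * det2 a b := by
    unfold det2
    simp only [Complex.add_re, Complex.mul_re, Complex.ofReal_re, Complex.ofReal_im, zero_mul,
      sub_zero, Complex.add_im, Complex.mul_im, add_zero]
    ring
  have e2 : det2 a ((α : ℂ) * a + (β : ℂ) * b) = β * det2 a b := by
    unfold det2
    simp only [Complex.add_re, Complex.mul_re, Complex.ofReal_re, Complex.ofReal_im, zero_mul,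
      sub_zero, Complex.add_im, Complex.mul_im, add_zero]
    ring
  rw [e1, e2, mul_div_cancel_right₀ _ hD, mul_div_cancel_right₀ _ hD] at hb
  exact hb

/-- a finite set of integers of diameter at most `M` has at most `2 M + 1` elements
(used for the cells of side `ε/(2√n)`) -/
private theorem GeoA_cell {n : ℕ} {ε D : ℝ} (hε : 0 < ε) {s : ℝ} (hs : 0 < s) (x : Fin n → ℂ)
    (hsep : ∀ i j, i ≠ j → ε / s < dist (x i) (x j)) (A : Finset (Fin n))
    (hA : ∀ i ∈ A, ∀ j ∈ A, ‖x i - x j‖ ≤ D / s) :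
    (A.card : ℝ) ≤ (2 * ⌈2 * D / ε + 1⌉₊ + 1) ^ 2 := by
  classical
  rcases A.eq_empty_or_nonempty with rfl | ⟨i0, hi0⟩
  · simp
    positivity
  set M := ⌈2 * D / ε + 1⌉₊ with hM
  have hMle : 2 * D / ε + 1 ≤ M := Nat.le_ceil _
  set c : ℝ := 2 * s / ε with hc
  have hc0 : 0 < c := by positivity
  let f : Fin n → ℤ × ℤ := fun i => (⌊(x i).re * c⌋, ⌊(x i).im * c⌋)
  have hinj : Set.InjOn f A := by
    intro i _ j _ hij
    by_contra hne
    have h1 := hsep i j hne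
    have hf : ⌊(x i).re * c⌋ = ⌊(x j).re * c⌋ ∧ ⌊(x i).im * c⌋ = ⌊(x j).im * c⌋ :=
      ⟨congrArg Prod.fst hij, congrArg Prod.snd hij⟩
    have h2 : |(x i).re * c - (x j).re * c| < 1 := Int.abs_sub_lt_one_of_floor_eq_floor hf.1
    have h3 : |(x i).im * c - (x j).im * c| < 1 := Int.abs_sub_lt_one_of_floor_eq_floor hf.2
    have h4 : dist (x i) (x j) ≤ |(x i - x j).re| + |(x i - x j).im| := by
      rw [dist_eq_norm]
      exact Complex.norm_le_abs_re_add_abs_im _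
    rw [← sub_mul, abs_mul, abs_of_pos hc0] at h2 h3
    rw [Complex.sub_re, Complex.sub_im] at h4
    have h5 : dist (x i) (x j) * c < 2 := by nlinarith
    have h6 : ε / s * c = 2 := by
      rw [hc]
      field_simp
    have h7 : ε / s * c < dist (x i) (x j) * c := mul_lt_mul_of_pos_right h1 hc0
    linarith
  have hmaps : ∀ i ∈ A, f i ∈ Finset.Icc (⌊(x i0).re * c⌋ - M) (⌊(x i0).re * c⌋ + M) ×ˢ
      Finset.Icc (⌊(x i0).im * c⌋ - M) (⌊(x i0).im * c⌋ + M) := by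
    intro i hi
    have h1 := hA i hi i0 hi0
    have hre : |(x i - x i0).re| ≤ D / s := (Complex.abs_re_le_norm _).trans h1
    have him : |(x i - x i0).im| ≤ D / s := (Complex.abs_im_le_norm _).trans h1
    have gen : ∀ u v : ℝ, |u - v| ≤ D / s →
        ⌊u * c⌋ ∈ Finset.Icc (⌊v * c⌋ - (M : ℤ)) (⌊v * c⌋ + M) := by
      intro u v huv
      have h2 : |u - v| * c ≤ 2 * D / ε := by
        have h3 : |u - v| * c ≤ D / s * c := mul_le_mul_of_nonneg_right huv hc0.le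
        have h4 : D / s * c = 2 * D / ε := by
          rw [hc]
          field_simp
        linarith
      have h5 := neg_abs_le (u - v)
      have h6 := le_abs_self (u - v)
      have h7 : u * c ≤ v * c + 2 * D / ε := by nlinarith
      have h8 : v * c - 2 * D / ε ≤ u * c := by nlinarith
      have f1 := Int.floor_le (u * c)
      have f2 := Int.lt_floor_add_one (u * c)
      have f3 := Int.floor_le (v * c)
      have f4 := Int.lt_floor_add_one (v * c)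
      rw [Finset.mem_Icc]
      constructor
      · have : (⌊v * c⌋ : ℝ) - M < ⌊u * c⌋ + 1 := by linarith
        have h9 : (⌊v * c⌋ : ℤ) - (M : ℤ) < ⌊u * c⌋ + 1 := by exact_mod_cast this
        omega
      · have : (⌊u * c⌋ : ℝ) < ⌊v * c⌋ + M + 1 := by linarith
        have h9 : (⌊u * c⌋ : ℤ) < ⌊v * c⌋ + (M : ℤ) + 1 := by exact_mod_cast this
        omega
    rw [Finset.mem_product]
    exact ⟨gen _ _ (by rw [← Complex.sub_re]; exact hre), gen _ _ (by rw [← Complex.sub_im]; exact him)⟩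
  have hcard := Finset.card_le_card_of_injOn f hmaps hinj
  rw [Finset.card_product, Int.card_Icc, Int.card_Icc] at hcard
  have e1 : (⌊(x i0).re * c⌋ + (M : ℤ) + 1 - (⌊(x i0).re * c⌋ - (M : ℤ))).toNat = 2 * M + 1 := by omega
  have e2 : (⌊(x i0).im * c⌋ + (M : ℤ) + 1 - (⌊(x i0).im * c⌋ - (M : ℤ))).toNat = 2 * M + 1 := by omega
  rw [e1, e2] at hcard
  have : (A.card : ℝ) ≤ ((2 * M + 1) * (2 * M + 1) : ℕ) := by exact_mod_cast hcard
  push_cast at this
  linarith [this, sq (2 * (M : ℝ) + 1)]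

/-- GRID LEMMA.  Proof: `h = ⌊√n/k⌋₊`, `n ≥ k²` (so `√n ≤ 2 k h`, `h k ≤ √n`, `h ≥ 1`).  For `i ∈ S` let
`(α_i, β_i)` be the coordinates of `x i` (`exists_coord`), `g_i = (⌊α_i⌋, ⌊β_i⌋)`; `|α_i|, |β_i| ≤ 2 C² √n` as
`‖x i‖ ≤ √2`.  At most `m0 = (8 C/ε + 2)²` indices have the same `g_i` (the points of one cell are within
`2C/√n` of each other and `ε/√n`-separated: put them into squares of side `ε/(2√n)`; one square contains at
most one point).  So the set `𝒢` of the `g_i` has at least `κ n/m0` elements.  For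
`g0 ∈ [-R, R)²`, `R = ⌈2C²√n⌉ + h k + 1 ≤ (2C² + 3) √n`, count the `z ∈ box k` with `g0 + h z ∈ 𝒢`: the
total is `k² |𝒢|` (for each `z` every `g ∈ 𝒢` comes from `g0 = g - h z`), so some `g0` has at least
`k² |𝒢|/(2R)² ≥ κ' k²`, `κ' = κ/(m0 (4C²+6)²)`.  `E` is the set of these `z`, `ι z` an index `i ∈ S` with
`g_i = g0 + h z`, `T z` the fractional parts. -/
theorem exists_grid (ε κ C : ℝ) (hε : 0 < ε) (hκ : 0 < κ) (hC : 0 < C) : ∃ κ' : ℝ, 0 < κ' ∧
    ∀ k : ℕ, 1 ≤ k → ∃ N0 : ℕ, ∀ n : ℕ, N0 ≤ n → ∀ x : Fin n → ℂ,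
      (∀ i, 0 ≤ (x i).re ∧ (x i).re ≤ 1 ∧ 0 ≤ (x i).im ∧ (x i).im ≤ 1) →
      (∀ i j, i ≠ j → ε / Real.sqrt (n : ℝ) < dist (x i) (x j)) →
      ∀ a b : ℂ, Basis2 C n a b → ∀ S : Finset (Fin n), κ * n ≤ S.card →
      ∃ h : ℕ, Real.sqrt n ≤ 2 * k * h ∧ (h : ℝ) * k ≤ Real.sqrt n ∧
      ∃ (g0 : ℤ × ℤ) (E : Finset (ℤ × ℤ)) (ι : ℤ × ℤ → Fin n) (T : ℤ × ℤ → ℝ × ℝ),
        E ⊆ box k ∧ κ' * (k : ℝ) ^ 2 ≤ E.card ∧ ∀ z ∈ E, ι z ∈ S ∧
          0 ≤ (T z).1 ∧ (T z).1 < 1 ∧ 0 ≤ (T z).2 ∧ (T z).2 < 1 ∧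
          x (ι z) = (((g0.1 + h * z.1 : ℤ) : ℝ) + (T z).1 : ℝ) * a +
            (((g0.2 + h * z.2 : ℤ) : ℝ) + (T z).2 : ℝ) * b := by
  classical
  set m0 : ℝ := (2 * ⌈2 * (2 * C) / ε + 1⌉₊ + 1) ^ 2 with hm0
  have hm0pos : 0 < m0 := by rw [hm0]; positivity
  set W : ℝ := 2 * (2 * C ^ 2 + 4) with hW
  have hWpos : 0 < W := by rw [hW]; positivity
  refine ⟨κ / (m0 * W ^ 2), by positivity, ?_⟩
  intro k hk
  refine ⟨k ^ 2, ?_⟩
  intro n hn x hx hsep a b hab S hS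
  have hk0 : (0 : ℝ) < k := by exact_mod_cast hk
  have hn1 : 1 ≤ n := le_trans (Nat.one_le_pow _ _ hk) hn
  have hn0 : (0 : ℝ) < n := by exact_mod_cast hn1
  set s := Real.sqrt n with hs
  have hs0 : 0 < s := Real.sqrt_pos.mpr hn0
  have hss : s * s = n := Real.mul_self_sqrt hn0.le
  have hs1 : 1 ≤ s := by
    rw [hs]
    exact Real.one_le_sqrt.mpr (by exact_mod_cast hn1)
  have hks : (k : ℝ) ≤ s := by
    rw [hs]
    apply Real.le_sqrt_of_sq_le
    exact_mod_cast hn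
  set h := ⌊s / k⌋₊ with hh
  have hq1 : 1 ≤ s / k := by
    rw [le_div_iff₀ hk0]
    linarith
  have hh1 : 1 ≤ h := Nat.le_floor (by simpa using hq1)
  have hh1' : (1 : ℝ) ≤ h := by exact_mod_cast hh1
  have hhle : (h : ℝ) ≤ s / k := Nat.floor_le (by positivity)
  have hhlt : s / k < h + 1 := Nat.lt_floor_add_one _
  have hhk : (h : ℝ) * k ≤ s := by
    rw [le_div_iff₀ hk0] at hhle
    exact hhle
  have hh2 : s ≤ 2 * k * h := by
    rw [div_lt_iff₀ hk0] at hhlt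
    nlinarith
  refine ⟨h, hh2, hhk, ?_⟩
  -- coordinates
  choose α β hαβ hα hβ using fun i => exists_coord hC hn1 hab (x i)
  have hnx : ∀ i, ‖x i‖ ≤ 2 := by
    intro i
    have h1 := Complex.norm_le_abs_re_add_abs_im (x i)
    obtain ⟨r0, r1, i0, i1⟩ := hx i
    rw [abs_of_nonneg r0, abs_of_nonneg i0] at h1
    linarith
  have hα2 : ∀ i, |α i| ≤ 2 * C ^ 2 * s := by
    intro i
    refine (hα i).trans ?_
    have := mul_le_mul_of_nonneg_left (hnx i) (by positivity : 0 ≤ C ^ 2 * s)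
    linarith
  have hβ2 : ∀ i, |β i| ≤ 2 * C ^ 2 * s := by
    intro i
    refine (hβ i).trans ?_
    have := mul_le_mul_of_nonneg_left (hnx i) (by positivity : 0 ≤ C ^ 2 * s)
    linarith
  let g : Fin n → ℤ × ℤ := fun i => (⌊α i⌋, ⌊β i⌋)
  -- at most `m0` indices in a cell
  have hcell : ∀ w : ℤ × ℤ, ((S.filter (fun i => g i = w)).card : ℝ) ≤ m0 := by
    intro w
    refine GeoA_cell (D := 2 * C) hε hs0 x hsep _ ?_
    intro i hi j hj
    rw [Finset.mem_filter] at hi hj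
    have hgij : g i = g j := hi.2.trans hj.2.symm
    have hg : ⌊α i⌋ = ⌊α j⌋ ∧ ⌊β i⌋ = ⌊β j⌋ :=
      ⟨congrArg Prod.fst hgij, congrArg Prod.snd hgij⟩
    have h1 : |α i - α j| < 1 := Int.abs_sub_lt_one_of_floor_eq_floor hg.1
    have h2 : |β i - β j| < 1 := Int.abs_sub_lt_one_of_floor_eq_floor hg.2
    have h3 : x i - x j = ((α i - α j : ℝ) : ℂ) * a + ((β i - β j : ℝ) : ℂ) * b := by
      rw [hαβ i, hαβ j]
      push_cast
      ring
    rw [h3]
    refine (norm_add_le _ _).trans ?_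
    rw [norm_mul, norm_mul, Complex.norm_real, Complex.norm_real, Real.norm_eq_abs,
      Real.norm_eq_abs]
    have h4 : |α i - α j| * ‖a‖ ≤ 1 * (C / s) :=
      mul_le_mul h1.le hab.1 (norm_nonneg _) (by norm_num)
    have h5 : |β i - β j| * ‖b‖ ≤ 1 * (C / s) :=
      mul_le_mul h2.le hab.2.1 (norm_nonneg _) (by norm_num)
    have h6 : 2 * C / s = C / s + C / s := by ring
    linarith
  set GG := S.image g with hGG
  have hGcard : κ * n ≤ m0 * GG.card := by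
    have h1 : (S.card : ℝ) = ∑ w ∈ GG, ((S.filter (fun i => g i = w)).card : ℝ) := by
      rw [← Nat.cast_sum]
      congr 1
      exact Finset.card_eq_sum_card_image g S
    have h2 : ∑ w ∈ GG, ((S.filter (fun i => g i = w)).card : ℝ) ≤ ∑ w ∈ GG, m0 :=
      Finset.sum_le_sum (fun w _ => hcell w)
    rw [Finset.sum_const, nsmul_eq_mul] at h2
    linarith [mul_comm (GG.card : ℝ) m0]
  -- the range of the base points
  set R : ℕ := ⌈2 * C ^ 2 * s⌉₊ + 1 + h * k + 1 with hR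
  have hRle : 2 * (R : ℝ) ≤ W * s := by
    have h1 : (⌈2 * C ^ 2 * s⌉₊ : ℝ) < 2 * C ^ 2 * s + 1 := Nat.ceil_lt_add_one (by positivity)
    rw [hR, hW]
    push_cast
    nlinarith
  set Q : Finset (ℤ × ℤ) := Finset.Ico (-(R : ℤ)) R ×ˢ Finset.Ico (-(R : ℤ)) R with hQ
  have hQcard : (Q.card : ℝ) = (2 * R) ^ 2 := by
    rw [hQ, Finset.card_product, Int.card_Ico]
    have : ((R : ℤ) - (-(R : ℤ))).toNat = 2 * R := by omega
    rw [this]
    push_cast
    ring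
  have hQne : Q.Nonempty := by
    refine ⟨(0, 0), ?_⟩
    rw [hQ, Finset.mem_product, Finset.mem_Ico]
    have : 0 < R := by omega
    simp only
    omega
  have hboxcard : ((box k).card : ℝ) = (k : ℝ) ^ 2 := by
    unfold box
    rw [Finset.card_product, Int.card_Ico]
    have : ((k : ℤ) - 0).toNat = k := by omega
    rw [this]
    push_cast
    ring
  let F : (ℤ × ℤ) × (ℤ × ℤ) → ℤ × ℤ := fun p => (p.2.1 - h * p.1.1, p.2.2 - h * p.1.2)
  set P := box k ×ˢ GG with hP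
  have hmaps : ∀ p ∈ P, F p ∈ Q := by
    intro p hp
    rw [hP, Finset.mem_product] at hp
    obtain ⟨hz, hg⟩ := hp
    rw [hGG, Finset.mem_image] at hg
    obtain ⟨i, hiS, hig⟩ := hg
    unfold box at hz
    rw [Finset.mem_product, Finset.mem_Ico, Finset.mem_Ico] at hz
    have gen : ∀ (γ : ℝ) (u : ℤ), |γ| ≤ 2 * C ^ 2 * s → 0 ≤ u → u < k →
        ⌊γ⌋ - (h : ℤ) * u ∈ Finset.Ico (-(R : ℤ)) R := by
      intro γ u hγ hu0 hu1
      have h1 : 2 * C ^ 2 * s ≤ (⌈2 * C ^ 2 * s⌉₊ : ℝ) := Nat.le_ceil _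
      have h2 := abs_le.mp hγ
      have h3 := Int.floor_le γ
      have h4 := Int.lt_floor_add_one γ
      have h5 : (⌊γ⌋ : ℝ) ≤ (⌈2 * C ^ 2 * s⌉₊ : ℝ) := by linarith
      have h6 : (⌊γ⌋ : ℤ) ≤ (⌈2 * C ^ 2 * s⌉₊ : ℤ) := by exact_mod_cast h5
      have h7 : -(⌈2 * C ^ 2 * s⌉₊ : ℝ) < (⌊γ⌋ : ℝ) + 1 := by linarith
      have h8 : -(⌈2 * C ^ 2 * s⌉₊ : ℤ) < (⌊γ⌋ : ℤ) + 1 := by exact_mod_cast h7
      have h9 : 0 ≤ (h : ℤ) * u := mul_nonneg (by positivity) hu0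
      have h10 : (h : ℤ) * u ≤ h * k := mul_le_mul_of_nonneg_left hu1.le (by positivity)
      rw [Finset.mem_Ico, hR]
      push_cast
      constructor
      · linarith
      · linarith
    have hi1 : p.2.1 = ⌊α i⌋ := by rw [← hig]
    have hi2 : p.2.2 = ⌊β i⌋ := by rw [← hig]
    rw [hQ, Finset.mem_product]
    refine ⟨?_, ?_⟩
    · show p.2.1 - (h : ℤ) * p.1.1 ∈ _
      rw [hi1]
      exact gen _ _ (hα2 i) hz.1.1 hz.1.2
    · show p.2.2 - (h : ℤ) * p.1.2 ∈ _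
      rw [hi2]
      exact gen _ _ (hβ2 i) hz.2.1 hz.2.2
  have hPcard : (P.card : ℝ) = (k : ℝ) ^ 2 * GG.card := by
    rw [hP, Finset.card_product]
    push_cast
    rw [hboxcard]
  have hex : ∃ g0 ∈ Q, κ / (m0 * W ^ 2) * (k : ℝ) ^ 2 ≤
      ((P.filter (fun p => F p = g0)).card : ℝ) := by
    by_contra hcon
    push Not at hcon
    have h1 : (P.card : ℝ) = ∑ w ∈ Q, ((P.filter (fun p => F p = w)).card : ℝ) := by
      rw [← Nat.cast_sum]
      congr 1
      exact Finset.card_eq_sum_card_fiberwise hmaps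
    have h2 : ∑ w ∈ Q, ((P.filter (fun p => F p = w)).card : ℝ) <
        ∑ w ∈ Q, κ / (m0 * W ^ 2) * (k : ℝ) ^ 2 :=
      Finset.sum_lt_sum_of_nonempty hQne hcon
    rw [Finset.sum_const, nsmul_eq_mul, ← h1, hQcard, hPcard] at h2
    have h3 : (2 * (R : ℝ)) ^ 2 ≤ (W * s) ^ 2 := by
      apply pow_le_pow_left₀ (by positivity) hRle
    have h4 : (2 * (R : ℝ)) ^ 2 * (κ / (m0 * W ^ 2) * (k : ℝ) ^ 2) ≤
        (W * s) ^ 2 * (κ / (m0 * W ^ 2) * (k : ℝ) ^ 2) :=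
      mul_le_mul_of_nonneg_right h3 (by positivity)
    have h5 : (W * s) ^ 2 * (κ / (m0 * W ^ 2) * (k : ℝ) ^ 2) = (k : ℝ) ^ 2 * (κ * n / m0) := by
      rw [← hss]
      field_simp
    have h6 : κ * n / m0 ≤ GG.card := by
      rw [div_le_iff₀ hm0pos]
      linarith [mul_comm (GG.card : ℝ) m0]
    have h7 : (k : ℝ) ^ 2 * (κ * n / m0) ≤ (k : ℝ) ^ 2 * GG.card :=
      mul_le_mul_of_nonneg_left h6 (by positivity)
    linarith
  obtain ⟨g0, _, hg0⟩ := hex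
  set E : Finset (ℤ × ℤ) := (box k).filter
    (fun z => (g0.1 + (h : ℤ) * z.1, g0.2 + (h : ℤ) * z.2) ∈ GG) with hE
  have hEcard : (P.filter (fun p => F p = g0)).card ≤ E.card := by
    refine Finset.card_le_card_of_injOn Prod.fst ?_ ?_
    · intro p hp
      have hp' := Finset.mem_filter.mp (Finset.mem_coe.mp hp)
      obtain ⟨hpP, hpF⟩ := hp'
      rw [hP, Finset.mem_product] at hpP
      rw [Finset.mem_coe, hE, Finset.mem_filter]
      refine ⟨hpP.1, ?_⟩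
      have e : (g0.1 + (h : ℤ) * p.1.1, g0.2 + (h : ℤ) * p.1.2) = p.2 := by
        rw [← hpF]
        apply Prod.ext
        · show p.2.1 - (h : ℤ) * p.1.1 + h * p.1.1 = p.2.1
          ring
        · show p.2.2 - (h : ℤ) * p.1.2 + h * p.1.2 = p.2.2
          ring
      rw [e]
      exact hpP.2
    · intro p hp q hq hpq
      have hp' := (Finset.mem_filter.mp (Finset.mem_coe.mp hp)).2
      have hq' := (Finset.mem_filter.mp (Finset.mem_coe.mp hq)).2
      have e : F p = F q := hp'.trans hq'.symm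
      have e1 : p.2.1 - (h : ℤ) * p.1.1 = q.2.1 - (h : ℤ) * q.1.1 := congrArg Prod.fst e
      have e2 : p.2.2 - (h : ℤ) * p.1.2 = q.2.2 - (h : ℤ) * q.1.2 := congrArg Prod.snd e
      have e0 : p.1 = q.1 := hpq
      rw [e0] at e1 e2
      apply Prod.ext e0
      apply Prod.ext
      · linarith
      · linarith
  have hSne : ∀ z ∈ E, ∃ i ∈ S, g i = (g0.1 + (h : ℤ) * z.1, g0.2 + (h : ℤ) * z.2) := by
    intro z hz
    rw [hE, Finset.mem_filter, hGG, Finset.mem_image] at hz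
    exact hz.2
  let i0 : Fin n := ⟨0, by omega⟩
  let ι : ℤ × ℤ → Fin n := fun z =>
    if hz : z ∈ E then (hSne z hz).choose else i0
  have hι : ∀ z (hz : z ∈ E), ι z ∈ S ∧ g (ι z) = (g0.1 + (h : ℤ) * z.1, g0.2 + (h : ℤ) * z.2) := by
    intro z hz
    have : ι z = (hSne z hz).choose := dif_pos hz
    rw [this]
    exact (hSne z hz).choose_spec
  refine ⟨g0, E, ι, fun z => (Int.fract (α (ι z)), Int.fract (β (ι z))), Finset.filter_subset _ _,
    ?_, ?_⟩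
  · refine hg0.trans ?_
    exact_mod_cast hEcard
  · intro z hz
    obtain ⟨hz1, hz2⟩ := hι z hz
    refine ⟨hz1, Int.fract_nonneg _, Int.fract_lt_one _, Int.fract_nonneg _, Int.fract_lt_one _, ?_⟩
    have e1 : ⌊α (ι z)⌋ = g0.1 + (h : ℤ) * z.1 := congrArg Prod.fst hz2
    have e2 : ⌊β (ι z)⌋ = g0.2 + (h : ℤ) * z.2 := congrArg Prod.snd hz2
    simp only
    rw [← e1, ← e2, Int.floor_add_fract, Int.floor_add_fract]
    exact hαβ (ι z)

end

end Pool.Agent.Lib.MP_a768d2_co
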