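import Pool.Agent.Lib.MP_a768d2_co.GeoA
import Pool.Agent.Lib.MP_a768d2_co.Dz

/-! # Geometry B: a thin triangle (job GeoB) -/

namespace Pool.Agent.Lib.MP_a768d2_co

noncomputable section

private theorem geoB_det2_le (z w : ℂ) : |det2 z w| ≤ ‖z‖ * ‖w‖ := by
  have h : det2 z w = ((starRingEnd ℂ) z * w).im := by
    simp [det2]; ring
  rw [h]
  refine (Complex.abs_im_le_norm _).trans ?_
  rw [norm_mul, Complex.norm_conj]

/-- `det2` and angles: `⟪v,w⟫² + det2 v w ² = ‖v‖² ‖w‖²`, so `sin (angle v w) = |det2 v w|/(‖v‖‖w‖)`; if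
`‖w - v‖ < ‖v‖` the inner product is positive, so the angle is less than `π/2` and
`angle ≤ (π/2) sin angle` (Jordan: `Real.mul_le_sin`). -/
theorem angle_le {v w : ℂ} (hvw : ‖w - v‖ < ‖v‖) (hw : w ≠ 0) :
    InnerProductGeometry.angle v w ≤ Real.pi / 2 * (|det2 v w| / (‖v‖ * ‖w‖)) := by
  have hv : 0 < ‖v‖ := lt_of_le_of_lt (norm_nonneg _) hvw
  have hw' : 0 < ‖w‖ := norm_pos_iff.mpr hw
  have hvw' : 0 < ‖v‖ * ‖w‖ := mul_pos hv hw'
  have hin : inner ℝ v w = v.re * w.re + v.im * w.im := by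
    rw [Complex.inner]; simp; ring
  have hnv : ‖v‖ ^ 2 = v.re ^ 2 + v.im ^ 2 := by
    rw [← Complex.normSq_eq_norm_sq, Complex.normSq_apply]; ring
  have hnw : ‖w‖ ^ 2 = w.re ^ 2 + w.im ^ 2 := by
    rw [← Complex.normSq_eq_norm_sq, Complex.normSq_apply]; ring
  have hnd : ‖w - v‖ ^ 2 = (w.re - v.re) ^ 2 + (w.im - v.im) ^ 2 := by
    rw [← Complex.normSq_eq_norm_sq, Complex.normSq_apply]; simp; ring
  have hpos : 0 < inner ℝ v w := by
    have h1 : ‖w - v‖ ^ 2 < ‖v‖ ^ 2 := by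
      have := norm_nonneg (w - v)
      nlinarith
    rw [hin]
    have h2 : 0 < ‖w‖ ^ 2 := by positivity
    nlinarith
  have hang : InnerProductGeometry.angle v w ≤ Real.pi / 2 := by
    rw [InnerProductGeometry.angle]
    rw [Real.arccos_le_pi_div_two]
    positivity
  have hang0 : 0 ≤ InnerProductGeometry.angle v w := InnerProductGeometry.angle_nonneg _ _
  have hsin := InnerProductGeometry.sin_angle_mul_norm_mul_norm v w
  have hs2 : Real.sqrt (inner ℝ v v * inner ℝ w w - inner ℝ v w * inner ℝ v w) = |det2 v w| := by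
    rw [← Real.sqrt_sq_eq_abs]
    congr 1
    rw [real_inner_self_eq_norm_sq, real_inner_self_eq_norm_sq, hin, hnv, hnw, det2]
    ring
  rw [hs2] at hsin
  have hsin' : Real.sin (InnerProductGeometry.angle v w) = |det2 v w| / (‖v‖ * ‖w‖) := by
    rw [eq_div_iff hvw'.ne']; exact hsin
  have hj := Real.mul_le_sin hang0 hang
  rw [hsin'] at hj
  have hpi := Real.pi_pos
  calc InnerProductGeometry.angle v w
      = Real.pi / 2 * (2 / Real.pi * InnerProductGeometry.angle v w) := by field_simp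
    _ ≤ Real.pi / 2 * (|det2 v w| / (‖v‖ * ‖w‖)) := by
        apply mul_le_mul_of_nonneg_left hj; positivity

/-- bounded Bezout coefficients for the finitely many primitive `u` with `nz u ≤ k` -/
theorem exists_bezout (k : ℕ) : ∃ B : ℕ, ∀ u : ℤ × ℤ, nz u ≤ k → Int.gcd u.1 u.2 = 1 →
    ∃ s t : ℤ, u.1 * t - u.2 * s = 1 ∧ |s| ≤ B ∧ |t| ≤ B := by
  classical
  set F : Finset (ℤ × ℤ) := Finset.Icc (-(k:ℤ)) k ×ˢ Finset.Icc (-(k:ℤ)) k with hF
  refine ⟨∑ u ∈ F, ((Int.gcdA u.1 u.2).natAbs + (Int.gcdB u.1 u.2).natAbs), ?_⟩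
  intro u hu hg
  have hu1 : |u.1| ≤ k := le_trans (le_max_left _ _) hu
  have hu2 : |u.2| ≤ k := le_trans (le_max_right _ _) hu
  have huF : u ∈ F := by
    rw [hF, Finset.mem_product, Finset.mem_Icc, Finset.mem_Icc]
    exact ⟨abs_le.mp hu1, abs_le.mp hu2⟩
  have hle : (Int.gcdA u.1 u.2).natAbs + (Int.gcdB u.1 u.2).natAbs ≤
      ∑ u ∈ F, ((Int.gcdA u.1 u.2).natAbs + (Int.gcdB u.1 u.2).natAbs) :=
    Finset.single_le_sum (f := fun u : ℤ × ℤ => (Int.gcdA u.1 u.2).natAbs + (Int.gcdB u.1 u.2).natAbs)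
      (fun _ _ => Nat.zero_le _) huF
  have hb := Int.gcd_eq_gcd_ab u.1 u.2
  rw [hg] at hb
  refine ⟨-(Int.gcdB u.1 u.2), Int.gcdA u.1 u.2, ?_, ?_, ?_⟩
  · push_cast at hb
    linarith
  · rw [abs_neg, Int.abs_eq_natAbs]
    exact_mod_cast (by omega : (Int.gcdB u.1 u.2).natAbs ≤ _)
  · rw [Int.abs_eq_natAbs]
    exact_mod_cast (by omega : (Int.gcdA u.1 u.2).natAbs ≤ _)

private theorem geoB_norm_sub_le {z w : ℂ} (hz : 0 ≤ z.re ∧ z.re ≤ 1 ∧ 0 ≤ z.im ∧ z.im ≤ 1)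
    (hw : 0 ≤ w.re ∧ w.re ≤ 1 ∧ 0 ≤ w.im ∧ w.im ≤ 1) : ‖z - w‖ ≤ 2 := by
  refine (Complex.norm_le_abs_re_add_abs_im _).trans ?_
  obtain ⟨h1, h2, h3, h4⟩ := hz
  obtain ⟨g1, g2, g3, g4⟩ := hw
  have a1 : |(z - w).re| ≤ 1 := by
    rw [Complex.sub_re, abs_le]; constructor <;> linarith
  have a2 : |(z - w).im| ≤ 1 := by
    rw [Complex.sub_im, abs_le]; constructor <;> linarith
  linarith

/-- the metric part: everything in terms of `s = √n` and `dd` -/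
private theorem geoB_core {c C s n dd kk UU η : ℝ} (hc : 0 < c) (hC : 1 ≤ C) (hs : 1 ≤ s)
    (hn : s ^ 2 = n) (hkk : 1 ≤ kk) (hUU : 0 ≤ UU) (hη : 0 < η) (hη1 : η ≤ 1)
    (hηc : η * (1536 * C ^ 4 * kk ^ 2) ≤ c)
    (hs1 : 4 * kk * (1 + UU + C ^ 2) + 8 * C ^ 2 * kk * (2 * kk * C + 1) + 2 * kk * C + C ^ 2 + 1 ≤ s)
    (hdd : 1 ≤ kk * dd)
    {v w1 : ℂ} (hw1 : ‖w1‖ ≤ 2 * kk * C / s + η / n)
    (hv : dd / (2 * C ^ 2) - (1 + UU) / (C ^ 2 * s) - η / n ≤ ‖v‖)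
    (hdet : |det2 v w1| ≤ C ^ 2 / n * (c / (512 * C ^ 6) * dd ^ 2) + 2 * kk * C / s * (η / n)
      + 2 * (η / n)) :
    v ≠ 0 ∧ w1 + v ≠ 0 ∧ InnerProductGeometry.angle v (w1 + v) < c / n := by
  have hs0 : 0 < s := by linarith
  have hn0 : 0 < n := by rw [← hn]; positivity
  have hkk0 : 0 < kk := by linarith
  have hC0 : 0 < C := by linarith
  have hdd0 : 0 < dd := by
    by_contra hneg
    push Not at hneg
    nlinarith
  have hddk : 1 / kk ≤ dd := by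
    rw [div_le_iff₀ hkk0]; linarith
  have hC2 : 1 ≤ C ^ 2 := by nlinarith
  have hηn : η / n ≤ 1 / s := by
    rw [div_le_div_iff₀ hn0 hs0, ← hn]
    nlinarith
  have hηn0 : 0 < η / n := by positivity
  have p1 : 0 ≤ 4 * kk * (1 + UU + C ^ 2) := by positivity
  have p2 : 0 ≤ 8 * C ^ 2 * kk * (2 * kk * C + 1) := by positivity
  have p3 : 0 ≤ 2 * kk * C := by positivity
  -- ‖w1‖ ≤ dd/(8 C²)
  have hw1' : ‖w1‖ ≤ dd / (8 * C ^ 2) := by
    have e1 : 2 * kk * C / s + η / n ≤ (2 * kk * C + 1) / s := by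
      rw [add_div]; linarith
    have e2 : (2 * kk * C + 1) / s ≤ 1 / (8 * C ^ 2 * kk) := by
      rw [div_le_div_iff₀ hs0 (by positivity)]
      nlinarith
    have e3 : 1 / (8 * C ^ 2 * kk) ≤ dd / (8 * C ^ 2) := by
      rw [div_le_div_iff₀ (by positivity) (by positivity)]
      have : (8 * C ^ 2) * 1 ≤ (8 * C ^ 2) * (kk * dd) :=
        mul_le_mul_of_nonneg_left hdd (by positivity)
      linarith
    linarith
  -- ‖v‖ ≥ dd/(4 C²)
  have hv' : dd / (4 * C ^ 2) ≤ ‖v‖ := by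
    have e1 : (1 + UU) / (C ^ 2 * s) + η / n ≤ (1 + UU + C ^ 2) / (C ^ 2 * s) := by
      rw [add_div _ (C ^ 2)]
      have : C ^ 2 / (C ^ 2 * s) = 1 / s := by field_simp
      rw [this]; linarith
    have e2 : (1 + UU + C ^ 2) / (C ^ 2 * s) ≤ 1 / (4 * C ^ 2 * kk) := by
      rw [div_le_div_iff₀ (by positivity) (by positivity)]
      have : C ^ 2 * (4 * kk * (1 + UU + C ^ 2)) ≤ C ^ 2 * s :=
        mul_le_mul_of_nonneg_left (by linarith [sq_nonneg C]) (by positivity)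
      linarith
    have e3 : 1 / (4 * C ^ 2 * kk) ≤ dd / (4 * C ^ 2) := by
      rw [div_le_div_iff₀ (by positivity) (by positivity)]
      have : (4 * C ^ 2) * 1 ≤ (4 * C ^ 2) * (kk * dd) :=
        mul_le_mul_of_nonneg_left hdd (by positivity)
      linarith
    have e4 : dd / (2 * C ^ 2) = dd / (4 * C ^ 2) + dd / (4 * C ^ 2) := by
      field_simp; ring
    linarith
  have hsplit : dd / (4 * C ^ 2) = dd / (8 * C ^ 2) + dd / (8 * C ^ 2) := by
    field_simp; ring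
  have hq : 0 < dd / (8 * C ^ 2) := by positivity
  have hvpos : 0 < ‖v‖ := by linarith
  have hwv : dd / (8 * C ^ 2) ≤ ‖w1 + v‖ := by
    have := norm_sub_norm_le v (-w1)
    rw [norm_neg] at this
    have h2 : v - -w1 = w1 + v := by ring
    rw [h2] at this
    linarith
  have hwvpos : 0 < ‖w1 + v‖ := by linarith
  refine ⟨norm_pos_iff.mp hvpos, norm_pos_iff.mp hwvpos, ?_⟩
  have hang := angle_le (v := v) (w := w1 + v) (by
    have : w1 + v - v = w1 := by ring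
    rw [this]; linarith) (norm_pos_iff.mp hwvpos)
  have hdet' : det2 v (w1 + v) = det2 v w1 := by simp [det2]; ring
  rw [hdet'] at hang
  -- bound of the determinant
  have hdet2 : |det2 v w1| ≤ (C ^ 2 * (c / (512 * C ^ 6)) * dd ^ 2 + 3 * η) / n := by
    have e1 : 2 * kk * C / s * (η / n) ≤ 1 * (η / n) := by
      apply mul_le_mul_of_nonneg_right _ hηn0.le
      rw [div_le_one hs0]; linarith
    have e2 : (C ^ 2 * (c / (512 * C ^ 6)) * dd ^ 2 + 3 * η) / n =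
        C ^ 2 / n * (c / (512 * C ^ 6) * dd ^ 2) + 1 * (η / n) + 2 * (η / n) := by
      field_simp; ring
    rw [e2]; linarith
  have hfrac : |det2 v w1| / (‖v‖ * ‖w1 + v‖) ≤
      ((C ^ 2 * (c / (512 * C ^ 6)) * dd ^ 2 + 3 * η) / n) /
        (dd / (4 * C ^ 2) * (dd / (8 * C ^ 2))) := by
    apply div_le_div₀ _ hdet2 (by positivity)
    · apply mul_le_mul hv' hwv hq.le hvpos.le
    · positivity
  have hval : ((C ^ 2 * (c / (512 * C ^ 6)) * dd ^ 2 + 3 * η) / n) /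
        (dd / (4 * C ^ 2) * (dd / (8 * C ^ 2))) ≤ c / 8 / n := by
    have e1 : ((C ^ 2 * (c / (512 * C ^ 6)) * dd ^ 2 + 3 * η) / n) /
        (dd / (4 * C ^ 2) * (dd / (8 * C ^ 2))) = (c / 16 + 96 * C ^ 4 * η / dd ^ 2) / n := by
      field_simp; ring
    rw [e1]
    apply div_le_div_of_nonneg_right _ hn0.le
    have e2 : 96 * C ^ 4 * η / dd ^ 2 ≤ c / 16 := by
      rw [div_le_div_iff₀ (by positivity) (by norm_num)]
      have h1 : 1 ≤ (kk * dd) ^ 2 := by nlinarith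
      have h2 : η * (1536 * C ^ 4 * kk ^ 2) * dd ^ 2 ≤ c * dd ^ 2 :=
        mul_le_mul_of_nonneg_right hηc (by positivity)
      have h3 : η * (1536 * C ^ 4) * 1 ≤ η * (1536 * C ^ 4) * (kk * dd) ^ 2 :=
        mul_le_mul_of_nonneg_left h1 (by positivity)
      nlinarith
    linarith
  have hpi : Real.pi / 2 < 2 := by have := Real.pi_lt_four; linarith
  have hpi0 : 0 < Real.pi / 2 := by positivity
  calc InnerProductGeometry.angle v (w1 + v)
      ≤ Real.pi / 2 * (|det2 v w1| / (‖v‖ * ‖w1 + v‖)) := hang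
    _ ≤ Real.pi / 2 * (c / 8 / n) :=
        mul_le_mul_of_nonneg_left (hfrac.trans hval) hpi0.le
    _ ≤ 2 * (c / 8 / n) := mul_le_mul_of_nonneg_right hpi.le (by positivity)
    _ < c / n := by
        have : 2 * (c / 8 / n) = (c / n) * (1 / 4) := by field_simp; norm_num
        rw [this]
        have : 0 < c / n := by positivity
        linarith

/-- THIN TRIANGLE.  Proof: `c' = c/(512 C⁶)`, `B` from `exists_bezout k`, `U = B (2k+1) + k`,
`η = c/(1536 C⁴ k²)` (and `η ≤ 1`), `n` large in terms of everything.  Let `z0 = round (cr u (T - S))`, so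
`|cr u (T-S) - z0| = dz`, `|z0| ≤ 2 nz u + 1 ≤ 2k+1`; `(s,t) = -z0 (s0,t0)` with the Bezout pair.  Patch of `p`: a point
`x p' = x p + u.1 a + u.2 b + e1`; patch of `q`: a point `x r = x q + s a + t b + e2`; `‖e1‖,‖e2‖ ≤ η/n`.
`x r - x p = (h m u.1 + (T-S).1 + s) a + (h m u.2 + (T-S).2 + t) b + e2`.
`|det2 (x p' - x p) (x r - x p)| ≤ |det2 a b| |cr u (T-S) - z0| + 2 η/n + (2kC/√n)(η/n)
≤ (1/n) (C² c' dd² + 3 η)`, `dd = |m| nz u/k ≥ 1/k`, because `cr u (h m u) = 0` and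
`cr u (s,t) = -z0`, `|det2 a b| ≤ C²/n`.  By `coord_le`
`‖x r - x p‖ ≥ (h |m| nz u - 1 - U)/(C² √n) - η/n ≥ dd/(4 C²)` (as `h ≥ √n/(2k)`, `n` large), and
`‖x r - x p'‖ ≥ dd/(8 C²)`.  With `v = x p - x r`, `w = x p' - x r`: `det2 v w = ± det2 (x p' - x p) (x r - x p)`,
`angle ≤ (π/2) (32 C⁴/n) (C² c' + 3 η k²) ≤ (π/2)(c/(4 n)) < c/n`.  The three points are different, so the
indices are different. -/
theorem thin (c C : ℝ) (hc : 0 < c) (hC : 1 ≤ C) : ∃ c' : ℝ, 0 < c' ∧ ∀ k : ℕ, 1 ≤ k →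
    ∃ U : ℕ, ∃ η : ℝ, 0 < η ∧ ∃ N0 : ℕ, ∀ n : ℕ, N0 ≤ n → ∀ x : Fin n → ℂ,
      (∀ i, 0 ≤ (x i).re ∧ (x i).re ≤ 1 ∧ 0 ≤ (x i).im ∧ (x i).im ≤ 1) →
      ∀ a b : ℂ, Basis2 C n a b → ∀ h : ℕ, Real.sqrt n ≤ 2 * k * h → (h : ℝ) * k ≤ Real.sqrt n →
      ∀ (p q : Fin n) (S T : ℝ × ℝ), 0 ≤ S.1 → S.1 < 1 → 0 ≤ S.2 → S.2 < 1 →
        0 ≤ T.1 → T.1 < 1 → 0 ≤ T.2 → T.2 < 1 →
      ∀ (u : ℤ × ℤ) (m : ℤ), Int.gcd u.1 u.2 = 1 → m ≠ 0 → |m| * nz u ≤ k →
        x q - x p = (((h * m * u.1 : ℤ) : ℝ) + (T.1 - S.1) : ℝ) * a +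
          (((h * m * u.2 : ℤ) : ℝ) + (T.2 - S.2) : ℝ) * b →
        dz (cr u (T - S)) < c' * ((m : ℝ) * nz u) ^ 2 / (k : ℝ) ^ 2 →
        (∀ s t : ℤ, |s| ≤ U → |t| ≤ U → ∃ j, dist (x j) (x p + s * a + t * b) ≤ η / n) →
        (∀ s t : ℤ, |s| ≤ U → |t| ≤ U → ∃ j, dist (x j) (x q + s * a + t * b) ≤ η / n) →
        ∃ i j l : Fin n, i ≠ j ∧ j ≠ l ∧ i ≠ l ∧
          EuclideanGeometry.angle (x i) (x j) (x l) < c / n := by
  have hC0 : 0 < C := by linarith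
  refine ⟨c / (512 * C ^ 6), by positivity, fun k hk => ?_⟩
  have hkR : (1 : ℝ) ≤ k := by exact_mod_cast hk
  have hk0 : (0 : ℝ) < k := by linarith
  obtain ⟨B, hB⟩ := exists_bezout k
  obtain ⟨U, hU⟩ : ∃ U : ℕ, U = B * (2 * k + 1) + k := ⟨_, rfl⟩
  obtain ⟨η, hη⟩ : ∃ η : ℝ, η = min 1 (c / (1536 * C ^ 4 * (k : ℝ) ^ 2)) := ⟨_, rfl⟩
  have hη0 : 0 < η := by rw [hη]; apply lt_min one_pos; positivity
  have hη1 : η ≤ 1 := by rw [hη]; exact min_le_left _ _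
  have hηc : η * (1536 * C ^ 4 * (k : ℝ) ^ 2) ≤ c := by
    have : η ≤ c / (1536 * C ^ 4 * (k : ℝ) ^ 2) := by rw [hη]; exact min_le_right _ _
    rwa [le_div_iff₀ (by positivity)] at this
  obtain ⟨M, hM⟩ : ∃ M : ℝ, M = 4 * k * (1 + (U : ℝ) + C ^ 2) + 8 * C ^ 2 * k * (2 * k * C + 1)
    + 2 * k * C + C ^ 2 + 1 := ⟨_, rfl⟩
  have hM1 : C ^ 2 + 1 ≤ M := by
    have p1 : 0 ≤ 4 * k * (1 + (U : ℝ) + C ^ 2) := by positivity
    have p2 : 0 ≤ 8 * C ^ 2 * k * (2 * k * C + 1) := by positivity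
    have p3 : 0 ≤ 2 * k * C := by positivity
    linarith
  refine ⟨U, η, hη0, ⌈M ^ 2⌉₊, ?_⟩
  intro n hn x hx a b hab h hh1 hh2 p q S T hS1 hS2 hS3 hS4 hT1 hT2 hT3 hT4 u m hum hm hmu hpq
    hdz hP hQ
  obtain ⟨s, hs⟩ : ∃ s : ℝ, s = Real.sqrt n := ⟨_, rfl⟩
  have hsM : M ≤ s := by
    rw [hs]
    apply Real.le_sqrt_of_sq_le
    exact Nat.ceil_le.mp hn
  have hs2 : s ^ 2 = n := by rw [hs]; exact Real.sq_sqrt (Nat.cast_nonneg n)
  have hs1 : 1 ≤ s := by nlinarith [sq_nonneg C]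
  have hs0 : 0 < s := by linarith
  have hn0 : (0 : ℝ) < n := by rw [← hs2]; positivity
  have hnN : 1 ≤ n := by
    have : 0 < n := by exact_mod_cast hn0
    omega
  obtain ⟨ha, hb, hdetab⟩ := hab
  rw [← hs] at ha hb hh1 hh2
  have hcoord := fun α β => coord_le hC0 hnN (⟨by rw [← hs]; exact ha, by rw [← hs]; exact hb, hdetab⟩ : Basis2 C n a b) α β
  rw [← hs] at hcoord
  -- sizes of `u`
  have hu0 : 1 ≤ nz u := by
    by_contra hneg
    push Not at hneg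
    have h0 : nz u ≤ 0 := by omega
    have h1 : |u.1| ≤ 0 := le_trans (le_max_left _ _) h0
    have h2 : |u.2| ≤ 0 := le_trans (le_max_right _ _) h0
    have h3 : u.1 = 0 := abs_eq_zero.mp (le_antisymm h1 (abs_nonneg _))
    have h4 : u.2 = 0 := abs_eq_zero.mp (le_antisymm h2 (abs_nonneg _))
    rw [h3, h4] at hum
    simp at hum
  have hm1 : 1 ≤ |m| := Int.one_le_abs hm
  have huk : nz u ≤ k := by
    calc nz u = 1 * nz u := by ring
      _ ≤ |m| * nz u := mul_le_mul_of_nonneg_right hm1 (by omega)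
      _ ≤ k := hmu
  have hu1 : |u.1| ≤ nz u := le_max_left _ _
  have hu2 : |u.2| ≤ nz u := le_max_right _ _
  have hu1k : |(u.1 : ℝ)| ≤ k := by exact_mod_cast hu1.trans huk
  have hu2k : |(u.2 : ℝ)| ≤ k := by exact_mod_cast hu2.trans huk
  -- `z0`
  obtain ⟨z0, hz0⟩ : ∃ z0 : ℤ, z0 = round (cr u (T - S)) := ⟨_, rfl⟩
  have hz0d : |cr u (T - S) - z0| = dz (cr u (T - S)) := by rw [hz0]; rfl
  have hz0le : |z0| ≤ 2 * k + 1 := by
    have h1 : |cr u (T - S)| ≤ 2 * k := by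
      have e : cr u (T - S) = (u.1 : ℝ) * (T.2 - S.2) - (u.2 : ℝ) * (T.1 - S.1) := by
        simp [cr]
      rw [e]
      have t1 : |T.2 - S.2| ≤ 1 := by rw [abs_le]; constructor <;> linarith
      have t2 : |T.1 - S.1| ≤ 1 := by rw [abs_le]; constructor <;> linarith
      calc |(u.1 : ℝ) * (T.2 - S.2) - (u.2 : ℝ) * (T.1 - S.1)|
          ≤ |(u.1 : ℝ) * (T.2 - S.2)| + |(u.2 : ℝ) * (T.1 - S.1)| := abs_sub _ _
        _ = |(u.1 : ℝ)| * |T.2 - S.2| + |(u.2 : ℝ)| * |T.1 - S.1| := by rw [abs_mul, abs_mul]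
        _ ≤ k * 1 + k * 1 := by
            apply add_le_add
            · exact mul_le_mul hu1k t1 (abs_nonneg _) hk0.le
            · exact mul_le_mul hu2k t2 (abs_nonneg _) hk0.le
        _ = 2 * k := by ring
    have h2 : |cr u (T - S) - z0| ≤ 1 / 2 := by rw [hz0]; exact abs_sub_round _
    have h3 : |(z0 : ℝ)| ≤ 2 * k + 1 := by
      calc |(z0 : ℝ)| = |cr u (T - S) - (cr u (T - S) - z0)| := by ring_nf
        _ ≤ |cr u (T - S)| + |cr u (T - S) - z0| := abs_sub _ _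
        _ ≤ 2 * k + 1 := by linarith
    exact_mod_cast h3
  obtain ⟨s0, t0, hst, hs0B, ht0B⟩ := hB u huk hum
  obtain ⟨σ, hσ⟩ : ∃ σ : ℤ, σ = -z0 * s0 := ⟨_, rfl⟩
  obtain ⟨τ, hτ⟩ : ∃ τ : ℤ, τ = -z0 * t0 := ⟨_, rfl⟩
  have hUcast : (U : ℤ) = B * (2 * k + 1) + k := by rw [hU]; push_cast; ring
  have hσU : |σ| ≤ U := by
    rw [hσ, abs_mul, abs_neg]
    have : |z0| * |s0| ≤ (2 * k + 1) * B := mul_le_mul hz0le hs0B (abs_nonneg _) (by positivity)
    have hk' : (0 : ℤ) ≤ k := by positivity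
    rw [hUcast]; linarith
  have hτU : |τ| ≤ U := by
    rw [hτ, abs_mul, abs_neg]
    have : |z0| * |t0| ≤ (2 * k + 1) * B := mul_le_mul hz0le ht0B (abs_nonneg _) (by positivity)
    have hk' : (0 : ℤ) ≤ k := by positivity
    rw [hUcast]; linarith
  have hkU : (k : ℤ) ≤ U := by
    rw [hUcast]
    have : (0 : ℤ) ≤ B * (2 * k + 1) := by positivity
    linarith
  obtain ⟨p', hp'⟩ := hP u.1 u.2 ((hu1.trans huk).trans hkU) ((hu2.trans huk).trans hkU)
  obtain ⟨r, hr⟩ := hQ σ τ hσU hτU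
  obtain ⟨e1, he1⟩ : ∃ e1 : ℂ, e1 = x p' - (x p + u.1 * a + u.2 * b) := ⟨_, rfl⟩
  obtain ⟨e2, he2⟩ : ∃ e2 : ℂ, e2 = x r - (x q + σ * a + τ * b) := ⟨_, rfl⟩
  have he1n : ‖e1‖ ≤ η / n := by rw [he1, ← dist_eq_norm]; exact hp'
  have he2n : ‖e2‖ ≤ η / n := by rw [he2, ← dist_eq_norm]; exact hr
  obtain ⟨α, hα⟩ : ∃ α : ℝ, α = h * m * u.1 + (T.1 - S.1) + σ := ⟨_, rfl⟩
  obtain ⟨β, hβ⟩ : ∃ β : ℝ, β = h * m * u.2 + (T.2 - S.2) + τ := ⟨_, rfl⟩
  obtain ⟨v, hv⟩ : ∃ v : ℂ, v = x p - x r := ⟨_, rfl⟩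
  obtain ⟨w1, hw1⟩ : ∃ w1 : ℂ, w1 = x p' - x p := ⟨_, rfl⟩
  have hw1e : w1 = ((u.1 : ℝ) : ℂ) * a + ((u.2 : ℝ) : ℂ) * b + e1 := by
    rw [hw1, he1]; push_cast; ring
  have hve : v = -((α : ℂ) * a + (β : ℂ) * b) - e2 := by
    have hxq : x q = x p + ((((h * m * u.1 : ℤ) : ℝ) + (T.1 - S.1) : ℝ) * a +
          (((h * m * u.2 : ℤ) : ℝ) + (T.2 - S.2) : ℝ) * b) := by
      rw [← hpq]; ring
    rw [hv, he2, hxq, hα, hβ]; push_cast; ring
  have hab0 : ‖((u.1 : ℝ) : ℂ) * a + ((u.2 : ℝ) : ℂ) * b‖ ≤ 2 * k * C / s := by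
    calc ‖((u.1 : ℝ) : ℂ) * a + ((u.2 : ℝ) : ℂ) * b‖
        ≤ ‖((u.1 : ℝ) : ℂ) * a‖ + ‖((u.2 : ℝ) : ℂ) * b‖ := norm_add_le _ _
      _ = |(u.1 : ℝ)| * ‖a‖ + |(u.2 : ℝ)| * ‖b‖ := by
          rw [norm_mul, norm_mul, Complex.norm_real, Complex.norm_real, Real.norm_eq_abs,
            Real.norm_eq_abs]
      _ ≤ k * (C / s) + k * (C / s) := by
          apply add_le_add
          · exact mul_le_mul hu1k ha (norm_nonneg _) hk0.le
          · exact mul_le_mul hu2k hb (norm_nonneg _) hk0.le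
      _ = 2 * k * C / s := by ring
  obtain ⟨dd, hdd⟩ : ∃ dd : ℝ, dd = |(m : ℝ)| * nz u / k := ⟨_, rfl⟩
  have hkdd : (k : ℝ) * dd = |(m : ℝ)| * nz u := by rw [hdd]; field_simp
  have hdd1 : 1 ≤ (k : ℝ) * dd := by
    rw [hkdd]
    have : (1 : ℤ) ≤ |m| * nz u := by nlinarith
    exact_mod_cast this
  have hdd2 : ((m : ℝ) * nz u) ^ 2 / (k : ℝ) ^ 2 = dd ^ 2 := by
    rw [hdd, div_pow, mul_pow, mul_pow, sq_abs]
  have hcore := geoB_core (c := c) (C := C) (s := s) (n := n) (dd := dd) (kk := k) (UU := U)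
    (η := η) hc hC hs1 hs2 hkR (Nat.cast_nonneg U) hη0 hη1 hηc (by rw [← hM]; exact hsM) hdd1
    (v := v) (w1 := w1)
    (by
      rw [hw1e]
      exact (norm_add_le _ _).trans (add_le_add hab0 he1n))
    (by
      -- lower bound for `‖v‖`
      have hCs : 0 < C ^ 2 * s := by positivity
      obtain ⟨c1, c2⟩ := hcoord α β
      have hmax : h * (|(m : ℝ)| * nz u) - 1 - U ≤ C ^ 2 * s * ‖(α : ℂ) * a + (β : ℂ) * b‖ := by
        have hgen : ∀ (w y : ℝ) (ρ : ℤ), |y| ≤ 1 → |ρ| ≤ (U : ℤ) →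
            h * (|(m : ℝ)| * |w|) - 1 - U ≤ |h * m * w + y + ρ| := by
          intro w y ρ hy hρ
          have hρ' : |(ρ : ℝ)| ≤ U := by exact_mod_cast hρ
          have e : h * (|(m : ℝ)| * |w|) = |(h : ℝ) * m * w| := by
            rw [abs_mul, abs_mul, Nat.abs_cast]; ring
          rw [e]
          have t1 : |(h : ℝ) * m * w| ≤ |h * m * w + y + ρ| + |y + ρ| := by
            calc |(h : ℝ) * m * w| = |(h * m * w + y + ρ) - (y + ρ)| := by ring_nf
              _ ≤ _ := abs_sub _ _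
          have t2 : |y + (ρ : ℝ)| ≤ |y| + |(ρ : ℝ)| := abs_add_le _ _
          linarith
        rcases le_total |u.1| |u.2| with hle | hle
        · have hnz : nz u = |u.2| := max_eq_right hle
          have := hgen u.2 (T.2 - S.2) τ (by rw [abs_le]; constructor <;> linarith) hτU
          rw [hnz]; push_cast
          rw [← hβ] at this
          linarith
        · have hnz : nz u = |u.1| := max_eq_left hle
          have := hgen u.1 (T.1 - S.1) σ (by rw [abs_le]; constructor <;> linarith) hσU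
          rw [hnz]; push_cast
          rw [← hα] at this
          linarith
      rw [← hkdd] at hmax
      have h5 : s * dd / 2 ≤ h * (k * dd) := by
        have hdd0 : 0 < dd := by
          by_contra hneg
          push Not at hneg
          nlinarith
        have := mul_le_mul_of_nonneg_right hh1 hdd0.le
        linarith
      have h6 : (s * dd / 2 - 1 - U) / (C ^ 2 * s) ≤ ‖(α : ℂ) * a + (β : ℂ) * b‖ := by
        rw [div_le_iff₀ hCs]; linarith
      have h7 : (s * dd / 2 - 1 - U) / (C ^ 2 * s) = dd / (2 * C ^ 2) - (1 + U) / (C ^ 2 * s) := by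
        field_simp; ring
      rw [h7] at h6
      have h8 : ‖(α : ℂ) * a + (β : ℂ) * b‖ ≤ ‖v‖ + ‖e2‖ := by
        have : (α : ℂ) * a + (β : ℂ) * b = -v - e2 := by rw [hve]; ring
        rw [this]
        calc ‖-v - e2‖ ≤ ‖-v‖ + ‖e2‖ := norm_sub_le _ _
          _ = ‖v‖ + ‖e2‖ := by rw [norm_neg]
      linarith)
    (by
      -- the determinant
      have hdv : det2 v w1 = -((α * u.2 - β * u.1) * det2 a b)
          - det2 e2 (((u.1 : ℝ) : ℂ) * a + ((u.2 : ℝ) : ℂ) * b) + det2 v e1 := by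
        rw [hw1e, hve]
        simp only [det2, Complex.add_re, Complex.add_im, Complex.sub_re, Complex.sub_im,
          Complex.neg_re, Complex.neg_im, Complex.mul_re, Complex.mul_im, Complex.ofReal_re,
          Complex.ofReal_im]
        ring
      have hαβ : α * u.2 - β * u.1 = -(cr u (T - S) - z0) := by
        have hst' : (u.1 : ℝ) * t0 - u.2 * s0 = 1 := by exact_mod_cast hst
        rw [hα, hβ, hσ, hτ]
        simp only [cr, Prod.fst_sub, Prod.snd_sub]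
        push_cast
        linear_combination (z0 : ℝ) * hst'
      have hda : |det2 a b| ≤ C ^ 2 / n := by
        calc |det2 a b| ≤ ‖a‖ * ‖b‖ := geoB_det2_le a b
          _ ≤ (C / s) * (C / s) := mul_le_mul ha hb (norm_nonneg _) (by positivity)
          _ = C ^ 2 / n := by rw [← hs2]; field_simp
      have hT1' : |(α * u.2 - β * u.1) * det2 a b| ≤
          C ^ 2 / n * (c / (512 * C ^ 6) * dd ^ 2) := by
        rw [abs_mul, hαβ, abs_neg, hz0d, mul_comm]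
        have hdz' : dz (cr u (T - S)) ≤ c / (512 * C ^ 6) * dd ^ 2 := by
          rw [← hdd2]
          have := hdz.le
          rw [mul_div_assoc] at this
          exact this
        exact mul_le_mul hda hdz' (dz_nonneg _) (by positivity)
      have hT2' : |det2 e2 (((u.1 : ℝ) : ℂ) * a + ((u.2 : ℝ) : ℂ) * b)| ≤
          2 * k * C / s * (η / n) := by
        refine (geoB_det2_le _ _).trans ?_
        rw [mul_comm]
        exact mul_le_mul hab0 he2n (norm_nonneg _) (by positivity)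
      have hT3' : |det2 v e1| ≤ 2 * (η / n) := by
        refine (geoB_det2_le _ _).trans ?_
        refine mul_le_mul ?_ he1n (norm_nonneg _) (by norm_num)
        rw [hv]
        exact geoB_norm_sub_le (hx p) (hx r)
      rw [hdv]
      refine (abs_add_le _ _).trans ?_
      refine add_le_add ?_ hT3'
      refine (abs_sub _ _).trans ?_
      rw [abs_neg]
      exact add_le_add hT1' hT2')
  obtain ⟨hvne, hwne, hangle⟩ := hcore
  have hwv : w1 + v = x p' - x r := by rw [hw1, hv]; ring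
  have hw1ne : w1 ≠ 0 := by
    intro h0
    obtain ⟨c1, c2⟩ := hcoord u.1 u.2
    have hlow : (1 : ℝ) ≤ C ^ 2 * s * ‖((u.1 : ℝ) : ℂ) * a + ((u.2 : ℝ) : ℂ) * b‖ := by
      rcases le_total |u.1| |u.2| with hle | hle
      · have hnz : nz u = |u.2| := max_eq_right hle
        rw [hnz] at hu0
        have : (1 : ℝ) ≤ |(u.2 : ℝ)| := by exact_mod_cast hu0
        linarith
      · have hnz : nz u = |u.1| := max_eq_left hle
        rw [hnz] at hu0
        have : (1 : ℝ) ≤ |(u.1 : ℝ)| := by exact_mod_cast hu0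
        linarith
    have heq : ((u.1 : ℝ) : ℂ) * a + ((u.2 : ℝ) : ℂ) * b = -e1 := by
      rw [h0] at hw1e
      linear_combination -hw1e
    rw [heq, norm_neg] at hlow
    have h9 : C ^ 2 * s * ‖e1‖ ≤ C ^ 2 * s * (η / n) :=
      mul_le_mul_of_nonneg_left he1n (by positivity)
    have h10 : C ^ 2 * s * (η / n) < 1 := by
      rw [← hs2]
      have : C ^ 2 * s * (η / s ^ 2) = C ^ 2 * η / s := by field_simp
      rw [this, div_lt_one hs0]
      have : C ^ 2 * η ≤ C ^ 2 * 1 := mul_le_mul_of_nonneg_left hη1 (by positivity)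
      linarith
    linarith
  refine ⟨p, r, p', ?_, ?_, ?_, ?_⟩
  · rintro rfl
    apply hvne; rw [hv]; ring
  · rintro rfl
    apply hwne; rw [hwv]; ring
  · rintro rfl
    apply hw1ne; rw [hw1]; ring
  · rw [EuclideanGeometry.angle, vsub_eq_sub, vsub_eq_sub, ← hv, ← hwv]
    exact hangle

end

end Pool.Agent.Lib.MP_a768d2_co
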