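import Pool.Agent.Lib.MP_a768d2_co.FMain
import Pool.Agent.Lib.MP_a768d2_co.GeoB

/-! # The polycrystal theorem (job GeoC) -/

namespace Pool.Agent.Lib.MP_a768d2_co

noncomputable section

open Classical in
/-- the indices of the points which have a `U`-patch of a lattice spanned by one of the bases -/
def patched (n K : ℕ) (x : Fin n → ℂ) (a b : Fin K → ℂ) (U : ℕ) (r : ℝ) : Finset (Fin n) :=
  Finset.univ.filter (fun i => ∃ τ : Fin K, ∀ s t : ℤ, |s| ≤ U → |t| ≤ U →
    ∃ j, dist (x j) (x i + s * a τ + t * b τ) ≤ r)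

/-- POLYCRYSTAL THEOREM.  Proof: we may enlarge `C` so that `C ≥ 1`.  `thin c C` gives `c'`; `exists_grid ε (κ/K) C`
gives `κ'` (for `K = 0` the set `patched` is empty, so `κ n ≤ 0` fails for `n ≥ 1`); `flat c' κ'` gives `k`.  Then
`thin` gives `U, η, N0` for this `k`.  By pigeonhole one `τ` has at least `(κ/K) n` indices; `exists_grid` gives
`E, T`; `¬ Avoid c' 0 k E T` gives `z ≠ w` in `E`, `u`, `m` with `w - z = m u` and `dz (cr u (T w - T z))` too small;
`m ≠ 0`, `|m| nz u = nz (w - z) < k`; apply `thin` to `p = ι z`, `q = ι w`. -/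
theorem polycrystal (c ε κ C : ℝ) (K : ℕ) (hc : 0 < c) (hε : 0 < ε) (hκ : 0 < κ) (hC : 0 < C) :
    ∃ U : ℕ, ∃ η : ℝ, 0 < η ∧ ∃ N : ℕ, ∀ n : ℕ, N ≤ n → ∀ x : Fin n → ℂ,
      (∀ i, 0 ≤ (x i).re ∧ (x i).re ≤ 1 ∧ 0 ≤ (x i).im ∧ (x i).im ≤ 1) →
      (∀ i j, i ≠ j → ε / Real.sqrt (n : ℝ) < dist (x i) (x j)) →
      ∀ a b : Fin K → ℂ, (∀ τ, Basis2 C n (a τ) (b τ)) →
        κ * n ≤ (patched n K x a b U (η / n)).card →
        ∃ i j l : Fin n, i ≠ j ∧ j ≠ l ∧ i ≠ l ∧
          EuclideanGeometry.angle (x i) (x j) (x l) < c / n := by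
  classical
  rcases Nat.eq_zero_or_pos K with hK | hK
  · subst hK
    refine ⟨0, 1, one_pos, 1, ?_⟩
    intro n hn x _ _ a b _ hp
    exfalso
    have he : patched n 0 x a b 0 (1 / n) = ∅ := by
      unfold patched
      apply Finset.filter_eq_empty_iff.mpr
      rintro i _ ⟨τ, _⟩
      exact τ.elim0
    rw [he, Finset.card_empty] at hp
    have hn0 : (0 : ℝ) < n := by exact_mod_cast hn
    have : 0 < κ * n := by positivity
    simp only [Nat.cast_zero] at hp
    linarith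
  have hK0 : (0 : ℝ) < K := by exact_mod_cast hK
  set C1 := max C 1 with hC1
  have hC1pos : 0 < C1 := lt_of_lt_of_le hC (le_max_left _ _)
  obtain ⟨c', hc', hthin⟩ := thin c C1 hc (le_max_right _ _)
  obtain ⟨κ', hκ', hgrid⟩ := exists_grid ε (κ / K) C1 hε (by positivity) hC1pos
  obtain ⟨k, hk, hflat⟩ := flat c' κ' hc' hκ'
  obtain ⟨U, η, hη, N0, hthin'⟩ := hthin k hk
  obtain ⟨N1, hgrid'⟩ := hgrid k hk
  refine ⟨U, η, hη, max (max N0 N1) 1, ?_⟩
  intro n hn x hx hsep a b hab hp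
  have hnN0 : N0 ≤ n := ((le_max_left _ _).trans (le_max_left _ _)).trans hn
  have hnN1 : N1 ≤ n := ((le_max_right _ _).trans (le_max_left _ _)).trans hn
  have hn1 : 1 ≤ n := (le_max_right _ _).trans hn
  have hn0 : (0 : ℝ) < n := by exact_mod_cast hn1
  have hB : ∀ τ, Basis2 C1 n (a τ) (b τ) := by
    intro τ
    obtain ⟨h1, h2, h3⟩ := hab τ
    have h4 : C / Real.sqrt n ≤ C1 / Real.sqrt n :=
      div_le_div_of_nonneg_right (le_max_left _ _) (Real.sqrt_nonneg _)
    refine ⟨h1.trans h4, h2.trans h4, le_trans ?_ h3⟩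
    apply one_div_le_one_div_of_le (by positivity)
    exact mul_le_mul_of_nonneg_right (le_max_left _ _) hn0.le
  -- pigeonhole
  let S : Fin K → Finset (Fin n) := fun τ => Finset.univ.filter (fun i => ∀ s t : ℤ,
    |s| ≤ U → |t| ≤ U → ∃ j, dist (x j) (x i + s * a τ + t * b τ) ≤ η / n)
  have hsub : patched n K x a b U (η / n) ⊆ Finset.univ.biUnion S := by
    intro i hi
    unfold patched at hi
    rw [Finset.mem_filter] at hi
    obtain ⟨_, τ, hτ⟩ := hi
    rw [Finset.mem_biUnion]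
    exact ⟨τ, Finset.mem_univ _, Finset.mem_filter.mpr ⟨Finset.mem_univ _, hτ⟩⟩
  have hex : ∃ τ, κ / K * n ≤ ((S τ).card : ℝ) := by
    by_contra hcon
    push Not at hcon
    have h1 : ((patched n K x a b U (η / n)).card : ℝ) ≤ ∑ τ, ((S τ).card : ℝ) := by
      have := (Finset.card_le_card hsub).trans Finset.card_biUnion_le
      exact_mod_cast this
    have h2 : ∑ τ, ((S τ).card : ℝ) < ∑ _τ : Fin K, κ / K * n := by
      apply Finset.sum_lt_sum_of_nonempty
      · exact ⟨⟨0, hK⟩, Finset.mem_univ _⟩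
      · intro τ _
        exact hcon τ
    rw [Finset.sum_const, nsmul_eq_mul, Finset.card_univ, Fintype.card_fin] at h2
    have h3 : (K : ℝ) * (κ / K * n) = κ * n := by
      field_simp
    linarith
  obtain ⟨τ, hτ⟩ := hex
  obtain ⟨h, hh1, hh2, g0, E, ι, T, hEbox, hEcard, hE⟩ :=
    hgrid' n hnN1 x hx hsep (a τ) (b τ) (hB τ) (S τ) hτ
  have hav := hflat E T hEbox hEcard
  unfold Avoid at hav
  push Not at hav
  obtain ⟨z, hz, w, hw, hne, u, m, hgcd, h1, h2, h3⟩ := hav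
  obtain ⟨hzS, z1, z2, z3, z4, hzx⟩ := hE z hz
  obtain ⟨hwS, w1, w2, w3, w4, hwx⟩ := hE w hw
  have hm : m ≠ 0 := by
    intro hm
    apply hne
    rw [hm] at h1 h2
    apply Prod.ext
    · linarith
    · linarith
  have hmk : |m| * nz u ≤ k := by
    have hbz := hEbox hz
    have hbw := hEbox hw
    unfold box at hbz hbw
    rw [Finset.mem_product, Finset.mem_Ico, Finset.mem_Ico] at hbz hbw
    have a1 : |m| * |u.1| ≤ k := by
      rw [← abs_mul, ← h1, abs_le]
      constructor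
      · linarith [hbz.1.1, hbz.1.2, hbw.1.1, hbw.1.2]
      · linarith [hbz.1.1, hbz.1.2, hbw.1.1, hbw.1.2]
    have a2 : |m| * |u.2| ≤ k := by
      rw [← abs_mul, ← h2, abs_le]
      constructor
      · linarith [hbz.2.1, hbz.2.2, hbw.2.1, hbw.2.2]
      · linarith [hbz.2.1, hbz.2.2, hbw.2.1, hbw.2.2]
    unfold nz
    rcases max_choice |u.1| |u.2| with h | h
    · rw [h]
      exact a1
    · rw [h]
      exact a2
  refine hthin' n hnN0 x hx (a τ) (b τ) (hB τ) h hh1 hh2 (ι z) (ι w) (T z) (T w)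
    z1 z2 z3 z4 w1 w2 w3 w4 u m hgcd hm hmk ?_ ?_ (Finset.mem_filter.mp hzS).2
    (Finset.mem_filter.mp hwS).2
  · rw [hwx, hzx]
    have e1 : w.1 = z.1 + m * u.1 := by linarith
    have e2 : w.2 = z.2 + m * u.2 := by linarith
    rw [e1, e2]
    push_cast
    ring
  · simpa using h3

end

end Pool.Agent.Lib.MP_a768d2_co
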