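import Pool.Agent.Lib.MP_a768d2_co.Dz

/-! # Step 8: separation of scales and lifting to real values (job Scale) -/

namespace Pool.Agent.Lib.MP_a768d2_co

noncomputable section

/-- the sequence of scales -/
private def Scale_seq (Φ : ℝ → ℝ) : ℕ → ℝ
  | 0 => 1 / 100
  | i + 1 => min (Φ (Scale_seq Φ i)) (Scale_seq Φ i) / 24

/-- Pigeonhole of scales.  `η_0 = 1/100`, `η_{i+1} = min (Φ η_i) (η_i) / 24`, `V = {η_0, ..., η_K}`: the
`K + 1` ranges `(Φ η_i, 24 η_i]` are disjoint. -/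
theorem exists_scale (Φ : ℝ → ℝ) (hΦ : ∀ η, 0 < η → 0 < Φ η) (K : ℕ) :
    ∃ V : Finset ℝ, (∀ η ∈ V, 0 < η ∧ η ≤ 1 / 100) ∧ ∀ R : Finset ℝ, R.card ≤ K →
      ∃ η ∈ V, ∀ r ∈ R, ¬ (Φ η < r ∧ r ≤ 24 * η) := by
  classical
  have hpos : ∀ i, 0 < Scale_seq Φ i := by
    intro i
    induction i with
    | zero =>
      unfold Scale_seq
      norm_num
    | succ i ih =>
      unfold Scale_seq
      have h1 := hΦ _ ih
      have h2 : 0 < min (Φ (Scale_seq Φ i)) (Scale_seq Φ i) := lt_min h1 ih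
      positivity
  have hstep : ∀ i, 24 * Scale_seq Φ (i + 1) ≤ Φ (Scale_seq Φ i) ∧
      24 * Scale_seq Φ (i + 1) ≤ Scale_seq Φ i := by
    intro i
    have h1 : 24 * Scale_seq Φ (i + 1) = min (Φ (Scale_seq Φ i)) (Scale_seq Φ i) := by
      conv_lhs => unfold Scale_seq
      ring
    rw [h1]
    exact ⟨min_le_left _ _, min_le_right _ _⟩
  have hanti : Antitone (Scale_seq Φ) := by
    refine antitone_nat_of_succ_le fun i => ?_
    have h1 := (hstep i).2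
    have h2 := hpos (i + 1)
    linarith
  refine ⟨(Finset.range (K + 1)).image (Scale_seq Φ), ?_, ?_⟩
  · intro η hη
    obtain ⟨i, _, rfl⟩ := Finset.mem_image.1 hη
    refine ⟨hpos i, ?_⟩
    have h1 := hanti (Nat.zero_le i)
    have h2 : Scale_seq Φ 0 = 1 / 100 := by
      unfold Scale_seq
      rfl
    rw [h2] at h1
    exact h1
  · intro R hR
    by_contra hcon
    push Not at hcon
    have hch : ∀ i ∈ Finset.range (K + 1), ∃ r ∈ R, Φ (Scale_seq Φ i) < r ∧ r ≤ 24 * Scale_seq Φ i :=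
      fun i hi => hcon _ (Finset.mem_image_of_mem _ hi)
    choose! f hf using hch
    have hcard : R.card < (Finset.range (K + 1)).card := by
      rw [Finset.card_range]
      omega
    obtain ⟨a, ha, b, hb, hab, hfab⟩ := Finset.exists_ne_map_eq_of_card_lt_of_maps_to hcard
      (fun i hi => (hf i hi).1)
    have key : ∀ a ∈ Finset.range (K + 1), ∀ b ∈ Finset.range (K + 1), a < b → f a = f b → False := by
      intro a ha b hb hab hfab
      have h1 := (hf a ha).2.1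
      have h2 := (hf b hb).2.2
      have h3 := (hstep a).1
      have h4 := hanti (Nat.succ_le_of_lt hab)
      rw [hfab] at h1
      have h5 : Scale_seq Φ b ≤ Scale_seq Φ (a + 1) := h4
      linarith
    rcases lt_or_gt_of_ne hab with h | h
    · exact key a ha b hb h hfab
    · exact key b hb a ha h hfab.symm

/-- STEP 8.  `R x = j T x`.  Let `f_x = t_x / l` with the integers `t_x = ⌊l fract (R x).i⌋ ∈ [0, l)` for both
coordinates `i`; then `j T x = n_x + f_x + O(1/l)` with `n_x = ⌊j T x⌋` integral (error in `[0, 1/l)`).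
Pigeonhole `x ∈ X` according to `⌊f_x / η⌋` (at most `2/η` values in each coordinate) and to
`n_x mod j` (`j` values in each coordinate): a class `X5` has at least `|X| η²/(4 j²)` elements.  Put
`E' = X5 - s ⊆ box l` and `T' x = (f_{x+s} - b)/j` where `b` is the corner of the `η`-box, so
`0 ≤ T' ≤ η/j ≤ 1/100`.  `Hom6`: if `∑ x_i = ∑ y_i` then `h = ∑ tt - ∑ tt ∈ H`; the integers
`∑ t_{x_i} - ∑ t_{y_i}` are `< 6 η l < l/2` in absolute value, so they are the `valMinAbs` of the coordinates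
of `h`, hence `nrm h ≤ 6 η ≤ 24 η` and so `nrm h ≤ Φ`.  Finally
`T y - T x ≡ T' y - T' x` mod 1 up to `1/l` in each coordinate, so the last claim holds with the error
`2 nz u / l`. -/
theorem lift_small {l : ℕ} (hl : 1 ≤ l) (s : ℤ × ℤ) (X : Finset (ℤ × ℤ)) (hX : X ⊆ sbox s l)
    (T : ℤ × ℤ → ℝ × ℝ) (j : ℕ) (hj : 1 ≤ j) (H : Finset (ZMod l × ZMod l))
    (hH : ∀ x y : Fin 6 → ℤ × ℤ, (∀ i, x i ∈ X) → (∀ i, y i ∈ X) → ∑ i, x i = ∑ i, y i →
      (∑ i, tt l (fun z => (j : ℝ) • T z) (x i)) - (∑ i, tt l (fun z => (j : ℝ) • T z) (y i)) ∈ H)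
    (η φ : ℝ) (hη : 0 < η) (hη1 : η ≤ 1 / 100) (hφ : 0 < φ)
    (hgap : ∀ h ∈ H, ¬ (φ < nrm h ∧ nrm h ≤ 24 * η)) :
    ∃ (E' : Finset (ℤ × ℤ)) (T' : ℤ × ℤ → ℝ × ℝ), E' ⊆ box l ∧ (∀ x ∈ E', x + s ∈ X) ∧
      η ^ 2 / (4 * (j : ℝ) ^ 2) * X.card ≤ E'.card ∧ SmallOn E' T' ∧ Hom6 φ E' T' ∧
      ∀ x ∈ E', ∀ y ∈ E', ∀ u : ℤ × ℤ,
        dz (cr u (T (y + s) - T (x + s))) ≤ dz (cr u (T' y - T' x)) + 2 / (l : ℝ) * nz u := by
  classical
  have hl0 : (0 : ℝ) < l := by exact_mod_cast hl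
  have hj0 : (0 : ℝ) < j := by exact_mod_cast hj
  have hj1 : (1 : ℝ) ≤ j := by exact_mod_cast hj
  -- the integers `t` and `n`
  set t1 : ℤ × ℤ → ℤ := fun x => ⌊(l : ℝ) * Int.fract ((j : ℝ) * (T x).1)⌋ with ht1
  set t2 : ℤ × ℤ → ℤ := fun x => ⌊(l : ℝ) * Int.fract ((j : ℝ) * (T x).2)⌋ with ht2
  have hfl : ∀ v : ℝ, 0 ≤ (⌊(l : ℝ) * Int.fract v⌋ : ℝ) ∧ (⌊(l : ℝ) * Int.fract v⌋ : ℝ) < l ∧
      (⌊(l : ℝ) * Int.fract v⌋ : ℝ) ≤ l * Int.fract v ∧
      l * Int.fract v < (⌊(l : ℝ) * Int.fract v⌋ : ℝ) + 1 := by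
    intro v
    have h1 := Int.fract_nonneg v
    have h2 := Int.fract_lt_one v
    have h3 := Int.floor_le ((l : ℝ) * Int.fract v)
    have h4 := Int.lt_floor_add_one ((l : ℝ) * Int.fract v)
    have h5 : 0 ≤ ⌊(l : ℝ) * Int.fract v⌋ := Int.floor_nonneg.2 (by positivity)
    refine ⟨by exact_mod_cast h5, ?_, h3, h4⟩
    calc (⌊(l : ℝ) * Int.fract v⌋ : ℝ) ≤ l * Int.fract v := h3
      _ < l * 1 := mul_lt_mul_of_pos_left h2 hl0
      _ = l := mul_one _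
  -- the classes
  set κ : ℤ × ℤ → ℤ × ℤ × ℤ × ℤ := fun x => (⌊(t1 x : ℝ) / l / η⌋, ⌊(t2 x : ℝ) / l / η⌋,
    ⌊(j : ℝ) * (T x).1⌋ % j, ⌊(j : ℝ) * (T x).2⌋ % j) with hκ
  set B : ℤ := ⌊1 / η⌋ with hB
  have hB0 : 0 ≤ B := Int.floor_nonneg.2 (by positivity)
  set C : Finset (ℤ × ℤ × ℤ × ℤ) := Finset.Icc 0 B ×ˢ Finset.Icc 0 B ×ˢ
    Finset.Ico 0 (j : ℤ) ×ˢ Finset.Ico 0 (j : ℤ) with hC
  have hbox : ∀ v : ℝ, ⌊(⌊(l : ℝ) * Int.fract v⌋ : ℝ) / l / η⌋ ∈ Finset.Icc 0 B := by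
    intro v
    obtain ⟨h1, h2, _, _⟩ := hfl v
    rw [Finset.mem_Icc]
    refine ⟨Int.floor_nonneg.2 (by positivity), Int.floor_le_floor ?_⟩
    have h3 : (⌊(l : ℝ) * Int.fract v⌋ : ℝ) / l ≤ 1 := by
      rw [div_le_one hl0]
      exact h2.le
    exact div_le_div_of_nonneg_right h3 hη.le
  have hmod : ∀ n : ℤ, n % (j : ℤ) ∈ Finset.Ico 0 (j : ℤ) := by
    intro n
    have hjz : (0 : ℤ) < j := by exact_mod_cast hj
    rw [Finset.mem_Ico]
    exact ⟨Int.emod_nonneg n hjz.ne', Int.emod_lt_of_pos n hjz⟩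
  have hmaps : ∀ x ∈ X, κ x ∈ C := by
    intro x _
    rw [hC]
    simp only [Finset.mem_product]
    exact ⟨hbox _, hbox _, hmod _, hmod _⟩
  have hCne : C.Nonempty := by
    refine ⟨(0, 0, 0, 0), ?_⟩
    rw [hC]
    simp only [Finset.mem_product, Finset.mem_Icc, Finset.mem_Ico]
    have hjz : (0 : ℤ) < j := by exact_mod_cast hj
    exact ⟨⟨le_rfl, hB0⟩, ⟨le_rfl, hB0⟩, ⟨le_rfl, hjz⟩, le_rfl, hjz⟩
  have hCcard : (C.card : ℝ) ≤ 4 * (j : ℝ) ^ 2 / η ^ 2 := by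
    have h1 : C.card = (B + 1).toNat * ((B + 1).toNat * (j * j)) := by
      rw [hC, Finset.card_product, Finset.card_product, Finset.card_product, Int.card_Icc,
        Int.card_Ico]
      simp
    have h2 : (((B + 1).toNat : ℕ) : ℝ) ≤ 2 / η := by
      have h3 : (((B + 1).toNat : ℕ) : ℝ) = (((B + 1 : ℤ)) : ℝ) := by
        have h4 : (((B + 1).toNat : ℕ) : ℤ) = B + 1 := Int.toNat_of_nonneg (by omega)
        exact_mod_cast congrArg (fun z : ℤ => (z : ℝ)) h4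
      rw [h3]
      push_cast
      have h5 : (B : ℝ) ≤ 1 / η := Int.floor_le _
      have h6 : 1 ≤ 1 / η := by
        rw [le_div_iff₀ hη]
        linarith
      have h7 : 2 / η = 1 / η + 1 / η := by ring
      rw [h7]
      linarith
    rw [h1]
    push_cast
    calc (((B + 1).toNat : ℕ) : ℝ) * ((((B + 1).toNat : ℕ) : ℝ) * ((j : ℝ) * j))
        ≤ 2 / η * (2 / η * ((j : ℝ) * j)) := by gcongr
      _ = 4 * (j : ℝ) ^ 2 / η ^ 2 := by ring
  obtain ⟨k, hkC, hk⟩ := Finset.exists_le_card_fiber_of_nsmul_le_card_of_maps_to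
    (b := η ^ 2 / (4 * (j : ℝ) ^ 2) * X.card) hmaps hCne (by
      rw [nsmul_eq_mul]
      calc (C.card : ℝ) * (η ^ 2 / (4 * (j : ℝ) ^ 2) * (X.card : ℝ))
          ≤ (4 * (j : ℝ) ^ 2 / η ^ 2) * (η ^ 2 / (4 * (j : ℝ) ^ 2) * (X.card : ℝ)) := by gcongr
        _ = (X.card : ℝ) := by field_simp)
  obtain ⟨k1, k2, r1, r2⟩ := k
  set X5 := X.filter (fun x => κ x = (k1, k2, r1, r2)) with hX5
  have hX5' : ∀ x ∈ X5, x ∈ X ∧ ⌊(t1 x : ℝ) / l / η⌋ = k1 ∧ ⌊(t2 x : ℝ) / l / η⌋ = k2 ∧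
      ⌊(j : ℝ) * (T x).1⌋ % j = r1 ∧ ⌊(j : ℝ) * (T x).2⌋ % j = r2 := by
    intro x hx
    rw [hX5, Finset.mem_filter] at hx
    obtain ⟨h1, h2⟩ := hx
    rw [hκ] at h2
    simp only [Prod.mk.injEq] at h2
    exact ⟨h1, h2⟩
  have hfloor : ∀ (t : ℤ) (k : ℤ), ⌊(t : ℝ) / l / η⌋ = k →
      (k : ℝ) * η ≤ (t : ℝ) / l ∧ (t : ℝ) / l ≤ k * η + η := by
    intro t k h
    have h1 := Int.floor_le ((t : ℝ) / l / η)
    have h2 := Int.lt_floor_add_one ((t : ℝ) / l / η)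
    rw [h, le_div_iff₀ hη] at h1
    rw [h, div_lt_iff₀ hη] at h2
    refine ⟨h1, ?_⟩
    linarith
  set T' : ℤ × ℤ → ℝ × ℝ := fun z => (((t1 (z + s) : ℝ) / l - k1 * η) / j,
    ((t2 (z + s) : ℝ) / l - k2 * η) / j) with hT'
  refine ⟨X5.image (fun x => x - s), T', ?_, ?_, ?_, ?_, ?_, ?_⟩
  · intro z hz
    obtain ⟨x, hx, rfl⟩ := Finset.mem_image.1 hz
    have h1 := hX (hX5' x hx).1
    unfold sbox at h1
    unfold box
    rw [Finset.mem_product, Finset.mem_Ico, Finset.mem_Ico] at h1 ⊢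
    obtain ⟨⟨h2, h3⟩, h4, h5⟩ := h1
    refine ⟨⟨?_, ?_⟩, ?_, ?_⟩
    · change 0 ≤ x.1 - s.1
      omega
    · change x.1 - s.1 < l
      omega
    · change 0 ≤ x.2 - s.2
      omega
    · change x.2 - s.2 < l
      omega
  · intro z hz
    obtain ⟨x, hx, rfl⟩ := Finset.mem_image.1 hz
    rw [sub_add_cancel]
    exact (hX5' x hx).1
  · rw [Finset.card_image_of_injective _ sub_left_injective]
    exact hk
  · intro z hz
    obtain ⟨x, hx, rfl⟩ := Finset.mem_image.1 hz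
    obtain ⟨_, h1, h2, _, _⟩ := hX5' x hx
    have h3 := hfloor _ _ h1
    have h4 := hfloor _ _ h2
    rw [hT']
    simp only [sub_add_cancel]
    have key : ∀ a : ℝ, 0 ≤ a → a ≤ η → |a / j| ≤ 1 / 100 := by
      intro a h5 h6
      rw [abs_of_nonneg (by positivity), div_le_iff₀ hj0]
      nlinarith
    exact ⟨key _ (by linarith [h3.1]) (by linarith [h3.2]),
      key _ (by linarith [h4.1]) (by linarith [h4.2])⟩
  · -- `Hom6`
    intro x y hx hy hxy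
    have hx' : ∀ i, x i + s ∈ X5 := by
      intro i
      obtain ⟨w, hw, h1⟩ := Finset.mem_image.1 (hx i)
      rw [← h1, sub_add_cancel]
      exact hw
    have hy' : ∀ i, y i + s ∈ X5 := by
      intro i
      obtain ⟨w, hw, h1⟩ := Finset.mem_image.1 (hy i)
      rw [← h1, sub_add_cancel]
      exact hw
    have hmem := hH (fun i => x i + s) (fun i => y i + s) (fun i => (hX5' _ (hx' i)).1)
      (fun i => (hX5' _ (hy' i)).1) (by
        rw [Finset.sum_add_distrib, Finset.sum_add_distrib, hxy])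
    set a1 : ℤ := ∑ i, t1 (x i + s) - ∑ i, t1 (y i + s) with ha1
    set a2 : ℤ := ∑ i, t2 (x i + s) - ∑ i, t2 (y i + s) with ha2
    have hval : (∑ i, tt l (fun z => (j : ℝ) • T z) (x i + s)) -
        (∑ i, tt l (fun z => (j : ℝ) • T z) (y i + s)) = ((a1 : ZMod l), (a2 : ZMod l)) := by
      have h1 : ∀ z : ℤ × ℤ, tt l (fun z => (j : ℝ) • T z) z = ((t1 z : ZMod l), (t2 z : ZMod l)) :=
        fun z => rfl
      refine Prod.ext ?_ ?_
      · rw [Prod.fst_sub, Prod.fst_sum, Prod.fst_sum]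
        simp only [h1]
        rw [ha1]
        push_cast
        rfl
      · rw [Prod.snd_sub, Prod.snd_sum, Prod.snd_sum]
        simp only [h1]
        rw [ha2]
        push_cast
        rfl
    rw [hval] at hmem
    have hsmall : ∀ (t : ℤ × ℤ → ℤ) (k : ℤ), (∀ z ∈ X5, (k : ℝ) * η ≤ (t z : ℝ) / l ∧
        (t z : ℝ) / l ≤ k * η + η) →
        |((∑ i, t (x i + s) - ∑ i, t (y i + s) : ℤ) : ℝ)| ≤ 6 * η * l := by
      intro t k h
      have h1 : ((∑ i, t (x i + s) - ∑ i, t (y i + s) : ℤ) : ℝ) =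
          ∑ i : Fin 6, ((t (x i + s) : ℝ) - (t (y i + s) : ℝ)) := by
        push_cast
        rw [Finset.sum_sub_distrib]
      rw [h1]
      refine (Finset.abs_sum_le_sum_abs _ _).trans ?_
      have h2 : ∀ i ∈ (Finset.univ : Finset (Fin 6)),
          |(t (x i + s) : ℝ) - (t (y i + s) : ℝ)| ≤ η * l := by
        intro i _
        obtain ⟨h3, h4⟩ := h _ (hx' i)
        obtain ⟨h5, h6⟩ := h _ (hy' i)
        rw [le_div_iff₀ hl0] at h3 h5
        rw [div_le_iff₀ hl0] at h4 h6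
        rw [abs_le]
        constructor <;> nlinarith
      refine (Finset.sum_le_card_nsmul _ _ _ h2).trans (le_of_eq ?_)
      rw [Finset.card_univ, Fintype.card_fin, nsmul_eq_mul]
      push_cast
      ring
    have hs1 := hsmall t1 k1 (fun z hz => hfloor _ _ (hX5' z hz).2.1)
    have hs2 := hsmall t2 k2 (fun z hz => hfloor _ _ (hX5' z hz).2.2.1)
    rw [← ha1] at hs1
    rw [← ha2] at hs2
    have hne : NeZero l := ⟨by omega⟩
    have hvma : ∀ a : ℤ, |(a : ℝ)| ≤ 6 * η * l → (a : ZMod l).valMinAbs = a := by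
      intro a ha
      rw [ZMod.valMinAbs_spec]
      refine ⟨rfl, ?_⟩
      have h1 : |(a : ℝ)| * 2 < l := by nlinarith
      have h2 : |a| * 2 < (l : ℤ) := by exact_mod_cast h1
      rw [Set.mem_Ioc]
      have h3 := neg_abs_le a
      have h4 := le_abs_self a
      constructor <;> linarith
    have hnrm : nrm (((a1 : ZMod l), (a2 : ZMod l)) : ZMod l × ZMod l) =
        max |(a1 : ℝ)| |(a2 : ℝ)| / l := by
      unfold nrm
      simp only
      rw [hvma a1 hs1, hvma a2 hs2]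
    have hnle : nrm (((a1 : ZMod l), (a2 : ZMod l)) : ZMod l × ZMod l) ≤ φ := by
      by_contra hcon
      rw [not_le] at hcon
      apply hgap _ hmem
      refine ⟨hcon, ?_⟩
      rw [hnrm, div_le_iff₀ hl0]
      refine max_le ?_ ?_ <;> nlinarith
    rw [hnrm, div_le_iff₀ hl0] at hnle
    have h1 : |(a1 : ℝ)| ≤ φ * l := (le_max_left _ _).trans hnle
    have h2 : |(a2 : ℝ)| ≤ φ * l := (le_max_right _ _).trans hnle
    have hfin : ∀ (a : ℤ) (v : ℝ), |(a : ℝ)| ≤ φ * l → v = (a : ℝ) / l / j → |v| ≤ φ := by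
      intro a v h3 h4
      rw [h4, abs_div, abs_div, abs_of_pos hl0, abs_of_pos hj0, div_div, div_le_iff₀ (by positivity)]
      calc |(a : ℝ)| ≤ φ * l := h3
        _ ≤ φ * (l * j) := by
          refine mul_le_mul_of_nonneg_left ?_ hφ.le
          nlinarith
    constructor
    · refine hfin a1 _ h1 ?_
      rw [Prod.fst_sum, Prod.fst_sum, hT']
      simp only
      rw [← Finset.sum_sub_distrib, ha1]
      have h3 : ∀ i : Fin 6, ((t1 (x i + s) : ℝ) / l - k1 * η) / j - ((t1 (y i + s) : ℝ) / l - k1 * η) / j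
          = ((t1 (x i + s) : ℝ) - (t1 (y i + s) : ℝ)) / l / j := by
        intro i
        ring
      rw [Finset.sum_congr rfl fun i _ => h3 i, ← Finset.sum_div, ← Finset.sum_div,
        Finset.sum_sub_distrib]
      push_cast
      rfl
    · refine hfin a2 _ h2 ?_
      rw [Prod.snd_sum, Prod.snd_sum, hT']
      simp only
      rw [← Finset.sum_sub_distrib, ha2]
      have h3 : ∀ i : Fin 6, ((t2 (x i + s) : ℝ) / l - k2 * η) / j - ((t2 (y i + s) : ℝ) / l - k2 * η) / j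
          = ((t2 (x i + s) : ℝ) - (t2 (y i + s) : ℝ)) / l / j := by
        intro i
        ring
      rw [Finset.sum_congr rfl fun i _ => h3 i, ← Finset.sum_div, ← Finset.sum_div,
        Finset.sum_sub_distrib]
      push_cast
      rfl
  · -- the comparison
    intro x hx y hy u
    have hx' : x + s ∈ X5 := by
      obtain ⟨w, hw, h1⟩ := Finset.mem_image.1 hx
      rw [← h1, sub_add_cancel]
      exact hw
    have hy' : y + s ∈ X5 := by
      obtain ⟨w, hw, h1⟩ := Finset.mem_image.1 hy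
      rw [← h1, sub_add_cancel]
      exact hw
    have key : ∀ (a b : ℝ) (r : ℤ) (k : ℤ), ⌊(j : ℝ) * a⌋ % (j : ℤ) = r → ⌊(j : ℝ) * b⌋ % (j : ℤ) = r →
        ∃ N : ℤ, |b - a - N - ((((⌊(l : ℝ) * Int.fract ((j : ℝ) * b)⌋ : ℝ) / l - k * η) / j) -
          (((⌊(l : ℝ) * Int.fract ((j : ℝ) * a)⌋ : ℝ) / l - k * η) / j))| ≤ 1 / l := by
      intro a b r k ha hb
      obtain ⟨N, hN⟩ : (j : ℤ) ∣ ⌊(j : ℝ) * b⌋ - ⌊(j : ℝ) * a⌋ :=
        Int.ModEq.dvd (show ⌊(j : ℝ) * a⌋ % (j : ℤ) = ⌊(j : ℝ) * b⌋ % (j : ℤ) by rw [ha, hb])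
      refine ⟨N, ?_⟩
      have hN' : ((⌊(j : ℝ) * b⌋ : ℝ) - (⌊(j : ℝ) * a⌋ : ℝ)) = j * N := by exact_mod_cast hN
      obtain ⟨_, _, h3, h4⟩ := hfl ((j : ℝ) * a)
      obtain ⟨_, _, h5, h6⟩ := hfl ((j : ℝ) * b)
      have h7 : (j : ℝ) * a = ⌊(j : ℝ) * a⌋ + Int.fract ((j : ℝ) * a) := (Int.floor_add_fract _).symm
      have h8 : (j : ℝ) * b = ⌊(j : ℝ) * b⌋ + Int.fract ((j : ℝ) * b) := (Int.floor_add_fract _).symm
      have h9 : b - a - N - ((((⌊(l : ℝ) * Int.fract ((j : ℝ) * b)⌋ : ℝ) / l - k * η) / j) -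
          (((⌊(l : ℝ) * Int.fract ((j : ℝ) * a)⌋ : ℝ) / l - k * η) / j)) =
          ((l * Int.fract ((j : ℝ) * b) - (⌊(l : ℝ) * Int.fract ((j : ℝ) * b)⌋ : ℝ)) -
            (l * Int.fract ((j : ℝ) * a) - (⌊(l : ℝ) * Int.fract ((j : ℝ) * a)⌋ : ℝ))) / (l * j) := by
        have h10 : (j : ℝ) * (b - a - N) = Int.fract ((j : ℝ) * b) - Int.fract ((j : ℝ) * a) := by
          linarith
        generalize Int.fract ((j : ℝ) * b) = FB at *
        generalize Int.fract ((j : ℝ) * a) = FA at *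
        rw [eq_div_iff (by positivity)]
        have h20 : (b - a - N - (((⌊(l : ℝ) * FB⌋ : ℝ) / l - k * η) / j -
            ((⌊(l : ℝ) * FA⌋ : ℝ) / l - k * η) / j)) * (l * j) =
            l * ((j : ℝ) * (b - a - N)) - ((⌊(l : ℝ) * FB⌋ : ℝ) - (⌊(l : ℝ) * FA⌋ : ℝ)) := by
          field_simp
          ring
        rw [h20, h10]
        ring
      rw [h9, abs_div, abs_of_pos (by positivity : (0 : ℝ) < l * j)]
      have h11 : |(l * Int.fract ((j : ℝ) * b) - (⌊(l : ℝ) * Int.fract ((j : ℝ) * b)⌋ : ℝ)) -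
            (l * Int.fract ((j : ℝ) * a) - (⌊(l : ℝ) * Int.fract ((j : ℝ) * a)⌋ : ℝ))| ≤ 1 := by
        rw [abs_le]
        constructor <;> linarith
      rw [div_le_div_iff₀ (by positivity) hl0]
      have h12 : (l : ℝ) ≤ l * j := by nlinarith
      nlinarith
    obtain ⟨N1, hN1⟩ := key (T (x + s)).1 (T (y + s)).1 r1 k1 (hX5' _ hx').2.2.2.1
      (hX5' _ hy').2.2.2.1
    obtain ⟨N2, hN2⟩ := key (T (x + s)).2 (T (y + s)).2 r2 k2 (hX5' _ hx').2.2.2.2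
      (hX5' _ hy').2.2.2.2
    have hN1' : |(T (y + s)).1 - (T (x + s)).1 - N1 - ((T' y).1 - (T' x).1)| ≤ 1 / l := hN1
    have hN2' : |(T (y + s)).2 - (T (x + s)).2 - N2 - ((T' y).2 - (T' x).2)| ≤ 1 / l := hN2
    have h1 : cr u (T (y + s) - T (x + s)) = (cr u (T' y - T' x) +
        ((u.1 : ℝ) * ((T (y + s)).2 - (T (x + s)).2 - N2 - ((T' y).2 - (T' x).2)) -
          (u.2 : ℝ) * ((T (y + s)).1 - (T (x + s)).1 - N1 - ((T' y).1 - (T' x).1)))) +
        ((u.1 * N2 - u.2 * N1 : ℤ) : ℝ) := by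
      unfold cr
      push_cast
      simp only [Prod.fst_sub, Prod.snd_sub]
      ring
    rw [h1, dz_add_int]
    refine (dz_add_le _ _).trans (add_le_add le_rfl ?_)
    refine (dz_le_abs _).trans ?_
    have hu1 : |(u.1 : ℝ)| ≤ (nz u : ℝ) := by
      have : |u.1| ≤ nz u := le_max_left _ _
      exact_mod_cast this
    have hu2 : |(u.2 : ℝ)| ≤ (nz u : ℝ) := by
      have : |u.2| ≤ nz u := le_max_right _ _
      exact_mod_cast this
    refine (abs_sub _ _).trans ?_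
    rw [abs_mul, abs_mul]
    have h2 : |(u.1 : ℝ)| * |(T (y + s)).2 - (T (x + s)).2 - N2 - ((T' y).2 - (T' x).2)| ≤
        (nz u : ℝ) * (1 / l) := mul_le_mul hu1 hN2' (abs_nonneg _) ((abs_nonneg _).trans hu1)
    have h3 : |(u.2 : ℝ)| * |(T (y + s)).1 - (T (x + s)).1 - N1 - ((T' y).1 - (T' x).1)| ≤
        (nz u : ℝ) * (1 / l) := mul_le_mul hu2 hN1' (abs_nonneg _) ((abs_nonneg _).trans hu2)
    calc _ ≤ (nz u : ℝ) * (1 / l) + (nz u : ℝ) * (1 / l) := add_le_add h2 h3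
      _ = 2 / (l : ℝ) * nz u := by ring

end

end Pool.Agent.Lib.MP_a768d2_co
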