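import Pool.Agent.Lib.MP_a768d2_co.Defs

/-! # Step 3b: removing the coprimality condition (job Sieve) -/

namespace Pool.Agent.Lib.MP_a768d2_co

noncomputable section

/-- number of elements of an interval of length `l` in a residue class modulo `m` -/
private theorem Sieve_card_ico (a x : ℤ) (l m : ℕ) (hm : 0 < m) :
    (((Finset.Ico a (a + l)).filter (fun y => (m : ℤ) ∣ y - x)).card : ℝ) ≤ (l : ℝ) / m + 1 := by
  have hm' : (0 : ℤ) < (m : ℤ) := by exact_mod_cast hm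
  have h1 := Int.Ico_filter_modEq_card a (a + l) hm' x
  have h2 : (Finset.Ico a (a + l)).filter (fun y => (m : ℤ) ∣ y - x) =
      (Finset.Ico a (a + l)).filter (fun y => y ≡ x [ZMOD (m : ℤ)]) := by
    apply Finset.filter_congr
    intro y _
    rw [Int.modEq_iff_dvd]
    constructor
    · intro h
      have := (dvd_neg).2 h
      simpa using this
    · intro h
      have := (dvd_neg).2 h
      simpa using this
  rw [h2]
  have h3 : ((((Finset.Ico a (a + l)).filter (fun y => y ≡ x [ZMOD (m : ℤ)])).card : ℤ) : ℝ) =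
      ((max (⌈(((a + l : ℤ) : ℚ) - x) / ((m : ℤ) : ℚ)⌉ - ⌈((a : ℚ) - x) / ((m : ℤ) : ℚ)⌉) 0 : ℤ) : ℝ) := by
    rw [← h1]
  have h4 : (((Finset.Ico a (a + l)).filter (fun y => y ≡ x [ZMOD (m : ℤ)])).card : ℝ) =
      ((((Finset.Ico a (a + l)).filter (fun y => y ≡ x [ZMOD (m : ℤ)])).card : ℤ) : ℝ) := by
    push_cast
    rfl
  rw [h4, h3]
  have hq : (0 : ℚ) < (m : ℚ) := by exact_mod_cast hm
  have h5 : (⌈(((a + l : ℤ) : ℚ) - x) / ((m : ℤ) : ℚ)⌉ : ℚ) < (((a + l : ℤ) : ℚ) - x) / ((m : ℤ) : ℚ) + 1 :=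
    Int.ceil_lt_add_one _
  have h6 : ((a : ℚ) - x) / ((m : ℤ) : ℚ) ≤ (⌈((a : ℚ) - x) / ((m : ℤ) : ℚ)⌉ : ℚ) := Int.le_ceil _
  generalize ⌈(((a + l : ℤ) : ℚ) - x) / ((m : ℤ) : ℚ)⌉ = A at h5 ⊢
  generalize ⌈((a : ℚ) - x) / ((m : ℤ) : ℚ)⌉ = B at h6 ⊢
  have h7 : ((A - B : ℤ) : ℚ) ≤ (l : ℚ) / m + 1 := by
    push_cast at h5 h6 ⊢
    have h8 : ((a : ℚ) + l - x) / m = (a - x) / m + l / m := by
      rw [← add_div]
      congr 1
      ring
    rw [h8] at h5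
    linarith
  have h9 : ((A - B : ℤ) : ℝ) ≤ (l : ℝ) / m + 1 := by
    have h10 : (((A - B : ℤ) : ℚ) : ℝ) ≤ (((l : ℚ) / m + 1 : ℚ) : ℝ) := by
      exact_mod_cast h7
    push_cast at h10 ⊢
    exact h10
  rw [Int.cast_max]
  apply max_le h9
  rw [Int.cast_zero]
  positivity

private theorem Sieve_card_box (t x : ℤ × ℤ) (l m : ℕ) (hm : 0 < m) :
    (((sbox t l).filter (fun y : ℤ × ℤ => (m : ℤ) ∣ y.1 - x.1 ∧ (m : ℤ) ∣ y.2 - x.2)).card : ℝ) ≤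
      2 * (l : ℝ) ^ 2 * ((m : ℝ) ^ 2)⁻¹ + 2 := by
  have h1 : (sbox t l).filter (fun y : ℤ × ℤ => (m : ℤ) ∣ y.1 - x.1 ∧ (m : ℤ) ∣ y.2 - x.2) =
      ((Finset.Ico t.1 (t.1 + l)).filter (fun y => (m : ℤ) ∣ y - x.1)) ×ˢ
      ((Finset.Ico t.2 (t.2 + l)).filter (fun y => (m : ℤ) ∣ y - x.2)) := by
    unfold sbox
    ext y
    simp only [Finset.mem_filter, Finset.mem_product]
    tauto
  rw [h1, Finset.card_product]
  push_cast
  have h2 := Sieve_card_ico t.1 x.1 l m hm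
  have h3 := Sieve_card_ico t.2 x.2 l m hm
  have h4 : (0 : ℝ) ≤ (l : ℝ) / m + 1 := by positivity
  have h5 := mul_le_mul h2 h3 (by positivity) h4
  refine h5.trans ?_
  have h6 : ((m : ℝ) ^ 2)⁻¹ * (l : ℝ) ^ 2 = ((l : ℝ) / m) ^ 2 := by
    rw [div_pow]
    ring
  have h7 : 2 * (l : ℝ) ^ 2 * ((m : ℝ) ^ 2)⁻¹ = 2 * ((l : ℝ) / m) ^ 2 := by
    rw [← h6]
    ring
  rw [h7]
  nlinarith [sq_nonneg ((l : ℝ) / m - 1)]

open Classical in
/-- Number of pairs of two boxes of side `l` whose difference is divisible by some `m` with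
`w < m ≤ K`: for fixed `x, m` the number of `y` in the second box with `m ∣ y - x` is at most
`(l/m + 1)^2 ≤ 2 l²/m² + 2`; sum over `x` and `m`, `∑_{m>w} 1/m² ≤ 1/w`. -/
theorem card_div_le (s t : ℤ × ℤ) (l w K : ℕ) (hw : 1 ≤ w) :
    ((((sbox s l) ×ˢ (sbox t l)).filter (fun p : (ℤ × ℤ) × (ℤ × ℤ) => ∃ m : ℕ, w < m ∧ m ≤ K ∧
      (m : ℤ) ∣ p.2.1 - p.1.1 ∧ (m : ℤ) ∣ p.2.2 - p.1.2)).card : ℝ) ≤
      (l : ℝ) ^ 2 * (2 * (l : ℝ) ^ 2 / w + 2 * K) := by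
  have hsub : ((sbox s l) ×ˢ (sbox t l)).filter (fun p : (ℤ × ℤ) × (ℤ × ℤ) => ∃ m : ℕ, w < m ∧ m ≤ K ∧
      (m : ℤ) ∣ p.2.1 - p.1.1 ∧ (m : ℤ) ∣ p.2.2 - p.1.2) ⊆
      (sbox s l).biUnion (fun x => (Finset.Ioc w K).biUnion (fun m =>
        ((sbox t l).filter (fun y : ℤ × ℤ => (m : ℤ) ∣ y.1 - x.1 ∧ (m : ℤ) ∣ y.2 - x.2)).image
          (fun y => (x, y)))) := by
    intro p hp
    simp only [Finset.mem_filter, Finset.mem_product] at hp
    obtain ⟨⟨h1, h2⟩, m, h3, h4, h5, h6⟩ := hp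
    simp only [Finset.mem_biUnion, Finset.mem_image, Finset.mem_filter, Finset.mem_Ioc]
    exact ⟨p.1, h1, m, ⟨h3, h4⟩, p.2, ⟨h2, h5, h6⟩, rfl⟩
  have hcard := Finset.card_le_card hsub
  have hs : (sbox s l).card = l ^ 2 := by
    unfold sbox
    rw [Finset.card_product, Int.card_Ico, Int.card_Ico]
    simp [pow_two]
  have h1 : (((sbox s l).biUnion (fun x => (Finset.Ioc w K).biUnion (fun m =>
        ((sbox t l).filter (fun y : ℤ × ℤ => (m : ℤ) ∣ y.1 - x.1 ∧ (m : ℤ) ∣ y.2 - x.2)).image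
          (fun y => (x, y))))).card : ℝ) ≤ ∑ x ∈ sbox s l, ∑ m ∈ Finset.Ioc w K,
          (2 * (l : ℝ) ^ 2 * ((m : ℝ) ^ 2)⁻¹ + 2) := by
    have h2 : ((sbox s l).biUnion (fun x => (Finset.Ioc w K).biUnion (fun m =>
        ((sbox t l).filter (fun y : ℤ × ℤ => (m : ℤ) ∣ y.1 - x.1 ∧ (m : ℤ) ∣ y.2 - x.2)).image
          (fun y => (x, y))))).card ≤ ∑ x ∈ sbox s l, ∑ m ∈ Finset.Ioc w K,
          ((sbox t l).filter (fun y : ℤ × ℤ => (m : ℤ) ∣ y.1 - x.1 ∧ (m : ℤ) ∣ y.2 - x.2)).card := by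
      refine Finset.card_biUnion_le.trans (Finset.sum_le_sum fun x _ => ?_)
      refine Finset.card_biUnion_le.trans (Finset.sum_le_sum fun m _ => ?_)
      exact Finset.card_image_le
    have h3 : (((sbox s l).biUnion (fun x => (Finset.Ioc w K).biUnion (fun m =>
        ((sbox t l).filter (fun y : ℤ × ℤ => (m : ℤ) ∣ y.1 - x.1 ∧ (m : ℤ) ∣ y.2 - x.2)).image
          (fun y => (x, y))))).card : ℝ) ≤ ((∑ x ∈ sbox s l, ∑ m ∈ Finset.Ioc w K,
          ((sbox t l).filter (fun y : ℤ × ℤ => (m : ℤ) ∣ y.1 - x.1 ∧ (m : ℤ) ∣ y.2 - x.2)).card : ℕ) : ℝ) := by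
      exact_mod_cast h2
    refine h3.trans ?_
    rw [Nat.cast_sum]
    refine Finset.sum_le_sum fun x _ => ?_
    rw [Nat.cast_sum]
    refine Finset.sum_le_sum fun m hm => ?_
    exact Sieve_card_box t x l m (by have := (Finset.mem_Ioc.1 hm).1; omega)
  have h4 : ∑ m ∈ Finset.Ioc w K, (2 * (l : ℝ) ^ 2 * ((m : ℝ) ^ 2)⁻¹ + 2) ≤
      2 * (l : ℝ) ^ 2 / w + 2 * K := by
    rw [Finset.sum_add_distrib, ← Finset.mul_sum]
    have h5 : ∑ m ∈ Finset.Ioc w K, ((m : ℝ) ^ 2)⁻¹ ≤ (w : ℝ)⁻¹ := by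
      rcases le_total w K with hwK | hwK
      · have := sum_Ioc_inv_sq_le_sub (α := ℝ) (k := w) (n := K) (by omega) hwK
        have h6 : (0 : ℝ) ≤ (K : ℝ)⁻¹ := by positivity
        linarith
      · rw [Finset.Ioc_eq_empty (by omega)]
        simp
    have h7 : 2 * (l : ℝ) ^ 2 * ∑ m ∈ Finset.Ioc w K, ((m : ℝ) ^ 2)⁻¹ ≤ 2 * (l : ℝ) ^ 2 * (w : ℝ)⁻¹ :=
      mul_le_mul_of_nonneg_left h5 (by positivity)
    have h8 : ∑ m ∈ Finset.Ioc w K, (2 : ℝ) ≤ 2 * K := by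
      rw [Finset.sum_const, Nat.card_Ioc, nsmul_eq_mul]
      have h9 : ((K - w : ℕ) : ℝ) ≤ K := by
        exact_mod_cast Nat.sub_le K w
      linarith
    rw [div_eq_mul_inv]
    linarith
  have h10 : (((((sbox s l) ×ˢ (sbox t l)).filter (fun p : (ℤ × ℤ) × (ℤ × ℤ) => ∃ m : ℕ, w < m ∧ m ≤ K ∧
      (m : ℤ) ∣ p.2.1 - p.1.1 ∧ (m : ℤ) ∣ p.2.2 - p.1.2))).card : ℝ) ≤
      (((sbox s l).biUnion (fun x => (Finset.Ioc w K).biUnion (fun m =>
        ((sbox t l).filter (fun y : ℤ × ℤ => (m : ℤ) ∣ y.1 - x.1 ∧ (m : ℤ) ∣ y.2 - x.2)).image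
          (fun y => (x, y))))).card : ℝ) := by
    exact_mod_cast hcard
  refine h10.trans (h1.trans ?_)
  rw [Finset.sum_const, hs, nsmul_eq_mul]
  push_cast
  exact mul_le_mul_of_nonneg_left h4 (by positivity)

/-- the reduction modulo `W` -/
private def Sieve_red (W : ℕ) (x : ℤ × ℤ) : ZMod W × ZMod W := ((x.1 : ZMod W), (x.2 : ZMod W))

/-- no prime `≤ w` divides both coordinates -/
private def Sieve_good (w : ℕ) (v : ℤ × ℤ) : Prop :=
  ∀ p : ℕ, p.Prime → p ≤ w → ¬ ((p : ℤ) ∣ v.1 ∧ (p : ℤ) ∣ v.2)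

private theorem Sieve_good_congr (w : ℕ) (x y x' y' : ℤ × ℤ)
    (hx : Sieve_red (Nat.factorial w) x = Sieve_red (Nat.factorial w) x')
    (hy : Sieve_red (Nat.factorial w) y = Sieve_red (Nat.factorial w) y')
    (h : Sieve_good w (y - x)) : Sieve_good w (y' - x') := by
  intro p hp hpw hdiv
  apply h p hp hpw
  have hpW : (p : ℤ) ∣ ((Nat.factorial w : ℕ) : ℤ) := by
    exact_mod_cast (hp.dvd_factorial).2 hpw
  unfold Sieve_red at hx hy
  rw [Prod.mk.injEq] at hx hy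
  have hx1 := (ZMod.intCast_eq_intCast_iff_dvd_sub _ _ _).1 hx.1
  have hx2 := (ZMod.intCast_eq_intCast_iff_dvd_sub _ _ _).1 hx.2
  have hy1 := (ZMod.intCast_eq_intCast_iff_dvd_sub _ _ _).1 hy.1
  have hy2 := (ZMod.intCast_eq_intCast_iff_dvd_sub _ _ _).1 hy.2
  constructor
  · have h1 : (y - x).1 = (y' - x').1 - (y'.1 - y.1) + (x'.1 - x.1) := by
      simp only [Prod.fst_sub]
      ring
    rw [h1]
    exact dvd_add (dvd_sub hdiv.1 (hpW.trans hy1)) (hpW.trans hx1)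
  · have h1 : (y - x).2 = (y' - x').2 - (y'.2 - y.2) + (x'.2 - x.2) := by
      simp only [Prod.snd_sub]
      ring
    rw [h1]
    exact dvd_add (dvd_sub hdiv.2 (hpW.trans hy2)) (hpW.trans hx2)

/-- STEP 3b.  Proof: choose `w ≥ 6/δ0`, `w ≥ 1`, `W = w!`, `l0 = 2 q w + 1`.  Call a vector `v` good
if no prime `p ≤ w` divides both coordinates; this only depends on `v` mod `W`.  Coprime vectors are
good; a good vector `v = y - x ≠ 0` which is not coprime has a prime `p` dividing `gcd v`, `p > w`, and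
`p ≤ nz v ≤ q l`.  By `card_div_le` with `K = q l` there are at most
`l² (2 l²/w + 2 q l) ≤ 3 l⁴/w ≤ (δ0/2) l⁴` such pairs, so the sum of `f` over the pairs with good
difference has norm at least `(δ0/2) l⁴`.  This sum splits into the sums over the pairs
`(x mod W, y mod W) = (r, r')`, `W⁴` classes, those with `r' - r` good counted; so one of them has norm at
least `(δ0/(2 W⁴)) l⁴`; it is a full sum over `X' × Y'`, `X' = {x ∈ X : x ≡ r}`,
`Y' = {y ∈ Y : y ≡ r'}`. -/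
theorem exists_subsets (δ0 : ℝ) (hδ : 0 < δ0) (q : ℕ) : ∃ δ1 : ℝ, 0 < δ1 ∧ ∃ l0 : ℕ,
    ∀ l : ℕ, l0 ≤ l → ∀ (s t : ℤ × ℤ) (X Y : Finset (ℤ × ℤ)), X ⊆ sbox s l → Y ⊆ sbox t l →
    (∀ x ∈ X, ∀ y ∈ Y, x ≠ y ∧ nz (y - x) ≤ (q : ℤ) * l) →
    ∀ f : ℤ × ℤ → ℤ × ℤ → ℂ, (∀ x y, ‖f x y‖ ≤ 1) →
    δ0 * (l : ℝ) ^ 4 ≤ ‖∑ p ∈ cop X Y, f p.1 p.2‖ →
    ∃ X' ⊆ X, ∃ Y' ⊆ Y, δ1 * (l : ℝ) ^ 4 ≤ ‖∑ x ∈ X', ∑ y ∈ Y', f x y‖ := by
  classical
  obtain ⟨w0, hw0⟩ := exists_nat_ge (6 / δ0)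
  set w : ℕ := w0 + 1 with hwdef
  have hw1 : 1 ≤ w := by omega
  have hw6 : 6 / δ0 ≤ (w : ℝ) := by
    rw [hwdef]
    push_cast
    linarith
  have hwpos : (0 : ℝ) < w := by exact_mod_cast (by omega : 0 < w)
  set W : ℕ := Nat.factorial w with hWdef
  have hWpos : 0 < W := Nat.factorial_pos w
  have : NeZero W := ⟨hWpos.ne'⟩
  have hWR : (0 : ℝ) < (W : ℝ) := by exact_mod_cast hWpos
  refine ⟨δ0 / (2 * (W : ℝ) ^ 4), by positivity, 2 * q * w + 1, ?_⟩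
  intro l hl s t X Y hX hY hXY f hf hsum
  have hl0 : (0 : ℝ) < l := by exact_mod_cast (by omega : 0 < l)
  have hl2 : 2 * (q : ℝ) * w ≤ l := by
    have : 2 * q * w ≤ l := by omega
    exact_mod_cast this
  -- the good pairs
  set gp : Finset ((ℤ × ℤ) × (ℤ × ℤ)) := (X ×ˢ Y).filter (fun p => Sieve_good w (p.2 - p.1)) with hgp
  have hcop : cop X Y ⊆ gp := by
    intro p hp
    unfold cop at hp
    rw [Finset.mem_filter] at hp
    rw [hgp, Finset.mem_filter]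
    refine ⟨hp.1, ?_⟩
    intro r hr _ hdiv
    have h1 : (r : ℤ) ∣ ((Int.gcd (p.2.1 - p.1.1) (p.2.2 - p.1.2) : ℕ) : ℤ) :=
      Int.dvd_coe_gcd hdiv.1 hdiv.2
    rw [hp.2] at h1
    have h2 : r ∣ 1 := by exact_mod_cast h1
    exact hr.one_lt.ne' (Nat.dvd_one.1 h2)
  have hbad : gp \ cop X Y ⊆ ((sbox s l) ×ˢ (sbox t l)).filter
      (fun p : (ℤ × ℤ) × (ℤ × ℤ) => ∃ m : ℕ, w < m ∧ m ≤ q * l ∧
      (m : ℤ) ∣ p.2.1 - p.1.1 ∧ (m : ℤ) ∣ p.2.2 - p.1.2) := by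
    intro p hp
    rw [Finset.mem_sdiff, hgp, Finset.mem_filter] at hp
    obtain ⟨⟨hpXY, hgood⟩, hnc⟩ := hp
    have hpX := (Finset.mem_product.1 hpXY).1
    have hpY := (Finset.mem_product.1 hpXY).2
    have hg1 : Int.gcd (p.2.1 - p.1.1) (p.2.2 - p.1.2) ≠ 1 := by
      intro h
      apply hnc
      unfold cop
      rw [Finset.mem_filter]
      exact ⟨hpXY, h⟩
    obtain ⟨r, hr, hrd⟩ := Nat.exists_prime_and_dvd hg1
    have hrd' : (r : ℤ) ∣ ((Int.gcd (p.2.1 - p.1.1) (p.2.2 - p.1.2) : ℕ) : ℤ) := by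
      exact_mod_cast hrd
    have hd1 : (r : ℤ) ∣ p.2.1 - p.1.1 := hrd'.trans (Int.gcd_dvd_left _ _)
    have hd2 : (r : ℤ) ∣ p.2.2 - p.1.2 := hrd'.trans (Int.gcd_dvd_right _ _)
    rw [Finset.mem_filter]
    refine ⟨Finset.mem_product.2 ⟨hX hpX, hY hpY⟩, r, ?_, ?_, hd1, hd2⟩
    · by_contra hrw
      exact hgood r hr (by omega) ⟨hd1, hd2⟩
    · obtain ⟨hne, hnz⟩ := hXY p.1 hpX p.2 hpY
      unfold nz at hnz
      have hb1 : |p.2.1 - p.1.1| ≤ (q : ℤ) * l := (le_max_left _ _).trans hnz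
      have hb2 : |p.2.2 - p.1.2| ≤ (q : ℤ) * l := (le_max_right _ _).trans hnz
      by_cases h0 : p.2.1 - p.1.1 = 0
      · have h0' : p.2.2 - p.1.2 ≠ 0 := by
          intro h0'
          apply hne
          apply Prod.ext
          · omega
          · omega
        have h3 : (r : ℤ) ≤ |p.2.2 - p.1.2| :=
          Int.le_of_dvd (abs_pos.2 h0') ((dvd_abs _ _).2 hd2)
        have h4 : (r : ℤ) ≤ ((q * l : ℕ) : ℤ) := by
          push_cast
          exact h3.trans hb2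
        exact_mod_cast h4
      · have h3 : (r : ℤ) ≤ |p.2.1 - p.1.1| :=
          Int.le_of_dvd (abs_pos.2 h0) ((dvd_abs _ _).2 hd1)
        have h4 : (r : ℤ) ≤ ((q * l : ℕ) : ℤ) := by
          push_cast
          exact h3.trans hb1
        exact_mod_cast h4
  have hbadcard : ((gp \ cop X Y).card : ℝ) ≤ δ0 / 2 * (l : ℝ) ^ 4 := by
    have h1 := card_div_le s t l w (q * l) hw1
    have h2 : ((gp \ cop X Y).card : ℝ) ≤ ((((sbox s l) ×ˢ (sbox t l)).filter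
      (fun p : (ℤ × ℤ) × (ℤ × ℤ) => ∃ m : ℕ, w < m ∧ m ≤ q * l ∧
      (m : ℤ) ∣ p.2.1 - p.1.1 ∧ (m : ℤ) ∣ p.2.2 - p.1.2)).card : ℝ) := by
      exact_mod_cast Finset.card_le_card hbad
    refine h2.trans (h1.trans ?_)
    have h3 : 2 * ((q * l : ℕ) : ℝ) ≤ (l : ℝ) ^ 2 / w := by
      rw [le_div_iff₀ hwpos]
      push_cast
      nlinarith
    have h4 : 2 * (l : ℝ) ^ 2 / w + 2 * ((q * l : ℕ) : ℝ) ≤ 3 * (l : ℝ) ^ 2 / w := by
      have h5 : 3 * (l : ℝ) ^ 2 / w = 2 * (l : ℝ) ^ 2 / w + (l : ℝ) ^ 2 / w := by ring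
      rw [h5]
      linarith
    have h6 : 3 * (l : ℝ) ^ 2 / w ≤ δ0 / 2 * (l : ℝ) ^ 2 := by
      rw [div_le_iff₀ hwpos]
      have h7 : 6 ≤ (w : ℝ) * δ0 := by
        rwa [div_le_iff₀ hδ] at hw6
      nlinarith [sq_nonneg (l : ℝ)]
    have h8 : (l : ℝ) ^ 2 * (2 * (l : ℝ) ^ 2 / w + 2 * ((q * l : ℕ) : ℝ)) ≤
        (l : ℝ) ^ 2 * (δ0 / 2 * (l : ℝ) ^ 2) :=
      mul_le_mul_of_nonneg_left (h4.trans h6) (by positivity)
    refine h8.trans (le_of_eq ?_)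
    ring
  have hgood : δ0 / 2 * (l : ℝ) ^ 4 ≤ ‖∑ p ∈ gp, f p.1 p.2‖ := by
    have h1 : ∑ p ∈ gp, f p.1 p.2 = ∑ p ∈ gp \ cop X Y, f p.1 p.2 + ∑ p ∈ cop X Y, f p.1 p.2 :=
      (Finset.sum_sdiff hcop).symm
    have h2 : ‖∑ p ∈ gp \ cop X Y, f p.1 p.2‖ ≤ ((gp \ cop X Y).card : ℝ) := by
      refine (norm_sum_le _ _).trans ?_
      refine (Finset.sum_le_sum (fun p _ => hf p.1 p.2)).trans ?_
      simp
    have h3 : ‖∑ p ∈ cop X Y, f p.1 p.2‖ ≤ ‖∑ p ∈ gp, f p.1 p.2‖ + ‖∑ p ∈ gp \ cop X Y, f p.1 p.2‖ := by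
      have h4 : ∑ p ∈ cop X Y, f p.1 p.2 = ∑ p ∈ gp, f p.1 p.2 - ∑ p ∈ gp \ cop X Y, f p.1 p.2 := by
        rw [h1]
        ring
      rw [h4]
      exact norm_sub_le _ _
    nlinarith
  -- split into classes
  set F : ZMod W × ZMod W → ZMod W × ZMod W → ℂ := fun r r' =>
    ∑ x ∈ X.filter (fun x => Sieve_red W x = r), ∑ y ∈ Y.filter (fun y => Sieve_red W y = r'),
      (if Sieve_good w (y - x) then f x y else 0) with hF
  have hsplit : ∑ p ∈ gp, f p.1 p.2 = ∑ r : ZMod W × ZMod W, ∑ r' : ZMod W × ZMod W, F r r' := by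
    rw [hgp, Finset.sum_filter, Finset.sum_product]
    have h1 : ∀ x : ℤ × ℤ, ∑ y ∈ Y, (if Sieve_good w (y - x) then f x y else 0) =
        ∑ r' : ZMod W × ZMod W, ∑ y ∈ Y.filter (fun y => Sieve_red W y = r'),
          (if Sieve_good w (y - x) then f x y else 0) := by
      intro x
      exact (Finset.sum_fiberwise Y (fun y => Sieve_red W y) _).symm
    have h2 : ∑ x ∈ X, ∑ y ∈ Y, (if Sieve_good w (y - x) then f x y else 0) =
        ∑ r : ZMod W × ZMod W, ∑ x ∈ X.filter (fun x => Sieve_red W x = r),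
          ∑ y ∈ Y, (if Sieve_good w (y - x) then f x y else 0) :=
      (Finset.sum_fiberwise X (fun x => Sieve_red W x) _).symm
    rw [h2]
    refine Finset.sum_congr rfl fun r _ => ?_
    rw [hF]
    simp only
    rw [Finset.sum_congr rfl (fun x _ => h1 x)]
    rw [Finset.sum_comm]
  have hex : ∃ r r' : ZMod W × ZMod W, δ0 / (2 * (W : ℝ) ^ 4) * (l : ℝ) ^ 4 ≤ ‖F r r'‖ := by
    by_contra hno
    push Not at hno
    have hc : (Finset.univ : Finset (ZMod W × ZMod W)).card = W ^ 2 := by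
      rw [Finset.card_univ, Fintype.card_prod, ZMod.card, pow_two]
    have h1 : ‖∑ p ∈ gp, f p.1 p.2‖ < δ0 / 2 * (l : ℝ) ^ 4 := by
      rw [hsplit]
      have hne : (Finset.univ : Finset (ZMod W × ZMod W)).Nonempty := Finset.univ_nonempty
      calc ‖∑ r : ZMod W × ZMod W, ∑ r' : ZMod W × ZMod W, F r r'‖
          ≤ ∑ r : ZMod W × ZMod W, ‖∑ r' : ZMod W × ZMod W, F r r'‖ := norm_sum_le _ _
        _ ≤ ∑ r : ZMod W × ZMod W, ∑ r' : ZMod W × ZMod W, ‖F r r'‖ :=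
            Finset.sum_le_sum fun r _ => norm_sum_le _ _
        _ < ∑ r : ZMod W × ZMod W, ∑ r' : ZMod W × ZMod W, δ0 / (2 * (W : ℝ) ^ 4) * (l : ℝ) ^ 4 := by
            refine Finset.sum_lt_sum_of_nonempty hne fun r _ => ?_
            exact Finset.sum_lt_sum_of_nonempty hne fun r' _ => hno r r'
        _ = δ0 / 2 * (l : ℝ) ^ 4 := by
            rw [Finset.sum_const, Finset.sum_const, hc, nsmul_eq_mul, nsmul_eq_mul]
            push_cast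
            field_simp
    linarith
  obtain ⟨r, r', hrr⟩ := hex
  by_cases hany : ∃ x ∈ X.filter (fun x => Sieve_red W x = r), ∃ y ∈ Y.filter (fun y => Sieve_red W y = r'),
      Sieve_good w (y - x)
  · obtain ⟨x0, hx0, y0, hy0, hg0⟩ := hany
    refine ⟨X.filter (fun x => Sieve_red W x = r), Finset.filter_subset _ _,
      Y.filter (fun y => Sieve_red W y = r'), Finset.filter_subset _ _, ?_⟩
    have h1 : F r r' = ∑ x ∈ X.filter (fun x => Sieve_red W x = r),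
        ∑ y ∈ Y.filter (fun y => Sieve_red W y = r'), f x y := by
      rw [hF]
      refine Finset.sum_congr rfl fun x hx => Finset.sum_congr rfl fun y hy => ?_
      rw [if_pos]
      apply Sieve_good_congr w x0 y0 x y _ _ hg0
      · rw [← hWdef, (Finset.mem_filter.1 hx0).2, (Finset.mem_filter.1 hx).2]
      · rw [← hWdef, (Finset.mem_filter.1 hy0).2, (Finset.mem_filter.1 hy).2]
    rw [← h1]
    exact hrr
  · have h0 : F r r' = 0 := by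
      rw [hF]
      refine Finset.sum_eq_zero fun x hx => Finset.sum_eq_zero fun y hy => ?_
      rw [if_neg]
      intro hg
      exact hany ⟨x, hx, y, hy, hg⟩
    refine ⟨∅, Finset.empty_subset _, ∅, Finset.empty_subset _, ?_⟩
    rw [h0] at hrr
    simpa using hrr

end

end Pool.Agent.Lib.MP_a768d2_co
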