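import Pool.Agent.Lib.MP_a768d2_co.Gcd
import Pool.Agent.Lib.MP_a768d2_co.Far
import Pool.Agent.Lib.MP_a768d2_co.Fejer
import Pool.Agent.Lib.MP_a768d2_co.Sieve
import Pool.Agent.Lib.MP_a768d2_co.CSb
import Pool.Agent.Lib.MP_a768d2_co.Disc
import Pool.Agent.Lib.MP_a768d2_co.Bsg
import Pool.Agent.Lib.MP_a768d2_co.Fib
import Pool.Agent.Lib.MP_a768d2_co.Scale

/-! # Assembly of steps 1 - 8: the structure lemma (job LemS) -/

namespace Pool.Agent.Lib.MP_a768d2_co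

noncomputable section

open scoped Pointwise

private lemma LemS_nz_nonneg (u : ℤ × ℤ) : 0 ≤ nz u := le_max_of_le_left (abs_nonneg _)

private lemma LemS_nz_box {k : ℕ} {x y : ℤ × ℤ} (hx : x ∈ box k) (hy : y ∈ box k) :
    nz (y - x) ≤ (k : ℤ) := by
  simp only [box, Finset.mem_product, Finset.mem_Ico] at hx hy
  unfold nz
  simp only [Prod.fst_sub, Prod.snd_sub]
  refine max_le ?_ ?_ <;> rw [abs_le] <;> constructor <;> omega

private lemma LemS_gam_inj (l : ℕ) (R : ℤ × ℤ → ℝ × ℝ) : Function.Injective (gam l R) := by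
  intro x y h
  exact congrArg Prod.fst h

/-- Steps 1 - 6 combined.  There are `c' > 0`, `δ > 0`, `K ≥ 1`, `J` and, for every `l0`, a `k0` such that an
avoiding pair `(E, T)` in `box k`, `k ≥ k0`, of density `κ` gives: `l ≥ l0`, a corner `s`, `X ⊆ sbox s l`,
a function `T1` with the avoidance property on `X` (with respect to `l`, constant `c'`), `1 ≤ j ≤ J`, with
`|X| ≥ δ l²` and `|A - A| ≤ K |A|` for `A = X.image (gam l (j T1))`.
Proof: `exists_class`, `avoid_class` (with `T1 = T ∘ aff m a`), `exists_far` (gives `q`, `l`, `X0, Y0`), for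
`(x,y) ∈ cop X0 Y0` avoidance with `u = y - x`, `m = 1` gives
`dz (cr (y-x) (T1 y - T1 x)) ≥ c l²/k'² ≥ c/q²`; `exists_freq` with `c1 = c/q²` gives `1 ≤ j < J` and a large sum of
`e(j cr (y-x) (T1 y - T1 x)) = e(cr (y-x) (R y - R x))`, `R = j T1`; `exists_subsets` (distance of the points at
most `k' ≤ q l`; `x ≠ y` as `l ≥ 1`), `cs_main`, `disc`, `bsg` applied to `X'.image (gam l R)`; its subset `A'` is the
image of `X = {x ∈ X' : gam l R x ∈ A'}` (`gam` is injective).  `c' = c/q²` since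
`c (m |u|)²/k'² ≥ (c/q²) (m |u|)²/l²`. -/
theorem lemS1 (c κ : ℝ) (hc : 0 < c) (hκ : 0 < κ) : ∃ c' : ℝ, 0 < c' ∧ ∃ δ : ℝ, 0 < δ ∧
    ∃ K : ℝ, 1 ≤ K ∧ ∃ J : ℕ, ∀ l0 : ℕ, ∃ k0 : ℕ, ∀ k : ℕ, k0 ≤ k →
    ∀ (E : Finset (ℤ × ℤ)) (T : ℤ × ℤ → ℝ × ℝ), E ⊆ box k → κ * (k : ℝ) ^ 2 ≤ E.card →
    Avoid c 0 k E T →
    ∃ (l : ℕ) (s : ℤ × ℤ) (X : Finset (ℤ × ℤ)) (T1 : ℤ × ℤ → ℝ × ℝ) (j : ℕ), l0 ≤ l ∧ 1 ≤ l ∧
      1 ≤ j ∧ j ≤ J ∧ X ⊆ sbox s l ∧ δ * (l : ℝ) ^ 2 ≤ X.card ∧ Avoid c' 0 l X T1 ∧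
      X.Nonempty ∧ (((X.image (gam l (fun z => (j : ℝ) • T1 z))) -
        (X.image (gam l (fun z => (j : ℝ) • T1 z)))).card : ℝ) ≤
        K * (X.image (gam l (fun z => (j : ℝ) • T1 z))).card := by
  obtain ⟨κc, hκc, w0, k0a, hclass⟩ := exists_class κ hκ
  obtain ⟨q, hq, κd, hκd, k0b, hfar⟩ := exists_far κc hκc
  have hqR : (0 : ℝ) < q := by exact_mod_cast (show 0 < q by omega)
  obtain ⟨c1, hc1d⟩ : ∃ c1 : ℝ, c1 = c / (q : ℝ) ^ 2 := ⟨_, rfl⟩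
  have hc1 : 0 < c1 := by rw [hc1d]; positivity
  obtain ⟨J, hJ2, hJ⟩ : ∃ J : ℕ, 2 ≤ J ∧ 1 ≤ 2 * c1 ^ 2 * J := by
    obtain ⟨n, hn⟩ := exists_nat_ge (1 / (2 * c1 ^ 2))
    refine ⟨n + 2, by omega, ?_⟩
    have h1 : (0 : ℝ) < 2 * c1 ^ 2 := by positivity
    rw [div_le_iff₀ h1] at hn
    push_cast
    nlinarith
  have hJR : (0 : ℝ) < J := by exact_mod_cast (show 0 < J by omega)
  obtain ⟨δ0, hδ0d⟩ : ∃ δ0 : ℝ, δ0 = κd / (2 * J) := ⟨_, rfl⟩
  have hδ0 : 0 < δ0 := by rw [hδ0d]; positivity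
  obtain ⟨δ1, hδ1, l0a, hsub⟩ := exists_subsets δ0 hδ0 q
  obtain ⟨δ3, hδ3, C2, hC2, hcs⟩ := cs_main δ1 hδ1
  obtain ⟨δ4, hδ4, hdisc⟩ := disc δ3 C2 hδ3 hC2
  obtain ⟨δ', hδ', K, hK, hbsg⟩ := bsg δ4 hδ4
  refine ⟨c1, hc1, δ' * δ4, mul_pos hδ' hδ4, K, hK, J, fun l0 => ?_⟩
  refine ⟨max (max k0a 1) (max (w0 * k0b) (w0 * (q * (max (max l0 l0a) 1)))),
    fun k hk E T hE hcard hav => ?_⟩
  have hk1 : k0a ≤ k := le_trans (le_trans (le_max_left _ _) (le_max_left _ _)) hk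
  have hk2 : 1 ≤ k := le_trans (le_trans (le_max_right _ _) (le_max_left _ _)) hk
  have hk3 : w0 * k0b ≤ k := le_trans (le_trans (le_max_left _ _) (le_max_right _ _)) hk
  have hk4 : w0 * (q * (max (max l0 l0a) 1)) ≤ k :=
    le_trans (le_trans (le_max_right _ _) (le_max_right _ _)) hk
  obtain ⟨m, hm1, hmw, a, k', hkm, hk'k, E', hE', haff, hcop⟩ := hclass k hk1 E hE hcard
  have hw0 : 0 < w0 := by omega
  have hk'b : k0b ≤ k' := by
    have h1 : w0 * k0b ≤ w0 * k' := hk3.trans (hkm.trans (Nat.mul_le_mul_right k' hmw))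
    exact Nat.le_of_mul_le_mul_left h1 hw0
  obtain ⟨l, hkl, hlk, s, t, X0, Y0, hX0, hY0, hX0s, hY0t, hfarXY, hcop2⟩ := hfar k' hk'b E' hE' hcop
  have hL : max (max l0 l0a) 1 ≤ l := by
    have h1 : w0 * (q * (max (max l0 l0a) 1)) ≤ w0 * (q * l) :=
      hk4.trans (hkm.trans ((Nat.mul_le_mul_right k' hmw).trans (Nat.mul_le_mul_left w0 hkl)))
    exact Nat.le_of_mul_le_mul_left (Nat.le_of_mul_le_mul_left h1 hw0) (by omega)
  have hl0 : l0 ≤ l := le_trans (le_trans (le_max_left _ _) (le_max_left _ _)) hL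
  have hl0a : l0a ≤ l := le_trans (le_trans (le_max_right _ _) (le_max_left _ _)) hL
  have hl1 : 1 ≤ l := le_trans (le_max_right _ _) hL
  have hlR : (0 : ℝ) < l := by exact_mod_cast (show 0 < l by omega)
  have hk'0 : 0 < k' := by omega
  have hk'R : (0 : ℝ) < k' := by exact_mod_cast hk'0
  have hklR : (k' : ℝ) ≤ q * l := by exact_mod_cast hkl
  obtain ⟨T1, hT1⟩ : ∃ T1 : ℤ × ℤ → ℝ × ℝ, T1 = fun x => T (aff m a x) := ⟨_, rfl⟩
  have hav1 : Avoid c 0 k' E' T1 := by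
    rw [hT1]
    exact avoid_class hc.le hm1 (by omega) hkm haff hav
  -- comparison of the constants
  have hcmp : ∀ w : ℝ, c1 * w ^ 2 / (l : ℝ) ^ 2 ≤ c * w ^ 2 / (k' : ℝ) ^ 2 := by
    intro w
    rw [hc1d, div_mul_eq_mul_div, div_div]
    refine div_le_div_of_nonneg_left (by positivity) (by positivity) ?_
    rw [← mul_pow]
    exact pow_le_pow_left₀ hk'R.le hklR 2
  have hav2 : ∀ X ⊆ E', Avoid c1 0 l X T1 := by
    intro X hX x hx y hy hxy u m' hu h1 h2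
    exact (hcmp _).trans (hav1 x (hX hx) y (hX hy) hxy u m' hu h1 h2)
  -- the large exponential sum
  have hfr : ∀ p ∈ cop X0 Y0, c1 ≤ dz (cr (p.2 - p.1) (T1 p.2 - T1 p.1)) := by
    intro p hp
    obtain ⟨hp1, hp2⟩ := Finset.mem_filter.1 hp
    obtain ⟨hpx, hpy⟩ := Finset.mem_product.1 hp1
    have hne : p.1 ≠ p.2 := by
      intro h0
      rw [h0] at hp2
      simp at hp2
    have h1 := hav1 p.1 (hX0 hpx) p.2 (hY0 hpy) hne (p.2 - p.1) 1 hp2 (by simp) (by simp)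
    rw [zero_mul, add_zero] at h1
    refine le_trans ?_ h1
    have h2 : (l : ℝ) ≤ (nz (p.2 - p.1) : ℝ) := by exact_mod_cast hfarXY p.1 hpx p.2 hpy
    have h3 : c1 = c1 * (l : ℝ) ^ 2 / (l : ℝ) ^ 2 := by field_simp
    rw [h3]
    refine (hcmp _).trans ?_
    have h4 : (l : ℝ) ≤ ((1 : ℤ) : ℝ) * (nz (p.2 - p.1) : ℝ) := by
      rw [Int.cast_one, one_mul]
      exact h2
    have h5 : (l : ℝ) ^ 2 ≤ (((1 : ℤ) : ℝ) * (nz (p.2 - p.1) : ℝ)) ^ 2 := pow_le_pow_left₀ hlR.le h4 2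
    exact div_le_div_of_nonneg_right (mul_le_mul_of_nonneg_left h5 hc.le) (by positivity)
  obtain ⟨j, hj1, hjJ, hj⟩ := exists_freq (cop X0 Y0)
    (fun p => cr (p.2 - p.1) (T1 p.2 - T1 p.1)) c1 hc1 hfr J hJ2 hJ
  obtain ⟨R, hR⟩ : ∃ R : ℤ × ℤ → ℝ × ℝ, R = fun z => (j : ℝ) • T1 z := ⟨_, rfl⟩
  have hcrR : ∀ x y : ℤ × ℤ, cr (y - x) (R y - R x) = (j : ℝ) * cr (y - x) (T1 y - T1 x) := by
    intro x y
    rw [hR]
    simp only [cr, Prod.fst_sub, Prod.snd_sub, Prod.smul_fst, Prod.smul_snd, smul_eq_mul]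
    ring
  have hsum : δ0 * (l : ℝ) ^ 4 ≤ ‖∑ p ∈ cop X0 Y0, ee (cr (p.2 - p.1) (R p.2 - R p.1))‖ := by
    have h1 : ∑ p ∈ cop X0 Y0, ee (cr (p.2 - p.1) (R p.2 - R p.1)) =
        ∑ p ∈ cop X0 Y0, ee ((j : ℝ) * cr (p.2 - p.1) (T1 p.2 - T1 p.1)) :=
      Finset.sum_congr rfl fun p _ => by rw [hcrR]
    rw [h1, hδ0d, div_mul_eq_mul_div, div_le_iff₀ (by positivity)]
    calc κd * (l : ℝ) ^ 4 ≤ ((cop X0 Y0).card : ℝ) := hcop2
      _ ≤ _ := hj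
      _ = _ := by ring
  obtain ⟨X1, hX1, Y1, hY1, hXY1⟩ := hsub l hl0a s t X0 Y0 hX0s hY0t
    (by
      intro x hx y hy
      refine ⟨?_, ?_⟩
      · intro h0
        have h1 := hfarXY x hx y hy
        rw [h0, sub_self] at h1
        have h2 : nz (0 : ℤ × ℤ) = 0 := by simp [nz]
        rw [h2] at h1
        omega
      · refine (LemS_nz_box (hE' (hX0 hx)) (hE' (hY0 hy))).trans ?_
        exact_mod_cast hkl)
    (fun x y => ee (cr (y - x) (R y - R x))) (fun x y => (norm_ee _).le) hsum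
  have h3 := hcs l hl1 s t X1 Y1 (hX1.trans hX0s) (hY1.trans hY0t) R hXY1
  obtain ⟨h4, h5⟩ := hdisc l hl1 s X1 (hX1.trans hX0s) R h3
  have hcardA : (X1.image (gam l R)).card = X1.card :=
    Finset.card_image_of_injective _ (LemS_gam_inj l R)
  have hX1pos : (0 : ℝ) < X1.card := lt_of_lt_of_le (by positivity) h4
  have hX1ne : X1.Nonempty := by
    rw [← Finset.card_pos]
    exact_mod_cast hX1pos
  obtain ⟨A', hA'A, hA'ne, hA'card, hA'K⟩ := hbsg (X1.image (gam l R)) (hX1ne.image _)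
    (by rw [hcardA]; exact h5)
  have hXim : (X1.filter (fun x => gam l R x ∈ A')).image (gam l R) = A' := by
    ext g
    constructor
    · intro hg
      obtain ⟨x, hx, rfl⟩ := Finset.mem_image.1 hg
      exact (Finset.mem_filter.1 hx).2
    · intro hg
      obtain ⟨x, hx, rfl⟩ := Finset.mem_image.1 (hA'A hg)
      exact Finset.mem_image_of_mem _ (Finset.mem_filter.2 ⟨hx, hg⟩)
  have hXcard : (X1.filter (fun x => gam l R x ∈ A')).card = A'.card := by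
    rw [← Finset.card_image_of_injective (X1.filter (fun x => gam l R x ∈ A')) (LemS_gam_inj l R), hXim]
  have hXsub : X1.filter (fun x => gam l R x ∈ A') ⊆ X1 := Finset.filter_subset _ _
  refine ⟨l, s, X1.filter (fun x => gam l R x ∈ A'), T1, j, hl0, hl1, hj1, hjJ.le,
    hXsub.trans (hX1.trans hX0s), ?_, hav2 _ (hXsub.trans (hX1.trans hX0)), ?_, ?_⟩
  · rw [hXcard]
    calc δ' * δ4 * (l : ℝ) ^ 2 = δ' * (δ4 * (l : ℝ) ^ 2) := by ring
      _ ≤ δ' * ((X1.image (gam l R)).card : ℝ) := by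
          rw [hcardA]
          exact mul_le_mul_of_nonneg_left h4 hδ'.le
      _ ≤ _ := hA'card
  · rw [← Finset.card_pos, hXcard]
    exact Finset.card_pos.2 hA'ne
  · rw [← hR, hXim]
    exact hA'K

/-- STRUCTURE LEMMA (steps 7, 8 added).  Proof: `lemS1`, then `fib` (the images of the points are a graph;
`K13 = ⌈K^13⌉₊`), `exists_scale Φ' K13` where the finite set of reals is the image of `H` under `nrm` and
`Φ' η = Φ η`, and `lift_small`; `κs = δ/(4 J²)`.  The error in the avoidance property is `(2/l) nz u`, which is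
at most `Φ η · nz u` when `l ≥ 2/Φ η` for all `η ∈ V` (enlarge `l0`). -/
theorem lemS (c κ : ℝ) (hc : 0 < c) (hκ : 0 < κ) : ∃ c' : ℝ, 0 < c' ∧ ∃ κs : ℝ, 0 < κs ∧
    ∀ Φ : ℝ → ℝ, (∀ η, 0 < η → 0 < Φ η) → ∃ V : Finset ℝ, (∀ η ∈ V, 0 < η) ∧
    ∀ l0 : ℕ, ∃ k0 : ℕ, ∀ k : ℕ, k0 ≤ k →
    ∀ (E : Finset (ℤ × ℤ)) (T : ℤ × ℤ → ℝ × ℝ), E ⊆ box k → κ * (k : ℝ) ^ 2 ≤ E.card →
    Avoid c 0 k E T →
    ∃ η ∈ V, ∃ (l : ℕ) (E' : Finset (ℤ × ℤ)) (T' : ℤ × ℤ → ℝ × ℝ), l0 ≤ l ∧ E' ⊆ box l ∧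
      κs * η ^ 2 * (l : ℝ) ^ 2 ≤ E'.card ∧ SmallOn E' T' ∧ Hom6 (Φ η) E' T' ∧
      Avoid c' (Φ η) l E' T' := by
  classical
  obtain ⟨c', hc', δ, hδ, K, hK, J, hmain⟩ := lemS1 c κ hc hκ
  refine ⟨c', hc', δ / (4 * ((J : ℝ) + 1) ^ 2), by positivity, fun Φ hΦ => ?_⟩
  obtain ⟨V, hV, hscale⟩ := exists_scale Φ hΦ ⌈K ^ 13⌉₊
  refine ⟨V, fun η hη => (hV η hη).1, fun l0 => ?_⟩
  obtain ⟨k0, hk0⟩ := hmain (max l0 (V.sup (fun η => ⌈2 / Φ η⌉₊)))
  refine ⟨k0, fun k hk E T hE hcard hav => ?_⟩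
  obtain ⟨l, s, X, T1, j, hl0, hl1, hj1, hjJ, hXs, hXcard, hXav, hXne, hXK⟩ :=
    hk0 k hk E T hE hcard hav
  have hlR : (0 : ℝ) < l := by exact_mod_cast (show 0 < l by omega)
  obtain ⟨H, hHcard, hH⟩ := fib hl1 (X.image (gam l (fun z => (j : ℝ) • T1 z))) (hXne.image _)
    (by
      intro a ha b hb hab
      obtain ⟨x, -, rfl⟩ := Finset.mem_image.1 ha
      obtain ⟨y, -, rfl⟩ := Finset.mem_image.1 hb
      have h1 : x = y := hab
      rw [h1]) K hXK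
  obtain ⟨η, hη, hgap⟩ := hscale (H.image nrm) (by
    refine Finset.card_image_le.trans ?_
    have h1 : (H.card : ℝ) ≤ (⌈K ^ 13⌉₊ : ℝ) := hHcard.trans (Nat.le_ceil _)
    exact_mod_cast h1)
  obtain ⟨hη0, hη1⟩ := hV η hη
  have hΦη := hΦ η hη0
  obtain ⟨E', T', hE', hE'X, hE'card, hsmall, hhom, hdz⟩ := lift_small hl1 s X hXs T1 j hj1 H
    (by
      intro x y hx hy hxy
      refine hH (fun i => gam l (fun z => (j : ℝ) • T1 z) (x i))
        (fun i => gam l (fun z => (j : ℝ) • T1 z) (y i)) _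
        (fun i => Finset.mem_image_of_mem _ (hx i)) (fun i => Finset.mem_image_of_mem _ (hy i)) ?_
      refine Prod.ext ?_ ?_
      · rw [Prod.fst_sub, Prod.fst_sum, Prod.fst_sum]
        exact sub_eq_zero.2 hxy
      · rw [Prod.snd_sub, Prod.snd_sum, Prod.snd_sum]
        rfl)
    η (Φ η) hη0 hη1 hΦη (fun h hh => hgap _ (Finset.mem_image_of_mem _ hh))
  refine ⟨η, hη, l, E', T', le_trans (le_max_left _ _) hl0, hE', ?_, hsmall, hhom, ?_⟩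
  · have hj0 : (0 : ℝ) < j := by exact_mod_cast (show 0 < j by omega)
    have hjJ' : (j : ℝ) ≤ (J : ℝ) + 1 := by
      have : (j : ℝ) ≤ J := by exact_mod_cast hjJ
      linarith
    refine le_trans ?_ hE'card
    calc δ / (4 * ((J : ℝ) + 1) ^ 2) * η ^ 2 * (l : ℝ) ^ 2
        = η ^ 2 / (4 * ((J : ℝ) + 1) ^ 2) * (δ * (l : ℝ) ^ 2) := by ring
      _ ≤ η ^ 2 / (4 * (j : ℝ) ^ 2) * (δ * (l : ℝ) ^ 2) := by
          refine mul_le_mul_of_nonneg_right ?_ (by positivity)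
          refine div_le_div_of_nonneg_left (by positivity) (by positivity) ?_
          exact mul_le_mul_of_nonneg_left (pow_le_pow_left₀ hj0.le hjJ' 2) (by norm_num)
      _ ≤ _ := mul_le_mul_of_nonneg_left hXcard (by positivity)
  · intro x hx y hy hxy u m' hu h1 h2
    have h3 := hXav (x + s) (hE'X x hx) (y + s) (hE'X y hy) (fun h => hxy (add_right_cancel h)) u m' hu
      (by rw [Prod.fst_add, Prod.fst_add]; linarith) (by rw [Prod.snd_add, Prod.snd_add]; linarith)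
    rw [zero_mul, add_zero] at h3
    refine h3.trans ((hdz x hx y hy u).trans ?_)
    have h4 : 2 / (l : ℝ) ≤ Φ η := by
      have h5 : ⌈2 / Φ η⌉₊ ≤ l :=
        le_trans (le_trans (Finset.le_sup (f := fun η => ⌈2 / Φ η⌉₊) hη) (le_max_right _ _)) hl0
      have h6 : 2 / Φ η ≤ l := (Nat.le_ceil _).trans (by exact_mod_cast h5)
      rw [div_le_iff₀ hΦη] at h6
      rw [div_le_iff₀ hlR]
      linarith
    have h5 : (0 : ℝ) ≤ nz u := by exact_mod_cast LemS_nz_nonneg u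
    have h6 := mul_le_mul_of_nonneg_right h4 h5
    linarith

end

end Pool.Agent.Lib.MP_a768d2_co
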