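import Pool.Agent.Lib.MP_a768d2_co.Defs

/-! # Patches with more than half of the sites: selection of a row -/

namespace Pool.Agent.Lib.MP_a768d2_co

noncomputable section

/-- the box `[-U, U]^2` -/
def cbox (U : ℕ) : Finset (ℤ × ℤ) := Finset.Icc (-(U : ℤ)) U ×ˢ Finset.Icc (-(U : ℤ)) U

theorem mem_cbox {U : ℕ} {z : ℤ × ℤ} : z ∈ cbox U ↔ |z.1| ≤ U ∧ |z.2| ≤ U := by
  simp only [cbox, Finset.mem_product, Finset.mem_Icc, abs_le]

theorem card_cbox (U : ℕ) : (cbox U).card = (2 * U + 1) ^ 2 := by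
  rw [cbox, Finset.card_product, Int.card_Icc, pow_two]
  have : ((U : ℤ) + 1 - -(U : ℤ)).toNat = 2 * U + 1 := by omega
  rw [this]

/-- two more than half full patches: some translate `z + g` is in the second one and a positive proportion of the
sites `z + τ u`, `τ < M`, is in the first one -/
theorem exists_row {U M k G : ℕ} {θ : ℝ} (hM : 0 < M) (hθ : 0 < θ) (hθ1 : θ ≤ 1 / 2)
    (hU : 4 * ((M * k + G : ℕ) : ℝ) ≤ θ * (2 * U + 1)) {Q Q' : Finset (ℤ × ℤ)} (hQ : Q ⊆ cbox U) (hQ' : Q' ⊆ cbox U)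
    (hQc : (1 / 2 + θ) * (2 * U + 1) ^ 2 ≤ (Q.card : ℝ)) (hQ'c : (1 / 2 + θ) * (2 * U + 1) ^ 2 ≤ (Q'.card : ℝ))
    {u g : ℤ × ℤ} (hu1 : |u.1| ≤ k) (hu2 : |u.2| ≤ k) (hg1 : |g.1| ≤ G) (hg2 : |g.2| ≤ G) :
    ∃ z : ℤ × ℤ, z + g ∈ Q' ∧
      θ * M ≤ (((Finset.range M).filter fun τ : ℕ => z + ((τ : ℤ) * u.1, (τ : ℤ) * u.2) ∈ Q).card : ℝ) := by
  classical
  set V : ℕ := U - (M * k + G) with hV
  have hle : M * k + G ≤ U := by
    have h1 : 4 * ((M * k + G : ℕ) : ℝ) ≤ 1 / 2 * (2 * U + 1) := by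
      refine hU.trans ?_
      have : (0 : ℝ) ≤ 2 * U + 1 := by positivity
      exact mul_le_mul_of_nonneg_right hθ1 this
    have h2 : (4 * ((M * k + G : ℕ) : ℝ)) < U + 1 := by
      have : (0 : ℝ) ≤ U := Nat.cast_nonneg U
      linarith
    have h3 : 4 * (M * k + G) < U + 1 := by exact_mod_cast h2
    omega
  have hVU : V + (M * k + G) = U := by omega
  set B : Finset (ℤ × ℤ) := cbox V with hB
  have hBc : B.card = (2 * V + 1) ^ 2 := card_cbox V
  -- sites of `B` and their translates are in the box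
  have hin : ∀ z ∈ B, ∀ w : ℤ × ℤ, |w.1| ≤ ((M * k + G : ℕ) : ℤ) → |w.2| ≤ ((M * k + G : ℕ) : ℤ) →
      z + w ∈ cbox U := by
    intro z hz w h1 h2
    rw [hB, mem_cbox] at hz
    rw [mem_cbox]
    have hVU' : (V : ℤ) + ((M * k + G : ℕ) : ℤ) = U := by exact_mod_cast hVU
    constructor
    · have := abs_add_le z.1 w.1
      rw [Prod.fst_add]
      linarith [hz.1]
    · have := abs_add_le z.2 w.2
      rw [Prod.snd_add]
      linarith [hz.2]
  have hmiss : ∀ (R : Finset (ℤ × ℤ)), R ⊆ cbox U → (1 / 2 + θ) * (2 * U + 1) ^ 2 ≤ (R.card : ℝ) →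
      ∀ w : ℤ × ℤ, |w.1| ≤ ((M * k + G : ℕ) : ℤ) → |w.2| ≤ ((M * k + G : ℕ) : ℤ) →
        ((B.filter fun z => z + w ∉ R).card : ℝ) ≤ (1 / 2 - θ) * (2 * U + 1) ^ 2 := by
    intro R hR hRc w h1 h2
    have h3 : (B.filter fun z => z + w ∉ R).card ≤ (cbox U \ R).card := by
      apply Finset.card_le_card_of_injOn (fun z => z + w)
      · intro z hz
        rw [Finset.mem_coe, Finset.mem_filter] at hz
        rw [Finset.mem_coe, Finset.mem_sdiff]
        exact ⟨hin z hz.1 w h1 h2, hz.2⟩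
      · intro z _ z' _ h
        exact add_right_cancel h
    have h4 : ((cbox U \ R).card : ℝ) = (2 * U + 1) ^ 2 - R.card := by
      rw [Finset.card_sdiff_of_subset hR, Nat.cast_sub (Finset.card_le_card hR), card_cbox]
      push_cast
      ring
    have h5 : ((B.filter fun z => z + w ∉ R).card : ℝ) ≤ ((cbox U \ R).card : ℝ) := by exact_mod_cast h3
    linarith
  by_contra hcon
  push Not at hcon
  -- double counting
  set cnt : ℤ × ℤ → ℕ := fun z =>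
    ((Finset.range M).filter fun τ : ℕ => z + ((τ : ℤ) * u.1, (τ : ℤ) * u.2) ∈ Q).card with hcnt
  have hcntM : ∀ z, cnt z ≤ M := fun z => by
    rw [hcnt]
    exact (Finset.card_filter_le _ _).trans (by rw [Finset.card_range])
  have hw : ∀ τ ∈ Finset.range M, |((τ : ℤ) * u.1)| ≤ ((M * k + G : ℕ) : ℤ) ∧
      |((τ : ℤ) * u.2)| ≤ ((M * k + G : ℕ) : ℤ) := by
    intro τ hτ
    rw [Finset.mem_range] at hτ
    have h1 : (τ : ℤ) ≤ M := by exact_mod_cast hτ.le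
    have h2 : (0 : ℤ) ≤ τ := Nat.cast_nonneg τ
    have h3 : (0 : ℤ) ≤ G := Nat.cast_nonneg G
    rw [abs_mul, abs_mul, abs_of_nonneg h2]
    push_cast
    constructor
    · have := mul_le_mul h1 hu1 (abs_nonneg _) (Nat.cast_nonneg M)
      linarith
    · have := mul_le_mul h1 hu2 (abs_nonneg _) (Nat.cast_nonneg M)
      linarith
  have hlow : (M : ℝ) * (B.card - (1 / 2 - θ) * (2 * U + 1) ^ 2) ≤ ∑ z ∈ B, (cnt z : ℝ) := by
    have h1 : ∑ z ∈ B, cnt z = ∑ τ ∈ Finset.range M,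
        (B.filter fun z => z + ((τ : ℤ) * u.1, (τ : ℤ) * u.2) ∈ Q).card := by
      simp only [hcnt, Finset.card_filter]
      rw [Finset.sum_comm]
    have h2 : ∑ z ∈ B, (cnt z : ℝ) = ∑ τ ∈ Finset.range M,
        ((B.filter fun z => z + ((τ : ℤ) * u.1, (τ : ℤ) * u.2) ∈ Q).card : ℝ) := by exact_mod_cast h1
    rw [h2]
    have h3 : ∀ τ ∈ Finset.range M, ((B.card : ℝ) - (1 / 2 - θ) * (2 * U + 1) ^ 2) ≤
        ((B.filter fun z => z + ((τ : ℤ) * u.1, (τ : ℤ) * u.2) ∈ Q).card : ℝ) := by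
      intro τ hτ
      have h4 := hmiss Q hQ hQc ((τ : ℤ) * u.1, (τ : ℤ) * u.2) (hw τ hτ).1 (hw τ hτ).2
      have h5 := Finset.card_filter_add_card_filter_not (s := B)
        (fun z => z + ((τ : ℤ) * u.1, (τ : ℤ) * u.2) ∈ Q)
      have h6 : ((B.filter fun z => z + ((τ : ℤ) * u.1, (τ : ℤ) * u.2) ∈ Q).card : ℝ) +
        ((B.filter fun z => z + ((τ : ℤ) * u.1, (τ : ℤ) * u.2) ∉ Q).card : ℝ) = B.card := by exact_mod_cast h5
      linarith
    have h4 := Finset.card_nsmul_le_sum (Finset.range M) _ _ h3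
    rw [Finset.card_range, nsmul_eq_mul] at h4
    exact h4
  have hup : ∑ z ∈ B, (cnt z : ℝ) ≤ θ * M * B.card + M * ((1 / 2 - θ) * (2 * U + 1) ^ 2) := by
    have h1 : ∀ z ∈ B, (cnt z : ℝ) ≤ θ * M + (if z + g ∉ Q' then (M : ℝ) else 0) := by
      intro z _
      by_cases hz : z + g ∈ Q'
      · have := hcon z hz
        rw [if_neg (not_not.2 hz)]
        simp only [hcnt]
        linarith
      · rw [if_pos hz]
        have h2 : (cnt z : ℝ) ≤ M := by exact_mod_cast hcntM z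
        have h3 : 0 ≤ θ * M := by positivity
        linarith
    refine (Finset.sum_le_sum h1).trans ?_
    rw [Finset.sum_add_distrib, Finset.sum_const, nsmul_eq_mul, ← Finset.sum_filter, Finset.sum_const, nsmul_eq_mul]
    have h2 := hmiss Q' hQ' hQ'c g (by
      have h3 : (0 : ℤ) ≤ ((M * k : ℕ) : ℤ) := Nat.cast_nonneg _
      push_cast at h3 ⊢
      linarith) (by
      have h3 : (0 : ℤ) ≤ ((M * k : ℕ) : ℤ) := Nat.cast_nonneg _
      push_cast at h3 ⊢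
      linarith)
    have hM0 : (0 : ℝ) ≤ M := Nat.cast_nonneg M
    have h3 := mul_le_mul_of_nonneg_right h2 hM0
    linarith
  have hM0 : (0 : ℝ) < M := by exact_mod_cast hM
  have h7 : (M : ℝ) * (B.card - (1 / 2 - θ) * (2 * U + 1) ^ 2) ≤
      M * (θ * B.card + (1 / 2 - θ) * (2 * U + 1) ^ 2) := by
    refine hlow.trans (hup.trans (le_of_eq ?_))
    ring
  have h8 := le_of_mul_le_mul_left h7 hM0
  have hBr : (B.card : ℝ) = (2 * V + 1) ^ 2 := by
    rw [hBc]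
    push_cast
    ring
  rw [hBr] at h8
  have hVr : (V : ℝ) + ((M * k + G : ℕ) : ℝ) = U := by exact_mod_cast hVU
  have hU1 : (1 : ℝ) ≤ 2 * U + 1 := by
    have : (0 : ℝ) ≤ U := Nat.cast_nonneg U
    linarith
  -- `2 V + 1 ≥ (1 - θ / 2) (2 U + 1)`
  have h9 : (1 - θ / 2) * (2 * U + 1) ≤ 2 * (V : ℝ) + 1 := by
    have : 2 * (V : ℝ) + 1 = (2 * U + 1) - 2 * ((M * k + G : ℕ) : ℝ) := by linarith
    rw [this]
    linarith
  have h10 : (1 - θ) * (2 * U + 1) ^ 2 ≤ (2 * (V : ℝ) + 1) ^ 2 := by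
    have h11 : 0 ≤ (1 - θ / 2) * (2 * U + 1) := by
      apply mul_nonneg
      · linarith
      · linarith
    have h12 : ((1 - θ / 2) * (2 * (U : ℝ) + 1)) ^ 2 ≤ (2 * (V : ℝ) + 1) ^ 2 := pow_le_pow_left₀ h11 h9 2
    refine le_trans ?_ h12
    rw [mul_pow]
    apply mul_le_mul_of_nonneg_right _ (by positivity)
    nlinarith [sq_nonneg θ]
  have h13 : (1 - θ) * ((1 - θ) * (2 * U + 1) ^ 2) ≤ (1 - 2 * θ) * (2 * U + 1) ^ 2 := by
    have h14 : (1 - θ) * ((1 - θ) * (2 * (U : ℝ) + 1) ^ 2) ≤ (1 - θ) * (2 * (V : ℝ) + 1) ^ 2 :=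
      mul_le_mul_of_nonneg_left h10 (by linarith)
    linarith
  have h15 : 0 < θ ^ 2 * (2 * (U : ℝ) + 1) ^ 2 := by positivity
  nlinarith

end

end Pool.Agent.Lib.MP_a768d2_co
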