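import Pool.Agent.Lib.MP_a768d2_co.GeoB
import Pool.Agent.Lib.MP_a768d2_co.PhalfA

/-! # Patches with more than half of the sites: a row with bounded errors seen from a far point -/

namespace Pool.Agent.Lib.MP_a768d2_co

noncomputable section

theorem PhalfB_det2_le (z w : ℂ) : |det2 z w| ≤ ‖z‖ * ‖w‖ := by
  have h : det2 z w = ((starRingEnd ℂ) z * w).im := by
    simp [det2]; ring
  rw [h]
  refine (Complex.abs_im_le_norm _).trans ?_
  rw [norm_mul, Complex.norm_conj]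

/-- pigeonhole -/
theorem exists_close {F : Finset ℕ} {f : ℕ → ℝ} {R : ℝ} (hF : 4 ≤ F.card) (hf : ∀ τ ∈ F, |f τ| ≤ R) :
    ∃ τ ∈ F, ∃ τ' ∈ F, τ ≠ τ' ∧ |f τ - f τ'| ≤ 4 * R / F.card := by
  classical
  obtain ⟨N, hN⟩ : ∃ N : ℕ, F.card = N + 2 := ⟨F.card - 2, by omega⟩
  have hN2 : 2 ≤ N := by omega
  have hNr : (2 : ℝ) ≤ N := by exact_mod_cast hN2
  obtain ⟨τ0, hτ0⟩ := Finset.card_pos.1 (show 0 < F.card by omega)
  have hR0 : 0 ≤ R := (abs_nonneg _).trans (hf τ0 hτ0)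
  rcases hR0.eq_or_lt with hR | hR
  · obtain ⟨τ1, hτ1, τ2, hτ2, hne⟩ := Finset.one_lt_card.1 (show 1 < F.card by omega)
    refine ⟨τ1, hτ1, τ2, hτ2, hne, ?_⟩
    have h1 := abs_nonpos_iff.1 ((hf τ1 hτ1).trans hR.symm.le)
    have h2 := abs_nonpos_iff.1 ((hf τ2 hτ2).trans hR.symm.le)
    rw [h1, h2, ← hR]
    simp
  · set w : ℝ := 2 * R / N with hw
    have hw0 : 0 < w := by positivity
    obtain ⟨τ, hτ, τ', hτ', hne, heq⟩ := Finset.exists_ne_map_eq_of_card_lt_of_maps_to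
      (s := F) (t := Finset.range (N + 1)) (f := fun τ => ⌊(f τ + R) / w⌋₊)
      (by rw [Finset.card_range]; omega) (by
        intro τ hτ
        rw [Finset.mem_coe] at hτ
        rw [Finset.mem_coe, Finset.mem_range, Nat.lt_succ_iff]
        apply Nat.floor_le_of_le
        rw [div_le_iff₀ hw0, hw]
        have h1 := (abs_le.1 (hf τ hτ)).2
        have h2 : (N : ℝ) * (2 * R / N) = 2 * R := by field_simp
        rw [h2]
        linarith)
    refine ⟨τ, hτ, τ', hτ', hne, ?_⟩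
    have a0 : 0 ≤ (f τ + R) / w := div_nonneg (by linarith [(abs_le.1 (hf τ hτ)).1]) hw0.le
    have a1 : 0 ≤ (f τ' + R) / w := div_nonneg (by linarith [(abs_le.1 (hf τ' hτ')).1]) hw0.le
    have b1 := Nat.floor_le a0
    have b2 := Nat.lt_floor_add_one ((f τ + R) / w)
    have b3 := Nat.floor_le a1
    have b4 := Nat.lt_floor_add_one ((f τ' + R) / w)
    have heq' : ⌊(f τ + R) / w⌋₊ = ⌊(f τ' + R) / w⌋₊ := heq
    rw [heq'] at b1 b2
    have h1 : |(f τ + R) / w - (f τ' + R) / w| ≤ 1 := by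
      rw [abs_le]
      constructor <;> linarith
    have h2 : f τ - f τ' = w * ((f τ + R) / w - (f τ' + R) / w) := by
      field_simp
      ring
    rw [h2, abs_mul, abs_of_pos hw0]
    have h3 : w * |(f τ + R) / w - (f τ' + R) / w| ≤ w * 1 := mul_le_mul_of_nonneg_left h1 hw0.le
    refine h3.trans ?_
    rw [mul_one, hw, hN]
    push_cast
    rw [div_le_div_iff₀ (by linarith) (by linarith)]
    nlinarith

/-- a row of points `X τ = τ • Y + e τ` seen from the far point `W` -/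
theorem row_angle {F : Finset ℕ} {M : ℕ} {θ c C w δ y n : ℝ} (hθ : 0 < θ) (hc : 0 < c) (hC : 1 ≤ C)
    (hn : 1 ≤ n) (hFM : ∀ τ ∈ F, τ ≤ M) (hF : θ * M ≤ F.card) (hM4 : 4 ≤ θ * M)
    {W Y : ℂ} {e : ℕ → ℂ} (he : ∀ τ ∈ F, ‖e τ‖ ≤ C / n) (hw : 0 < w) (hWw : w ≤ ‖W‖) (hY : ‖Y‖ ≤ y)
    (hYW : |det2 W Y| ≤ δ)
    (h1 : 4 / θ * δ ≤ c * ‖W‖ ^ 2 / (32 * n)) (h2 : 128 * C ≤ θ * M * (c * w))
    (h3 : 2 * M * y * C + C ^ 2 / n ≤ c * w ^ 2 / 32)
    (h4 : M * y + 2 * C / n ≤ w / 4) (h5 : 2 * C / n < ‖Y‖) :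
    ∃ τ ∈ F, ∃ τ' ∈ F, (τ : ℂ) * Y + e τ ≠ (τ' : ℂ) * Y + e τ' ∧ (τ : ℂ) * Y + e τ - W ≠ 0 ∧
      (τ' : ℂ) * Y + e τ' - W ≠ 0 ∧
      InnerProductGeometry.angle ((τ : ℂ) * Y + e τ - W) ((τ' : ℂ) * Y + e τ' - W) < c / n := by
  have hn0 : 0 < n := by linarith
  have hM0 : (0 : ℝ) ≤ M := Nat.cast_nonneg M
  have hMpos : (0 : ℝ) < M := by
    rcases hM0.eq_or_lt with h | h
    · rw [← h] at hM4
      linarith
    · exact h
  have hFc : (4 : ℝ) ≤ F.card := hM4.trans hF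
  have hF4 : 4 ≤ F.card := by exact_mod_cast hFc
  have hF0 : (0 : ℝ) < F.card := by linarith
  have hy0 : 0 ≤ y := (norm_nonneg _).trans hY
  have hδ0 : 0 ≤ δ := (abs_nonneg _).trans hYW
  set X : ℕ → ℂ := fun τ => (τ : ℂ) * Y + e τ with hX
  have hXn : ∀ τ ∈ F, ‖X τ‖ ≤ M * y + C / n := by
    intro τ hτ
    refine (norm_add_le _ _).trans (add_le_add ?_ (he τ hτ))
    rw [norm_mul, Complex.norm_natCast]
    exact mul_le_mul (by exact_mod_cast hFM τ hτ) hY (norm_nonneg _) hM0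
  have hf : ∀ τ ∈ F, |det2 W (X τ)| ≤ M * δ + ‖W‖ * (C / n) := by
    intro τ hτ
    have h6 : det2 W (X τ) = τ * det2 W Y + det2 W (e τ) := by
      simp only [hX, det2, Complex.add_re, Complex.add_im, Complex.mul_re, Complex.mul_im, Complex.natCast_re,
        Complex.natCast_im]
      ring
    rw [h6]
    refine (abs_add_le _ _).trans (add_le_add ?_ ?_)
    · rw [abs_mul, Nat.abs_cast]
      exact mul_le_mul (by exact_mod_cast hFM τ hτ) hYW (abs_nonneg _) hM0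
    · exact (PhalfB_det2_le _ _).trans (mul_le_mul_of_nonneg_left (he τ hτ) (norm_nonneg _))
  obtain ⟨τ, hτ, τ', hτ', hne, hclose⟩ := exists_close (f := fun τ => det2 W (X τ)) hF4 hf
  refine ⟨τ, hτ, τ', hτ', ?_, ?_⟩
  · intro heq
    have h6 : ((τ : ℂ) - τ') * Y = e τ' - e τ := by linear_combination heq
    have h7 : ‖((τ : ℂ) - τ') * Y‖ ≤ 2 * C / n := by
      rw [h6]
      refine (norm_sub_le _ _).trans ?_
      have := he τ hτ
      have := he τ' hτ'
      have h8 : 2 * C / n = C / n + C / n := by ring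
      linarith
    rw [norm_mul] at h7
    have h8 : (1 : ℝ) ≤ ‖((τ : ℂ) - τ')‖ := by
      have h9 : ((τ : ℂ) - τ') = (((τ : ℤ) - (τ' : ℤ) : ℤ) : ℂ) := by push_cast; ring
      rw [h9, Complex.norm_intCast]
      have h10 : (τ : ℤ) - τ' ≠ 0 := by
        intro h
        apply hne
        omega
      exact_mod_cast Int.one_le_abs h10
    have h9 : 1 * ‖Y‖ ≤ ‖((τ : ℂ) - τ')‖ * ‖Y‖ := mul_le_mul_of_nonneg_right h8 (norm_nonneg _)
    linarith
  have hCn : 0 < C / n := by positivity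
  have hV : ∀ τ ∈ F, ‖W‖ * (3 / 4) ≤ ‖X τ - W‖ := by
    intro τ hτ
    have h6 : ‖W‖ ≤ ‖X τ‖ + ‖X τ - W‖ := by
      have : W = X τ - (X τ - W) := by ring
      conv_lhs => rw [this]
      exact norm_sub_le _ _
    have h7 := hXn τ hτ
    have h8 : 2 * C / n = 2 * (C / n) := by ring
    rw [h8] at h4
    linarith
  have hWpos : 0 < ‖W‖ := by linarith
  have hV1 := hV τ hτ
  have hV2 := hV τ' hτ'
  have hVp1 : 0 < ‖X τ - W‖ := by linarith [mul_pos hWpos (show (0 : ℝ) < 3 / 4 by norm_num)]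
  have hVp2 : 0 < ‖X τ' - W‖ := by linarith [mul_pos hWpos (show (0 : ℝ) < 3 / 4 by norm_num)]
  refine ⟨norm_pos_iff.1 hVp1, norm_pos_iff.1 hVp2, ?_⟩
  have hdiff : ‖X τ' - W - (X τ - W)‖ < ‖X τ - W‖ := by
    have h6 : X τ' - W - (X τ - W) = X τ' - X τ := by ring
    rw [h6]
    have h7 := norm_sub_le (X τ') (X τ)
    have h8 := hXn τ hτ
    have h9 := hXn τ' hτ'
    have h10 : 2 * C / n = 2 * (C / n) := by ring
    rw [h10] at h4
    have h11 : M * y + C / n ≤ w / 4 := by linarith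
    linarith
  refine lt_of_le_of_lt (angle_le hdiff (norm_pos_iff.1 hVp2)) ?_
  -- the determinant
  have hdet : det2 (X τ - W) (X τ' - W) = det2 (X τ) (X τ') + (det2 W (X τ) - det2 W (X τ')) := by
    simp only [det2, Complex.sub_re, Complex.sub_im]
    ring
  have hdet1 : |det2 (X τ) (X τ')| ≤ 2 * M * y * (C / n) + (C / n) ^ 2 := by
    have h6 : det2 (X τ) (X τ') = τ * det2 Y (e τ') + (τ' * det2 (e τ) Y + det2 (e τ) (e τ')) := by
      simp only [hX, det2, Complex.add_re, Complex.add_im, Complex.mul_re, Complex.mul_im, Complex.natCast_re,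
        Complex.natCast_im]
      ring
    have a1 : |(τ : ℝ) * det2 Y (e τ')| ≤ M * (y * (C / n)) := by
      rw [abs_mul, Nat.abs_cast]
      exact mul_le_mul (by exact_mod_cast hFM τ hτ) ((PhalfB_det2_le _ _).trans
        (mul_le_mul hY (he τ' hτ') (norm_nonneg _) hy0)) (abs_nonneg _) hM0
    have a2 : |(τ' : ℝ) * det2 (e τ) Y| ≤ M * ((C / n) * y) := by
      rw [abs_mul, Nat.abs_cast]
      exact mul_le_mul (by exact_mod_cast hFM τ' hτ') ((PhalfB_det2_le _ _).trans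
        (mul_le_mul (he τ hτ) hY (norm_nonneg _) hCn.le)) (abs_nonneg _) hM0
    have a3 : |det2 (e τ) (e τ')| ≤ (C / n) * (C / n) :=
      (PhalfB_det2_le _ _).trans (mul_le_mul (he τ hτ) (he τ' hτ') (norm_nonneg _) hCn.le)
    rw [h6]
    refine (abs_add_le _ _).trans ?_
    have := abs_add_le ((τ' : ℝ) * det2 (e τ) Y) (det2 (e τ) (e τ'))
    nlinarith
  have hdet2 : |det2 W (X τ) - det2 W (X τ')| ≤ 4 * δ / θ + 4 * ‖W‖ * (C / n) / (θ * M) := by
    refine hclose.trans ?_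
    have h6 : 4 * (M * δ + ‖W‖ * (C / n)) / F.card ≤ 4 * (M * δ + ‖W‖ * (C / n)) / (θ * M) := by
      apply div_le_div_of_nonneg_left _ (by positivity) hF
      positivity
    refine h6.trans (le_of_eq ?_)
    field_simp
  have hW2 : w * w ≤ ‖W‖ * ‖W‖ := mul_self_le_mul_self hw.le hWw
  have hb1 : 4 * δ / θ ≤ c * ‖W‖ ^ 2 / (32 * n) := by
    have : 4 * δ / θ = 4 / θ * δ := by ring
    rw [this]
    exact h1
  have hb2 : 4 * ‖W‖ * (C / n) / (θ * M) ≤ c * ‖W‖ ^ 2 / (32 * n) := by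
    have h6 : 4 * ‖W‖ * (C / n) / (θ * M) = (4 * C * ‖W‖) / (θ * M * n) := by
      field_simp
    rw [h6, div_le_div_iff₀ (by positivity) (by positivity)]
    have h7 : 128 * C ≤ θ * M * (c * ‖W‖) := h2.trans
      (mul_le_mul_of_nonneg_left (mul_le_mul_of_nonneg_left hWw hc.le) (by positivity))
    have h8 := mul_le_mul_of_nonneg_right h7 (show 0 ≤ ‖W‖ * n by positivity)
    nlinarith
  have hb3 : 2 * M * y * (C / n) + (C / n) ^ 2 ≤ c * ‖W‖ ^ 2 / (32 * n) := by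
    have h6 : 2 * M * y * (C / n) + (C / n) ^ 2 = (2 * M * y * C + C ^ 2 / n) / n := by
      field_simp
    have h7 : c * ‖W‖ ^ 2 / (32 * n) = (c * ‖W‖ ^ 2 / 32) / n := by
      field_simp
    rw [h6, h7]
    apply div_le_div_of_nonneg_right _ hn0.le
    refine h3.trans ?_
    have h8 : c * w ^ 2 ≤ c * ‖W‖ ^ 2 := mul_le_mul_of_nonneg_left (by nlinarith) hc.le
    linarith
  have hD : |det2 (X τ - W) (X τ' - W)| ≤ 3 * (c * ‖W‖ ^ 2 / (32 * n)) := by
    rw [hdet]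
    refine (abs_add_le _ _).trans ?_
    linarith
  have hVV : ‖W‖ ^ 2 * (9 / 16) ≤ ‖X τ - W‖ * ‖X τ' - W‖ := by
    have := mul_le_mul hV1 hV2 (by positivity) (norm_nonneg _)
    nlinarith
  have hpi := Real.pi_lt_d2
  have hpi0 := Real.pi_pos
  have hVVp : 0 < ‖X τ - W‖ * ‖X τ' - W‖ := mul_pos hVp1 hVp2
  have hq : |det2 (X τ - W) (X τ' - W)| / (‖X τ - W‖ * ‖X τ' - W‖) ≤ c / (6 * n) := by
    rw [div_le_iff₀ hVVp]
    refine hD.trans ?_
    have h6 : c / (6 * n) * (‖W‖ ^ 2 * (9 / 16)) ≤ c / (6 * n) * (‖X τ - W‖ * ‖X τ' - W‖) :=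
      mul_le_mul_of_nonneg_left hVV (by positivity)
    refine le_trans (le_of_eq ?_) h6
    field_simp
    norm_num
  calc Real.pi / 2 * (|det2 (X τ - W) (X τ' - W)| / (‖X τ - W‖ * ‖X τ' - W‖))
      ≤ Real.pi / 2 * (c / (6 * n)) := mul_le_mul_of_nonneg_left hq (by positivity)
    _ < 3.15 / 2 * (c / (6 * n)) := by
        apply mul_lt_mul_of_pos_right _ (by positivity)
        linarith
    _ ≤ c / n := by
        have : 3.15 / 2 * (c / (6 * n)) = (3.15 / 12) * (c / n) := by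
          field_simp
          norm_num
        rw [this]
        have h6 : 0 < c / n := by positivity
        linarith

end

end Pool.Agent.Lib.MP_a768d2_co
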