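import Pool.Agent.Lib.MP_a768d2_co.PhalfN

/-! # Patches with more than half of the sites: the thin triangle -/

namespace Pool.Agent.Lib.MP_a768d2_co

noncomputable section

open Classical in
/-- the sites of the `U`-patch at `P` which carry a point -/
def sites {n : ℕ} (x : Fin n → ℂ) (P a b : ℂ) (U : ℕ) (r : ℝ) : Finset (ℤ × ℤ) :=
  (cbox U).filter (fun s => ∃ j, dist (x j) (P + s.1 * a + s.2 * b) ≤ r)

theorem sites_subset {n : ℕ} (x : Fin n → ℂ) (P a b : ℂ) (U : ℕ) (r : ℝ) : sites x P a b U r ⊆ cbox U := by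
  classical
  unfold sites
  exact Finset.filter_subset _ _

theorem exists_of_mem_sites {n : ℕ} {x : Fin n → ℂ} {P a b : ℂ} {U : ℕ} {r : ℝ} {s : ℤ × ℤ}
    (h : s ∈ sites x P a b U r) : ∃ j, dist (x j) (P + s.1 * a + s.2 * b) ≤ r := by
  classical
  unfold sites at h
  exact (Finset.mem_filter.1 h).2

/-- the lattice vector from one patch to the other is long -/
theorem PhalfC_long {C s dd kk G : ℝ} {h : ℕ} {a b : ℂ} {u g : ℤ × ℤ} {m : ℤ} {S T : ℝ × ℝ}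
    (hC : 1 ≤ C) (hs : 1 ≤ s) (hh1 : s ≤ 2 * kk * h) (hdd0 : 0 < dd) (hkdd : kk * dd = |(m : ℝ)| * nz u)
    (hcoord : ∀ α β : ℝ, |α| ≤ C ^ 2 * s * ‖(α : ℂ) * a + (β : ℂ) * b‖ ∧ |β| ≤ C ^ 2 * s * ‖(α : ℂ) * a + (β : ℂ) * b‖)
    (hd1 : |T.1 - S.1| ≤ 1) (hd2 : |T.2 - S.2| ≤ 1) (hg1 : |(g.1 : ℝ)| ≤ G) (hg2 : |(g.2 : ℝ)| ≤ G) :
    dd / (2 * C ^ 2) - (1 + G) / (C ^ 2 * s) ≤ ‖(((h * m * u.1 + (T.1 - S.1) + g.1 : ℝ)) : ℂ) * a +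
      (((h * m * u.2 + (T.2 - S.2) + g.2 : ℝ)) : ℂ) * b‖ := by
  have hC0 : 0 < C := by linarith
  have hCs : 0 < C ^ 2 * s := by positivity
  obtain ⟨c1, c2⟩ := hcoord (h * m * u.1 + (T.1 - S.1) + g.1) (h * m * u.2 + (T.2 - S.2) + g.2)
  have hgen : ∀ (w y ρ : ℝ), |y| ≤ 1 → |ρ| ≤ G → h * (|(m : ℝ)| * |w|) - 1 - G ≤ |h * m * w + y + ρ| := by
    intro w y ρ hy hρ
    have e : h * (|(m : ℝ)| * |w|) = |(h : ℝ) * m * w| := by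
      rw [abs_mul, abs_mul, Nat.abs_cast]; ring
    rw [e]
    have t1 : |(h : ℝ) * m * w| ≤ |h * m * w + y + ρ| + |y + ρ| := by
      calc |(h : ℝ) * m * w| = |(h * m * w + y + ρ) - (y + ρ)| := by ring_nf
        _ ≤ _ := abs_sub _ _
    have t2 : |y + ρ| ≤ |y| + |ρ| := abs_add_le _ _
    linarith
  have hmax : h * (|(m : ℝ)| * nz u) - 1 - G ≤ C ^ 2 * s * ‖(((h * m * u.1 + (T.1 - S.1) + g.1 : ℝ)) : ℂ) * a +
      (((h * m * u.2 + (T.2 - S.2) + g.2 : ℝ)) : ℂ) * b‖ := by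
    rcases le_total |u.1| |u.2| with hle | hle
    · have hnz : nz u = |u.2| := max_eq_right hle
      have h1 := hgen u.2 (T.2 - S.2) g.2 hd2 hg2
      rw [hnz, Int.cast_abs]
      exact h1.trans c2
    · have hnz : nz u = |u.1| := max_eq_left hle
      have h1 := hgen u.1 (T.1 - S.1) g.1 hd1 hg1
      rw [hnz, Int.cast_abs]
      exact h1.trans c1
  rw [← hkdd] at hmax
  have h5 : s * dd / 2 ≤ h * (kk * dd) := by
    have := mul_le_mul_of_nonneg_right hh1 hdd0.le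
    linarith
  have h7 : dd / (2 * C ^ 2) - (1 + G) / (C ^ 2 * s) = (s * dd / 2 - 1 - G) / (C ^ 2 * s) := by
    field_simp
    ring
  rw [h7, div_le_iff₀ hCs]
  linarith

/-- the shift of the row -/
theorem exists_shift {k B : ℕ} (hk : 1 ≤ k) (hB : ∀ u : ℤ × ℤ, nz u ≤ k → Int.gcd u.1 u.2 = 1 →
    ∃ s t : ℤ, u.1 * t - u.2 * s = 1 ∧ |s| ≤ B ∧ |t| ≤ B) {u : ℤ × ℤ} (huk : nz u ≤ k) (hum : Int.gcd u.1 u.2 = 1)
    {S T : ℝ × ℝ} (hd1 : |T.1 - S.1| ≤ 1) (hd2 : |T.2 - S.2| ≤ 1) :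
    ∃ g : ℤ × ℤ, |g.1| ≤ ((B * (2 * k + 1) : ℕ) : ℤ) ∧ |g.2| ≤ ((B * (2 * k + 1) : ℕ) : ℤ) ∧
      |cr u (T - S) + (u.1 * g.2 - u.2 * g.1)| = dz (cr u (T - S)) := by
  have hk0 : (0 : ℝ) ≤ k := Nat.cast_nonneg k
  have hu1 : |u.1| ≤ nz u := le_max_left _ _
  have hu2 : |u.2| ≤ nz u := le_max_right _ _
  have hu1k : |(u.1 : ℝ)| ≤ k := by exact_mod_cast hu1.trans huk
  have hu2k : |(u.2 : ℝ)| ≤ k := by exact_mod_cast hu2.trans huk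
  obtain ⟨z0, hz0⟩ : ∃ z0 : ℤ, z0 = round (cr u (T - S)) := ⟨_, rfl⟩
  have hz0d : |cr u (T - S) - z0| = dz (cr u (T - S)) := by rw [hz0]; rfl
  have hz0le : |z0| ≤ 2 * k + 1 := by
    have h1 : |cr u (T - S)| ≤ 2 * k := by
      have e : cr u (T - S) = (u.1 : ℝ) * (T.2 - S.2) - (u.2 : ℝ) * (T.1 - S.1) := by
        simp [cr]
      rw [e]
      calc |(u.1 : ℝ) * (T.2 - S.2) - (u.2 : ℝ) * (T.1 - S.1)|
          ≤ |(u.1 : ℝ) * (T.2 - S.2)| + |(u.2 : ℝ) * (T.1 - S.1)| := abs_sub _ _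
        _ = |(u.1 : ℝ)| * |T.2 - S.2| + |(u.2 : ℝ)| * |T.1 - S.1| := by rw [abs_mul, abs_mul]
        _ ≤ k * 1 + k * 1 := by
            apply add_le_add
            · exact mul_le_mul hu1k hd2 (abs_nonneg _) hk0
            · exact mul_le_mul hu2k hd1 (abs_nonneg _) hk0
        _ = 2 * k := by ring
    have h2 : |cr u (T - S) - z0| ≤ 1 / 2 := by rw [hz0]; exact abs_sub_round _
    have h3 : |(z0 : ℝ)| ≤ 2 * k + 1 := by
      calc |(z0 : ℝ)| = |cr u (T - S) - (cr u (T - S) - z0)| := by ring_nf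
        _ ≤ |cr u (T - S)| + |cr u (T - S) - z0| := abs_sub _ _
        _ ≤ 2 * k + 1 := by linarith
    exact_mod_cast h3
  obtain ⟨s0, t0, hst, hs0B, ht0B⟩ := hB u huk hum
  refine ⟨(-z0 * s0, -z0 * t0), ?_, ?_, ?_⟩
  · rw [abs_mul, abs_neg]
    have : |z0| * |s0| ≤ (2 * k + 1) * B := mul_le_mul hz0le hs0B (abs_nonneg _) (by positivity)
    push_cast
    linarith
  · rw [abs_mul, abs_neg]
    have : |z0| * |t0| ≤ (2 * k + 1) * B := mul_le_mul hz0le ht0B (abs_nonneg _) (by positivity)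
    push_cast
    linarith
  · rw [← hz0d]
    congr 1
    have hst' : (u.1 : ℝ) * t0 - u.2 * s0 = 1 := by exact_mod_cast hst
    push_cast
    linear_combination (-(z0 : ℝ)) * hst'

theorem PhalfC_size {u : ℤ × ℤ} {m : ℤ} {k : ℕ} (hum : Int.gcd u.1 u.2 = 1) (hm : m ≠ 0) (hmu : |m| * nz u ≤ k) :
    1 ≤ nz u ∧ nz u ≤ k ∧ 1 ≤ |m| := by
  have hu0 : 1 ≤ nz u := by
    by_contra hneg
    push Not at hneg
    have h0 : nz u ≤ 0 := by omega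
    have h1 : |u.1| ≤ 0 := le_trans (le_max_left _ _) h0
    have h2 : |u.2| ≤ 0 := le_trans (le_max_right _ _) h0
    have h3 : u.1 = 0 := abs_eq_zero.mp (le_antisymm h1 (abs_nonneg _))
    have h4 : u.2 = 0 := abs_eq_zero.mp (le_antisymm h2 (abs_nonneg _))
    rw [h3, h4] at hum
    simp at hum
  have hm1 : 1 ≤ |m| := Int.one_le_abs hm
  refine ⟨hu0, ?_, hm1⟩
  calc nz u = 1 * nz u := by ring
    _ ≤ |m| * nz u := mul_le_mul_of_nonneg_right hm1 (by omega)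
    _ ≤ k := hmu

theorem PhalfC_Y {C s k : ℝ} {a b : ℂ} {u : ℤ × ℤ} (hk : 0 ≤ k) (hC : 0 < C) (hs : 0 < s) (ha : ‖a‖ ≤ C / s) (hb : ‖b‖ ≤ C / s)
    (hcoord : ∀ α β : ℝ, |α| ≤ C ^ 2 * s * ‖(α : ℂ) * a + (β : ℂ) * b‖ ∧ |β| ≤ C ^ 2 * s * ‖(α : ℂ) * a + (β : ℂ) * b‖)
    (hu0 : 1 ≤ nz u) (hu1k : |(u.1 : ℝ)| ≤ k) (hu2k : |(u.2 : ℝ)| ≤ k) :
    ‖((u.1 : ℝ) : ℂ) * a + ((u.2 : ℝ) : ℂ) * b‖ ≤ 2 * k * C / s ∧
      1 / (C ^ 2 * s) ≤ ‖((u.1 : ℝ) : ℂ) * a + ((u.2 : ℝ) : ℂ) * b‖ := by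
  constructor
  · calc ‖((u.1 : ℝ) : ℂ) * a + ((u.2 : ℝ) : ℂ) * b‖
        ≤ ‖((u.1 : ℝ) : ℂ) * a‖ + ‖((u.2 : ℝ) : ℂ) * b‖ := norm_add_le _ _
      _ = |(u.1 : ℝ)| * ‖a‖ + |(u.2 : ℝ)| * ‖b‖ := by
          rw [norm_mul, norm_mul, Complex.norm_real, Complex.norm_real, Real.norm_eq_abs,
            Real.norm_eq_abs]
      _ ≤ k * (C / s) + k * (C / s) := by
          apply add_le_add
          · exact mul_le_mul hu1k ha (norm_nonneg _) hk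
          · exact mul_le_mul hu2k hb (norm_nonneg _) hk
      _ = 2 * k * C / s := by ring
  · rw [div_le_iff₀ (by positivity)]
    obtain ⟨c1, c2⟩ := hcoord u.1 u.2
    rcases le_total |u.1| |u.2| with hle | hle
    · have hnz : nz u = |u.2| := max_eq_right hle
      rw [hnz] at hu0
      have : (1 : ℝ) ≤ |(u.2 : ℝ)| := by exact_mod_cast hu0
      linarith
    · have hnz : nz u = |u.1| := max_eq_left hle
      rw [hnz] at hu0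
      have : (1 : ℝ) ≤ |(u.1 : ℝ)| := by exact_mod_cast hu0
      linarith

/-- the determinant of the lattice vectors -/
theorem PhalfC_det {C θ c n dd : ℝ} {h : ℕ} {a b : ℂ} {u g : ℤ × ℤ} {m : ℤ} {S T : ℝ × ℝ} (hn : 0 < n) (hC : 0 < C)
    (hab : |det2 a b| ≤ C ^ 2 / n)
    (hg : |cr u (T - S) + (u.1 * g.2 - u.2 * g.1)| = dz (cr u (T - S)))
    (hdz : dz (cr u (T - S)) ≤ θ * c / (16384 * C ^ 6) * dd ^ 2) :
    |det2 ((((h * m * u.1 + (T.1 - S.1) + g.1 : ℝ)) : ℂ) * a + (((h * m * u.2 + (T.2 - S.2) + g.2 : ℝ)) : ℂ) * b)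
      (((u.1 : ℝ) : ℂ) * a + ((u.2 : ℝ) : ℂ) * b)| ≤ C ^ 2 / n * (θ * c / (16384 * C ^ 6) * dd ^ 2) := by
  have h2 : det2 ((((h * m * u.1 + (T.1 - S.1) + g.1 : ℝ)) : ℂ) * a + (((h * m * u.2 + (T.2 - S.2) + g.2 : ℝ)) : ℂ) * b)
      (((u.1 : ℝ) : ℂ) * a + ((u.2 : ℝ) : ℂ) * b) = -(cr u (T - S) + (u.1 * g.2 - u.2 * g.1)) * det2 a b := by
    simp only [det2, cr, Prod.fst_sub, Prod.snd_sub, Complex.add_re, Complex.add_im, Complex.mul_re, Complex.mul_im,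
      Complex.ofReal_re, Complex.ofReal_im]
    ring
  rw [h2, abs_mul, abs_neg, hg, mul_comm]
  exact mul_le_mul hab hdz (dz_nonneg _) (by positivity)

theorem thin2 (c C θ : ℝ) (hc : 0 < c) (hC : 1 ≤ C) (hθ : 0 < θ) (hθ1 : θ ≤ 1 / 2) : ∃ c' : ℝ, 0 < c' ∧
    ∀ k : ℕ, 1 ≤ k → ∃ U : ℕ, ∃ N0 : ℕ, ∀ n : ℕ, N0 ≤ n → ∀ x : Fin n → ℂ,
      ∀ a b : ℂ, Basis2 C n a b → ∀ h : ℕ, Real.sqrt n ≤ 2 * k * h →
      ∀ (p q : Fin n) (S T : ℝ × ℝ), 0 ≤ S.1 → S.1 < 1 → 0 ≤ S.2 → S.2 < 1 →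
        0 ≤ T.1 → T.1 < 1 → 0 ≤ T.2 → T.2 < 1 →
      ∀ (u : ℤ × ℤ) (m : ℤ), Int.gcd u.1 u.2 = 1 → m ≠ 0 → |m| * nz u ≤ k →
        x q - x p = (((h * m * u.1 : ℤ) : ℝ) + (T.1 - S.1) : ℝ) * a +
          (((h * m * u.2 : ℤ) : ℝ) + (T.2 - S.2) : ℝ) * b →
        dz (cr u (T - S)) < c' * ((m : ℝ) * nz u) ^ 2 / (k : ℝ) ^ 2 →
        (1 / 2 + θ) * (2 * U + 1) ^ 2 ≤ ((sites x (x p) a b U (C / n)).card : ℝ) →
        (1 / 2 + θ) * (2 * U + 1) ^ 2 ≤ ((sites x (x q) a b U (C / n)).card : ℝ) →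
        ∃ i j l : Fin n, i ≠ j ∧ j ≠ l ∧ i ≠ l ∧
          EuclideanGeometry.angle (x i) (x j) (x l) < c / n := by
  have hC0 : 0 < C := by linarith
  refine ⟨θ * c / (16384 * C ^ 6), by positivity, fun k hk => ?_⟩
  have hkR : (1 : ℝ) ≤ k := by exact_mod_cast hk
  have hk0 : (0 : ℝ) < k := by linarith
  obtain ⟨B, hB⟩ := exists_bezout k
  obtain ⟨G, hG⟩ : ∃ G : ℕ, G = B * (2 * k + 1) := ⟨_, rfl⟩
  obtain ⟨M, hM⟩ : ∃ M : ℕ, M = ⌈1024 * C ^ 3 * k / (θ * c)⌉₊ + ⌈4 / θ⌉₊ := ⟨_, rfl⟩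
  have hM1 : 1024 * C ^ 3 * k / (θ * c) ≤ M := by
    rw [hM]; push_cast
    have := Nat.le_ceil (1024 * C ^ 3 * k / (θ * c))
    have h2 : (0 : ℝ) ≤ ⌈4 / θ⌉₊ := Nat.cast_nonneg _
    linarith
  have hM2 : 4 / θ ≤ M := by
    rw [hM]; push_cast
    have := Nat.le_ceil (4 / θ)
    have h2 : (0 : ℝ) ≤ ⌈1024 * C ^ 3 * k / (θ * c)⌉₊ := Nat.cast_nonneg _
    linarith
  have hM4 : 4 ≤ θ * M := by
    rw [div_le_iff₀ hθ] at hM2
    linarith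
  have hM0 : 0 < M := by
    have : (0 : ℝ) < M := by
      by_contra hneg
      push Not at hneg
      nlinarith
    exact_mod_cast this
  obtain ⟨U, hU⟩ : ∃ U : ℕ, U = ⌈2 * ((M * k + G : ℕ) : ℝ) / θ⌉₊ := ⟨_, rfl⟩
  have hU4 : 4 * ((M * k + G : ℕ) : ℝ) ≤ θ * (2 * U + 1) := by
    have h1 : 2 * ((M * k + G : ℕ) : ℝ) / θ ≤ U := by
      rw [hU]
      exact Nat.le_ceil _
    rw [div_le_iff₀ hθ] at h1
    nlinarith
  obtain ⟨Z, hZ⟩ : ∃ Z : ℝ, Z = 32768 * C ^ 6 * k ^ 3 / (θ * c) + (4 * M * k * C ^ 2 + C ^ 2) * (2048 * C ^ 4 * k ^ 2 / c)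
    + (2 * M * k * C + 2 * C) * (32 * C ^ 2 * k) + (1 + G + C ^ 3) * (4 * k) + 2 * C ^ 3 + 1 := ⟨_, rfl⟩
  have p1 : 0 ≤ 32768 * C ^ 6 * k ^ 3 / (θ * c) := by positivity
  have p2 : 0 ≤ (4 * M * k * C ^ 2 + C ^ 2) * (2048 * C ^ 4 * k ^ 2 / c) := by positivity
  have p3 : 0 ≤ (2 * M * k * C + 2 * C) * (32 * C ^ 2 * k) := by positivity
  have p4 : 0 ≤ (1 + G + C ^ 3) * (4 * k) := by positivity
  have p5 : 0 ≤ 2 * C ^ 3 := by positivity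
  refine ⟨U, ⌈Z ^ 2⌉₊, ?_⟩
  clear hU hM hM2
  intro n hn x a b hab h hh1 p q S T hS1 hS2 hS3 hS4 hT1 hT2 hT3 hT4 u m hum hm hmu hpq hdz hP hQ
  obtain ⟨s, hs⟩ : ∃ s : ℝ, s = Real.sqrt n := ⟨_, rfl⟩
  have hsZ : Z ≤ s := by
    rw [hs]
    apply Real.le_sqrt_of_sq_le
    exact Nat.ceil_le.mp hn
  have hs2 : s ^ 2 = n := by rw [hs]; exact Real.sq_sqrt (Nat.cast_nonneg n)
  have q1 : 32768 * C ^ 6 * k ^ 3 / (θ * c) ≤ s := by linarith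
  have q2 : (4 * M * k * C ^ 2 + C ^ 2) * (2048 * C ^ 4 * k ^ 2 / c) ≤ s := by linarith
  have q3 : (2 * M * k * C + 2 * C) * (32 * C ^ 2 * k) ≤ s := by linarith
  have q4 : (1 + G + C ^ 3) * (4 * k) ≤ s := by linarith
  have q5 : 2 * C ^ 3 < s := by linarith
  have hs1 : 1 ≤ s := by linarith
  clear hZ p1 p2 p3 p4 p5 hn hsZ
  have hs0 : 0 < s := by linarith
  have hn0 : (0 : ℝ) < n := by rw [← hs2]; positivity
  have hnN : 1 ≤ n := by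
    have : 0 < n := by exact_mod_cast hn0
    omega
  obtain ⟨ha, hb, hdetab⟩ := hab
  rw [← hs] at ha hb hh1
  have hcoord := fun α β => coord_le hC0 hnN (⟨by rw [← hs]; exact ha, by rw [← hs]; exact hb, hdetab⟩ : Basis2 C n a b) α β
  rw [← hs] at hcoord
  obtain ⟨hu0, huk, hm1⟩ := PhalfC_size hum hm hmu
  have hu1 : |u.1| ≤ nz u := le_max_left _ _
  have hu2 : |u.2| ≤ nz u := le_max_right _ _
  have hu1k : |(u.1 : ℝ)| ≤ k := by exact_mod_cast hu1.trans huk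
  have hu2k : |(u.2 : ℝ)| ≤ k := by exact_mod_cast hu2.trans huk
  have hd1 : |T.1 - S.1| ≤ 1 := by rw [abs_le]; constructor <;> linarith
  have hd2 : |T.2 - S.2| ≤ 1 := by rw [abs_le]; constructor <;> linarith
  obtain ⟨g, hg1, hg2, hg⟩ := exists_shift hk hB huk hum hd1 hd2
  rw [← hG] at hg1 hg2
  -- the row
  obtain ⟨z, hzQ, hcount⟩ := exists_row (U := U) (M := M) (k := k) (G := G) hM0 hθ hθ1 hU4
    (Q := sites x (x p) a b U (C / n)) (Q' := sites x (x q) a b U (C / n))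
    (sites_subset _ _ _ _ _ _) (sites_subset _ _ _ _ _ _) hP hQ
    (u := u) (g := g) (hu1.trans huk) (hu2.trans huk) hg1 hg2
  obtain ⟨r, hr⟩ := exists_of_mem_sites hzQ
  obtain ⟨F, hF⟩ : ∃ F : Finset ℕ, F = (Finset.range M).filter fun τ : ℕ =>
    z + ((τ : ℤ) * u.1, (τ : ℤ) * u.2) ∈ sites x (x p) a b U (C / n) := ⟨_, rfl⟩
  rw [← hF] at hcount
  have hFM : ∀ τ ∈ F, τ ≤ M := by
    intro τ hτ
    rw [hF] at hτ
    exact (Finset.mem_range.1 (Finset.mem_filter.1 hτ).1).le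
  have hj : ∀ τ : ℕ, ∃ j, τ ∈ F → dist (x j) (x p + (((z + ((τ : ℤ) * u.1, (τ : ℤ) * u.2)).1 : ℤ) : ℂ) * a +
      (((z + ((τ : ℤ) * u.1, (τ : ℤ) * u.2)).2 : ℤ) : ℂ) * b) ≤ C / n := by
    intro τ
    by_cases hτ : τ ∈ F
    · have h1 := hτ
      rw [hF] at h1
      obtain ⟨j, hj⟩ := exists_of_mem_sites (Finset.mem_filter.1 h1).2
      exact ⟨j, fun _ => hj⟩
    · exact ⟨p, fun h => absurd h hτ⟩
  choose j hj using hj
  obtain ⟨Y, hY⟩ : ∃ Y : ℂ, Y = ((u.1 : ℝ) : ℂ) * a + ((u.2 : ℝ) : ℂ) * b := ⟨_, rfl⟩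
  obtain ⟨A0, hA0⟩ : ∃ A0 : ℂ, A0 = x p + (z.1 : ℂ) * a + (z.2 : ℂ) * b := ⟨_, rfl⟩
  obtain ⟨e, he⟩ : ∃ e : ℕ → ℂ, e = fun τ => x (j τ) - A0 - (τ : ℂ) * Y := ⟨_, rfl⟩
  have heF : ∀ τ ∈ F, ‖e τ‖ ≤ C / n := by
    intro τ hτ
    have h1 := hj τ hτ
    rw [dist_eq_norm] at h1
    refine le_trans (le_of_eq ?_) h1
    congr 1
    rw [he, hA0, hY]
    simp only [Prod.fst_add, Prod.snd_add]
    push_cast
    ring
  obtain ⟨W, hW⟩ : ∃ W : ℂ, W = x r - A0 := ⟨_, rfl⟩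
  obtain ⟨W0, hW0⟩ : ∃ W0 : ℂ, W0 = (((h * m * u.1 + (T.1 - S.1) + g.1 : ℝ)) : ℂ) * a +
      (((h * m * u.2 + (T.2 - S.2) + g.2 : ℝ)) : ℂ) * b := ⟨_, rfl⟩
  have hWW : ‖W - W0‖ ≤ C / n := by
    rw [dist_eq_norm] at hr
    refine le_trans (le_of_eq ?_) hr
    congr 1
    have hxq : x q = x p + ((((h * m * u.1 : ℤ) : ℝ) + (T.1 - S.1) : ℝ) * a +
          (((h * m * u.2 : ℤ) : ℝ) + (T.2 - S.2) : ℝ) * b) := by
      rw [← hpq]; ring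
    rw [hW, hW0, hA0, hxq]
    simp only [Prod.fst_add, Prod.snd_add]
    push_cast
    ring
  obtain ⟨dd, hdd⟩ : ∃ dd : ℝ, dd = |(m : ℝ)| * nz u / k := ⟨_, rfl⟩
  have hkdd : (k : ℝ) * dd = |(m : ℝ)| * nz u := by rw [hdd]; field_simp
  have hdd1 : 1 ≤ (k : ℝ) * dd := by
    rw [hkdd]
    have : (1 : ℤ) ≤ |m| * nz u := by nlinarith
    exact_mod_cast this
  have hdd0 : 0 < dd := by
    by_contra hneg
    push Not at hneg
    nlinarith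
  have hddk : 1 / k ≤ dd := by
    rw [div_le_iff₀ hk0]
    linarith
  have hdd2 : ((m : ℝ) * nz u) ^ 2 / (k : ℝ) ^ 2 = dd ^ 2 := by
    rw [hdd, div_pow, mul_pow, mul_pow, sq_abs]
  have hdetab2 : |det2 a b| ≤ C ^ 2 / n := by
    calc |det2 a b| ≤ ‖a‖ * ‖b‖ := PhalfB_det2_le a b
      _ ≤ (C / s) * (C / s) := mul_le_mul ha hb (norm_nonneg _) (by positivity)
      _ = C ^ 2 / n := by rw [← hs2]; field_simp
  have hdz' : dz (cr u (T - S)) ≤ θ * c / (16384 * C ^ 6) * dd ^ 2 := by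
    rw [← hdd2]
    have := hdz.le
    rw [mul_div_assoc] at this
    exact this
  have hdet := PhalfC_det (h := h) (m := m) hn0 hC0 hdetab2 hg hdz'
  rw [← hW0, ← hY] at hdet
  obtain ⟨hY1, hY2⟩ := PhalfC_Y hk0.le hC0 hs0 ha hb hcoord hu0 hu1k hu2k
  rw [← hY] at hY1 hY2
  have hlong := PhalfC_long (C := C) (s := s) (dd := dd) (kk := k) (G := G) (h := h) (a := a) (b := b) (u := u) (g := g)
      (m := m) (S := S) (T := T) hC hs1 hh1 hdd0 hkdd hcoord hd1 hd2 (by exact_mod_cast hg1) (by exact_mod_cast hg2)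
  rw [← hW0] at hlong
  obtain ⟨τ, hτ, τ', hτ', hne, hn1', hn2', hang⟩ := thin2_metric hc hC hθ hs1 hs2 hkR (Nat.cast_nonneg G) hdd0 hddk
    q1 q2 q3 q4 q5 hM1 hM4 hFM hcount heF hY1 hY2 hWW hlong hdet
  have hXe : ∀ τ : ℕ, (τ : ℂ) * Y + e τ = x (j τ) - A0 := by
    intro τ
    rw [he]
    ring
  rw [hXe, hXe] at hne
  rw [hXe, hW] at hn1' hn2'
  rw [hXe, hXe, hW] at hang
  have e1 : x (j τ) - A0 - (x r - A0) = x (j τ) - x r := by ring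
  have e2 : x (j τ') - A0 - (x r - A0) = x (j τ') - x r := by ring
  rw [e1] at hn1' hang
  rw [e2] at hn2' hang
  refine ⟨j τ, r, j τ', ?_, ?_, ?_, ?_⟩
  · intro h1
    apply hn1'
    rw [h1, sub_self]
  · intro h1
    apply hn2'
    rw [← h1, sub_self]
  · intro h1
    apply hne
    rw [h1]
  · rw [EuclideanGeometry.angle, vsub_eq_sub, vsub_eq_sub]
    exact hang

end

end Pool.Agent.Lib.MP_a768d2_co
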