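import Pool.Agent.Lib.MP_a768d2_co.FMain
import Pool.Agent.Lib.MP_a768d2_co.GeoB
import Pool.Agent.Lib.MP_a768d2_co.PhalfC

/-! # The polycrystal theorem with patches of density larger than one half and errors of size `C / n` -/

namespace Pool.Agent.Lib.MP_a768d2_co

noncomputable section

open Classical in
/-- the indices of the points for which more than `(1/2 + θ)` of the sites of a `U`-patch of a lattice spanned by
one of the bases carry points -/
def patched2 (n K : ℕ) (x : Fin n → ℂ) (a b : Fin K → ℂ) (U : ℕ) (r θ : ℝ) : Finset (Fin n) :=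
  Finset.univ.filter (fun i => ∃ τ : Fin K,
    (1 / 2 + θ) * (2 * U + 1) ^ 2 ≤ ((sites x (x i) (a τ) (b τ) U r).card : ℝ))

theorem sites_mono {n : ℕ} (x : Fin n → ℂ) (P a b : ℂ) (U : ℕ) {r r' : ℝ} (h : r ≤ r') :
    (sites x P a b U r).card ≤ (sites x P a b U r').card := by
  classical
  apply Finset.card_le_card
  intro s hs
  have h1 := sites_subset _ _ _ _ _ _ hs
  obtain ⟨j, hj⟩ := exists_of_mem_sites hs
  unfold sites
  exact Finset.mem_filter.2 ⟨h1, j, hj.trans h⟩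

/-- POLYCRYSTAL THEOREM, second form. -/
theorem polycrystal2 (c ε κ C θ : ℝ) (K : ℕ) (hc : 0 < c) (hε : 0 < ε) (hκ : 0 < κ) (hC : 0 < C) (hθ : 0 < θ) :
    ∃ U : ℕ, ∃ N : ℕ, ∀ n : ℕ, N ≤ n → ∀ x : Fin n → ℂ,
      (∀ i, 0 ≤ (x i).re ∧ (x i).re ≤ 1 ∧ 0 ≤ (x i).im ∧ (x i).im ≤ 1) →
      (∀ i j, i ≠ j → ε / Real.sqrt (n : ℝ) < dist (x i) (x j)) →
      ∀ a b : Fin K → ℂ, (∀ τ, Basis2 C n (a τ) (b τ)) →
        κ * n ≤ (patched2 n K x a b U (C / n) θ).card →
        ∃ i j l : Fin n, i ≠ j ∧ j ≠ l ∧ i ≠ l ∧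
          EuclideanGeometry.angle (x i) (x j) (x l) < c / n := by
  classical
  rcases Nat.eq_zero_or_pos K with hK | hK
  · subst hK
    refine ⟨0, 1, ?_⟩
    intro n hn x _ _ a b _ hp
    exfalso
    have he : patched2 n 0 x a b 0 (C / n) θ = ∅ := by
      unfold patched2
      apply Finset.filter_eq_empty_iff.mpr
      rintro i _ ⟨τ, _⟩
      exact τ.elim0
    rw [he, Finset.card_empty] at hp
    have hn0 : (0 : ℝ) < n := by exact_mod_cast hn
    have : 0 < κ * n := by positivity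
    simp only [Nat.cast_zero] at hp
    linarith
  have hK0 : (0 : ℝ) < K := by exact_mod_cast hK
  obtain ⟨C1, hC1⟩ : ∃ C1 : ℝ, C1 = max C 1 := ⟨_, rfl⟩
  have hCC1 : C ≤ C1 := by rw [hC1]; exact le_max_left _ _
  have h1C1 : 1 ≤ C1 := by rw [hC1]; exact le_max_right _ _
  have hC1pos : 0 < C1 := lt_of_lt_of_le hC hCC1
  obtain ⟨θ1, hθ1⟩ : ∃ θ1 : ℝ, θ1 = min θ (1 / 2) := ⟨_, rfl⟩
  have hθθ : θ1 ≤ θ := by rw [hθ1]; exact min_le_left _ _
  have hθ1h : θ1 ≤ 1 / 2 := by rw [hθ1]; exact min_le_right _ _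
  have hθ1pos : 0 < θ1 := by rw [hθ1]; exact lt_min hθ (by norm_num)
  obtain ⟨c', hc', hthin⟩ := thin2 c C1 θ1 hc h1C1 hθ1pos hθ1h
  obtain ⟨κ', hκ', hgrid⟩ := exists_grid ε (κ / K) C1 hε (by positivity) hC1pos
  obtain ⟨k, hk, hflat⟩ := flat c' κ' hc' hκ'
  obtain ⟨U, N0, hthin'⟩ := hthin k hk
  obtain ⟨N1, hgrid'⟩ := hgrid k hk
  refine ⟨U, max (max N0 N1) 1, ?_⟩
  intro n hn x hx hsep a b hab hp
  have hnN0 : N0 ≤ n := ((le_max_left _ _).trans (le_max_left _ _)).trans hn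
  have hnN1 : N1 ≤ n := ((le_max_right _ _).trans (le_max_left _ _)).trans hn
  have hn1 : 1 ≤ n := (le_max_right _ _).trans hn
  have hn0 : (0 : ℝ) < n := by exact_mod_cast hn1
  have hB : ∀ τ, Basis2 C1 n (a τ) (b τ) := by
    intro τ
    obtain ⟨h1, h2, h3⟩ := hab τ
    have h4 : C / Real.sqrt n ≤ C1 / Real.sqrt n :=
      div_le_div_of_nonneg_right hCC1 (Real.sqrt_nonneg _)
    refine ⟨h1.trans h4, h2.trans h4, le_trans ?_ h3⟩
    apply one_div_le_one_div_of_le (by positivity)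
    exact mul_le_mul_of_nonneg_right hCC1 hn0.le
  -- pigeonhole
  let S : Fin K → Finset (Fin n) := fun τ => Finset.univ.filter (fun i =>
    (1 / 2 + θ1) * (2 * U + 1) ^ 2 ≤ ((sites x (x i) (a τ) (b τ) U (C1 / n)).card : ℝ))
  have hsub : patched2 n K x a b U (C / n) θ ⊆ Finset.univ.biUnion S := by
    intro i hi
    unfold patched2 at hi
    rw [Finset.mem_filter] at hi
    obtain ⟨_, τ, hτ⟩ := hi
    rw [Finset.mem_biUnion]
    refine ⟨τ, Finset.mem_univ _, Finset.mem_filter.mpr ⟨Finset.mem_univ _, ?_⟩⟩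
    have e1 : (1 / 2 + θ1) * (2 * (U : ℝ) + 1) ^ 2 ≤ (1 / 2 + θ) * (2 * U + 1) ^ 2 :=
      mul_le_mul_of_nonneg_right (by linarith) (by positivity)
    have e2 : ((sites x (x i) (a τ) (b τ) U (C / n)).card : ℝ) ≤ (sites x (x i) (a τ) (b τ) U (C1 / n)).card := by
      exact_mod_cast sites_mono x (x i) (a τ) (b τ) U (div_le_div_of_nonneg_right hCC1 hn0.le)
    exact e1.trans (hτ.trans e2)
  have hex : ∃ τ, κ / K * n ≤ ((S τ).card : ℝ) := by
    by_contra hcon
    push Not at hcon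
    have h1 : ((patched2 n K x a b U (C / n) θ).card : ℝ) ≤ ∑ τ, ((S τ).card : ℝ) := by
      have := (Finset.card_le_card hsub).trans Finset.card_biUnion_le
      exact_mod_cast this
    have h2 : ∑ τ, ((S τ).card : ℝ) < ∑ _τ : Fin K, κ / K * n := by
      apply Finset.sum_lt_sum_of_nonempty
      · exact ⟨⟨0, hK⟩, Finset.mem_univ _⟩
      · intro τ _
        exact hcon τ
    rw [Finset.sum_const, nsmul_eq_mul, Finset.card_univ, Fintype.card_fin] at h2
    have h3 : (K : ℝ) * (κ / K * n) = κ * n := by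
      field_simp
    linarith
  obtain ⟨τ, hτ⟩ := hex
  obtain ⟨h, hh1, hh2, g0, E, ι, T, hEbox, hEcard, hE⟩ :=
    hgrid' n hnN1 x hx hsep (a τ) (b τ) (hB τ) (S τ) hτ
  have hav := hflat E T hEbox hEcard
  unfold Avoid at hav
  push Not at hav
  obtain ⟨z, hz, w, hw, hne, u, m, hgcd, h1, h2, h3⟩ := hav
  obtain ⟨hzS, z1, z2, z3, z4, hzx⟩ := hE z hz
  obtain ⟨hwS, w1, w2, w3, w4, hwx⟩ := hE w hw
  have hm : m ≠ 0 := by
    intro hm
    apply hne
    rw [hm] at h1 h2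
    apply Prod.ext
    · linarith
    · linarith
  have hmk : |m| * nz u ≤ k := by
    have hbz := hEbox hz
    have hbw := hEbox hw
    unfold box at hbz hbw
    rw [Finset.mem_product, Finset.mem_Ico, Finset.mem_Ico] at hbz hbw
    have a1 : |m| * |u.1| ≤ k := by
      rw [← abs_mul, ← h1, abs_le]
      constructor
      · linarith [hbz.1.1, hbz.1.2, hbw.1.1, hbw.1.2]
      · linarith [hbz.1.1, hbz.1.2, hbw.1.1, hbw.1.2]
    have a2 : |m| * |u.2| ≤ k := by
      rw [← abs_mul, ← h2, abs_le]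
      constructor
      · linarith [hbz.2.1, hbz.2.2, hbw.2.1, hbw.2.2]
      · linarith [hbz.2.1, hbz.2.2, hbw.2.1, hbw.2.2]
    unfold nz
    rcases max_choice |u.1| |u.2| with h | h
    · rw [h]
      exact a1
    · rw [h]
      exact a2
  refine hthin' n hnN0 x (a τ) (b τ) (hB τ) h ?_ (ι z) (ι w) (T z) (T w)
    z1 z2 z3 z4 w1 w2 w3 w4 u m hgcd hm hmk ?_ ?_ (Finset.mem_filter.mp hzS).2
    (Finset.mem_filter.mp hwS).2
  · exact hh1
  · rw [hwx, hzx]
    have e1 : w.1 = z.1 + m * u.1 := by linarith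
    have e2 : w.2 = z.2 + m * u.2 := by linarith
    rw [e1, e2]
    push_cast
    ring
  · simpa using h3

end

end Pool.Agent.Lib.MP_a768d2_co
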