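import Pool.Agent.Lib.MP_a768d2_co.PhalfB

/-! # Patches with more than half of the sites: numerical estimates -/

namespace Pool.Agent.Lib.MP_a768d2_co

noncomputable section

theorem num1 {c C θ k s n dd v : ℝ} (hc : 0 < c) (hC : 1 ≤ C) (hθ : 0 < θ) (hk : 1 ≤ k) (hs : 0 < s) (hn : 0 < n)
    (hdd : 1 / k ^ 2 ≤ dd ^ 2) (hv : (dd / (8 * C ^ 2)) ^ 2 ≤ v ^ 2)
    (hZ : 32768 * C ^ 6 * k ^ 3 / (θ * c) ≤ s) :
    4 / θ * (C ^ 2 / n * (θ * c / (16384 * C ^ 6) * dd ^ 2) + C / n * (2 * k * C / s)) ≤ c * v ^ 2 / (32 * n) := by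
  have hC0 : 0 < C := by linarith
  have hk0 : 0 < k := by linarith
  have h1 : c * (dd / (8 * C ^ 2)) ^ 2 / (32 * n) ≤ c * v ^ 2 / (32 * n) := by
    apply div_le_div_of_nonneg_right _ (by positivity)
    exact mul_le_mul_of_nonneg_left hv hc.le
  refine le_trans ?_ h1
  have h2 : 4 / θ * (C ^ 2 / n * (θ * c / (16384 * C ^ 6) * dd ^ 2)) = c * dd ^ 2 / (4096 * C ^ 4) / n := by
    field_simp
    ring
  have h3 : 4 / θ * (C / n * (2 * k * C / s)) ≤ c * dd ^ 2 / (4096 * C ^ 4) / n := by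
    have h4 : 4 / θ * (C / n * (2 * k * C / s)) = (8 * k * C ^ 2 / (θ * s)) / n := by
      field_simp
      norm_num
    rw [h4]
    apply div_le_div_of_nonneg_right _ hn.le
    have h5 : c * (1 / k ^ 2) / (4096 * C ^ 4) ≤ c * dd ^ 2 / (4096 * C ^ 4) := by
      apply div_le_div_of_nonneg_right _ (by positivity)
      exact mul_le_mul_of_nonneg_left hdd hc.le
    refine le_trans ?_ h5
    rw [mul_one_div, div_div, div_le_div_iff₀ (by positivity) (by positivity)]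
    rw [div_le_iff₀ (by positivity)] at hZ
    nlinarith
  have h4 : c * (dd / (8 * C ^ 2)) ^ 2 / (32 * n) = c * dd ^ 2 / (4096 * C ^ 4) / n + c * dd ^ 2 / (4096 * C ^ 4) / n := by
    field_simp
    ring
  rw [mul_add, h2, h4]
  linarith

theorem num2 {c C θ k M dd : ℝ} (hc : 0 < c) (hC : 1 ≤ C) (hθ : 0 < θ) (hk : 1 ≤ k) (hM0 : 0 ≤ M)
    (hdd : 1 / k ≤ dd) (hM : 1024 * C ^ 3 * k / (θ * c) ≤ M) :
    128 * C ≤ θ * M * (c * (dd / (8 * C ^ 2))) := by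
  have hC0 : 0 < C := by linarith
  have hk0 : 0 < k := by linarith
  rw [div_le_iff₀ (by positivity)] at hM
  have h1 : 1 / (8 * C ^ 2 * k) ≤ dd / (8 * C ^ 2) := by
    have : 1 / (8 * C ^ 2 * k) = (1 / k) / (8 * C ^ 2) := by field_simp
    rw [this]
    exact div_le_div_of_nonneg_right hdd (by positivity)
  have h2 : θ * M * (c * (1 / (8 * C ^ 2 * k))) ≤ θ * M * (c * (dd / (8 * C ^ 2))) :=
    mul_le_mul_of_nonneg_left (mul_le_mul_of_nonneg_left h1 hc.le) (by positivity)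
  refine le_trans ?_ h2
  have h3 : θ * M * (c * (1 / (8 * C ^ 2 * k))) = M * (θ * c) / (8 * C ^ 2 * k) := by
    field_simp
  rw [h3, le_div_iff₀ (by positivity)]
  nlinarith

theorem num3 {c C k s M dd : ℝ} (hc : 0 < c) (hC : 1 ≤ C) (hk : 1 ≤ k) (hs : 1 ≤ s)
    (hdd : 1 / k ^ 2 ≤ dd ^ 2) (hZ : (4 * M * k * C ^ 2 + C ^ 2) * (2048 * C ^ 4 * k ^ 2 / c) ≤ s) :
    2 * M * (2 * k * C / s) * C + C ^ 2 / s ^ 2 ≤ c * (dd / (8 * C ^ 2)) ^ 2 / 32 := by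
  have hC0 : 0 < C := by linarith
  have hk0 : 0 < k := by linarith
  have hs0 : 0 < s := by linarith
  have h1 : c / (2048 * C ^ 4 * k ^ 2) ≤ c * (dd / (8 * C ^ 2)) ^ 2 / 32 := by
    have : c / (2048 * C ^ 4 * k ^ 2) = c * (1 / k ^ 2) / (2048 * C ^ 4) := by field_simp
    rw [this]
    have h2 : c * (dd / (8 * C ^ 2)) ^ 2 / 32 = c * dd ^ 2 / (2048 * C ^ 4) := by
      field_simp
      ring
    rw [h2]
    apply div_le_div_of_nonneg_right _ (by positivity)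
    exact mul_le_mul_of_nonneg_left hdd hc.le
  refine le_trans ?_ h1
  have h2 : 2 * M * (2 * k * C / s) * C + C ^ 2 / s ^ 2 ≤ (4 * M * k * C ^ 2 + C ^ 2) / s := by
    have h3 : C ^ 2 / s ^ 2 ≤ C ^ 2 / s := by
      apply div_le_div_of_nonneg_left (by positivity) hs0
      nlinarith
    have h4 : 2 * M * (2 * k * C / s) * C = 4 * M * k * C ^ 2 / s := by
      field_simp
      ring
    have h5 : (4 * M * k * C ^ 2 + C ^ 2) / s = 4 * M * k * C ^ 2 / s + C ^ 2 / s := by ring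
    rw [h4, h5]
    linarith
  refine h2.trans ?_
  rw [div_le_div_iff₀ hs0 (by positivity)]
  have h7 : (4 * M * k * C ^ 2 + C ^ 2) * (2048 * C ^ 4 * k ^ 2 / c) =
    (4 * M * k * C ^ 2 + C ^ 2) * (2048 * C ^ 4 * k ^ 2) / c := by ring
  rw [h7, div_le_iff₀ hc] at hZ
  linarith

theorem num4 {C k s M dd : ℝ} (hC : 1 ≤ C) (hk : 1 ≤ k) (hs : 1 ≤ s)
    (hdd : 1 / k ≤ dd) (hZ : (2 * M * k * C + 2 * C) * (32 * C ^ 2 * k) ≤ s) :
    M * (2 * k * C / s) + 2 * C / s ^ 2 ≤ dd / (8 * C ^ 2) / 4 := by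
  have hC0 : 0 < C := by linarith
  have hk0 : 0 < k := by linarith
  have hs0 : 0 < s := by linarith
  have h1 : 1 / (32 * C ^ 2 * k) ≤ dd / (8 * C ^ 2) / 4 := by
    have : 1 / (32 * C ^ 2 * k) = (1 / k) / (8 * C ^ 2) / 4 := by field_simp; norm_num
    rw [this]
    exact div_le_div_of_nonneg_right (div_le_div_of_nonneg_right hdd (by positivity)) (by norm_num)
  refine le_trans ?_ h1
  have h2 : M * (2 * k * C / s) + 2 * C / s ^ 2 ≤ (2 * M * k * C + 2 * C) / s := by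
    have h3 : 2 * C / s ^ 2 ≤ 2 * C / s := by
      apply div_le_div_of_nonneg_left (by positivity) hs0
      nlinarith
    have h5 : (2 * M * k * C + 2 * C) / s = M * (2 * k * C / s) + 2 * C / s := by ring
    rw [h5]
    linarith
  refine h2.trans ?_
  rw [div_le_div_iff₀ hs0 (by positivity)]
  linarith

theorem num5 {C s y : ℝ} (hC : 1 ≤ C) (hs : 1 ≤ s) (hZ : 2 * C ^ 3 < s) (hy : 1 / (C ^ 2 * s) ≤ y) :
    2 * C / s ^ 2 < y := by
  have hC0 : 0 < C := by linarith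
  have hs0 : 0 < s := by linarith
  refine lt_of_lt_of_le ?_ hy
  rw [div_lt_div_iff₀ (by positivity) (by positivity)]
  have h7 := mul_lt_mul_of_pos_right hZ hs0
  nlinarith

theorem num6 {C k s G dd v v0 : ℝ} (hC : 1 ≤ C) (hk : 1 ≤ k) (hs : 1 ≤ s) (hG : 0 ≤ G)
    (hdd : 1 / k ≤ dd) (hdd0 : 0 < dd) (hZ : (1 + G + C ^ 3) * (4 * k) ≤ s)
    (h1 : dd / (2 * C ^ 2) - (1 + G) / (C ^ 2 * s) ≤ v0) (h2 : v0 ≤ v + C / s) :
    dd / (8 * C ^ 2) ≤ v := by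
  have hC0 : 0 < C := by linarith
  have hk0 : 0 < k := by linarith
  have hs0 : 0 < s := by linarith
  have h3 : (1 + G) / (C ^ 2 * s) + C / s ≤ dd / (4 * C ^ 2) := by
    have h4 : (1 + G) / (C ^ 2 * s) + C / s = (1 + G + C ^ 3) / (C ^ 2 * s) := by
      field_simp
    have h5 : 1 / (4 * C ^ 2 * k) ≤ dd / (4 * C ^ 2) := by
      have : 1 / (4 * C ^ 2 * k) = (1 / k) / (4 * C ^ 2) := by field_simp
      rw [this]
      exact div_le_div_of_nonneg_right hdd (by positivity)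
    refine le_trans ?_ h5
    rw [h4, div_le_div_iff₀ (by positivity) (by positivity)]
    have h7 := mul_le_mul_of_nonneg_right hZ (show 0 ≤ C ^ 2 by positivity)
    nlinarith
  have h4 : dd / (8 * C ^ 2) = dd / (2 * C ^ 2) - dd / (4 * C ^ 2) - dd / (8 * C ^ 2) := by
    field_simp; ring
  have h5 : 0 < dd / (8 * C ^ 2) := by positivity
  linarith

/-- the metric part -/
theorem thin2_metric {c C θ s n dd k G : ℝ} {M : ℕ} {F : Finset ℕ} {Y W W0 : ℂ} {e : ℕ → ℂ}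
    (hc : 0 < c) (hC : 1 ≤ C) (hθ : 0 < θ) (hs : 1 ≤ s) (hs2 : s ^ 2 = n) (hk : 1 ≤ k) (hG : 0 ≤ G)
    (hdd0 : 0 < dd) (hdd : 1 / k ≤ dd)
    (hZ1 : 32768 * C ^ 6 * k ^ 3 / (θ * c) ≤ s)
    (hZ2 : (4 * M * k * C ^ 2 + C ^ 2) * (2048 * C ^ 4 * k ^ 2 / c) ≤ s)
    (hZ3 : (2 * M * k * C + 2 * C) * (32 * C ^ 2 * k) ≤ s)
    (hZ4 : (1 + G + C ^ 3) * (4 * k) ≤ s) (hZ5 : 2 * C ^ 3 < s)
    (hM1 : 1024 * C ^ 3 * k / (θ * c) ≤ M) (hM4 : 4 ≤ θ * M)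
    (hFM : ∀ τ ∈ F, τ ≤ M) (hF : θ * M ≤ F.card) (he : ∀ τ ∈ F, ‖e τ‖ ≤ C / n)
    (hY1 : ‖Y‖ ≤ 2 * k * C / s) (hY2 : 1 / (C ^ 2 * s) ≤ ‖Y‖) (hW : ‖W - W0‖ ≤ C / n)
    (hW0 : dd / (2 * C ^ 2) - (1 + G) / (C ^ 2 * s) ≤ ‖W0‖)
    (hW0Y : |det2 W0 Y| ≤ C ^ 2 / n * (θ * c / (16384 * C ^ 6) * dd ^ 2)) :
    ∃ τ ∈ F, ∃ τ' ∈ F, (τ : ℂ) * Y + e τ ≠ (τ' : ℂ) * Y + e τ' ∧ (τ : ℂ) * Y + e τ - W ≠ 0 ∧
      (τ' : ℂ) * Y + e τ' - W ≠ 0 ∧
      InnerProductGeometry.angle ((τ : ℂ) * Y + e τ - W) ((τ' : ℂ) * Y + e τ' - W) < c / n := by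
  have hC0 : 0 < C := by linarith
  have hs0 : 0 < s := by linarith
  have hk0 : 0 < k := by linarith
  have hn0 : 0 < n := by rw [← hs2]; positivity
  have hn1 : 1 ≤ n := by rw [← hs2]; nlinarith
  have hM0 : (0 : ℝ) ≤ M := Nat.cast_nonneg M
  have hddsq : 1 / k ^ 2 ≤ dd ^ 2 := by
    have := pow_le_pow_left₀ (by positivity) hdd 2
    rwa [div_pow, one_pow] at this
  have hCn : C / n ≤ C / s := by
    apply div_le_div_of_nonneg_left hC0.le hs0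
    rw [← hs2]
    nlinarith
  have hWlow : dd / (8 * C ^ 2) ≤ ‖W‖ := by
    refine num6 hC hk hs hG hdd hdd0 hZ4 hW0 ?_
    have : W0 = W - (W - W0) := by ring
    rw [this]
    exact (norm_sub_le _ _).trans (by linarith)
  have hWsq : (dd / (8 * C ^ 2)) ^ 2 ≤ ‖W‖ ^ 2 := pow_le_pow_left₀ (by positivity) hWlow 2
  have hWY : |det2 W Y| ≤ C ^ 2 / n * (θ * c / (16384 * C ^ 6) * dd ^ 2) + C / n * (2 * k * C / s) := by
    have h1 : det2 W Y = det2 W0 Y + det2 (W - W0) Y := by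
      simp only [det2, Complex.sub_re, Complex.sub_im]; ring
    rw [h1]
    refine (abs_add_le _ _).trans (add_le_add hW0Y ?_)
    exact (PhalfB_det2_le _ _).trans (mul_le_mul hW hY1 (norm_nonneg _) (by positivity))
  refine row_angle hθ hc hC hn1 hFM hF hM4 he (w := dd / (8 * C ^ 2)) (by positivity) hWlow hY1 hWY ?_ ?_ ?_ ?_ ?_
  · exact num1 hc hC hθ hk hs0 hn0 hddsq hWsq hZ1
  · exact num2 hc hC hθ hk hM0 hdd hM1
  · rw [← hs2]
    exact num3 hc hC hk hs hddsq hZ2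
  · rw [← hs2]
    exact num4 hC hk hs hdd hZ3
  · rw [← hs2]
    exact num5 hC hs hZ5 hY2

end

end Pool.Agent.Lib.MP_a768d2_co
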