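import Mathlib

/-!
# A Ramsey lemma on areas modulo one

For all sequences `Φ, f` of real numbers there are indices `1 ≤ i < j ≤ w(ε)` such that
`i Φ_j - j Φ_i + f_j - f_i` is at distance less than `ε` from an integer. The proof uses an
idempotent ultrafilter on the positive integers and compactness.
-/

namespace Pool.Agent.Lib.MP_a768d2_co

open Filter Topology

private theorem exists_idem : ∃ p : Ultrafilter ℕ+, ∀ P : ℕ+ → Prop,
    (∀ᶠ m in (p : Filter ℕ+), P m) → ∀ᶠ x in (p : Filter ℕ+), ∀ᶠ y in (p : Filter ℕ+), P (x + y) := by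
  let _ : AddSemigroup (Ultrafilter ℕ+) := Ultrafilter.addSemigroup
  obtain ⟨p, hp⟩ := exists_idempotent_of_compact_t2_of_continuous_add_left
    (@Ultrafilter.continuous_add_left ℕ+ _)
  refine ⟨p, fun P h => ?_⟩
  have h2 : ∀ᶠ m in ((p + p : Ultrafilter ℕ+) : Filter ℕ+), P m := by rw [hp]; exact h
  exact (Ultrafilter.eventually_add p p P).mp h2

private theorem idem_large {p : Ultrafilter ℕ+} (hp : ∀ P : ℕ+ → Prop,
    (∀ᶠ m in (p : Filter ℕ+), P m) → ∀ᶠ x in (p : Filter ℕ+), ∀ᶠ y in (p : Filter ℕ+), P (x + y))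
    (n : ℕ+) : ∀ᶠ y in (p : Filter ℕ+), n < y := by
  by_contra hcon
  have h1 : {y : ℕ+ | y ≤ n} ∈ p := by
    have h2 := Ultrafilter.eventually_not.mpr hcon
    filter_upwards [h2] with y hy
    exact not_lt.mp hy
  obtain ⟨k, -, hk⟩ := Ultrafilter.eq_pure_of_finite_mem (Set.finite_Iic n) h1
  have h3 : ∀ᶠ m in (p : Filter ℕ+), m = k := by
    rw [hk]
    exact Filter.eventually_pure.mpr rfl
  have h4 := hp _ h3
  rw [hk] at h4
  have h5 := Filter.eventually_pure.mp h4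
  have h6 := Filter.eventually_pure.mp h5
  have h7 : (k : ℕ) + k = k := by exact_mod_cast congrArg PNat.val h6
  have := k.pos
  omega

private theorem exists_ulim {ι T : Type*} [TopologicalSpace T] [CompactSpace T] (p : Ultrafilter ι)
    (g : ι → T) : ∃ l : T, Tendsto g p (𝓝 l) := by
  obtain ⟨l, -, hl⟩ := isCompact_univ.ultrafilter_le_nhds (p.map g) (by simp)
  exact ⟨l, hl⟩

private theorem lim_shift {T : Type*} [TopologicalSpace T] [RegularSpace T] {p : Ultrafilter ℕ+}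
    (hp : ∀ P : ℕ+ → Prop, (∀ᶠ m in (p : Filter ℕ+), P m) →
      ∀ᶠ x in (p : Filter ℕ+), ∀ᶠ y in (p : Filter ℕ+), P (x + y)) {g h : ℕ+ → T} {l : T}
    (hg : Tendsto g p (𝓝 l)) (hh : ∀ x, Tendsto (fun y => g (x + y)) p (𝓝 (h x))) :
    Tendsto h p (𝓝 l) := by
  rw [(closed_nhds_basis l).tendsto_right_iff]
  rintro V ⟨hV, hVc⟩
  have h1 : ∀ᶠ m in (p : Filter ℕ+), g m ∈ V := hg hV
  filter_upwards [hp _ h1] with x hx
  exact hVc.mem_of_tendsto (hh x) hx

/-- The infinite form of the Ramsey lemma. -/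
theorem ram_inf (Φ f : ℕ+ → UnitAddCircle) {ε : ℝ} (hε : 0 < ε) :
    ∃ i j : ℕ+, i < j ∧ ‖(i : ℕ) • Φ j - (j : ℕ) • Φ i + (f j - f i)‖ < ε := by
  obtain ⟨p, hp⟩ := exists_idem
  have hbig := idem_large hp
  -- (1)
  have hD : ∀ D : UnitAddCircle, Tendsto (fun y : ℕ+ => (y : ℕ) • D) p (𝓝 0) := by
    intro D
    obtain ⟨χ, hχ⟩ := exists_ulim p fun y : ℕ+ => (y : ℕ) • D
    have h1 : Tendsto (fun x : ℕ+ => (x : ℕ) • D + χ) p (𝓝 χ) := by
      refine lim_shift hp hχ fun x => ?_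
      have h2 : Tendsto (fun y : ℕ+ => (x : ℕ) • D + (y : ℕ) • D) p (𝓝 ((x : ℕ) • D + χ)) :=
        tendsto_const_nhds.add hχ
      refine h2.congr fun y => ?_
      rw [PNat.add_coe, add_smul]
    have h3 : Tendsto (fun x : ℕ+ => (x : ℕ) • D + χ) p (𝓝 (χ + χ)) := hχ.add_const χ
    have h4 : χ = χ + χ := tendsto_nhds_unique h1 h3
    have h5 : χ = 0 := by
      have h6 : χ + χ - χ = χ - χ := by rw [← h4]
      simpa using h6
    rw [h5] at hχ
    exact hχ
  -- (2)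
  choose L hL using fun x : ℕ+ => exists_ulim p fun y : ℕ+ => (x : ℕ) • Φ y - (y : ℕ) • Φ x
  have hadd : ∀ x x' : ℕ+, L (x + x') = L x + L x' := by
    intro x x'
    have h1 := ((hL x).add (hL x')).sub (hL (x + x'))
    have h2 : Tendsto (fun y : ℕ+ => (y : ℕ) • (Φ (x + x') - Φ x - Φ x')) p
        (𝓝 (L x + L x' - L (x + x'))) := by
      refine h1.congr fun y => ?_
      rw [PNat.add_coe, add_smul, smul_sub, smul_sub]
      abel
    have h3 := tendsto_nhds_unique h2 (hD _)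
    exact (sub_eq_zero.mp h3).symm
  -- (3)
  obtain ⟨t, ht⟩ := exists_ulim p L
  have ht0 : t = 0 := by
    have h1 : Tendsto (fun x : ℕ+ => L x + t) p (𝓝 t) := by
      refine lim_shift hp ht fun x => ?_
      have h2 : Tendsto (fun y : ℕ+ => L x + L y) p (𝓝 (L x + t)) := tendsto_const_nhds.add ht
      exact h2.congr fun y => (hadd x y).symm
    have h3 : Tendsto (fun x : ℕ+ => L x + t) p (𝓝 (t + t)) := ht.add_const t
    have h4 : t = t + t := tendsto_nhds_unique h1 h3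
    have h6 : t + t - t = t - t := by rw [← h4]
    simpa using h6
  rw [ht0] at ht
  obtain ⟨l, hl⟩ := exists_ulim p f
  have h4 : 0 < ε / 4 := by linarith
  have e1 : ∀ᶠ x in (p : Filter ℕ+), ‖L x‖ < ε / 4 := by
    have := (Metric.tendsto_nhds.mp ht) (ε / 4) h4
    filter_upwards [this] with x hx
    rwa [dist_zero_right] at hx
  have e2 : ∀ᶠ x in (p : Filter ℕ+), ‖f x - l‖ < ε / 4 := by
    have := (Metric.tendsto_nhds.mp hl) (ε / 4) h4
    filter_upwards [this] with x hx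
    rwa [dist_eq_norm] at hx
  obtain ⟨x, hx1, hx2⟩ := (e1.and e2).exists
  have e3 : ∀ᶠ y in (p : Filter ℕ+), ‖(x : ℕ) • Φ y - (y : ℕ) • Φ x - L x‖ < ε / 4 := by
    have := (Metric.tendsto_nhds.mp (hL x)) (ε / 4) h4
    filter_upwards [this] with y hy
    rwa [dist_eq_norm] at hy
  obtain ⟨y, hy1, hy2, hy3⟩ := (e3.and (e2.and (hbig x))).exists
  refine ⟨x, y, hy3, ?_⟩
  have h5 : (x : ℕ) • Φ y - (y : ℕ) • Φ x + (f y - f x) =
      ((x : ℕ) • Φ y - (y : ℕ) • Φ x - L x) + L x + ((f y - l) - (f x - l)) := by abel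
  rw [h5]
  have n1 := norm_add_le (((x : ℕ) • Φ y - (y : ℕ) • Φ x - L x) + L x) ((f y - l) - (f x - l))
  have n2 := norm_add_le ((x : ℕ) • Φ y - (y : ℕ) • Φ x - L x) (L x)
  have n3 := norm_sub_le (f y - l) (f x - l)
  linarith

/-- The Ramsey lemma. -/
theorem ram_fin {ε : ℝ} (hε : 0 < ε) : ∃ w : ℕ, ∀ Φ f : ℕ → ℝ, ∃ i j : ℕ, 1 ≤ i ∧ i < j ∧ j ≤ w ∧
    ∃ K : ℤ, |(i : ℝ) * Φ j - (j : ℝ) * Φ i + (f j - f i) - K| < ε := by
  by_contra hcon
  push Not at hcon
  choose Φ f h using hcon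
  have hu := fun (g : ℕ → UnitAddCircle) => exists_ulim (Filter.hyperfilter ℕ) g
  choose A hA using fun i : ℕ+ => hu fun w => ((Φ w i : ℝ) : UnitAddCircle)
  choose B hB using fun i : ℕ+ => hu fun w => ((f w i : ℝ) : UnitAddCircle)
  obtain ⟨i, j, hij, hlt⟩ := ram_inf A B hε
  have h1 : Tendsto (fun w => (i : ℕ) • ((Φ w j : ℝ) : UnitAddCircle) -
      (j : ℕ) • ((Φ w i : ℝ) : UnitAddCircle) +
      (((f w j : ℝ) : UnitAddCircle) - ((f w i : ℝ) : UnitAddCircle))) (Filter.hyperfilter ℕ)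
      (𝓝 ((i : ℕ) • A j - (j : ℕ) • A i + (B j - B i))) :=
    (((hA j).const_smul (i : ℕ)).sub ((hA i).const_smul (j : ℕ))).add ((hB j).sub (hB i))
  have h2 : ε ≤ ‖(i : ℕ) • A j - (j : ℕ) • A i + (B j - B i)‖ := by
    refine ge_of_tendsto h1.norm ?_
    have h3 : ∀ᶠ w in (Filter.hyperfilter ℕ : Filter ℕ), (j : ℕ) ≤ w := by
      have h4 : {w : ℕ | (j : ℕ) ≤ w} ∈ (Filter.cofinite : Filter ℕ) := by
        rw [Nat.cofinite_eq_atTop]
        exact Filter.mem_atTop _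
      exact Filter.hyperfilter_le_cofinite h4
    filter_upwards [h3] with w hw
    have h5 : (i : ℕ) • ((Φ w j : ℝ) : UnitAddCircle) - (j : ℕ) • ((Φ w i : ℝ) : UnitAddCircle) +
        (((f w j : ℝ) : UnitAddCircle) - ((f w i : ℝ) : UnitAddCircle)) =
        (((i : ℝ) * Φ w j - (j : ℝ) * Φ w i + (f w j - f w i) : ℝ) : UnitAddCircle) := by
      simp only [AddCircle.coe_add, AddCircle.coe_sub]
      congr 2
      · rw [← AddCircle.coe_nsmul, nsmul_eq_mul]
      · rw [← AddCircle.coe_nsmul, nsmul_eq_mul]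
    rw [h5, UnitAddCircle.norm_eq]
    exact h w i j i.pos (by exact_mod_cast hij) hw _
  exact absurd hlt (not_lt.mpr h2)

end Pool.Agent.Lib.MP_a768d2_co
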