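import Pool.Agent.Lib.MP_a768d2_co.SlA
import Pool.Agent.Lib.MP_a768d2_co.GeoB

/-!
# Columns with arbitrary phases: arithmetic and counting
-/

namespace Pool.Agent.Lib.MP_a768d2_co

/-- The linear equation for the vertical positions. -/
theorem slid_arith (w i j Y m : ℕ) (hij : i < j) (hj : j ≤ w)
    (hY : Y = w.factorial * m + 1) (hYW : w.factorial * w < Y) (K : ℤ) :
    ∃ s : ℕ, ∃ r : ℤ, s < w.factorial * (j - i) ∧
      ((w.factorial * (j - i) : ℕ) : ℤ) * r - ((Y - w.factorial * i : ℕ) : ℤ) * s = -K := by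
  have hW : 0 < w.factorial := Nat.factorial_pos w
  have hji : 0 < j - i := by omega
  have hm : w ≤ m := by
    by_contra hcon
    push Not at hcon
    have h1 : w.factorial * (m + 1) ≤ w.factorial * w := Nat.mul_le_mul_left _ hcon
    rw [hY] at hYW
    have h2 : w.factorial * (m + 1) = w.factorial * m + w.factorial := by ring
    omega
  have hB : Y - w.factorial * i = w.factorial * (m - i) + 1 := by
    rw [hY, Nat.mul_sub]
    have h1 : w.factorial * i ≤ w.factorial * m := Nat.mul_le_mul_left _ (by omega)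
    omega
  have hcop1 : Nat.Coprime (Y - w.factorial * i) w.factorial := by
    rw [hB]
    simp [Nat.Coprime]
  have hdvd : w.factorial * (j - i) ∣ w.factorial * w.factorial :=
    Nat.mul_dvd_mul_left _ (Nat.dvd_factorial hji (by omega))
  have hcop : Nat.Coprime (Y - w.factorial * i) (w.factorial * (j - i)) :=
    Nat.Coprime.coprime_dvd_right hdvd (Nat.Coprime.mul_right hcop1 hcop1)
  set A : ℕ := w.factorial * (j - i) with hA
  set B : ℕ := Y - w.factorial * i with hBdef
  have hApos : 0 < A := Nat.mul_pos hW hji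
  obtain ⟨α, β, hαβ⟩ := Nat.isCoprime_iff_coprime.mpr hcop
  have hAz : (0 : ℤ) < (A : ℤ) := by exact_mod_cast hApos
  have h1 := Int.emod_nonneg (K * α) hAz.ne'
  have h2 := Int.emod_lt_of_pos (K * α) hAz
  have h3 := Int.emod_add_mul_ediv (K * α) (A : ℤ)
  refine ⟨((K * α) % A).toNat, -K * β - B * ((K * α) / A), ?_, ?_⟩
  · have h4 : ((((K * α) % A).toNat : ℕ) : ℤ) < A := by rw [Int.toNat_of_nonneg h1]; exact h2
    exact_mod_cast h4
  · rw [Int.toNat_of_nonneg h1]
    have h5 : (K * α) % (A : ℤ) = K * α - A * ((K * α) / A) := by linarith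
    rw [h5]
    have h6 : (A : ℤ) * (-K * β - B * ((K * α) / A)) - B * (K * α - A * ((K * α) / A)) =
        -K * (α * B + β * A) := by ring
    rw [h6, hαβ, mul_one]

open Classical in
/-- A common vertical translation avoids the holes. -/
theorem slid_count {R S : ℝ} (hS : 0 ≤ S) (hR : 40 * S + 200 < R) (G1 G2 G3 : ℕ → Prop)
    (h1 : 3 / 4 * R ≤ (Nat.card {q : ℕ // (q : ℝ) < R ∧ G1 q} : ℝ))
    (h2 : 3 / 4 * R ≤ (Nat.card {q : ℕ // (q : ℝ) < R ∧ G2 q} : ℝ))
    (h3 : 3 / 4 * R ≤ (Nat.card {q : ℕ // (q : ℝ) < R ∧ G3 q} : ℝ))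
    (s : ℕ) (hs : (s : ℝ) ≤ S) (r : ℤ) (hr : |(r : ℝ)| ≤ R / 10 + S) :
    ∃ t q : ℕ, (q : ℤ) = t + r ∧ G1 t ∧ G2 (t + s) ∧ G3 q := by
  have hR0 : 0 < R := by linarith
  set M := ⌈R⌉₊ with hM
  have hMR : (M : ℝ) < R + 1 := Nat.ceil_lt_add_one hR0.le
  have hbad : ∀ G : ℕ → Prop, 3 / 4 * R ≤ (Nat.card {q : ℕ // (q : ℝ) < R ∧ G q} : ℝ) →
      (((Finset.range M).filter fun q => ¬ G q).card : ℝ) ≤ R / 4 + 1 := by
    intro G hG
    have e1 : Nat.card {q : ℕ // (q : ℝ) < R ∧ G q} = ((Finset.range M).filter G).card := by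
      refine Nat.subtype_card _ fun q => ?_
      rw [Finset.mem_filter, Finset.mem_range, hM, Nat.lt_ceil]
    have e2 := Finset.card_filter_add_card_filter_not (s := Finset.range M) G
    rw [Finset.card_range] at e2
    have e3 : (((Finset.range M).filter G).card : ℝ) +
        (((Finset.range M).filter fun q => ¬ G q).card : ℝ) = M := by exact_mod_cast e2
    rw [e1] at hG
    linarith
  have b1 := hbad G1 h1
  have b2 := hbad G2 h2
  have b3 := hbad G3 h3
  set L := ⌈R / 10 + S⌉₊ with hL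
  set H := ⌊9 / 10 * R - S⌋₊ with hH
  have hL1 : R / 10 + S ≤ L := Nat.le_ceil _
  have hL2 : (L : ℝ) < R / 10 + S + 1 := Nat.ceil_lt_add_one (by positivity)
  have hH1 : (H : ℝ) ≤ 9 / 10 * R - S := Nat.floor_le (by linarith)
  have hH2 : 9 / 10 * R - S < H + 1 := Nat.lt_floor_add_one _
  have hLH : L ≤ H := by
    have : (L : ℝ) < (H : ℝ) := by linarith
    exact_mod_cast this.le
  have hr' := abs_le.mp hr
  have hT : ∀ t ∈ Finset.Ico L H, (R / 10 + S ≤ (t : ℝ)) ∧ ((t : ℝ) + 1 ≤ 9 / 10 * R - S) := by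
    intro t ht
    rw [Finset.mem_Ico] at ht
    have i1 : (L : ℝ) ≤ t := by exact_mod_cast ht.1
    have i2 : (t : ℝ) + 1 ≤ H := by exact_mod_cast ht.2
    exact ⟨by linarith, by linarith⟩
  by_contra hcon
  push Not at hcon
  have hsub : Finset.Ico L H ⊆ ((Finset.Ico L H).filter fun t => ¬ G1 t) ∪
      (((Finset.Ico L H).filter fun t => ¬ G2 (t + s)) ∪
      ((Finset.Ico L H).filter fun t : ℕ => ¬ G3 ((t : ℤ) + r).toNat)) := by
    intro t ht
    simp only [Finset.mem_union, Finset.mem_filter]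
    by_contra hc
    push Not at hc
    have g1 := hc.1 ht
    have g2 := hc.2.1 ht
    have g3 := hc.2.2 ht
    have hpos : 0 ≤ (t : ℤ) + r := by
      have := (hT t ht).1
      have h5 : (0 : ℝ) ≤ (t : ℝ) + r := by linarith [hr'.1]
      exact_mod_cast h5
    exact hcon t ((t : ℤ) + r).toNat (Int.toNat_of_nonneg hpos) g1 g2 g3
  have c1 : (((Finset.Ico L H).filter fun t => ¬ G1 t).card : ℝ) ≤ R / 4 + 1 := by
    refine le_trans ?_ b1
    have : ((Finset.Ico L H).filter fun t => ¬ G1 t).card ≤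
        ((Finset.range M).filter fun q => ¬ G1 q).card := by
      refine Finset.card_le_card fun t ht => ?_
      rw [Finset.mem_filter] at ht ⊢
      refine ⟨?_, ht.2⟩
      rw [Finset.mem_range, hM, Nat.lt_ceil]
      have := (hT t ht.1).2
      linarith
    exact_mod_cast this
  have c2 : (((Finset.Ico L H).filter fun t => ¬ G2 (t + s)).card : ℝ) ≤ R / 4 + 1 := by
    refine le_trans ?_ b2
    have : ((Finset.Ico L H).filter fun t => ¬ G2 (t + s)).card ≤
        ((Finset.range M).filter fun q => ¬ G2 q).card := by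
      refine Finset.card_le_card_of_injOn (fun t => t + s) ?_ ?_
      · intro t ht
        rw [Finset.mem_coe, Finset.mem_filter] at ht ⊢
        refine ⟨?_, ht.2⟩
        rw [Finset.mem_range, hM, Nat.lt_ceil]
        have := (hT t ht.1).2
        push_cast
        linarith
      · intro t _ t' _ h
        exact Nat.add_right_cancel h
    exact_mod_cast this
  have c3 : (((Finset.Ico L H).filter fun t : ℕ => ¬ G3 ((t : ℤ) + r).toNat).card : ℝ) ≤ R / 4 + 1 := by
    refine le_trans ?_ b3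
    have hnn : ∀ t ∈ Finset.Ico L H, 0 ≤ (t : ℤ) + r := by
      intro t ht
      have := (hT t ht).1
      have h5 : (0 : ℝ) ≤ (t : ℝ) + r := by linarith [hr'.1]
      exact_mod_cast h5
    have : ((Finset.Ico L H).filter fun t : ℕ => ¬ G3 ((t : ℤ) + r).toNat).card ≤
        ((Finset.range M).filter fun q => ¬ G3 q).card := by
      refine Finset.card_le_card_of_injOn (fun t : ℕ => ((t : ℤ) + r).toNat) ?_ ?_
      · intro t ht
        rw [Finset.mem_coe, Finset.mem_filter] at ht ⊢
        refine ⟨?_, ht.2⟩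
        rw [Finset.mem_range, hM, Nat.lt_ceil]
        have h6 := (hT t ht.1).2
        have h7 : ((((t : ℤ) + r).toNat : ℕ) : ℤ) = (t : ℤ) + r := Int.toNat_of_nonneg (hnn t ht.1)
        have h8 : ((((t : ℤ) + r).toNat : ℕ) : ℝ) = (t : ℝ) + r := by exact_mod_cast h7
        rw [h8]
        linarith [hr'.2]
      · intro t ht t' ht' h
        rw [Finset.mem_coe, Finset.mem_filter] at ht ht'
        have h7 := Int.toNat_of_nonneg (hnn t ht.1)
        have h8 := Int.toNat_of_nonneg (hnn t' ht'.1)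
        have h9 : (((t : ℤ) + r).toNat : ℤ) = (((t' : ℤ) + r).toNat : ℤ) := by exact_mod_cast h
        rw [h7, h8] at h9
        omega
    exact_mod_cast this
  have hcard := Finset.card_le_card hsub
  have hcu := Finset.card_union_le ((Finset.Ico L H).filter fun t => ¬ G1 t)
    (((Finset.Ico L H).filter fun t => ¬ G2 (t + s)) ∪
      ((Finset.Ico L H).filter fun t : ℕ => ¬ G3 ((t : ℤ) + r).toNat))
  have hcu2 := Finset.card_union_le ((Finset.Ico L H).filter fun t => ¬ G2 (t + s))
      ((Finset.Ico L H).filter fun t : ℕ => ¬ G3 ((t : ℤ) + r).toNat)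
  have hc0 : (Finset.Ico L H).card = H - L := Nat.card_Ico L H
  have hc1 : ((H - L : ℕ) : ℝ) = (H : ℝ) - L := by push_cast [Nat.cast_sub hLH]; ring
  have hc2 : ((Finset.Ico L H).card : ℝ) ≤
      (((Finset.Ico L H).filter fun t => ¬ G1 t).card : ℝ) +
      ((((Finset.Ico L H).filter fun t => ¬ G2 (t + s)).card : ℝ) +
      (((Finset.Ico L H).filter fun t : ℕ => ¬ G3 ((t : ℤ) + r).toNat).card : ℝ)) := by
    exact_mod_cast hcard.trans (hcu.trans (Nat.add_le_add_left hcu2 _))
  rw [hc0, hc1] at hc2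
  linarith

end Pool.Agent.Lib.MP_a768d2_co
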