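import Pool.Agent.Lib.MP_a768d2_co.SlB

/-!
# Columns with arbitrary phases: geometry and the theorem
-/

namespace Pool.Agent.Lib.MP_a768d2_co

private theorem slC_det2_le (z w : ℂ) : |det2 z w| ≤ ‖z‖ * ‖w‖ := by
  have h : det2 z w = ((starRingEnd ℂ) z * w).im := by
    simp [det2]; ring
  rw [h]
  refine (Complex.abs_im_le_norm _).trans ?_
  rw [norm_mul, Complex.norm_conj]

private theorem slC_det2_lin (a b : ℂ) (α β γ δ : ℝ) :
    det2 ((α : ℂ) * a + (β : ℂ) * b) ((γ : ℂ) * a + (δ : ℂ) * b) = (α * δ - β * γ) * det2 a b := by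
  unfold det2
  simp only [Complex.add_re, Complex.mul_re, Complex.ofReal_re, Complex.ofReal_im, zero_mul,
    sub_zero, Complex.add_im, Complex.mul_im, add_zero]
  ring

/-- perturbation of a thin triangle -/
private theorem slC_angle {u0 v0 f1 f2 : ℂ} {c n d D ζ κ : ℝ} (hn : 1 ≤ n) (hd : 0 < d)
    (hζ : 0 ≤ ζ) (hu : d ≤ ‖u0‖) (hv : d ≤ ‖v0‖) (huD : ‖u0‖ ≤ D) (hvD : ‖v0‖ ≤ D)
    (hf1 : ‖f1‖ ≤ 2 * ζ / n) (hf2 : ‖f2‖ ≤ 2 * ζ / n) (hsm : 2 * ζ / n ≤ d / 8)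
    (hclose : ‖v0 - u0‖ ≤ d / 8) (hdet : |det2 u0 v0| ≤ κ / n) (hζ1 : ζ ≤ 1)
    (hfin : 7 * (κ + ζ * (4 * D + 4)) < c * d ^ 2) :
    u0 + f1 ≠ 0 ∧ v0 + f2 ≠ 0 ∧ InnerProductGeometry.angle (u0 + f1) (v0 + f2) < c / n := by
  have hn0 : 0 < n := by linarith
  have hU : d / 2 ≤ ‖u0 + f1‖ := by
    have := norm_sub_norm_le u0 (-f1)
    rw [sub_neg_eq_add, norm_neg] at this
    linarith
  have hV : d / 2 ≤ ‖v0 + f2‖ := by
    have := norm_sub_norm_le v0 (-f2)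
    rw [sub_neg_eq_add, norm_neg] at this
    linarith
  have hU0 : u0 + f1 ≠ 0 := norm_pos_iff.mp (by linarith)
  have hV0 : v0 + f2 ≠ 0 := norm_pos_iff.mp (by linarith)
  refine ⟨hU0, hV0, ?_⟩
  have hdist : ‖(v0 + f2) - (u0 + f1)‖ < ‖u0 + f1‖ := by
    have h1 : (v0 + f2) - (u0 + f1) = (v0 - u0) + (f2 - f1) := by ring
    rw [h1]
    have h2 := norm_add_le (v0 - u0) (f2 - f1)
    have h3 := norm_sub_le f2 f1
    linarith
  have hang := angle_le hdist hV0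
  have hD0 : 0 ≤ D := (norm_nonneg u0).trans huD
  have hdet2 : |det2 (u0 + f1) (v0 + f2)| ≤ (κ + ζ * (4 * D + 4)) / n := by
    have e1 : det2 (u0 + f1) (v0 + f2) = det2 u0 v0 + det2 u0 f2 + det2 f1 v0 + det2 f1 f2 := by
      unfold det2
      simp only [Complex.add_re, Complex.add_im]
      ring
    have i1 : |det2 u0 f2| ≤ D * (2 * ζ / n) :=
      (slC_det2_le _ _).trans (mul_le_mul huD hf2 (norm_nonneg _) hD0)
    have i2 : |det2 f1 v0| ≤ (2 * ζ / n) * D :=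
      (slC_det2_le _ _).trans (mul_le_mul hf1 hvD (norm_nonneg _) (by positivity))
    have i3 : |det2 f1 f2| ≤ (2 * ζ / n) * (2 * ζ / n) :=
      (slC_det2_le _ _).trans (mul_le_mul hf1 hf2 (norm_nonneg _) (by positivity))
    have i4 : (2 * ζ / n) * (2 * ζ / n) ≤ 4 * ζ / n := by
      rw [div_mul_div_comm, div_le_div_iff₀ (by positivity) hn0]
      have : ζ * ζ ≤ ζ * 1 := mul_le_mul_of_nonneg_left hζ1 hζ
      nlinarith [mul_nonneg hζ hn0.le, mul_nonneg (mul_nonneg hζ hn0.le) (by linarith : 0 ≤ n - 1),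
        mul_le_mul_of_nonneg_right this hn0.le]
    have i5 : D * (2 * ζ / n) + (2 * ζ / n) * D + 4 * ζ / n = ζ * (4 * D + 4) / n := by
      field_simp
      ring
    rw [e1]
    have a1 := abs_add_le (det2 u0 v0 + det2 u0 f2 + det2 f1 v0) (det2 f1 f2)
    have a2 := abs_add_le (det2 u0 v0 + det2 u0 f2) (det2 f1 v0)
    have a3 := abs_add_le (det2 u0 v0) (det2 u0 f2)
    rw [add_div]
    linarith
  have hprod : d ^ 2 / 4 ≤ ‖u0 + f1‖ * ‖v0 + f2‖ := by
    have := mul_le_mul hU hV (by positivity) (norm_nonneg _)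
    nlinarith
  have hq : |det2 (u0 + f1) (v0 + f2)| / (‖u0 + f1‖ * ‖v0 + f2‖) ≤
      ((κ + ζ * (4 * D + 4)) / n) / (d ^ 2 / 4) := by
    refine div_le_div₀ ?_ hdet2 (by positivity) hprod
    exact (abs_nonneg _).trans hdet2
  have hpi : Real.pi < 3.15 := Real.pi_lt_d2
  have hnn : 0 ≤ ((κ + ζ * (4 * D + 4)) / n) / (d ^ 2 / 4) :=
    div_nonneg ((abs_nonneg _).trans hdet2) (by positivity)
  have h3 : Real.pi / 2 * (((κ + ζ * (4 * D + 4)) / n) / (d ^ 2 / 4)) ≤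
      7 / 4 * (((κ + ζ * (4 * D + 4)) / n) / (d ^ 2 / 4)) :=
    mul_le_mul_of_nonneg_right (by linarith) hnn
  have h4 : 7 / 4 * (((κ + ζ * (4 * D + 4)) / n) / (d ^ 2 / 4)) =
      7 * (κ + ζ * (4 * D + 4)) / d ^ 2 / n := by
    field_simp
  have h5 : 7 * (κ + ζ * (4 * D + 4)) / d ^ 2 / n < c / n := by
    refine div_lt_div_of_pos_right ?_ hn0
    rw [div_lt_iff₀ (by positivity)]
    exact hfin
  have h6 : Real.pi / 2 * (|det2 (u0 + f1) (v0 + f2)| / (‖u0 + f1‖ * ‖v0 + f2‖)) ≤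
      Real.pi / 2 * (((κ + ζ * (4 * D + 4)) / n) / (d ^ 2 / 4)) :=
    mul_le_mul_of_nonneg_left hq (by positivity)
  linarith

private theorem slC_r {A B s r K ψ ε1 R : ℝ} (hA : 1 ≤ A) (hB : 0 ≤ B) (hBR : B ≤ R / 20)
    (hs0 : 0 ≤ s) (hsA : s ≤ A) (hlin : A * r - B * s = -K) (hψ : |ψ - K| < ε1) (hε : ε1 ≤ 1)
    (hψ' : |ψ| ≤ A + B) : |r| ≤ R / 10 + 4 := by
  have e1 := abs_lt.mp hψ
  have e2 := abs_le.mp hψ'
  have hBs : B * s ≤ A * B := by nlinarith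
  have hBs0 : 0 ≤ B * s := mul_nonneg hB hs0
  have hAB : B ≤ A * B := by nlinarith
  have hA0 : 0 < A := by linarith
  rw [abs_le]
  constructor
  · by_contra hcon
    push Not at hcon
    have h7 : A * r < A * (-(R / 10 + 4)) := mul_lt_mul_of_pos_left hcon hA0
    have h8 : A * B ≤ A * (R / 20) := mul_le_mul_of_nonneg_left hBR hA0.le
    nlinarith
  · by_contra hcon
    push Not at hcon
    have h7 : A * (R / 10 + 4) < A * r := mul_lt_mul_of_pos_left hcon hA0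
    have h8 : A * B ≤ A * (R / 20) := mul_le_mul_of_nonneg_left hBR hA0.le
    nlinarith

private theorem slC_norms {n : ℕ} {C ρ S : ℝ} (hC : 0 < C) (hρ : 0 < ρ) (hn : 1 ≤ n) {a b : ℂ}
    (hab : Basis2 C n a b) {α β : ℝ} (h1 : ρ * Real.sqrt n / 40 ≤ |α|)
    (h2 : |α| ≤ ρ * Real.sqrt n / 20) (h3 : |β| ≤ ρ * Real.sqrt n / 10 + S + 5) (hS0 : 0 < S)
    (hS : 100 * S + 200 ≤ ρ * Real.sqrt n) :
    ρ / (40 * C ^ 2) ≤ ‖(α : ℂ) * a + (β : ℂ) * b‖ ∧ ‖(α : ℂ) * a + (β : ℂ) * b‖ ≤ ρ * C := by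
  have hs : 0 < Real.sqrt n := Real.sqrt_pos.mpr (by exact_mod_cast hn)
  constructor
  · have h4 := (coord_le hC hn hab α β).1
    rw [div_le_iff₀ (by positivity)]
    have h5 : ρ * Real.sqrt n ≤
        (‖(α : ℂ) * a + (β : ℂ) * b‖ * (40 * C ^ 2)) * Real.sqrt n := by
      calc ρ * Real.sqrt n = 40 * (ρ * Real.sqrt n / 40) := by ring
        _ ≤ 40 * (C ^ 2 * Real.sqrt n * ‖(α : ℂ) * a + (β : ℂ) * b‖) :=
            mul_le_mul_of_nonneg_left (h1.trans h4) (by norm_num)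
        _ = _ := by ring
    exact le_of_mul_le_mul_right h5 hs
  · have h4 := norm_add_le ((α : ℂ) * a) ((β : ℂ) * b)
    rw [norm_mul, norm_mul, Complex.norm_real, Complex.norm_real, Real.norm_eq_abs,
      Real.norm_eq_abs] at h4
    have h5 : |α| * ‖a‖ ≤ |α| * (C / Real.sqrt n) :=
      mul_le_mul_of_nonneg_left hab.1 (abs_nonneg _)
    have h6 : |β| * ‖b‖ ≤ |β| * (C / Real.sqrt n) :=
      mul_le_mul_of_nonneg_left hab.2.1 (abs_nonneg _)
    have h7 : (|α| + |β|) * (C / Real.sqrt n) ≤ (ρ * Real.sqrt n) * (C / Real.sqrt n) :=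
      mul_le_mul_of_nonneg_right (by linarith) (by positivity)
    have h8 : (ρ * Real.sqrt n) * (C / Real.sqrt n) = ρ * C := by field_simp
    rw [h8] at h7
    linarith

private theorem slC_small {n : ℕ} {C : ℝ} (hC : 0 < C) (hn : 1 ≤ n) {a b : ℂ}
    (hab : Basis2 C n a b) {α β T : ℝ} (h : |α| + |β| ≤ T) :
    ‖(α : ℂ) * a + (β : ℂ) * b‖ ≤ T * (C / Real.sqrt n) := by
  have hs : 0 < Real.sqrt n := Real.sqrt_pos.mpr (by exact_mod_cast hn)
  have h4 := norm_add_le ((α : ℂ) * a) ((β : ℂ) * b)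
  rw [norm_mul, norm_mul, Complex.norm_real, Complex.norm_real, Real.norm_eq_abs,
    Real.norm_eq_abs] at h4
  have h5 : |α| * ‖a‖ ≤ |α| * (C / Real.sqrt n) :=
    mul_le_mul_of_nonneg_left hab.1 (abs_nonneg _)
  have h6 : |β| * ‖b‖ ≤ |β| * (C / Real.sqrt n) :=
    mul_le_mul_of_nonneg_left hab.2.1 (abs_nonneg _)
  have h7 : (|α| + |β|) * (C / Real.sqrt n) ≤ T * (C / Real.sqrt n) :=
    mul_le_mul_of_nonneg_right h (by positivity)
  linarith

private theorem slC_det {n : ℕ} {C ε1 : ℝ} (hC : 0 < C) (hn : 1 ≤ n) {a b : ℂ}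
    (hab : Basis2 C n a b) {α β γ δ : ℝ} (hε : 0 < ε1) (h : |α * δ - β * γ| < ε1) :
    |det2 ((α : ℂ) * a + (β : ℂ) * b) ((γ : ℂ) * a + (δ : ℂ) * b)| ≤ C ^ 2 * ε1 / n := by
  have hn0 : (0 : ℝ) < n := by exact_mod_cast hn
  have hs : 0 < Real.sqrt n := Real.sqrt_pos.mpr hn0
  rw [slC_det2_lin, abs_mul]
  have h1 : |det2 a b| ≤ (C / Real.sqrt n) * (C / Real.sqrt n) :=
    (slC_det2_le a b).trans (mul_le_mul hab.1 hab.2.1 (norm_nonneg _) (by positivity))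
  have h2 : (C / Real.sqrt n) * (C / Real.sqrt n) = C ^ 2 / n := by
    rw [div_mul_div_comm, Real.mul_self_sqrt hn0.le]
    ring
  rw [h2] at h1
  calc |α * δ - β * γ| * |det2 a b| ≤ ε1 * (C ^ 2 / n) :=
        mul_le_mul h.le h1 (abs_nonneg _) hε.le
    _ = C ^ 2 * ε1 / n := by ring

/-- The site with column `p`, height `q`. -/
private noncomputable def site (u a b : ℂ) (φ : ℕ → ℝ) (p q : ℕ) : ℂ :=
  u + (p : ℂ) * a + ((q : ℂ) + (φ p : ℂ)) * b

/-- Columns with arbitrary phases. -/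
theorem slid (c ρ C : ℝ) (hc : 0 < c) (hρ : 0 < ρ) (hC : 0 < C) :
    ∃ η : ℝ, 0 < η ∧ ∃ N : ℕ, ∀ n : ℕ, N ≤ n → ∀ x : Fin n → ℂ, ∀ u a b : ℂ,
      Basis2 C n a b → ∀ φ : ℕ → ℝ, (∀ p, 0 ≤ φ p ∧ φ p ≤ 1) →
      (∀ p : ℕ, (p : ℝ) < ρ * Real.sqrt n → 3 / 4 * (ρ * Real.sqrt n) ≤
        (Nat.card {q : ℕ // (q : ℝ) < ρ * Real.sqrt n ∧
          ∃ j, dist (x j) (u + (p : ℂ) * a + ((q : ℂ) + (φ p : ℂ)) * b) ≤ η / n} : ℝ)) →
      ∃ i j k : Fin n, i ≠ j ∧ j ≠ k ∧ i ≠ k ∧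
        EuclideanGeometry.angle (x i) (x j) (x k) < c / n := by
  -- constants
  set d : ℝ := ρ / (40 * C ^ 2) with hd
  have hd0 : 0 < d := by positivity
  set D : ℝ := ρ * C with hD
  have hD0 : 0 < D := by positivity
  set ε1 : ℝ := min 1 (c * d ^ 2 / (16 * C ^ 2)) with hε1
  have hε10 : 0 < ε1 := lt_min one_pos (by positivity)
  have hε1a : ε1 ≤ 1 := min_le_left _ _
  have hε1b : C ^ 2 * ε1 ≤ c * d ^ 2 / 16 := by
    have h1 : ε1 ≤ c * d ^ 2 / (16 * C ^ 2) := min_le_right _ _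
    calc C ^ 2 * ε1 ≤ C ^ 2 * (c * d ^ 2 / (16 * C ^ 2)) :=
          mul_le_mul_of_nonneg_left h1 (by positivity)
      _ = c * d ^ 2 / 16 := by field_simp
  set η : ℝ := min 1 (c * d ^ 2 / (16 * (4 * D + 4))) with hη
  have hη0 : 0 < η := lt_min one_pos (by positivity)
  have hη1 : η ≤ 1 := min_le_left _ _
  have hη2 : η * (4 * D + 4) ≤ c * d ^ 2 / 16 := by
    have h1 : η ≤ c * d ^ 2 / (16 * (4 * D + 4)) := min_le_right _ _
    calc η * (4 * D + 4) ≤ (c * d ^ 2 / (16 * (4 * D + 4))) * (4 * D + 4) :=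
          mul_le_mul_of_nonneg_right h1 (by positivity)
      _ = c * d ^ 2 / 16 := by field_simp
  obtain ⟨w, hw⟩ := ram_fin hε10
  have hw2 : 2 ≤ w := by
    obtain ⟨i, j, h1, h2, h3, -⟩ := hw (fun _ => 0) (fun _ => 0)
    omega
  set W : ℕ := w.factorial with hW
  have hW0 : 0 < W := Nat.factorial_pos w
  set S : ℝ := (W : ℝ) * w + 4 with hS
  have hWr : (1 : ℝ) ≤ W := by exact_mod_cast hW0
  have hwr : (2 : ℝ) ≤ w := by exact_mod_cast hw2
  have hWw : (W : ℝ) ≤ (W : ℝ) * w := by nlinarith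
  have hS0 : 0 < S := by rw [hS]; linarith
  set s0 : ℝ := (100 * S + 200) / ρ + 16 / d + 8 * (2 * S + 2) * C / d + 2 * C ^ 2 + 1 with hs0
  refine ⟨η, hη0, ⌈s0 ^ 2⌉₊, fun n hn x u a b hab φ hφ hcol => ?_⟩
  have hs0pos : 1 ≤ s0 := by
    rw [hs0]
    have : 0 ≤ (100 * S + 200) / ρ + 16 / d + 8 * (2 * S + 2) * C / d + 2 * C ^ 2 := by positivity
    linarith
  have hnr : s0 ^ 2 ≤ (n : ℝ) := (Nat.le_ceil _).trans (by exact_mod_cast hn)
  set s : ℝ := Real.sqrt n with hs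
  have hs1 : s0 ≤ s := by
    rw [hs]
    exact Real.le_sqrt_of_sq_le hnr
  have hspos : 0 < s := by linarith
  have hss : s * s = n := Real.mul_self_sqrt (Nat.cast_nonneg n)
  have hn1 : (1 : ℝ) ≤ n := by nlinarith
  have hn1' : 1 ≤ n := by exact_mod_cast hn1
  have hsn : s ≤ n := by nlinarith
  have t1 : 0 ≤ (100 * S + 200) / ρ := by positivity
  have t2 : 0 ≤ 16 / d := by positivity
  have t3 : 0 ≤ 8 * (2 * S + 2) * C / d := by positivity
  have t4 : 0 ≤ 2 * C ^ 2 := by positivity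
  have k1 : 100 * S + 200 ≤ ρ * s := by
    have : (100 * S + 200) / ρ ≤ s := by linarith
    rw [div_le_iff₀ hρ] at this
    linarith
  have k2 : 2 / s ≤ d / 8 := by
    have : 16 / d ≤ s := by linarith
    rw [div_le_iff₀ hd0] at this
    rw [div_le_iff₀ hspos]
    linarith
  have k3 : (2 * S + 2) * (C / s) ≤ d / 8 := by
    have : 8 * (2 * S + 2) * C / d ≤ s := by linarith
    rw [div_le_iff₀ hd0] at this
    rw [mul_div_assoc', div_le_iff₀ hspos]
    linarith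
  have k4 : 2 * C ^ 2 < s := by linarith
  set R : ℝ := ρ * s with hR
  have hηn : 2 * η / n ≤ 2 / s := by
    rw [div_le_div_iff₀ (by linarith) hspos]
    nlinarith
  -- the far column
  set m : ℕ := ⌊R / (20 * W)⌋₊ with hm
  have hR0 : 0 < R := by positivity
  have hm1 : (W : ℝ) * m ≤ R / 20 := by
    have : (m : ℝ) ≤ R / (20 * W) := Nat.floor_le (by positivity)
    calc (W : ℝ) * m ≤ W * (R / (20 * W)) := mul_le_mul_of_nonneg_left this (by positivity)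
      _ = R / 20 := by field_simp
  have hm2 : R / 20 - W < (W : ℝ) * m := by
    have h1 : R / (20 * W) < m + 1 := Nat.lt_floor_add_one _
    have h2 : (W : ℝ) * (R / (20 * W)) < W * (m + 1) := mul_lt_mul_of_pos_left h1 (by positivity)
    have h3 : (W : ℝ) * (R / (20 * W)) = R / 20 := by field_simp
    rw [h3] at h2
    linarith
  set Y : ℕ := W * m + 1 with hY
  have hYr : (Y : ℝ) = W * m + 1 := by rw [hY]; push_cast; ring
  have hYW : W * w < Y := by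
    have : (W : ℝ) * w < Y := by rw [hYr]; linarith
    exact_mod_cast this
  obtain ⟨i, j, hi1, hij, hjw, K, hK⟩ := hw (fun i => (W : ℝ) * (φ (W * i) - φ 0))
    (fun i => (W : ℝ) * i * (φ Y - φ 0) - Y * (φ (W * i) - φ 0))
  obtain ⟨sh, r, hsh, hlin⟩ := slid_arith w i j Y m hij hjw hY hYW K
  rw [← hW] at hsh hlin
  have hWi : W * i ≤ W * w := Nat.mul_le_mul_left _ (by omega)
  have hWj : W * j ≤ W * w := Nat.mul_le_mul_left _ hjw
  have hAr : ((W * (j - i) : ℕ) : ℝ) = (W : ℝ) * j - W * i := by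
    rw [Nat.cast_mul, Nat.cast_sub hij.le]; ring
  have hBr : ((Y - W * i : ℕ) : ℝ) = (Y : ℝ) - W * i := by
    rw [Nat.cast_sub (by omega)]; push_cast; ring
  have hir : (1 : ℝ) ≤ i := by exact_mod_cast hi1
  have hijr : (i : ℝ) + 1 ≤ j := by exact_mod_cast hij
  have hjr : (j : ℝ) ≤ w := by exact_mod_cast hjw
  have hWir : (W : ℝ) ≤ W * i := by nlinarith
  have hWjr : (W : ℝ) * j ≤ W * w := by nlinarith
  have hAr1 : (1 : ℝ) ≤ (W : ℝ) * j - W * i := by nlinarith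
  have hshr : (sh : ℝ) ≤ (W : ℝ) * j - W * i := by
    rw [← hAr]; exact_mod_cast hsh.le
  have hlinr : ((W : ℝ) * j - W * i) * r - ((Y : ℝ) - W * i) * sh = -K := by
    rw [← hAr, ← hBr]; exact_mod_cast hlin
  -- the area
  set p1 : ℝ := φ (W * i) with hp1
  set p2 : ℝ := φ (W * j) with hp2
  set p3 : ℝ := φ Y with hp3
  obtain ⟨l1, l1'⟩ := hφ (W * i)
  obtain ⟨l2, l2'⟩ := hφ (W * j)
  obtain ⟨l3, l3'⟩ := hφ Y
  rw [← hp1] at l1 l1'
  rw [← hp2] at l2 l2'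
  rw [← hp3] at l3 l3'
  have hψ : |((W : ℝ) * j - W * i) * (p3 - p1) - ((Y : ℝ) - W * i) * (p2 - p1) - K| < ε1 := by
    have e1 : ((W : ℝ) * j - W * i) * (p3 - p1) - ((Y : ℝ) - W * i) * (p2 - p1) - K =
        (i : ℝ) * ((W : ℝ) * (φ (W * j) - φ 0)) - (j : ℝ) * ((W : ℝ) * (φ (W * i) - φ 0)) +
        (((W : ℝ) * j * (φ Y - φ 0) - Y * (φ (W * j) - φ 0)) -
          ((W : ℝ) * i * (φ Y - φ 0) - Y * (φ (W * i) - φ 0))) - K := by
      rw [← hp1, ← hp2, ← hp3]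
      ring
    rw [e1]
    exact hK
  have hYlow : R / 40 ≤ (Y : ℝ) - W * j := by
    rw [hYr]
    linarith
  have hWij : (W : ℝ) * i ≤ W * j := mul_le_mul_of_nonneg_left (by linarith) (by positivity)
  have hYlow' : R / 40 ≤ (Y : ℝ) - W * i := by linarith
  have hYup : (Y : ℝ) - W * i ≤ R / 20 := by
    rw [hYr]
    linarith
  have hr : |(r : ℝ)| ≤ R / 10 + 4 := by
    have hA0 : 0 < (W : ℝ) * j - W * i := by linarith
    have hB0 : 0 ≤ (Y : ℝ) - W * i := by linarith [hYlow', hR0]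
    have q1 : |p3 - p1| ≤ 1 := abs_le.mpr ⟨by linarith, by linarith⟩
    have q2 : |p2 - p1| ≤ 1 := abs_le.mpr ⟨by linarith, by linarith⟩
    have q3 : |((W : ℝ) * j - W * i) * (p3 - p1)| ≤ (W : ℝ) * j - W * i := by
      rw [abs_mul, abs_of_pos hA0]
      exact mul_le_of_le_one_right hA0.le q1
    have q4 : |((Y : ℝ) - W * i) * (p2 - p1)| ≤ (Y : ℝ) - W * i := by
      rw [abs_mul, abs_of_nonneg hB0]
      exact mul_le_of_le_one_right hB0 q2
    have q5 := abs_le.mp q3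
    have q6 := abs_le.mp q4
    have q7 : |((W : ℝ) * j - W * i) * (p3 - p1) - ((Y : ℝ) - W * i) * (p2 - p1)| ≤
        ((W : ℝ) * j - W * i) + ((Y : ℝ) - W * i) :=
      abs_le.mpr ⟨by linarith, by linarith⟩
    exact slC_r hAr1 hB0 hYup (Nat.cast_nonneg sh) hshr hlinr hψ hε1a q7
  have hshS : (sh : ℝ) ≤ S := by rw [hS]; linarith
  -- common translation
  have hcolx : ∀ p : ℕ, (p : ℝ) < R → 3 / 4 * R ≤ (Nat.card {q : ℕ // (q : ℝ) < R ∧
      ∃ l, dist (x l) (site u a b φ p q) ≤ η / n} : ℝ) := hcol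
  have hp1R : ((W * i : ℕ) : ℝ) < R := by push_cast; linarith
  have hp2R : ((W * j : ℕ) : ℝ) < R := by push_cast; linarith
  have hp3R : ((Y : ℕ) : ℝ) < R := by rw [hYr]; linarith
  obtain ⟨t, q, hq, ⟨j1, hj1⟩, ⟨j2, hj2⟩, ⟨j3, hj3⟩⟩ :=
    slid_count (R := R) (S := S) hS0.le (by linarith)
      (fun q => ∃ l, dist (x l) (site u a b φ (W * i) q) ≤ η / n)
      (fun q => ∃ l, dist (x l) (site u a b φ (W * j) q) ≤ η / n)
      (fun q => ∃ l, dist (x l) (site u a b φ Y q) ≤ η / n)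
      (hcolx _ hp1R) (hcolx _ hp2R) (hcolx _ hp3R) sh hshS r
      (hr.trans (by rw [hS]; linarith))
  have hqr : (q : ℝ) = t + r := by exact_mod_cast hq
  have hr2 := abs_le.mp hr
  have hsh0 : (0 : ℝ) ≤ sh := Nat.cast_nonneg sh
  -- coordinates
  set α1 : ℝ := -((Y : ℝ) - W * i) with hα1
  set α2 : ℝ := -((Y : ℝ) - W * j) with hα2
  set β1 : ℝ := p1 - p3 - r with hβ1
  set β2 : ℝ := sh + p2 - p3 - r with hβ2
  have eu : site u a b φ (W * i) t - site u a b φ Y q = (α1 : ℂ) * a + (β1 : ℂ) * b := by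
    have hqc : (q : ℂ) = t + r := by exact_mod_cast hqr
    unfold site
    rw [hα1, hβ1, hqc, ← hp1, ← hp3]
    push_cast
    ring
  have ev : site u a b φ (W * j) (t + sh) - site u a b φ Y q = (α2 : ℂ) * a + (β2 : ℂ) * b := by
    have hqc : (q : ℂ) = t + r := by exact_mod_cast hqr
    unfold site
    rw [hα2, hβ2, hqc, ← hp2, ← hp3]
    push_cast
    ring
  have ew : site u a b φ (W * j) (t + sh) - site u a b φ (W * i) t =
      (((W : ℝ) * j - W * i : ℝ) : ℂ) * a + ((sh + p2 - p1 : ℝ) : ℂ) * b := by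
    unfold site
    rw [← hp1, ← hp2]
    push_cast
    ring
  have a1 : |α1| = (Y : ℝ) - W * i := by
    rw [hα1, abs_neg, abs_of_nonneg]; linarith
  have a2 : |α2| = (Y : ℝ) - W * j := by
    rw [hα2, abs_neg, abs_of_nonneg]; linarith
  have b1 : |β1| ≤ R / 10 + S + 5 := by
    rw [hβ1, abs_le]
    constructor <;> linarith
  have b2 : |β2| ≤ R / 10 + S + 5 := by
    rw [hβ2, abs_le]
    constructor <;> linarith
  obtain ⟨nu1, nu2⟩ := slC_norms hC hρ hn1' hab (α := α1) (β := β1) (S := S)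
    (by rw [a1]; exact hYlow') (by rw [a1]; exact hYup) b1 hS0 k1
  obtain ⟨nv1, nv2⟩ := slC_norms hC hρ hn1' hab (α := α2) (β := β2) (S := S)
    (by rw [a2]; exact hYlow) (by rw [a2]; linarith) b2 hS0 k1
  have hcross : |α1 * β2 - β1 * α2| < ε1 := by
    have e1 : α1 * β2 - β1 * α2 =
        ((W : ℝ) * j - W * i) * (p3 - p1) - ((Y : ℝ) - W * i) * (p2 - p1) - K := by
      have e2 : -(K : ℝ) = ((W : ℝ) * j - W * i) * r - ((Y : ℝ) - W * i) * sh := hlinr.symm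
      have e3 : ((W : ℝ) * j - W * i) * (p3 - p1) - ((Y : ℝ) - W * i) * (p2 - p1) - K =
          ((W : ℝ) * j - W * i) * (p3 - p1) - ((Y : ℝ) - W * i) * (p2 - p1) +
          (((W : ℝ) * j - W * i) * r - ((Y : ℝ) - W * i) * sh) := by rw [← e2]; ring
      rw [e3, hα1, hα2, hβ1, hβ2]
      ring
    rw [e1]
    exact hψ
  have hdet := slC_det hC hn1' hab hε10 hcross
  have hdiff : ‖((α2 : ℂ) * a + (β2 : ℂ) * b) - ((α1 : ℂ) * a + (β1 : ℂ) * b)‖ ≤ d / 8 := by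
    rw [← eu, ← ev, sub_sub_sub_cancel_right, ew]
    refine (slC_small hC hn1' hab (T := 2 * S + 2) ?_).trans k3
    have i1 : |(W : ℝ) * j - W * i| ≤ S := by
      rw [abs_of_nonneg (by linarith)]
      linarith
    have i2 : |(sh : ℝ) + p2 - p1| ≤ S + 1 := by
      rw [abs_le]
      constructor <;> linarith
    linarith
  -- the actual points
  rw [dist_eq_norm] at hj1 hj2 hj3
  set f1 : ℂ := (x j1 - site u a b φ (W * i) t) - (x j3 - site u a b φ Y q) with hf1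
  set f2 : ℂ := (x j2 - site u a b φ (W * j) (t + sh)) - (x j3 - site u a b φ Y q) with hf2
  have nf1 : ‖f1‖ ≤ 2 * η / n := by
    have := norm_sub_le (x j1 - site u a b φ (W * i) t) (x j3 - site u a b φ Y q)
    have e : 2 * η / n = η / n + η / n := by ring
    rw [hf1, e]
    linarith
  have nf2 : ‖f2‖ ≤ 2 * η / n := by
    have := norm_sub_le (x j2 - site u a b φ (W * j) (t + sh)) (x j3 - site u a b φ Y q)
    have e : 2 * η / n = η / n + η / n := by ring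
    rw [hf2, e]
    linarith
  have hfin : 7 * (C ^ 2 * ε1 + η * (4 * D + 4)) < c * d ^ 2 := by
    have : 0 < c * d ^ 2 := by positivity
    linarith
  obtain ⟨z1, z2, hang⟩ := slC_angle (c := c) hn1 hd0 hη0.le nu1 nv1 nu2 nv2 nf1 nf2
    (hηn.trans k2) hdiff hdet hη1 hfin
  have eU : (α1 : ℂ) * a + (β1 : ℂ) * b + f1 = x j1 - x j3 := by
    rw [← eu, hf1]; ring
  have eV : (α2 : ℂ) * a + (β2 : ℂ) * b + f2 = x j2 - x j3 := by
    rw [← ev, hf2]; ring
  rw [eU] at z1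
  rw [eV] at z2
  rw [eU, eV] at hang
  refine ⟨j1, j3, j2, ?_, ?_, ?_, ?_⟩
  · intro h; exact z1 (by rw [h, sub_self])
  · intro h; exact z2 (by rw [h, sub_self])
  · intro h
    have h1 : ‖site u a b φ (W * j) (t + sh) - site u a b φ (W * i) t‖ ≤ 2 * η / n := by
      have e1 : site u a b φ (W * j) (t + sh) - site u a b φ (W * i) t =
          (x j1 - site u a b φ (W * i) t) - (x j2 - site u a b φ (W * j) (t + sh)) := by
        rw [h]; ring
      rw [e1]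
      have := norm_sub_le (x j1 - site u a b φ (W * i) t) (x j2 - site u a b φ (W * j) (t + sh))
      have e : 2 * η / n = η / n + η / n := by ring
      rw [e]
      linarith
    rw [ew] at h1
    have h2 := (coord_le hC hn1' hab ((W : ℝ) * j - W * i) (sh + p2 - p1)).1
    rw [abs_of_nonneg (by linarith)] at h2
    have h5 : 2 * η / n ≤ 2 / (s * s) := by
      rw [hss]
      exact div_le_div_of_nonneg_right (by linarith) (by linarith)
    have h3 : C ^ 2 * s * ‖(((W : ℝ) * j - W * i : ℝ) : ℂ) * a + ((sh + p2 - p1 : ℝ) : ℂ) * b‖ ≤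
        C ^ 2 * s * (2 / (s * s)) :=
      mul_le_mul_of_nonneg_left (h1.trans h5) (by positivity)
    have h4 : C ^ 2 * s * (2 / (s * s)) = 2 * C ^ 2 / s := by field_simp
    have h6 : 2 * C ^ 2 / s < 1 := by rw [div_lt_one hspos]; exact k4
    linarith
  · exact hang

end Pool.Agent.Lib.MP_a768d2_co
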