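import Pool.Agent.Lib.MP_a768d2_co.Bog
import Pool.Agent.Lib.MP_a768d2_co.Dir

/-! # Linear structure of a dense approximate homomorphism (job ZA) -/

namespace Pool.Agent.Lib.MP_a768d2_co

noncomputable section

/-- the hypothesis for a real valued function -/
private def ZA_Hom (ρ : ℝ) (E : Finset (ℤ × ℤ)) (t : ℤ × ℤ → ℝ) : Prop :=
  ∀ a1 ∈ E, ∀ a2 ∈ E, ∀ a3 ∈ E, ∀ a4 ∈ E, ∀ a5 ∈ E, ∀ a6 ∈ E,
    ∀ b1 ∈ E, ∀ b2 ∈ E, ∀ b3 ∈ E, ∀ b4 ∈ E, ∀ b5 ∈ E, ∀ b6 ∈ E,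
    a1 + a2 + a3 + a4 + a5 + a6 = b1 + b2 + b3 + b4 + b5 + b6 →
    |(t a1 + t a2 + t a3 + t a4 + t a5 + t a6) - (t b1 + t b2 + t b3 + t b4 + t b5 + t b6)| ≤ ρ

private theorem ZA_of_Hom6 {ρ : ℝ} {E : Finset (ℤ × ℤ)} {T : ℤ × ℤ → ℝ × ℝ} (h : Hom6 ρ E T) :
    ZA_Hom ρ E (fun x => (T x).1) ∧ ZA_Hom ρ E (fun x => (T x).2) := by
  have key : ∀ a1 ∈ E, ∀ a2 ∈ E, ∀ a3 ∈ E, ∀ a4 ∈ E, ∀ a5 ∈ E, ∀ a6 ∈ E,
      ∀ b1 ∈ E, ∀ b2 ∈ E, ∀ b3 ∈ E, ∀ b4 ∈ E, ∀ b5 ∈ E, ∀ b6 ∈ E,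
      a1 + a2 + a3 + a4 + a5 + a6 = b1 + b2 + b3 + b4 + b5 + b6 →
      |((T a1).1 + (T a2).1 + (T a3).1 + (T a4).1 + (T a5).1 + (T a6).1) -
        ((T b1).1 + (T b2).1 + (T b3).1 + (T b4).1 + (T b5).1 + (T b6).1)| ≤ ρ ∧
      |((T a1).2 + (T a2).2 + (T a3).2 + (T a4).2 + (T a5).2 + (T a6).2) -
        ((T b1).2 + (T b2).2 + (T b3).2 + (T b4).2 + (T b5).2 + (T b6).2)| ≤ ρ := by
    intro a1 h1 a2 h2 a3 h3 a4 h4 a5 h5 a6 h6 b1 g1 b2 g2 b3 g3 b4 g4 b5 g5 b6 g6 hs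
    have h0 := h ![a1, a2, a3, a4, a5, a6] ![b1, b2, b3, b4, b5, b6]
      (by
        intro i
        fin_cases i
        · exact h1
        · exact h2
        · exact h3
        · exact h4
        · exact h5
        · exact h6)
      (by
        intro i
        fin_cases i
        · exact g1
        · exact g2
        · exact g3
        · exact g4
        · exact g5
        · exact g6)
      (by
        rw [Fin.sum_univ_six, Fin.sum_univ_six]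
        exact hs)
    rw [Fin.sum_univ_six, Fin.sum_univ_six] at h0
    exact h0
  refine ⟨?_, ?_⟩
  · intro a1 h1 a2 h2 a3 h3 a4 h4 a5 h5 a6 h6 b1 g1 b2 g2 b3 g3 b4 g4 b5 g5 b6 g6 hs
    exact (key a1 h1 a2 h2 a3 h3 a4 h4 a5 h5 a6 h6 b1 g1 b2 g2 b3 g3 b4 g4 b5 g5 b6 g6 hs).1
  · intro a1 h1 a2 h2 a3 h3 a4 h4 a5 h5 a6 h6 b1 g1 b2 g2 b3 g3 b4 g4 b5 g5 b6 g6 hs
    exact (key a1 h1 a2 h2 a3 h3 a4 h4 a5 h5 a6 h6 b1 g1 b2 g2 b3 g3 b4 g4 b5 g5 b6 g6 hs).2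

/-- the real valued statement -/
private theorem ZA_real {M m : ℕ} {E : Finset (ℤ × ℤ)} {t : ℤ × ℤ → ℝ} {ρ : ℝ} (hρ : 0 ≤ ρ)
    (hrep : ∀ a b : ℕ, 8 * (a + b) ≤ M → ∃ x1 ∈ E, ∃ x2 ∈ E, ∃ x3 ∈ E, ∃ x4 ∈ E,
      ((m : ℤ) * a, (m : ℤ) * b) = x1 + x2 - x3 - x4)
    (hhom : ZA_Hom ρ E t) (hsmall : ∀ x ∈ E, |t x| ≤ 1 / 100) :
    ∃ A B : ℝ, (∀ a b : ℕ, 8 * (a + b) ≤ M → ∀ x ∈ E, ∀ y ∈ E,
        y.1 - x.1 = (m : ℤ) * a → y.2 - x.2 = (m : ℤ) * b →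
        |(t y - t x) - (a * A + b * B)| ≤ ρ * (a + b + 2)) ∧
      (∀ a : ℕ, 8 * a ≤ M → |a * A| ≤ 1 / 25 + ρ * (a + 1) ∧ |a * B| ≤ 1 / 25 + ρ * (a + 1)) := by
  have hrep' : ∀ a b : ℕ, ∃ x1 x2 x3 x4 : ℤ × ℤ, 8 * (a + b) ≤ M →
      x1 ∈ E ∧ x2 ∈ E ∧ x3 ∈ E ∧ x4 ∈ E ∧ ((m : ℤ) * a, (m : ℤ) * b) = x1 + x2 - x3 - x4 := by
    intro a b
    by_cases h : 8 * (a + b) ≤ M
    · obtain ⟨x1, h1, x2, h2, x3, h3, x4, h4, h5⟩ := hrep a b h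
      exact ⟨x1, x2, x3, x4, fun _ => ⟨h1, h2, h3, h4, h5⟩⟩
    · exact ⟨0, 0, 0, 0, fun h' => absurd h' h⟩
  choose x1 x2 x3 x4 hx using hrep'
  obtain ⟨L, hL⟩ : ∃ L : ℕ → ℕ → ℝ, ∀ a b, L a b =
    t (x1 a b) + t (x2 a b) - t (x3 a b) - t (x4 a b) := ⟨_, fun _ _ => rfl⟩
  have hLsmall : ∀ a b : ℕ, 8 * (a + b) ≤ M → |L a b| ≤ 1 / 25 := by
    intro a b h
    obtain ⟨h1, h2, h3, h4, _⟩ := hx a b h
    have g1 := abs_le.1 (hsmall _ h1)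
    have g2 := abs_le.1 (hsmall _ h2)
    have g3 := abs_le.1 (hsmall _ h3)
    have g4 := abs_le.1 (hsmall _ h4)
    rw [hL, abs_le]
    constructor <;> linarith [g1.1, g1.2, g2.1, g2.2, g3.1, g3.2, g4.1, g4.2]
  have hLadd : ∀ a b a' b' : ℕ, 8 * ((a + a') + (b + b')) ≤ M →
      |L (a + a') (b + b') - L a b - L a' b'| ≤ ρ := by
    intro a b a' b' h
    obtain ⟨h1, h2, h3, h4, h5⟩ := hx (a + a') (b + b') h
    obtain ⟨g1, g2, g3, g4, g5⟩ := hx a b (by omega)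
    obtain ⟨k1, k2, k3, k4, k5⟩ := hx a' b' (by omega)
    have hsum : x1 (a + a') (b + b') + x2 (a + a') (b + b') + x3 a b + x4 a b + x3 a' b' + x4 a' b' =
        x3 (a + a') (b + b') + x4 (a + a') (b + b') + x1 a b + x2 a b + x1 a' b' + x2 a' b' := by
      have h6 : (((m : ℤ) * ((a + a' : ℕ) : ℤ), (m : ℤ) * ((b + b' : ℕ) : ℤ)) : ℤ × ℤ) =
          ((m : ℤ) * (a : ℤ), (m : ℤ) * (b : ℤ)) + ((m : ℤ) * (a' : ℤ), (m : ℤ) * (b' : ℤ)) := by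
        refine Prod.ext ?_ ?_
        · push_cast
          change (m : ℤ) * ((a : ℤ) + a') = (m : ℤ) * a + (m : ℤ) * a'
          ring
        · push_cast
          change (m : ℤ) * ((b : ℤ) + b') = (m : ℤ) * b + (m : ℤ) * b'
          ring
      rw [h5, g5, k5] at h6
      have h7 : x1 (a + a') (b + b') + x2 (a + a') (b + b') =
          x1 a b + x2 a b - x3 a b - x4 a b + (x1 a' b' + x2 a' b' - x3 a' b' - x4 a' b') +
            x3 (a + a') (b + b') + x4 (a + a') (b + b') := by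
        rw [← h6]
        abel
      rw [h7]
      abel
    have h8 := hhom _ h1 _ h2 _ g3 _ g4 _ k3 _ k4 _ h3 _ h4 _ g1 _ g2 _ k1 _ k2 hsum
    rw [hL, hL, hL]
    refine le_trans (le_of_eq ?_) h8
    congr 1
    ring
  have hL0 : |L 0 0| ≤ ρ := by
    obtain ⟨h1, h2, h3, h4, h5⟩ := hx 0 0 (by omega)
    have hsum : x1 0 0 + x2 0 0 + x1 0 0 + x1 0 0 + x1 0 0 + x1 0 0 =
        x3 0 0 + x4 0 0 + x1 0 0 + x1 0 0 + x1 0 0 + x1 0 0 := by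
      have h6 : (((m : ℤ) * ((0 : ℕ) : ℤ), (m : ℤ) * ((0 : ℕ) : ℤ)) : ℤ × ℤ) = 0 := by
        simp
      rw [h5] at h6
      have h7 : x1 0 0 + x2 0 0 = x3 0 0 + x4 0 0 := by
        have h8 : x1 0 0 + x2 0 0 = (x1 0 0 + x2 0 0 - x3 0 0 - x4 0 0) + (x3 0 0 + x4 0 0) := by
          abel
        rw [h8, h6, zero_add]
      rw [h7]
    have h8 := hhom _ h1 _ h2 _ h1 _ h1 _ h1 _ h1 _ h3 _ h4 _ h1 _ h1 _ h1 _ h1 hsum
    rw [hL]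
    refine le_trans (le_of_eq ?_) h8
    congr 1
    ring
  have hLdiff : ∀ a b : ℕ, 8 * (a + b) ≤ M → ∀ x ∈ E, ∀ y ∈ E,
      y.1 - x.1 = (m : ℤ) * a → y.2 - x.2 = (m : ℤ) * b → |t y - t x - L a b| ≤ ρ := by
    intro a b h x hxE y hyE e1 e2
    obtain ⟨h1, h2, h3, h4, h5⟩ := hx a b h
    have hsum : y + x3 a b + x4 a b + x + x + x = x + x1 a b + x2 a b + x + x + x := by
      have h6 : y - x = x1 a b + x2 a b - x3 a b - x4 a b := by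
        rw [← h5]
        exact Prod.ext e1 e2
      have h7 : y = x + (x1 a b + x2 a b - x3 a b - x4 a b) := by
        rw [← h6]
        abel
      rw [h7]
      abel
    have h8 := hhom _ hyE _ h3 _ h4 _ hxE _ hxE _ hxE _ hxE _ h1 _ h2 _ hxE _ hxE _ hxE hsum
    rw [hL]
    refine le_trans (le_of_eq ?_) h8
    congr 1
    ring
  -- linearity
  have hlin1 : ∀ a : ℕ, 8 * a ≤ M → |L a 0 - a * L 1 0| ≤ ρ * (a + 1) := by
    intro a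
    induction a with
    | zero =>
      intro _
      simpa using hL0
    | succ a ih =>
      intro h
      have h1 := ih (by omega)
      have h2 := hLadd a 0 1 0 (by omega)
      rw [add_zero] at h2
      rw [abs_le] at h1 h2 ⊢
      push_cast
      constructor <;> nlinarith [h1.1, h1.2, h2.1, h2.2]
  have hlin : ∀ a b : ℕ, 8 * (a + b) ≤ M → |L a b - (a * L 1 0 + b * L 0 1)| ≤ ρ * (a + b + 1) := by
    intro a b
    induction b with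
    | zero =>
      intro h
      have h1 := hlin1 a (by omega)
      push_cast
      rw [zero_mul, add_zero, add_zero]
      exact h1
    | succ b ih =>
      intro h
      have h1 := ih (by omega)
      have h2 := hLadd a b 0 1 (by omega)
      rw [add_zero] at h2
      rw [abs_le] at h1 h2 ⊢
      push_cast
      constructor <;> nlinarith [h1.1, h1.2, h2.1, h2.2]
  refine ⟨L 1 0, L 0 1, ?_, ?_⟩
  · intro a b h x hxE y hyE e1 e2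
    have h1 := hlin a b h
    have h2 := hLdiff a b h x hxE y hyE e1 e2
    rw [abs_le] at h1 h2 ⊢
    constructor <;> nlinarith [h1.1, h1.2, h2.1, h2.2]
  · intro a h
    have h1 := hlin a 0 (by omega)
    have h2 := hlin 0 a (by omega)
    have h3 := hLsmall a 0 (by omega)
    have h4 := hLsmall 0 a (by omega)
    push_cast at h1 h2
    rw [abs_le] at h1 h2 h3 h4
    refine ⟨?_, ?_⟩
    · rw [abs_le]
      constructor <;> nlinarith [h1.1, h1.2, h3.1, h3.2]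
    · rw [abs_le]
      constructor <;> nlinarith [h2.1, h2.2, h4.1, h4.2]

/-- Proof.  `bog κ` gives `D` and `θ : Fin D → ℝ × ℝ`.  Apply `dir'` with `d = 2 D` (or `D + D`) to `G` and to all
coordinates of the `θ_i`; this gives `ν ∈ V`, `m`, with `dz (m (θ i).1), dz (m (θ i).2) ≤ 1/M`, `M = G ν`,
`m M ≤ k`, `ν k ≤ m M`.  For natural numbers `a, b` with `8 (a+b) ≤ M` the vector `v = (m a, m b)` satisfies
`nz v ≤ m (a+b) ≤ k` and `dz (θ_i · v) ≤ (a + b)/M ≤ 1/8`, so `v = x1 + x2 - x3 - x4` with `x_i ∈ E`.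
Choose such a representation and put `Λ (a,b) = T x1 + T x2 - T x3 - T x4`; each coordinate is at most `4/100`.
By `Hom6` (all coordinates up to `ρ`):
`Λ(a+a', b+b') = Λ(a,b) + Λ(a',b')` (if `8 (a+a'+b+b') ≤ M`), `|Λ(0,0)| ≤ ρ`, and `T y - T x = Λ(a,b)` if
`y - x = (m a, m b)`, `x, y ∈ E` (fill up with equal terms).  With `A = Λ(1,0)`, `B = Λ(0,1)` (zero if
`M < 8`), induction on `a + b` gives `|Λ(a,b) - a A - b B| ≤ ρ (a + b + 1)`. -/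
theorem zA (κ : ℝ) (hκ : 0 < κ) (G : ℝ → ℕ) (hG : ∀ ν, 1 ≤ G ν) : ∃ V : Finset ℝ,
    (∀ ν ∈ V, 0 < ν ∧ ν ≤ 1) ∧ ∃ k0 : ℕ, ∀ k : ℕ, k0 ≤ k →
    ∀ (E : Finset (ℤ × ℤ)) (T : ℤ × ℤ → ℝ × ℝ) (ρ : ℝ), 0 ≤ ρ → E ⊆ box k →
      κ * (k : ℝ) ^ 2 ≤ E.card → SmallOn E T → Hom6 ρ E T →
    ∃ ν ∈ V, ∃ m : ℕ, 1 ≤ m ∧ (m : ℝ) * G ν ≤ k ∧ ν * k ≤ m * G ν ∧ ∃ A B : ℝ × ℝ,
      (∀ a b : ℕ, 8 * (a + b) ≤ G ν → ∀ x ∈ E, ∀ y ∈ E,
        y.1 - x.1 = (m : ℤ) * a → y.2 - x.2 = (m : ℤ) * b →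
        |(T y - T x).1 - (a * A.1 + b * B.1)| ≤ ρ * (a + b + 2) ∧
        |(T y - T x).2 - (a * A.2 + b * B.2)| ≤ ρ * (a + b + 2)) ∧
      (∀ a : ℕ, 8 * a ≤ G ν → |a * A.1| ≤ 1 / 25 + ρ * (a + 1) ∧ |a * A.2| ≤ 1 / 25 + ρ * (a + 1) ∧
        |a * B.1| ≤ 1 / 25 + ρ * (a + 1) ∧ |a * B.2| ≤ 1 / 25 + ρ * (a + 1)) := by
  obtain ⟨D, hD⟩ := bog κ hκ
  obtain ⟨V, hV, k0, hk0⟩ := dir' (D + D) G hG
  refine ⟨V, hV, max k0 1, fun k hk E T ρ hρ hE hEc hsm hhom => ?_⟩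
  have hk1 : 1 ≤ k := (le_max_right _ _).trans hk
  obtain ⟨θ, hθ⟩ := hD k hk1 E hE hEc
  obtain ⟨ν, hν, m, hm, hdz, hmG, hνm⟩ := hk0 k ((le_max_left _ _).trans hk)
    (Fin.append (fun i => (θ i).1) (fun i => (θ i).2))
  refine ⟨ν, hν, m, hm, hmG, hνm, ?_⟩
  have hG1 : (0 : ℝ) < G ν := by exact_mod_cast hG ν
  have hdz1 : ∀ i : Fin D, dz (m * (θ i).1) ≤ 1 / (G ν : ℝ) := by
    intro i
    have h1 := hdz (Fin.castAdd D i)
    rw [Fin.append_left] at h1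
    exact h1
  have hdz2 : ∀ i : Fin D, dz (m * (θ i).2) ≤ 1 / (G ν : ℝ) := by
    intro i
    have h1 := hdz (Fin.natAdd D i)
    rw [Fin.append_right] at h1
    exact h1
  have hrep : ∀ a b : ℕ, 8 * (a + b) ≤ G ν → ∃ x1 ∈ E, ∃ x2 ∈ E, ∃ x3 ∈ E, ∃ x4 ∈ E,
      ((m : ℤ) * a, (m : ℤ) * b) = x1 + x2 - x3 - x4 := by
    intro a b hab
    refine hθ _ ?_ ?_
    · have h1 : m * G ν ≤ k := by exact_mod_cast hmG
      have h2 : m * (a + b) ≤ m * G ν := Nat.mul_le_mul_left m (by omega)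
      have h3 : ((m * (a + b) : ℕ) : ℤ) ≤ (k : ℤ) := by exact_mod_cast h2.trans h1
      unfold nz
      refine max_le ?_ ?_
      · change |(m : ℤ) * (a : ℤ)| ≤ (k : ℤ)
        rw [abs_of_nonneg (by positivity)]
        refine le_trans ?_ h3
        push_cast
        nlinarith [Int.natCast_nonneg m, Int.natCast_nonneg b]
      · change |(m : ℤ) * (b : ℤ)| ≤ (k : ℤ)
        rw [abs_of_nonneg (by positivity)]
        refine le_trans ?_ h3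
        push_cast
        nlinarith [Int.natCast_nonneg m, Int.natCast_nonneg a]
    · intro i
      have h1 : (θ i).1 * (((m : ℤ) * (a : ℤ) : ℤ) : ℝ) + (θ i).2 * (((m : ℤ) * (b : ℤ) : ℤ) : ℝ) =
          (a : ℝ) * (m * (θ i).1) + (b : ℝ) * (m * (θ i).2) := by
        push_cast
        ring
      change dz ((θ i).1 * (((m : ℤ) * (a : ℤ) : ℤ) : ℝ) +
        (θ i).2 * (((m : ℤ) * (b : ℤ) : ℤ) : ℝ)) ≤ 1 / 8
      rw [h1]
      have h2 := dz_nat_mul_le a (m * (θ i).1)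
      have h3 := dz_nat_mul_le b (m * (θ i).2)
      have h4 : (a : ℝ) * dz (m * (θ i).1) ≤ a * (1 / (G ν : ℝ)) :=
        mul_le_mul_of_nonneg_left (hdz1 i) (Nat.cast_nonneg _)
      have h5 : (b : ℝ) * dz (m * (θ i).2) ≤ b * (1 / (G ν : ℝ)) :=
        mul_le_mul_of_nonneg_left (hdz2 i) (Nat.cast_nonneg _)
      have h6 : (a : ℝ) * (1 / (G ν : ℝ)) + b * (1 / (G ν : ℝ)) ≤ 1 / 8 := by
        have h7 : (8 : ℝ) * (a + b) ≤ G ν := by exact_mod_cast hab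
        have h8 : (a : ℝ) * (1 / (G ν : ℝ)) + b * (1 / (G ν : ℝ)) = (a + b) / G ν := by ring
        rw [h8, div_le_iff₀ hG1]
        linarith
      have h9 := dz_add_le ((a : ℝ) * (m * (θ i).1)) ((b : ℝ) * (m * (θ i).2))
      linarith
  obtain ⟨hh1, hh2⟩ := ZA_of_Hom6 hhom
  obtain ⟨A1, B1, hA1, hB1⟩ := ZA_real hρ hrep hh1 (fun x hx => (hsm x hx).1)
  obtain ⟨A2, B2, hA2, hB2⟩ := ZA_real hρ hrep hh2 (fun x hx => (hsm x hx).2)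
  refine ⟨(A1, A2), (B1, B2), ?_, ?_⟩
  · intro a b hab x hx y hy e1 e2
    exact ⟨hA1 a b hab x hx y hy e1 e2, hA2 a b hab x hx y hy e1 e2⟩
  · intro a ha
    exact ⟨(hB1 a ha).1, (hB2 a ha).1, (hB1 a ha).2, (hB2 a ha).2⟩

end

end Pool.Agent.Lib.MP_a768d2_co
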